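import Pool.Agent.Lib.MP_7d41f7_al.Ch1

set_option autoImplicit false

namespace Pool.Agent.Lib.MP_7d41f7_al

open Finset Subgroup Pool.Agent.Lib.MP_b6945b_al OnePoint
open scoped Classical

variable {G : Type} [Group G] [Fintype G]

theorem ch3_geom {m : ℕ} {ζ : ℂ} (hζ : IsPrimitiveRoot ζ m) {k : ℕ} (hk : k < m) :
    ∑ j ∈ range m, (ζ⁻¹ ^ j) ^ k = if k = 0 then (m : ℂ) else 0 := by
  split_ifs with h
  · subst h
    simp
  · have h1 : ζ⁻¹ ^ k ≠ 1 := hζ.inv.pow_ne_one_of_pos_of_lt h hk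
    have h2 : (ζ⁻¹ ^ k) ^ m = 1 := by rw [← pow_mul, mul_comm, pow_mul, hζ.inv.pow_eq_one, one_pow]
    have h3 := mul_geom_sum (ζ⁻¹ ^ k) m
    rw [h2, sub_self, mul_eq_zero] at h3
    rw [← h3.resolve_left (sub_ne_zero.2 h1)]
    refine Finset.sum_congr rfl fun j _ => ?_
    rw [← pow_mul, ← pow_mul, mul_comm]

theorem ch3_idem {n : ℕ} (ρ : G →* Matrix (Fin n) (Fin n) ℂ) (g : G) {ζ : ℂ}
    (hζ : IsPrimitiveRoot ζ (orderOf g)) :
    ∃ E : ℕ → Matrix (Fin n) (Fin n) ℂ, (∀ j, E j * E j = E j) ∧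
      ∑ j ∈ range (orderOf g), E j = 1 ∧
      ∀ (j : ℕ) (k : ℤ), ρ (g ^ k) * E j = ζ ^ ((j : ℤ) * k) • E j := by
  have hm : 0 < orderOf g := orderOf_pos g
  have hm' : (orderOf g : ℂ) ≠ 0 := by exact_mod_cast hm.ne'
  have hz : ζ ≠ 0 := hζ.ne_zero hm.ne'
  let F : ℕ → Matrix (Fin n) (Fin n) ℂ := fun j =>
    ∑ k ∈ range (orderOf g), (ζ⁻¹ ^ j) ^ k • ρ g ^ k
  have h1 : ∀ j, ρ g * F j = ζ ^ j • F j := by
    intro j
    have ha : ρ g ^ orderOf g = 1 := by rw [← map_pow, pow_orderOf_eq_one, map_one]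
    have hb : (ζ⁻¹ ^ j) ^ orderOf g = 1 := by
      rw [← pow_mul, mul_comm, pow_mul, hζ.inv.pow_eq_one, one_pow]
    have hc := Finset.sum_range_succ (fun k => (ζ⁻¹ ^ j) ^ k • ρ g ^ k) (orderOf g)
    rw [Finset.sum_range_succ', ha, hb, pow_zero, pow_zero, add_left_inj] at hc
    change ρ g * (∑ k ∈ range (orderOf g), (ζ⁻¹ ^ j) ^ k • ρ g ^ k) =
      ζ ^ j • ∑ k ∈ range (orderOf g), (ζ⁻¹ ^ j) ^ k • ρ g ^ k
    conv_rhs => rw [← hc]
    rw [Finset.mul_sum, Finset.smul_sum]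
    refine Finset.sum_congr rfl fun k _ => ?_
    rw [mul_smul_comm, smul_smul, ← pow_succ']
    congr 1
    rw [pow_succ', ← mul_assoc, ← mul_pow, mul_inv_cancel₀ hz, one_pow, one_mul]
  have h2 : ∀ j k : ℕ, ρ g ^ k * F j = (ζ ^ j) ^ k • F j := by
    intro j k
    induction k with
    | zero => simp
    | succ k ih => rw [pow_succ, mul_assoc, h1, mul_smul_comm, ih, smul_smul, pow_succ']
  refine ⟨fun j => (orderOf g : ℂ)⁻¹ • F j, fun j => ?_, ?_, fun j k => ?_⟩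
  · have h3 : F j * F j = (orderOf g : ℂ) • F j := by
      have h4 : F j * F j = ∑ k ∈ range (orderOf g), F j := by
        conv_lhs => arg 1; unfold F
        rw [Finset.sum_mul]
        refine Finset.sum_congr rfl fun k _ => ?_
        rw [smul_mul_assoc, h2, smul_smul, ← mul_pow, ← mul_pow, inv_mul_cancel₀ hz, one_pow,
          one_pow, one_smul]
      rw [h4, Finset.sum_const, Finset.card_range, Nat.cast_smul_eq_nsmul]
    rw [smul_mul_smul_comm, h3, smul_smul, mul_assoc, inv_mul_cancel₀ hm', mul_one]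
  · rw [← Finset.smul_sum]
    have h3 : ∑ j ∈ range (orderOf g), F j = (orderOf g : ℂ) • 1 := by
      unfold F
      rw [Finset.sum_comm, Finset.sum_eq_single 0]
      · rw [← Finset.sum_smul, ch3_geom hζ hm]
        simp
      · intro k hk h0
        rw [← Finset.sum_smul, ch3_geom hζ (Finset.mem_range.1 hk), if_neg h0, zero_smul]
      · intro h
        exact absurd (Finset.mem_range.2 hm) h
    rw [h3, smul_smul, inv_mul_cancel₀ hm', one_smul]
  · have h0 : 0 ≤ k % (orderOf g : ℤ) := Int.emod_nonneg _ (by exact_mod_cast hm.ne')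
    obtain ⟨l, hl⟩ := Int.eq_ofNat_of_zero_le h0
    have h3 : g ^ k = g ^ l := by rw [← zpow_mod_orderOf, hl, zpow_natCast]
    have h4 : ζ ^ ((j : ℤ) * k) = (ζ ^ j) ^ l := by
      have h5 : (j : ℤ) * k = (orderOf g : ℤ) * (j * (k / orderOf g)) + ((j * l : ℕ) : ℤ) := by
        have h6 := Int.mul_ediv_add_emod k (orderOf g : ℤ)
        rw [hl] at h6
        push_cast
        linear_combination (-(j : ℤ)) * h6
      rw [h5, zpow_add₀ hz, zpow_mul, zpow_natCast, zpow_natCast, hζ.pow_eq_one, one_zpow, one_mul,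
        pow_mul]
    rw [h3, h4, map_pow, mul_smul_comm, h2, smul_comm]

theorem ch3_trace {n : ℕ} {E : Matrix (Fin n) (Fin n) ℂ} (h : E * E = E) :
    ∃ μ : ℕ, E.trace = μ ∧ (μ = 0 → E = 0) := by
  have h1 : IsIdempotentElem (Matrix.toLin' E) := by
    change Matrix.toLin' E ∘ₗ Matrix.toLin' E = Matrix.toLin' E
    rw [← Matrix.toLin'_mul, h]
  have h2 := (LinearMap.IsIdempotentElem.isProj_range _ h1).trace
  rw [Matrix.trace_toLin'_eq] at h2
  refine ⟨_, h2, fun h3 => ?_⟩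
  have h4 := LinearMap.IsIdempotentElem.eq_zero_of_trace_eq_zero h1
    (by rw [Matrix.trace_toLin'_eq, h2, h3, Nat.cast_zero])
  exact (LinearEquiv.map_eq_zero_iff _).1 h4

theorem ch3_spec {n : ℕ} (ρ : G →* Matrix (Fin n) (Fin n) ℂ) (g : G) {ζ : ℂ}
    (hζ : IsPrimitiveRoot ζ (orderOf g)) :
    ∃ μ : ℕ → ℕ, (∀ k : ℤ, (ρ (g ^ k)).trace =
      ∑ j ∈ range (orderOf g), (μ j : ℂ) * ζ ^ ((j : ℤ) * k)) ∧
      ((∀ j ∈ range (orderOf g), μ j = 0 ∨ ζ ^ j = 1) → ρ g = 1) := by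
  obtain ⟨E, h1, h2, h3⟩ := ch3_idem ρ g hζ
  choose μ h4 h5 using fun j => ch3_trace (h1 j)
  refine ⟨μ, fun k => ?_, fun h => ?_⟩
  · rw [← mul_one (ρ (g ^ k)), ← h2, Finset.mul_sum, Matrix.trace_sum]
    refine Finset.sum_congr rfl fun j _ => ?_
    rw [h3, Matrix.trace_smul, h4, smul_eq_mul, mul_comm]
  · rw [← mul_one (ρ g), ← h2, Finset.mul_sum]
    refine Finset.sum_congr rfl fun j hj => ?_
    rcases h j hj with h6 | h6
    · rw [h5 j h6, mul_zero]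
    · have h7 := h3 j 1
      rwa [zpow_one, mul_one, zpow_natCast, h6, one_smul] at h7

theorem ch3_root (g : G) : ∃ ζ : ℂ, IsPrimitiveRoot ζ (orderOf g) :=
  ⟨_, Complex.isPrimitiveRoot_exp _ (orderOf_pos g).ne'⟩

/-- Eigenvalue multiplicities: `μ j` is the trace of the idempotent
`m⁻¹ ∑ k, ζ ^ (-j k) • ρ (g ^ k)` (`LinearMap.IsProj.trace` or the rank of an idempotent). -/
theorem spec {n : ℕ} (ρ : G →* Matrix (Fin n) (Fin n) ℂ) (g : G) {ζ : ℂ}
    (hζ : IsPrimitiveRoot ζ (orderOf g)) :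
    ∃ μ : ℕ → ℕ, ∀ k : ℤ, (ρ (g ^ k)).trace = ∑ j ∈ range (orderOf g), (μ j : ℂ) * ζ ^ ((j : ℤ) * k) := by
  obtain ⟨μ, h, -⟩ := ch3_spec ρ g hζ
  exact ⟨μ, h⟩

theorem trace_inv {n : ℕ} (ρ : G →* Matrix (Fin n) (Fin n) ℂ) (g : G) :
    (ρ g⁻¹).trace = (starRingEnd ℂ) (ρ g).trace := by
  obtain ⟨ζ, hζ⟩ := ch3_root g
  obtain ⟨μ, h⟩ := spec ρ g hζ
  have h1 := h 1
  have h2 := h (-1)
  rw [zpow_one] at h1
  rw [zpow_neg_one] at h2
  have h3 : (starRingEnd ℂ) ζ = ζ⁻¹ :=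
    (Complex.inv_eq_conj (hζ.norm'_eq_one (orderOf_pos g).ne')).symm
  rw [h1, h2, map_sum]
  refine Finset.sum_congr rfl fun j _ => ?_
  rw [map_mul, map_natCast, map_zpow₀, h3, inv_zpow', mul_neg]

/-- Real parts show `μ j = 0` for `j ≠ 0`; then the other idempotents have trace and rank zero
(or: the average of the powers of `ρ g` is an idempotent of trace `n`). -/
theorem ker_of_trace {n : ℕ} (ρ : G →* Matrix (Fin n) (Fin n) ℂ) (g : G)
    (h : (ρ g).trace = n) : ρ g = 1 := by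
  obtain ⟨ζ, hζ⟩ := ch3_root g
  obtain ⟨μ, h1, h2⟩ := ch3_spec ρ g hζ
  have h3 := h1 0
  have h4 := h1 1
  rw [zpow_zero, map_one, Matrix.trace_one, Fintype.card_fin] at h3
  rw [zpow_one, h, h3] at h4
  have hn : ∀ j : ℕ, ‖ζ ^ j‖ = 1 := fun j => by
    rw [norm_pow, hζ.norm'_eq_one (orderOf_pos g).ne', one_pow]
  have hr : ∀ j : ℕ, 0 ≤ 1 - (ζ ^ j).re := fun j =>
    sub_nonneg.2 ((Complex.re_le_norm _).trans (hn j).le)
  have h5 : ∑ j ∈ range (orderOf g), (μ j : ℝ) * (1 - (ζ ^ j).re) = 0 := by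
    have h6 := congrArg Complex.re h4
    simp only [mul_zero, zpow_zero, mul_one, zpow_natCast, Complex.re_sum, Complex.natCast_re,
      Complex.mul_re, Complex.natCast_im, zero_mul, sub_zero] at h6
    simp only [mul_sub, mul_one, Finset.sum_sub_distrib]
    exact sub_eq_zero.2 h6
  rw [Finset.sum_eq_zero_iff_of_nonneg fun j _ => mul_nonneg (Nat.cast_nonneg _) (hr j)] at h5
  refine h2 fun j hj => ?_
  rcases mul_eq_zero.1 (h5 j hj) with h6 | h6
  · exact Or.inl (by exact_mod_cast h6)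
  · right
    have h7 : (ζ ^ j).re = 1 := by linarith
    have h8 := Complex.sq_norm (ζ ^ j)
    rw [hn, Complex.normSq_apply, h7] at h8
    have h9 : (ζ ^ j).im = 0 := by nlinarith
    exact Complex.ext h7 h9

open Polynomial in
theorem ch3_mean {m : ℕ} (hm : 0 < m) {ζ : ℂ} (hζ : IsPrimitiveRoot ζ m) (f : ℤ[X])
    (hf : aeval ζ f ≠ 0) :
    ((primitiveRoots m ℂ).card : ℝ) ≤ ∑ ξ ∈ primitiveRoots m ℂ, ‖aeval ξ f‖ ^ 2 := by
  have hne : ∀ ξ ∈ primitiveRoots m ℂ, aeval ξ f ≠ 0 := by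
    intro ξ hξ h0
    have h1 := (mem_primitiveRoots hm).1 hξ
    have h2 := minpoly.isIntegrallyClosed_dvd (h1.isIntegral hm) h0
    rw [← cyclotomic_eq_minpoly h1 hm, cyclotomic_eq_minpoly hζ hm] at h2
    exact hf (aeval_eq_zero_of_dvd_aeval_eq_zero h2 (minpoly.aeval _ _))
  have : NeZero (m : ℂ) := ⟨by exact_mod_cast hm.ne'⟩
  have h1 := resultant_eq_prod_eval (cyclotomic m ℂ) (f.map (Int.castRingHom ℂ)) f.natDegree
    natDegree_map_le (IsAlgClosed.splits _)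
  rw [(cyclotomic.monic m ℂ).leadingCoeff, one_pow, one_mul,
    cyclotomic.roots_eq_primitiveRoots_val] at h1
  generalize (cyclotomic m ℂ).natDegree = d at h1
  rw [← map_cyclotomic_int, resultant_map_map] at h1
  obtain ⟨r, hr⟩ : ∃ r : ℤ, ∏ ξ ∈ primitiveRoots m ℂ, aeval ξ f = r := by
    refine ⟨_, Eq.trans ?_ h1.symm⟩
    rw [Finset.prod_eq_multiset_prod]
    congr 2
    funext ξ
    rw [eval_map, aeval_def]
    rfl
  have h2 : r ≠ 0 := by
    rintro rfl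
    exact Finset.prod_ne_zero_iff.2 hne (by rw [hr, Int.cast_zero])
  have h3 : (1 : ℝ) ≤ ∏ ξ ∈ primitiveRoots m ℂ, ‖aeval ξ f‖ := by
    rw [← norm_prod, hr, Complex.norm_intCast]
    exact_mod_cast Int.one_le_abs h2
  have h4 : 0 ≤ ∑ ξ ∈ primitiveRoots m ℂ, Real.log ‖aeval ξ f‖ := by
    rw [← Real.log_prod fun ξ hξ => norm_ne_zero_iff.2 (hne ξ hξ)]
    exact Real.log_nonneg h3
  have h5 : ∑ ξ ∈ primitiveRoots m ℂ, (1 + 2 * Real.log ‖aeval ξ f‖) ≤
      ∑ ξ ∈ primitiveRoots m ℂ, ‖aeval ξ f‖ ^ 2 := by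
    refine Finset.sum_le_sum fun ξ hξ => ?_
    have h6 := Real.log_le_sub_one_of_pos (pow_pos (norm_pos_iff.2 (hne ξ hξ)) 2)
    rw [Real.log_pow] at h6
    push_cast at h6
    linarith
  rw [Finset.sum_add_distrib, ← Finset.mul_sum, Finset.sum_const, nsmul_eq_mul, mul_one] at h5
  linarith

theorem ch3_cnt (g : G) {k : ℕ} (hk : k.Coprime (orderOf g)) : cnt (g ^ k) (g ^ k) = cnt g g := by
  unfold cnt
  congr 1
  refine Finset.filter_congr fun x _ => ⟨fun h => ?_, fun h => by rw [← conj_pow, h]⟩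
  obtain ⟨l, hl⟩ := exists_pow_eq_self_of_coprime hk
  rw [← hl, ← conj_pow, h]

/-- Gallagher's bound. With `f = ∑ μ j X ^ j` we have `χ (g ^ k) = f (ζ ^ k)`; the product over `k`
prime to `m` is the norm of a nonzero algebraic integer of `ℚ(ζ)` (or a resultant with the
cyclotomic polynomial), a nonzero integer. By the inequality of the means the sum of
`‖χ (g ^ k)‖ ^ 2` over these `k` is at least `φ m`. Sum over `i` with `col_orth`, `trace_inv` and
`cnt (g ^ k) (g ^ k) = cnt g g`. -/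
theorem gallagher (I : IrrData G) (g : G) (h : ¬ Van I g) : I.n ≤ cnt g g := by
  obtain ⟨ζ, hζ⟩ := ch3_root g
  have hm : 0 < orderOf g := orderOf_pos g
  have : NeZero (orderOf g) := ⟨hm.ne'⟩
  choose μ hμ using fun i => spec (I.ρ i) g hζ
  let f : Fin I.n → Polynomial ℤ := fun i =>
    ∑ j ∈ range (orderOf g), Polynomial.C (μ i j : ℤ) * Polynomial.X ^ j
  have hf : ∀ i (k : ℕ), Polynomial.aeval (ζ ^ k) (f i) = I.χ i (g ^ k) := by
    intro i k
    have h1 := hμ i k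
    rw [zpow_natCast] at h1
    unfold IrrData.χ f
    rw [h1, map_sum]
    refine Finset.sum_congr rfl fun j _ => ?_
    rw [← Nat.cast_mul, zpow_natCast, mul_comm j k, pow_mul]
    simp
  have h1 : ∀ i, ((primitiveRoots (orderOf g) ℂ).card : ℝ) ≤
      ∑ ξ ∈ primitiveRoots (orderOf g) ℂ, ‖Polynomial.aeval ξ (f i)‖ ^ 2 := by
    intro i
    refine ch3_mean hm hζ _ fun h0 => h ⟨i, ?_⟩
    have h2 := hf i 1
    rwa [pow_one, pow_one, h0, eq_comm] at h2
  have h2 : ∀ ξ ∈ primitiveRoots (orderOf g) ℂ,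
      ∑ i, ‖Polynomial.aeval ξ (f i)‖ ^ 2 = (cnt g g : ℝ) := by
    intro ξ hξ
    obtain ⟨k, -, hk, rfl⟩ := hζ.isPrimitiveRoot_iff.1 ((mem_primitiveRoots hm).1 hξ)
    have h3 := col_orth I (g ^ k) (g ^ k)
    rw [ch3_cnt g hk] at h3
    have h4 : ∀ i, I.χ i (g ^ k) * I.χ i (g ^ k)⁻¹ =
        ((‖Polynomial.aeval (ζ ^ k) (f i)‖ ^ 2 : ℝ) : ℂ) := by
      intro i
      rw [hf]
      unfold IrrData.χ
      rw [trace_inv, Complex.mul_conj, Complex.sq_norm]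
    simp only [h4] at h3
    exact_mod_cast h3
  have h3 := Finset.sum_le_sum fun i (_ : i ∈ (univ : Finset (Fin I.n))) => h1 i
  rw [Finset.sum_comm, Finset.sum_congr rfl h2, Finset.sum_const, Finset.sum_const,
    Finset.card_univ, Fintype.card_fin, nsmul_eq_mul, nsmul_eq_mul, mul_comm] at h3
  have h4 : (0 : ℝ) < (primitiveRoots (orderOf g) ℂ).card := by
    exact_mod_cast Finset.card_pos.2 ⟨ζ, (mem_primitiveRoots hm).2 hζ⟩
  exact_mod_cast le_of_mul_le_mul_left h3 h4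

end Pool.Agent.Lib.MP_7d41f7_al
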