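import Pool.Agent.Lib.MP_7d41f7_al.Defs

set_option autoImplicit false

namespace Pool.Agent.Lib.MP_7d41f7_al

open Finset Subgroup Pool.Agent.Lib.MP_b6945b_al OnePoint
open scoped Classical

variable {G : Type} [Group G] [Finite G] {r : ℕ} [Fact r.Prime] {x : G}

private theorem cyc_sub {H : Type} [Group H] [Finite H] [IsCyclic H] {a b : H}
    (ha : orderOf a = r) (hb : orderOf b = r) : b ∈ zpowers a := by
  have hr : 0 < r := (Fact.out : r.Prime).pos
  have := Fintype.ofFinite H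
  have h1 : (univ.filter fun c : H => c ^ r = 1).card ≤ r := IsCyclic.card_pow_eq_one_le hr
  have h2 : (univ.filter fun c : H => c ∈ zpowers a) ⊆ univ.filter fun c : H => c ^ r = 1 := by
    intro c hc
    obtain ⟨k, rfl⟩ := mem_zpowers_iff.1 (mem_filter.1 hc).2
    refine mem_filter.2 ⟨mem_univ _, ?_⟩
    rw [← zpow_natCast, ← zpow_mul, mul_comm, zpow_mul, zpow_natCast, ← ha, pow_orderOf_eq_one,
      one_zpow]
  have h3 : (univ.filter fun c : H => c ∈ zpowers a).card = r := by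
    rw [← ha, ← Nat.card_zpowers, Nat.card_eq_fintype_card, Fintype.card_subtype]
  have h4 := eq_of_subset_of_card_le h2 (by rw [h3]; exact h1)
  have h5 : b ∈ univ.filter fun c : H => c ^ r = 1 :=
    mem_filter.2 ⟨mem_univ _, by rw [← hb, pow_orderOf_eq_one]⟩
  rw [← h4] at h5
  exact (mem_filter.1 h5).2

omit [Finite G] [Fact r.Prime] in
private theorem cyc_syl (hc : ∀ P : Sylow r G, IsCyclic P) (L : Subgroup G) (P : Sylow r L) :
    IsCyclic P := by
  obtain ⟨Q, hQ⟩ := (P.isPGroup'.map L.subtype).exists_le_sylow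
  have := hc Q
  have : IsCyclic ((P : Subgroup L).map L.subtype) := Subgroup.isCyclic_of_le hQ
  exact isCyclic_of_injective
    ((P : Subgroup L).equivMapOfInjective L.subtype L.subtype_injective).toMonoidHom
    ((P : Subgroup L).equivMapOfInjective L.subtype L.subtype_injective).injective

omit [Fact r.Prime] in
private theorem cyc_pg {H : Type} [Group H] {a : H} (ha : orderOf a = r) :
    IsPGroup r (zpowers a) :=
  IsPGroup.of_card (n := 1) (by rw [Nat.card_zpowers, ha, pow_one])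

private theorem cyc_conj0 {H : Type} [Group H] [Finite H] (hc : ∀ P : Sylow r H, IsCyclic P)
    {a b : H} (ha : orderOf a = r) (hb : orderOf b = r) : ∃ l : H, l * b * l⁻¹ ∈ zpowers a := by
  obtain ⟨P, hP⟩ := (cyc_pg ha).exists_le_sylow
  obtain ⟨Q, hQ⟩ := (cyc_pg hb).exists_le_sylow
  obtain ⟨l, hl⟩ := MulAction.exists_smul_eq H Q P
  have hbP : l * b * l⁻¹ ∈ P := by
    rw [← hl]
    have hbQ : b ∈ (Q : Subgroup H) := hQ (mem_zpowers b)
    exact Subgroup.smul_mem_pointwise_smul b (MulAut.conj l) (Q : Subgroup H) hbQ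
  have haP : a ∈ P := hP (mem_zpowers a)
  have := hc P
  have h1 : orderOf (⟨a, haP⟩ : (P : Subgroup H)) = r := by
    rw [← Subgroup.orderOf_coe]; exact ha
  have h2 : orderOf (⟨l * b * l⁻¹, hbP⟩ : (P : Subgroup H)) = r := by
    rw [← Subgroup.orderOf_coe]
    exact (MulEquiv.orderOf_eq (MulAut.conj l) b).trans hb
  obtain ⟨k, hk⟩ := mem_zpowers_iff.1 (cyc_sub h1 h2)
  exact ⟨l, mem_zpowers_iff.2 ⟨k, congrArg Subtype.val hk⟩⟩

omit [Finite G] [Fact r.Prime] in
private theorem cyc_conj_zpow (k y : G) (n : ℤ) : k * y ^ n * k⁻¹ = (k * y * k⁻¹) ^ n :=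
  (conj_zpow).symm

omit [Fact r.Prime] in
private theorem cyc_nx {k : G} (h : k * x * k⁻¹ ∈ zpowers x) : k ∈ Nx x := by
  refine mem_normalizer_fintype ?_
  intro n hn
  obtain ⟨m, rfl⟩ := mem_zpowers_iff.1 hn
  rw [cyc_conj_zpow]
  exact zpow_mem h m

private theorem cyc_nc {H : Type} [Group H] [Finite H] (R : Sylow r H) (hR : IsCyclic R) {z : H}
    (hz : orderOf z = r) (hzR : z ∈ R) (hzc : ∀ c, c * z = z * c) :
    normalizer (R : Set H) ≤ centralizer (R : Set H) := by
  intro n hn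
  have hp : r.Prime := Fact.out
  obtain ⟨g, hg⟩ := IsCyclic.exists_generator (α := (R : Subgroup H))
  have hn' : n ∈ normalizer ((R : Subgroup H) : Set H) := hn
  have hgn : n * g * n⁻¹ ∈ (R : Subgroup H) := (mem_normalizer_iff.1 hn' g).1 g.2
  obtain ⟨k, hk⟩ := mem_zpowers_iff.1 (hg ⟨_, hgn⟩)
  have hk' : (g : H) ^ k = n * g * n⁻¹ := congrArg Subtype.val hk
  have hact : ∀ u ∈ (R : Subgroup H), n * u * n⁻¹ = u ^ k := by
    intro u hu
    obtain ⟨m, hm⟩ := mem_zpowers_iff.1 (hg ⟨u, hu⟩)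
    have hm' : (g : H) ^ m = u := congrArg Subtype.val hm
    rw [← hm', cyc_conj_zpow, ← hk', ← zpow_mul, ← zpow_mul, mul_comm]
  have hk1 : (r : ℤ) ∣ k - 1 := by
    rw [← hz, orderOf_dvd_iff_zpow_eq_one, zpow_sub, ← hact z hzR, hzc n, zpow_one]
    group
  have hpow : ∀ j : ℕ, ∀ u ∈ (R : Subgroup H), n ^ j * u * (n ^ j)⁻¹ = u ^ (k ^ j) := by
    intro j
    induction j with
    | zero => intro u _; simp
    | succ j ih =>
      intro u hu
      have e : n ^ (j + 1) * u * (n ^ (j + 1))⁻¹ = n * (n ^ j * u * (n ^ j)⁻¹) * n⁻¹ := by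
        rw [pow_succ']; group
      rw [e, ih u hu, hact _ (zpow_mem hu _), ← zpow_mul, pow_succ]
  obtain ⟨e, he⟩ := R.isPGroup'.exists_card_eq
  have hA : n ^ (r ^ e) ∈ centralizer (R : Set H) := by
    rw [mem_centralizer_iff]
    intro u hu
    have hu' : u ∈ (R : Subgroup H) := hu
    have h1 : ((r : ℤ) ^ (e + 1)) ∣ k ^ r ^ e - 1 ^ r ^ e := dvd_sub_pow_of_dvd_sub hk1 e
    have h2 : (orderOf u : ℤ) ∣ k ^ r ^ e - 1 := by
      rw [one_pow] at h1
      refine dvd_trans ?_ h1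
      have h3 : orderOf u ∣ r ^ e := by
        rw [← he]; exact orderOf_dvd_natCard _ hu'
      have h4 : orderOf u ∣ r ^ (e + 1) := h3.trans (pow_dvd_pow r (Nat.le_succ e))
      exact_mod_cast h4
    rw [orderOf_dvd_iff_zpow_eq_one, zpow_sub, ← hpow _ u hu', zpow_one] at h2
    calc u * n ^ (r ^ e) = (n ^ (r ^ e) * u * (n ^ (r ^ e))⁻¹ * u⁻¹) * u * n ^ (r ^ e) := by
          rw [h2, one_mul]
      _ = n ^ (r ^ e) * u := by group
  have hB : n ^ ((R : Subgroup H).relIndex (normalizer ((R : Subgroup H) : Set H))) ∈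
      centralizer (R : Set H) := by
    have : ((R : Subgroup H).subgroupOf (normalizer ((R : Subgroup H) : Set H))).Normal :=
      Subgroup.normal_in_normalizer
    have h1 := Subgroup.pow_index_mem
      ((R : Subgroup H).subgroupOf (normalizer ((R : Subgroup H) : Set H))) ⟨n, hn'⟩
    have h2 : n ^ ((R : Subgroup H).relIndex (normalizer ((R : Subgroup H) : Set H))) ∈
        (R : Subgroup H) := by
      simpa [mem_subgroupOf, relIndex] using h1
    have := hR
    exact (R : Subgroup H).le_centralizer h2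
  have hcop : Nat.Coprime (r ^ e)
      ((R : Subgroup H).relIndex (normalizer ((R : Subgroup H) : Set H))) := by
    refine Nat.Coprime.pow_left e ((Nat.Prime.coprime_iff_not_dvd hp).2 fun h => ?_)
    exact R.not_dvd_index (h.trans (relIndex_dvd_index_of_le le_normalizer))
  have hb := Nat.gcd_eq_gcd_ab (r ^ e)
    ((R : Subgroup H).relIndex (normalizer ((R : Subgroup H) : Set H)))
  rw [hcop.gcd_eq_one, Nat.cast_one] at hb
  rw [← zpow_one n, hb, zpow_add, zpow_mul, zpow_mul, zpow_natCast, zpow_natCast]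
  exact mul_mem (zpow_mem hA _) (zpow_mem hB _)

private theorem cyc_faith (H : Type) [Group H] [Finite H] [IsCyclic H] :
    ∃ f : H →* ℂ, ∀ u, f u = 1 → u = 1 := by
  obtain ⟨g, hg⟩ := IsCyclic.exists_generator (α := H)
  have h0 : orderOf g ≠ 0 := (orderOf_pos g).ne'
  have hζ := Complex.isPrimitiveRoot_exp (orderOf g) h0
  have hu := hζ.isUnit_unit h0
  have ho : orderOf (hζ.isUnit h0).unit = orderOf g := hu.eq_orderOf.symm
  refine ⟨(Units.coeHom ℂ).comp (monoidHomOfForallMemZpowers hg ho.dvd), fun u h => ?_⟩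
  obtain ⟨k, rfl⟩ := mem_zpowers_iff.1 (hg u)
  have h1 : monoidHomOfForallMemZpowers hg ho.dvd (g ^ k) = 1 := Units.ext h
  rw [map_zpow, monoidHomOfForallMemZpowers_apply_gen, ← orderOf_dvd_iff_zpow_eq_one, ho,
    orderOf_dvd_iff_zpow_eq_one] at h1
  exact h1

/-- Sylow's theorem in `L`; the Sylow subgroups of `L` are cyclic and have one subgroup of
order `r`. -/
theorem cyc_conj (hc : ∀ P : Sylow r G, IsCyclic P) (L : Subgroup G) {y : G} (hx : orderOf x = r)
    (hy : orderOf y = r) (hxL : x ∈ L) (hyL : y ∈ L) : ∃ l ∈ L, l * y * l⁻¹ ∈ zpowers x := by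
  have h1 : orderOf (⟨x, hxL⟩ : L) = r := by rw [← Subgroup.orderOf_coe]; exact hx
  have h2 : orderOf (⟨y, hyL⟩ : L) = r := by rw [← Subgroup.orderOf_coe]; exact hy
  obtain ⟨l, hl⟩ := cyc_conj0 (cyc_syl hc L) h1 h2
  obtain ⟨k, hk⟩ := mem_zpowers_iff.1 hl
  exact ⟨l, l.2, mem_zpowers_iff.2 ⟨k, congrArg Subtype.val hk⟩⟩

/-- All elements of order `r` of the centraliser are powers of `x`. -/
theorem cyc_ti (hc : ∀ P : Sylow r G, IsCyclic P) (hx : orderOf x = r) : TI r x := by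
  have hall : ∀ y ∈ Cx x, orderOf y = r → y ∈ zpowers x := by
    intro y hy hyr
    obtain ⟨l, hl, hly⟩ := cyc_conj hc (Cx x) hx hyr (xc x).2 hy
    obtain ⟨m, hm⟩ := mem_zpowers_iff.1 hly
    have hlx : l⁻¹ * x * l⁻¹⁻¹ = x := by
      rw [mem_centralizer_singleton_iff.1 (inv_mem hl)]; group
    refine mem_zpowers_iff.2 ⟨m, ?_⟩
    rw [← hlx, ← cyc_conj_zpow, hm]; group
  intro c hcx k hr hk
  have hy : orderOf (c ^ (orderOf c / r)) = r := orderOf_pow_orderOf_div (orderOf_pos c).ne' hr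
  have h1 : c ^ (orderOf c / r) ∈ zpowers x := hall _ (pow_mem hcx _) hy
  have h2 : k * c ^ (orderOf c / r) * k⁻¹ ∈ zpowers x := by
    refine hall _ ?_ ((MulEquiv.orderOf_eq (MulAut.conj k) _).trans hy)
    rw [← conj_pow]
    exact pow_mem hk _
  have h3 : zpowers (c ^ (orderOf c / r)) = zpowers x := by
    refine eq_of_le_of_card_ge (zpowers_le.2 h1) ?_
    rw [Nat.card_zpowers, Nat.card_zpowers, hy, hx]
  have h4 : x ∈ zpowers (c ^ (orderOf c / r)) := by rw [h3]; exact mem_zpowers x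
  obtain ⟨m, hm⟩ := mem_zpowers_iff.1 h4
  refine cyc_nx ?_
  have h5 : k * x * k⁻¹ = (k * c ^ (orderOf c / r) * k⁻¹) ^ m := by
    rw [← cyc_conj_zpow, hm]
  rw [h5]
  exact zpow_mem h2 m

/-- `cyc_conj` in the centraliser of `k * y * k⁻¹`. -/
theorem cyc_fus (hc : ∀ P : Sylow r G, IsCyclic P) (hx : orderOf x = r) : Fus x := by
  intro y hy k hk
  have hxy : y * x = x * y := mem_centralizer_singleton_iff.1 hy
  have h1 : x ∈ Cx (k * y * k⁻¹) :=
    mem_centralizer_singleton_iff.2 (mem_centralizer_singleton_iff.1 hk).symm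
  have h2 : k * x * k⁻¹ ∈ Cx (k * y * k⁻¹) := by
    refine mem_centralizer_singleton_iff.2 ?_
    calc k * x * k⁻¹ * (k * y * k⁻¹) = k * (x * y) * k⁻¹ := by group
      _ = k * (y * x) * k⁻¹ := by rw [hxy]
      _ = k * y * k⁻¹ * (k * x * k⁻¹) := by group
  obtain ⟨l, hl, hlx⟩ := cyc_conj hc (Cx (k * y * k⁻¹)) hx
    ((MulEquiv.orderOf_eq (MulAut.conj k) x).trans hx) h1 h2
  refine ⟨l * k, cyc_nx ?_, ?_⟩
  · have e : l * k * x * (l * k)⁻¹ = l * (k * x * k⁻¹) * l⁻¹ := by group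
    rw [e]
    exact hlx
  · have e : l * k * y * (l * k)⁻¹ = l * (k * y * k⁻¹) * l⁻¹ := by group
    rw [e, mem_centralizer_singleton_iff.1 hl]
    group

/-- Let `R` be a Sylow subgroup of the centraliser; it is cyclic and contains `x`. An element that
normalises `R` acts on it as a power map `k` with `k ≡ 1 mod r`, so `k ^ (r ^ e) ≡ 1 mod |R|`, and
the order of the action is prime to `r`: it centralises `R`. Compose `MonoidHom.transferSylow` with
a faithful character of `R`; its kernel has order prime to `r` and index `|R|`. -/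
theorem cyc_lin (hc : ∀ P : Sylow r G, IsCyclic P) (hx : orderOf x = r) :
    ∃ lam : Cx x →* ℂ, ∀ c, lam c = 1 ↔ ¬ r ∣ orderOf c := by
  have hz : orderOf (xc x) = r := by rw [← Subgroup.orderOf_coe]; exact hx
  obtain ⟨R, hR⟩ := (cyc_pg hz).exists_le_sylow
  have hcy := cyc_syl hc (Cx x) R
  have hN := cyc_nc R hcy hz (hR (mem_zpowers _)) fun c =>
    Subtype.ext (mem_centralizer_singleton_iff.1 c.2)
  obtain ⟨f, hf⟩ := cyc_faith (R : Subgroup (Cx x))
  refine ⟨f.comp (MonoidHom.transferSylow R hN), fun c => ⟨fun h hr => ?_, fun h => ?_⟩⟩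
  · have h1 : c ∈ (MonoidHom.transferSylow R hN).ker := hf _ h
    exact MonoidHom.not_dvd_card_ker_transferSylow R hN (hr.trans (orderOf_dvd_natCard _ h1))
  · obtain ⟨e, he⟩ := IsPGroup.iff_orderOf.1 R.isPGroup' (MonoidHom.transferSylow R hN c)
    have h1 : orderOf (MonoidHom.transferSylow R hN c) ∣ orderOf c := orderOf_map_dvd _ c
    have h2 : e = 0 := by
      by_contra h0
      exact h ((dvd_pow_self r h0).trans (he ▸ h1))
    rw [h2, pow_zero, orderOf_eq_one_iff] at he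
    rw [MonoidHom.comp_apply, he, map_one]

end Pool.Agent.Lib.MP_7d41f7_al
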