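import Pool.Agent.Lib.MP_7d41f7_al.Ch1

set_option autoImplicit false

namespace Pool.Agent.Lib.MP_7d41f7_al

open Finset Subgroup Pool.Agent.Lib.MP_b6945b_al OnePoint
open scoped Classical

variable {G : Type} [Group G] [Fintype G]

/-- `|G| / d = ∑ over classes of om * χ` is an algebraic integer (`om_decomp`, `om_ind_int`,
`χ_isIntegral`, `orth`) and a rational number. -/
theorem deg_dvd (J : IrrData G) (i : Fin J.n) : J.d i ∣ Nat.card G := by
  have h1 : IsCF fun g => J.χ i g⁻¹ := fun h g => by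
    show J.χ i (h * g * h⁻¹)⁻¹ = J.χ i g⁻¹
    rw [show (h * g * h⁻¹)⁻¹ = h * g⁻¹ * h⁻¹ by group, J.χ_conj]
  have h2 : IsIntegral ℤ (J.om i fun g => J.χ i g⁻¹) := by
    rw [J.om_decomp i h1]
    exact IsIntegral.sum _ fun K _ =>
      (J.χ_isIntegral i _).mul (J.om_ind_int i _ (isConj_conj_iff K.out))
  have h3 : (J.om i fun g => J.χ i g⁻¹) = algebraMap ℚ ℂ ((Nat.card G : ℚ) / J.d i) := by
    rw [IrrData.om, J.orth, if_pos rfl, Nat.card_eq_fintype_card]
    simp
  rw [h3, isIntegral_algebraMap_iff (algebraMap ℚ ℂ).injective] at h2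
  obtain ⟨y, hy⟩ := IsIntegrallyClosed.isIntegral_iff.1 h2
  rw [eq_div_iff (Nat.cast_ne_zero.2 (J.pos i).ne'), eq_intCast] at hy
  exact Int.natCast_dvd_natCast.1 (Dvd.intro_left y (by exact_mod_cast hy))

/-- The columns of the character table at the elements of `s` are linearly independent
(`col_orth`). -/
theorem n_ge (J : IrrData G) (s : Finset G) (hs : ∀ x ∈ s, ∀ y ∈ s, IsConj x y → x = y) :
    s.card ≤ J.n := by
  have h1 : LinearIndependent ℂ fun (x : s) (i : Fin J.n) => J.χ i x := by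
    rw [Fintype.linearIndependent_iff]
    intro c hc y
    have h2 : ∑ x : s, c x * (cnt (x : G) y : ℂ) = 0 := by
      simp only [← col_orth J, Finset.mul_sum, ← mul_assoc]
      rw [Finset.sum_comm]
      refine Finset.sum_eq_zero fun i _ => ?_
      have h3 := congrFun hc i
      simp only [Finset.sum_apply, Pi.smul_apply, smul_eq_mul, Pi.zero_apply] at h3
      rw [← Finset.sum_mul, h3, zero_mul]
    rw [Finset.sum_eq_single y] at h2
    · refine (mul_eq_zero.1 h2).resolve_right (Nat.cast_ne_zero.2 ?_)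
      exact Finset.card_ne_zero.2 ⟨1, by simp⟩
    · intro x _ hx
      rw [cnt, Finset.filter_eq_empty_iff.2 fun k _ e =>
        hx (Subtype.ext (hs _ x.2 _ y.2 (isConj_iff.2 ⟨k, e⟩))), Finset.card_empty, Nat.cast_zero,
        mul_zero]
    · simp
  simpa using h1.fintype_card_le_finrank

/-- `toRep_irr`, `matIrr`, `toRep_character`, `exists_eq` (matrices by `LinearMap.toMatrix'`). -/
theorem mem_Vo (I : IrrData G) (n : ℕ) : n ∈ Vo G ↔ ∃ g, orderOf g = n ∧ Van I g := by
  refine exists_congr fun g => and_congr_right fun _ => ⟨?_, ?_⟩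
  · rintro ⟨d, ρ, hρ, h0⟩
    obtain ⟨ρ', rfl⟩ : ∃ ρ' : G →* Matrix (Fin d) (Fin d) ℂ, toRep ρ' = ρ :=
      ⟨(Matrix.toLinAlgEquiv' (R := ℂ) (n := Fin d)).symm.toMulEquiv.toMonoidHom.comp ρ,
        MonoidHom.ext fun g => (Matrix.toLinAlgEquiv' (R := ℂ) (n := Fin d)).apply_symm_apply _⟩
    have hd : 0 < d := by
      rcases Nat.eq_zero_or_pos d with rfl | hd
      · exact absurd (Subrepresentation.toSubmodule_injective (Subsingleton.elim _ _))
          (bot_ne_top (α := Subrepresentation (toRep ρ')))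
      · exact hd
    obtain ⟨i, -, hi⟩ := I.exists_eq ρ' hd fun W hW => by
      rcases eq_bot_or_eq_top (⟨W, fun g v hv => by rw [toRep_apply]; exact hW g v hv⟩ :
        Subrepresentation (toRep ρ')) with e | e
      · exact Or.inl (congrArg Subrepresentation.toSubmodule e)
      · exact Or.inr (congrArg Subrepresentation.toSubmodule e)
    exact ⟨i, by rw [← hi, ← h0, toRep_character]⟩
  · rintro ⟨i, hi⟩
    exact ⟨I.d i, toRep (I.ρ i), toRep_irr _ (I.pos i) (I.matIrr i), (toRep_character _ _).trans hi⟩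

/-- The isometry for functions supported on a trivial intersection set (`col_orth`). -/
theorem iso (I : IrrData G) (η η' : G → ℂ) (N : Subgroup G)
    (h : ∀ c k : G, η c ≠ 0 → η' (k * c * k⁻¹) ≠ 0 → k ∈ N) :
    ∑ i, (∑ c, η c * I.χ i c) * ∑ c, η' c * I.χ i c⁻¹ =
      ∑ k ∈ univ.filter (· ∈ N), ∑ c, η c * η' (k * c * k⁻¹) := by
  have h1 : ∑ i, (∑ c, η c * I.χ i c) * ∑ c, η' c * I.χ i c⁻¹ =
      ∑ c, ∑ c', η c * η' c' * (cnt c c' : ℂ) := by
    simp only [Finset.sum_mul_sum]
    simp only [← col_orth I, Finset.mul_sum]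
    rw [Finset.sum_comm]
    refine Finset.sum_congr rfl fun c _ => ?_
    rw [Finset.sum_comm]
    exact Finset.sum_congr rfl fun c' _ => Finset.sum_congr rfl fun i _ => by ring
  have h2 : ∀ c, ∑ c', η c * η' c' * (cnt c c' : ℂ) = ∑ k, η c * η' (k * c * k⁻¹) := fun c => by
    simp only [cnt, Finset.card_filter, Nat.cast_sum, Finset.mul_sum]
    rw [Finset.sum_comm]
    exact Finset.sum_congr rfl fun k _ => by simp
  rw [h1, Finset.sum_congr rfl fun c _ => h2 c, Finset.sum_comm, Finset.sum_filter]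
  refine Finset.sum_congr rfl fun k _ => ?_
  split_ifs with hk
  · rfl
  · refine Finset.sum_eq_zero fun c _ => ?_
    by_contra e
    exact hk (h c k (left_ne_zero_of_mul e) (right_ne_zero_of_mul e))

end Pool.Agent.Lib.MP_7d41f7_al
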