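import Pool.Agent.Lib.MP_7d41f7_al.LocE
import Pool.Agent.Lib.MP_7d41f7_al.Ch2

set_option autoImplicit false

namespace Pool.Agent.Lib.MP_7d41f7_al

open Finset Subgroup Pool.Agent.Lib.MP_b6945b_al OnePoint
open scoped Classical

variable {G : Type} [Group G] [Fintype G] {r : ℕ} {x : G} {J : IrrData (Cx x)}

/-- Extension by zero. -/
noncomputable def gram_ext (H : Subgroup G) (f : H → ℂ) (g : G) : ℂ :=
  if h : g ∈ H then f ⟨g, h⟩ else 0

theorem gram_sum (H : Subgroup G) (f : H → ℂ) (F : G → ℂ) :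
    ∑ g, gram_ext H f g * F g = ∑ c : H, f c * F c := by
  have h1 : ∑ g ∈ univ.filter (· ∈ H), gram_ext H f g * F g = ∑ g, gram_ext H f g * F g := by
    refine Finset.sum_filter_of_ne fun g _ hg => ?_
    by_contra h
    exact hg (by rw [gram_ext, dif_neg h, zero_mul])
  rw [← h1, Finset.sum_subtype (p := (· ∈ H)) _ (fun g => by simp)]
  exact Finset.sum_congr rfl fun c _ => by rw [gram_ext, dif_pos c.2]

omit [Fintype G] in
theorem gram_le (x : G) : Cx x ≤ Nx x := by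
  have h := centralizer_le_normalizer (zpowers x : Set G)
  rwa [zpowers_eq_closure, centralizer_closure, ← zpowers_eq_closure] at h

theorem gram_blk {j j' : Fin J.n} (h : blk r J j = blk r J j') {c : Cx x} (hc : ¬ r ∣ orderOf c) :
    J.χ j c = J.χ j' c := by
  have h1 := congrFun h c
  rwa [blk, blk, if_neg hc, if_neg hc] at h1

theorem gram_cnt (hr : r.Prime) (hx : orderOf x = r) (L : Loc r x J) {j : Fin J.n} (h : L.ω j ≠ 1)
    (j' : Fin J.n) : ∑ n : Nx x, (if L.act n j = j' then (1 : ℂ) else 0) =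
      Fintype.card (Cx x) * if ∃ n, L.act n j = j' then 1 else 0 := by
  split_ifs with he
  · obtain ⟨n0, rfl⟩ := he
    rw [← Equiv.sum_comp (Equiv.mulLeft n0), mul_one]
    have h1 : ∀ n : Nx x, L.act (Equiv.mulLeft n0 n) j = L.act n0 j ↔
        n ∈ (Cx x).subgroupOf (Nx x) := by
      intro n
      rw [Equiv.coe_mulLeft, map_mul, Equiv.Perm.mul_apply, Equiv.apply_eq_iff_eq, mem_subgroupOf]
      exact ⟨fun e => L.good hr hx n j h (by rw [e]), fun e => by rw [L.act_C n e]; rfl⟩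
    simp only [h1]
    rw [Finset.sum_boole, ← Fintype.card_subtype]
    exact congrArg Nat.cast (Fintype.card_congr (subgroupOfEquivOfLe (gram_le x)).toEquiv)
  · rw [mul_zero]
    exact Finset.sum_eq_zero fun n _ => if_neg fun e => he ⟨n, e⟩

theorem gram_orth (L : Loc r x J) (n : Nx x) (j j' : Fin J.n) :
    ∑ c : Cx x, J.χ j c⁻¹ * J.χ j' ⟨n * c * (n : G)⁻¹, conj_mem_Cx n.2 c.2⟩ =
      Fintype.card (Cx x) * if L.act n j = j' then 1 else 0 := by
  obtain ⟨k, rfl⟩ := (L.act n).surjective j'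
  have h1 : ∀ c : Cx x, J.χ (L.act n k) ⟨n * c * (n : G)⁻¹, conj_mem_Cx n.2 c.2⟩ = J.χ k c :=
    fun c => L.act_χ n k c _ rfl
  simp only [h1, J.orth, Equiv.apply_eq_iff_eq, mul_ite, mul_one, mul_zero, eq_comm (a := j)]

theorem gram_mlt (I : IrrData G) (i : Fin I.n) (j : Fin J.n) :
    ∑ c : Cx x, J.χ j c⁻¹ * I.χ i c = Fintype.card (Cx x) * mlt J (res (Cx x) (I.χ i)) j := by
  rw [mlt, mul_div_cancel₀ _ IrrData.card_ne]
  rfl

theorem gram_mlt' (I : IrrData G) (i : Fin I.n) (j : Fin J.n) :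
    ∑ c : Cx x, J.χ j c * I.χ i (c : G)⁻¹ =
      Fintype.card (Cx x) * mlt J (res (Cx x) (I.χ i)) j := by
  obtain ⟨m, h1, h2⟩ := mlt_nat J ((I.ρ i).comp (Cx x).subtype) j
  have h3 : mlt J (res (Cx x) (I.χ i)) j = m := h1
  rw [h3, ← h2, mul_div_cancel₀ _ IrrData.card_ne]
  rfl

/-- The difference of the two characters vanishes at `1` (`IrrData.reg'`). -/
theorem gram_deg (hr : r.Prime) (I : IrrData G) (j j' : Fin J.n) (h : blk r J j = blk r J j') :
    ∑ i, (mlt J (res (Cx x) (I.χ i)) j - mlt J (res (Cx x) (I.χ i)) j') * I.d i = 0 := by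
  apply mul_left_cancel₀ (IrrData.card_ne (H := Cx x))
  have h1 : ∀ i, (Fintype.card (Cx x) : ℂ) *
      ((mlt J (res (Cx x) (I.χ i)) j - mlt J (res (Cx x) (I.χ i)) j') * I.d i) =
      ∑ c : Cx x, (J.χ j c⁻¹ - J.χ j' c⁻¹) * (I.d i * I.χ i c) := by
    intro i
    rw [← mul_assoc, mul_sub, ← gram_mlt, ← gram_mlt, ← Finset.sum_sub_distrib, Finset.sum_mul]
    exact Finset.sum_congr rfl fun c _ => by ring
  rw [Finset.mul_sum, mul_zero, Finset.sum_congr rfl fun i _ => h1 i, Finset.sum_comm]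
  refine Finset.sum_eq_zero fun c _ => ?_
  rw [← Finset.mul_sum, I.reg']
  split_ifs with hc
  · obtain rfl : c = 1 := Subtype.ext hc
    rw [inv_one, gram_blk h (by rw [orderOf_one]; exact hr.not_dvd_one), sub_self, zero_mul]
  · rw [mul_zero]

/-- `iso` for `η c = χ j₁ c⁻¹ - χ j₂ c⁻¹` and `η' c = χ j₃ c - χ j₄ c`, extended by zero (second part
of `mlt_nat` for the restricted representation). For `n` in the normaliser
`∑ c, χ j c⁻¹ * χ j' (n c n⁻¹)` is `|C|` if `act n j = j'` and zero otherwise, and for `ω j ≠ 1` the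
number of such `n` is `|C|` or zero (`Loc.good`, `Loc.act_C`). -/
theorem gram (hr : r.Prime) (hx : orderOf x = r) (ht : TI r x) (I : IrrData G) (L : Loc r x J)
    (j₁ j₂ j₃ j₄ : Fin J.n) (h₁ : L.ω j₁ ≠ 1) (h₂ : L.ω j₂ ≠ 1) (h₁₂ : blk r J j₁ = blk r J j₂)
    (h₃₄ : blk r J j₃ = blk r J j₄) :
    ∑ i, (mlt J (res (Cx x) (I.χ i)) j₁ - mlt J (res (Cx x) (I.χ i)) j₂) *
      (mlt J (res (Cx x) (I.χ i)) j₃ - mlt J (res (Cx x) (I.χ i)) j₄) =
      (if ∃ n, L.act n j₁ = j₃ then 1 else 0) - (if ∃ n, L.act n j₁ = j₄ then 1 else 0) -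
        (if ∃ n, L.act n j₂ = j₃ then 1 else 0) + if ∃ n, L.act n j₂ = j₄ then 1 else 0 := by
  have h0 := iso I (gram_ext (Cx x) fun c => J.χ j₁ c⁻¹ - J.χ j₂ c⁻¹)
    (gram_ext (Cx x) fun c => J.χ j₃ c - J.χ j₄ c) (Nx x) fun c k hc hk => by
      by_cases e : c ∈ Cx x
      · refine ht c e k ?_ ?_
        · by_contra hd
          rw [gram_ext, dif_pos e] at hc
          refine hc (sub_eq_zero.2 (gram_blk h₁₂ ?_))
          rwa [orderOf_inv, ← orderOf_coe]
        · by_contra hd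
          exact hk (dif_neg hd)
      · exact absurd (dif_neg e) hc
  rw [Finset.sum_subtype (p := (· ∈ Nx x)) (univ.filter (· ∈ Nx x)) (fun g => by simp)] at h0
  have h1 : ∀ n : Nx x, ∑ c, (gram_ext (Cx x) fun c => J.χ j₁ c⁻¹ - J.χ j₂ c⁻¹) c *
      (gram_ext (Cx x) fun c => J.χ j₃ c - J.χ j₄ c) (n * c * (n : G)⁻¹) =
      Fintype.card (Cx x) * ((if L.act n j₁ = j₃ then 1 else 0) -
        (if L.act n j₁ = j₄ then 1 else 0) - (if L.act n j₂ = j₃ then 1 else 0) +
        if L.act n j₂ = j₄ then 1 else 0) := by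
    intro n
    rw [gram_sum, mul_add, mul_sub, mul_sub, ← gram_orth, ← gram_orth, ← gram_orth, ← gram_orth,
      ← Finset.sum_sub_distrib, ← Finset.sum_sub_distrib, ← Finset.sum_add_distrib]
    refine Finset.sum_congr rfl fun c _ => ?_
    rw [gram_ext, dif_pos (conj_mem_Cx n.2 c.2)]
    ring
  simp only [h1] at h0
  rw [← Finset.mul_sum, Finset.sum_add_distrib, Finset.sum_sub_distrib, Finset.sum_sub_distrib,
    gram_cnt hr hx L h₁, gram_cnt hr hx L h₁, gram_cnt hr hx L h₂, gram_cnt hr hx L h₂,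
    ← mul_sub, ← mul_sub, ← mul_add] at h0
  apply mul_left_cancel₀ (IrrData.card_ne (H := Cx x))
  apply mul_left_cancel₀ (IrrData.card_ne (H := Cx x))
  rw [← h0, Finset.mul_sum, Finset.mul_sum]
  refine Finset.sum_congr rfl fun i _ => ?_
  rw [gram_sum, gram_sum]
  simp only [sub_mul, Finset.sum_sub_distrib, gram_mlt, gram_mlt']
  ring

end Pool.Agent.Lib.MP_7d41f7_al
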