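import Pool.Agent.Lib.MP_7d41f7_al.Tr

set_option autoImplicit false

namespace Pool.Agent.Lib.MP_7d41f7_al

open Finset Subgroup Pool.Agent.Lib.MP_b6945b_al OnePoint
open scoped Classical

variable {G : Type} [Group G] [Fintype G] {r : ℕ} {x : G}

omit [Fintype G] in
theorem nagb_free [Fact r.Prime] (hx : orderOf x = r) {g : G} (hg : g ∉ Cx x) {k l : ℕ}
    (hk : k < r) (hl : l < r) (h : (x ^ k)⁻¹ * g * x ^ k = (x ^ l)⁻¹ * g * x ^ l) : k = l := by
  wlog hkl : k < l generalizing k l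
  · exact (not_lt.1 hkl).eq_or_lt.elim Eq.symm fun h1 => (this hl hk h.symm h1).symm
  obtain ⟨m, rfl⟩ := Nat.exists_eq_add_of_lt hkl
  have h1 : Commute g (x ^ (m + 1)) := by
    rw [add_assoc, add_comm k, pow_add] at h
    have : g * x ^ (m + 1) = x ^ (m + 1) * x ^ k * ((x ^ (m + 1) * x ^ k)⁻¹ * g *
      (x ^ (m + 1) * x ^ k)) * (x ^ k)⁻¹ := by group
    rw [← h] at this
    exact this.trans (by group)
  obtain ⟨t, ht⟩ := exists_pow_eq_self_of_coprime (x := x) (n := m + 1)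
    (hx ▸ (Nat.coprime_of_lt_prime m.succ_ne_zero (by omega) Fact.out).symm)
  exact absurd (mem_centralizer_singleton_iff.2 (ht ▸ h1.pow_right t)) hg

theorem nagb_rep [Fact r.Prime] (hx : orderOf x = r) : ∃ c : G → ℕ, ∀ g,
    ∑ k ∈ range r, c ((x ^ k)⁻¹ * g * x ^ k) = if g ∈ Cx x then 0 else 1 := by
  let s : Setoid G := ⟨fun g h => ∃ u ∈ zpowers x, h = u⁻¹ * g * u,
    fun g => ⟨1, one_mem _, by group⟩,
    fun ⟨u, hu, e⟩ => ⟨u⁻¹, inv_mem hu, by rw [e]; group⟩,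
    fun ⟨u, hu, e⟩ ⟨v, hv, e'⟩ => ⟨u * v, mul_mem hu hv, by rw [e', e]; group⟩⟩
  have hc : ∀ k : ℕ, x ^ k ∈ Cx x := fun k => pow_mem (xc x).2 k
  refine ⟨fun g => if g ∉ Cx x ∧ (Quotient.mk s g).out = g then 1 else 0, fun g => ?_⟩
  by_cases hg : g ∈ Cx x
  · rw [if_pos hg]
    exact sum_eq_zero fun k _ => if_neg fun h =>
      h.1 (mul_mem (mul_mem (inv_mem (hc k)) hg) (hc k))
  have h1 : ∀ k : ℕ, Quotient.mk s ((x ^ k)⁻¹ * g * x ^ k) = Quotient.mk s g := fun k =>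
    (Quotient.sound (s := s) (a := g) ⟨x ^ k, npow_mem_zpowers x k, rfl⟩).symm
  obtain ⟨u, hu, e⟩ := s.symm (Quotient.mk_out (s := s) g)
  obtain ⟨k, hk, rfl⟩ := mem_image.1 (mem_zpowers_iff_mem_range_orderOf.1 hu)
  rw [hx] at hk
  rw [if_neg hg, sum_eq_single_of_mem k hk fun l hl hlk => if_neg fun h => hlk
    (nagb_free hx hg (mem_range.1 hl) (mem_range.1 hk) (by rw [← e, ← h1 l, h.2]))]
  refine if_pos ⟨fun h => hg ?_, by rw [h1, e]⟩
  simpa [mul_assoc] using mul_mem (mul_mem (hc k) h) (inv_mem (hc k))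

omit [Fintype G] in
theorem nagb_shift {M : Type} [AddCommGroup M] (g : G) (F : G → M) (t : ℕ) :
    ∑ j ∈ range (orderOf g), F (g ^ j * g ^ t) = ∑ j ∈ range (orderOf g), F (g ^ j) := by
  induction t with
  | zero => simp
  | succ t ih =>
    have h1 := sum_range_succ (fun j => F (g ^ j * g ^ t)) (orderOf g)
    rw [sum_range_succ', pow_orderOf_eq_one, pow_zero, add_left_inj, ih] at h1
    rw [← h1]
    exact sum_congr rfl fun j _ => by rw [pow_succ', pow_succ, mul_assoc]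

theorem nagb_main [Fact r.Prime] {V : ValuationSubring ℂ} (hp : (r : ℂ) ∈ V.nonunits)
    (hx : orderOf x = r) {n : ℕ} {ρ : G →* Matrix (Fin n) (Fin n) ℂ}
    {F w : Matrix (Fin n) (Fin n) ℂ} (hF : InV V ρ F) (hw : InV V ρ w) (hFF : F * F = F)
    (hc : ∀ c ∈ Cx x, ρ c * F = F * ρ c) {u : ℂ} (hu : u ∉ V.nonunits)
    (h : u • F = F * (∑ k ∈ range r, ρ (x ^ k) * w * ρ (x ^ k)⁻¹) * F) {y : G} (hy : y ∈ Cx x)
    (hr : ¬ r ∣ orderOf y) : (ρ (x * y) * F).trace = 0 := by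
  have hP : r.Prime := Fact.out
  have hxy : Commute x y := (mem_centralizer_singleton_iff.1 hy).symm
  have hcop : (orderOf x).Coprime (orderOf y) := hx ▸ (hP.coprime_iff_not_dvd.2 hr)
  have ho : orderOf (x * y) = r * orderOf y :=
    hx ▸ hxy.orderOf_mul_eq_mul_orderOf_of_coprime hcop
  have hg : x * y ∈ Cx x := mul_mem (xc x).2 hy
  obtain ⟨t, ht⟩ := exists_pow_eq_self_of_coprime hcop.symm
  have ht' : ∀ k, x ^ k = (x * y) ^ (orderOf y * t * k) := fun k => by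
    rw [pow_mul, pow_mul, hxy.mul_pow, pow_orderOf_eq_one, mul_one, ht]
  have hu0 : u ≠ 0 := fun e => hu (e ▸ V.nonunits.zero_mem)
  have hs0 : (orderOf y : ℂ) ≠ 0 := Nat.cast_ne_zero.2 (orderOf_pos y).ne'
  have hr0 : (r : ℂ) ≠ 0 := Nat.cast_ne_zero.2 hP.ne_zero
  have h1 : u • F = ∑ k ∈ range r, ρ (x ^ k) * (F * w * F) * ρ (x ^ k)⁻¹ := by
    rw [h, mul_sum, sum_mul]
    refine sum_congr rfl fun k _ => ?_
    have h2 : x ^ k ∈ Cx x := pow_mem (xc x).2 k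
    calc _ = F * ρ (x ^ k) * w * (ρ (x ^ k)⁻¹ * F) := by simp only [mul_assoc]
      _ = _ := by
        rw [← hc _ h2, hc _ (inv_mem h2)]
        simp only [mul_assoc]
  refine tr_zero hp (ho ▸ dvd_mul_right _ _) (w := (orderOf y : ℂ)⁻¹ • u⁻¹ • (F * w * F))
    ((((hF.mul hw).mul hF).smul (inv_mem_of_not_nonunit hu)).smul (inv_nat_mem hp hr)) hFF
    (hc _ hg) ?_
  generalize F * w * F = W at h1
  have h2 : ∑ j ∈ range (orderOf (x * y)), ρ ((x * y) ^ j) * (u • F) * ρ ((x * y) ^ j)⁻¹ =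
      (r : ℂ) • (orderOf y : ℂ) • u • F := by
    rw [sum_congr rfl fun j _ => show _ = u • F by
      rw [Matrix.mul_smul, hc _ (pow_mem hg j), Matrix.smul_mul, mul_assoc, ← map_mul,
        mul_inv_cancel, map_one, mul_one], sum_const, card_range, ho, ← Nat.cast_smul_eq_nsmul ℂ,
      Nat.cast_mul, mul_smul]
  have h3 : ∑ j ∈ range (orderOf (x * y)), ρ ((x * y) ^ j) * (u • F) * ρ ((x * y) ^ j)⁻¹ =
      (r : ℂ) • ∑ j ∈ range (orderOf (x * y)), ρ ((x * y) ^ j) * W * ρ ((x * y) ^ j)⁻¹ := by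
    simp only [h1, mul_sum, sum_mul]
    rw [sum_comm, Nat.cast_smul_eq_nsmul, ← card_range r, ← sum_const, card_range]
    refine sum_congr rfl fun k _ => ?_
    rw [← nagb_shift (x * y) (fun v => ρ v * W * ρ v⁻¹) (orderOf y * t * k), ← ht']
    exact sum_congr rfl fun j _ => by simp only [mul_inv_rev, map_mul, mul_assoc]
  simp only [Matrix.mul_smul, Matrix.smul_mul, ← smul_sum]
  rw [← smul_right_injective _ hr0 (h2.symm.trans h3), smul_comm u⁻¹, inv_smul_smul₀ hs0,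
    inv_smul_smul₀ hu0]

/-- Nagao's argument. The group `zpowers x` acts freely by conjugation outside the centraliser, so
`Z = ∑ g ∉ Cx x, Et g • ρ g = ∑ k < r, ρ (x ^ k) * w * ρ (x ^ k)⁻¹` with `w` in `InV` (sum over orbit
representatives), and `o • 1 = E + Z`. Hence `(o - 1) • E = E * Z * E` and
`o • (1 - E) = (1 - E) * Z * (1 - E)`; one of `o`, `o - 1` is a unit of `V`. `E` commutes with the
centraliser. For `g = x * y` of order `r * s`, `s = orderOf y`, the powers of `g` are the products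
`y ^ l * x ^ k` with `l < s`, `k < r`, so it is enough to divide `w` by `s` (`inv_nat_mem`).
Apply `tr_zero`. -/
theorem dich [Fact r.Prime] {V : ValuationSubring ℂ} (hp : (r : ℂ) ∈ V.nonunits)
    (hx : orderOf x = r) {n : ℕ} (ρ : G →* Matrix (Fin n) (Fin n) ℂ) {Et : G → ℂ} (hcf : IsCF Et)
    (hV : ∀ g, Et g ∈ V) {o : ℂ} (ho : o ∈ V) (h : ∑ g, Et g • ρ g = o • 1)
    {E : Matrix (Fin n) (Fin n) ℂ} (hE : E = ∑ c : Cx x, Et c • ρ c) (hEE : E * E = E) :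
    (∀ y ∈ Cx x, ¬ r ∣ orderOf y → (ρ (x * y) * E).trace = 0) ∨
      ∀ y ∈ Cx x, ¬ r ∣ orderOf y → (ρ (x * y) * (1 - E)).trace = 0 := by
  obtain ⟨c, hc⟩ := nagb_rep hx
  have hw : InV V ρ (∑ g, (c g * Et g) • ρ g) :=
    ⟨_, fun g => mul_mem (natCast_mem V _) (hV g), rfl⟩
  have hZ : o • (1 : Matrix (Fin n) (Fin n) ℂ) =
      E + ∑ k ∈ range r, ρ (x ^ k) * (∑ g, (c g * Et g) • ρ g) * ρ (x ^ k)⁻¹ := by
    have h1 : ∀ k : ℕ, ρ (x ^ k) * (∑ g, (c g * Et g) • ρ g) * ρ (x ^ k)⁻¹ =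
        ∑ g, (c ((x ^ k)⁻¹ * g * x ^ k) * Et g) • ρ g := fun k => by
      rw [mul_sum, sum_mul]
      generalize x ^ k = u
      refine Fintype.sum_equiv (MulAut.conj u).toEquiv _ _ fun g => ?_
      simp [mul_assoc, hcf.of_isConj (isConj_iff.2 ⟨u, mul_assoc _ g _⟩)]
    rw [← h, hE, ← sum_subtype (univ.filter (· ∈ Cx x)) (by simp) fun g => Et g • ρ g,
      sum_congr rfl fun k _ => h1 k, sum_comm, sum_filter, ← sum_add_distrib]
    refine sum_congr rfl fun g _ => ?_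
    rw [← sum_smul, ← sum_mul, ← Nat.cast_sum, hc]
    split_ifs <;> simp
  have hEV : InV V ρ E := hE ▸ InV.sum _ _ fun d _ => (InV.elt V ρ _).smul (hV _)
  have hcE : ∀ d ∈ Cx x, ρ d * E = E * ρ d := fun d hd => by
    rw [hE, mul_sum, sum_mul]
    refine Fintype.sum_equiv (MulAut.conj (⟨d, hd⟩ : Cx x)).toEquiv _ _ fun g => ?_
    simp [mul_assoc, ← map_mul, hcf.of_isConj (isConj_iff.2 ⟨d, mul_assoc _ (g : G) _⟩)]
  have hZ' := sub_eq_of_eq_add' hZ
  by_cases h1 : o - 1 ∈ V.nonunits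
  · refine Or.inr fun y hy hr => nagb_main hp hx (u := o)
      (InV.sub (by simpa using InV.elt V ρ 1) hEV) hw ?_ (fun d hd => ?_) (fun h2 => ?_) ?_ hy hr
    · simp [mul_sub, sub_mul, hEE]
    · simp [mul_sub, sub_mul, hcE d hd]
    · exact one_not_mem_nonunits V (by simpa using V.nonunits.sub_mem h2 h1)
    · rw [← hZ']
      simp [mul_sub, sub_mul, hEE, smul_sub]
  · refine Or.inl fun y hy hr => nagb_main hp hx hEV hw hEE hcE h1 ?_ hy hr
    rw [← hZ']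
    simp [mul_sub, hEE, sub_smul, sub_mul]

end Pool.Agent.Lib.MP_7d41f7_al
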