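import Pool.Agent.Lib.MP_7d41f7_al.Defs

set_option autoImplicit false

namespace Pool.Agent.Lib.MP_7d41f7_al

open Finset Subgroup Pool.Agent.Lib.MP_b6945b_al OnePoint
open scoped Classical



/-- The minimal polynomial of a primitive `r`-th root of unity is `1 + X + ... + X ^ (r - 1)`. -/
theorem root_sum {r : ℕ} (hr : r.Prime) (S : Finset ℂ) (hS : S.Nonempty)
    (h : ∀ z ∈ S, z ^ r = 1 ∧ z ≠ 1) {c : ℤ} (hc : ∑ z ∈ S, z = c) : c = -1 := by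
  have : NeZero r := ⟨hr.ne_zero⟩
  have hζ := Complex.isPrimitiveRoot_exp r hr.ne_zero
  obtain ⟨ζ, hζ⟩ : ∃ ζ : ℂ, IsPrimitiveRoot ζ r := ⟨_, hζ⟩
  have hsum : ∑ k : Fin r, ((if ζ ^ k.val ∈ S then 1 else 0 : ℤ) : ℂ) * ζ ^ k.val = ∑ z ∈ S, z := by
    have h1 : ∑ k : Fin r, ((if ζ ^ k.val ∈ S then 1 else 0 : ℤ) : ℂ) * ζ ^ k.val =
        ∑ k ∈ univ.filter (fun k : Fin r => ζ ^ k.val ∈ S), ζ ^ k.val := by
      rw [sum_filter]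
      refine sum_congr rfl fun k _ => ?_
      split_ifs <;> simp
    rw [h1]
    refine sum_bij (fun k _ => ζ ^ k.val) (fun k hk => (mem_filter.1 hk).2)
      (fun k _ l _ hkl => Fin.ext (hζ.pow_inj k.2 l.2 hkl)) (fun z hz => ?_) fun _ _ => rfl
    obtain ⟨k, hk, rfl⟩ := hζ.eq_pow_of_pow_eq_one (h z hz).1
    exact ⟨⟨k, hk⟩, mem_filter.2 ⟨mem_univ _, hz⟩, rfl⟩
  have h0 := (hζ.sum_eq_zero_iff_forall_eq_int hr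
    fun k : Fin r => (if ζ ^ k.val ∈ S then 1 else 0) - if k = 0 then c else 0).1 (by
      simp only [Int.cast_sub, sub_mul, sum_sub_distrib]
      rw [hsum, hc, sum_eq_single 0 (fun k _ hk => by simp [hk]) (by simp)]
      simp)
  obtain ⟨z, hz⟩ := hS
  obtain ⟨k, hk, rfl⟩ := hζ.eq_pow_of_pow_eq_one (h z hz).1
  have hk0 : (⟨k, hk⟩ : Fin r) ≠ 0 := by
    intro e
    have e' : k = 0 := congrArg Fin.val e
    exact (h _ hz).2 (by rw [e', pow_zero])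
  have h1 : (1 : ℂ) ∉ S := fun h1 => (h 1 h1).2 rfl
  have h2 := h0 ⟨k, hk⟩ 0
  simp only [hz, hk0, if_true, if_false, Fin.val_zero, pow_zero, h1] at h2
  omega

/-- A vector of norm two and degree zero with a positive entry has no other positive entry. -/
theorem shape_neg {ι : Type} [Fintype ι] (u d : ι → ℤ) (hd : ∀ i, 0 < d i)
    (h0 : ∑ i, u i * d i = 0) (h2 : ∑ i, u i * u i = 2) {i : ι} (hi : 0 < u i) {j : ι}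
    (hj : j ≠ i) : u j ≤ 0 := by
  by_contra hc
  have hc' : 0 < u j := not_le.1 hc
  have hall : ∀ k, 0 ≤ u k := by
    intro k
    by_contra hk
    have hk' : u k < 0 := not_le.1 hk
    have hki : k ≠ i := by rintro rfl; omega
    have hkj : k ≠ j := by rintro rfl; omega
    have h3 : ∑ l ∈ ({k, j, i} : Finset ι), u l * u l ≤ ∑ l, u l * u l :=
      sum_le_sum_of_subset_of_nonneg (subset_univ _) fun l _ _ => mul_self_nonneg _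
    rw [sum_insert (by simp [hki, hkj]), sum_pair hj, h2] at h3
    nlinarith
  have h4 : u i * d i ≤ ∑ l, u l * d l :=
    single_le_sum (f := fun l => u l * d l) (fun l _ => mul_nonneg (hall l) (hd l).le) (mem_univ i)
  have h5 := mul_pos hi (hd i)
  omega

/-- Two classes differ by a vector of norm two and degree zero, so by `1` at one place and `-1` at
another. If both values were taken on two classes, the inner product of two such vectors would be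
positive and zero. -/
theorem shape_val {Ψ ι : Type} [Fintype ι] (e : Setoid Ψ) (X : Set Ψ) (m : ι → Ψ → ℤ) (d : ι → ℤ)
    (hd : ∀ i, 0 < d i) (hdeg : ∀ ψ ∈ X, ∀ ψ' ∈ X, ∑ i, (m i ψ - m i ψ') * d i = 0)
    (hG : ∀ ψ₁ ∈ X, ∀ ψ₂ ∈ X, ∀ ψ₃ ∈ X, ∀ ψ₄ ∈ X, ∑ i, (m i ψ₁ - m i ψ₂) * (m i ψ₃ - m i ψ₄) =
      (if e ψ₁ ψ₃ then 1 else 0) - (if e ψ₁ ψ₄ then 1 else 0) - (if e ψ₂ ψ₃ then 1 else 0) +
        if e ψ₂ ψ₄ then 1 else 0) (i : ι) :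
    (∃ μ, ∀ ψ ∈ X, m i ψ = μ) ∨ ∃ μ δ : ℤ, (δ = 1 ∨ δ = -1) ∧ ∃ ψ₀ ∈ X, ∀ ψ ∈ X,
      m i ψ = μ + if e ψ₀ ψ then δ else 0 := by
  have hN : ∀ ψ ∈ X, ∀ ψ' ∈ X, ∑ j, (m j ψ - m j ψ') * (m j ψ - m j ψ') =
      if e ψ ψ' then 0 else 2 := by
    intro ψ hψ ψ' hψ'
    rw [hG ψ hψ ψ' hψ' ψ hψ ψ' hψ', if_pos (e.refl' ψ), if_pos (e.refl' ψ')]
    by_cases h : e ψ ψ'
    · simp [h, e.symm' h]
    · have h' : ¬ e ψ' ψ := fun h' => h (e.symm' h')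
      simp [h, h']
  have hle : ∀ ψ ∈ X, ∀ ψ' ∈ X, (m i ψ - m i ψ') * (m i ψ - m i ψ') ≤ if e ψ ψ' then 0 else 2 := by
    intro ψ hψ ψ' hψ'
    rw [← hN ψ hψ ψ' hψ']
    exact single_le_sum (f := fun j => (m j ψ - m j ψ') * (m j ψ - m j ψ'))
      (fun j _ => mul_self_nonneg _) (mem_univ i)
  have heq : ∀ ψ ∈ X, ∀ ψ' ∈ X, e ψ ψ' → m i ψ = m i ψ' := by
    intro ψ hψ ψ' hψ' h
    have h1 := hle ψ hψ ψ' hψ'
    rw [if_pos h] at h1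
    nlinarith
  have hone : ∀ ψ ∈ X, ∀ ψ' ∈ X, m i ψ ≤ m i ψ' + 1 := by
    intro ψ hψ ψ' hψ'
    have h1 := hle ψ hψ ψ' hψ'
    have h2 : (if e ψ ψ' then 0 else 2 : ℤ) ≤ 2 := by split_ifs <;> omega
    nlinarith
  by_cases hc : ∃ ψ₁ ∈ X, ∃ ψ₂ ∈ X, m i ψ₂ < m i ψ₁
  swap
  · left
    push Not at hc
    rcases X.eq_empty_or_nonempty with rfl | ⟨ψ₀, h₀⟩
    · exact ⟨0, fun ψ hψ => hψ.elim⟩
    · exact ⟨m i ψ₀, fun ψ hψ => le_antisymm (hc ψ hψ ψ₀ h₀) (hc ψ₀ h₀ ψ hψ)⟩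
  right
  obtain ⟨ψ₁, h₁, ψ₂, h₂, h12⟩ := hc
  by_cases hA : ∀ ψ ∈ X, m i ψ₂ < m i ψ → e ψ₁ ψ
  · refine ⟨m i ψ₂, 1, Or.inl rfl, ψ₁, h₁, fun ψ hψ => ?_⟩
    have a1 := hone ψ₁ h₁ ψ₂ h₂
    have a2 := hone ψ₁ h₁ ψ hψ
    split_ifs with h
    · have a3 := heq ψ₁ h₁ ψ hψ h
      omega
    · have a3 : ¬ m i ψ₂ < m i ψ := fun a3 => h (hA ψ hψ a3)
      omega
  by_cases hB : ∀ ψ ∈ X, m i ψ < m i ψ₁ → e ψ₂ ψ
  · refine ⟨m i ψ₁, -1, Or.inr rfl, ψ₂, h₂, fun ψ hψ => ?_⟩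
    have a1 := hone ψ₁ h₁ ψ₂ h₂
    have a2 := hone ψ hψ ψ₂ h₂
    split_ifs with h
    · have a3 := heq ψ₂ h₂ ψ hψ h
      omega
    · have a3 : ¬ m i ψ < m i ψ₁ := fun a3 => h (hB ψ hψ a3)
      omega
  exfalso
  push Not at hA hB
  obtain ⟨ψ₃, h₃, h23, e13⟩ := hA
  obtain ⟨ψ₄, h₄, h41, e24⟩ := hB
  have a1 := hone ψ₁ h₁ ψ₂ h₂
  have a2 := hone ψ₃ h₃ ψ₂ h₂
  have a3 := hone ψ₁ h₁ ψ₄ h₄
  have e12 : ¬ e ψ₁ ψ₂ := fun h => by have := heq _ h₁ _ h₂ h; omega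
  have e14 : ¬ e ψ₁ ψ₄ := fun h => by have := heq _ h₁ _ h₄ h; omega
  have e23 : ¬ e ψ₂ ψ₃ := fun h => by have := heq _ h₂ _ h₃ h; omega
  have e34 : ¬ e ψ₃ ψ₄ := fun h => by have := heq _ h₃ _ h₄ h; omega
  have b1 := hN ψ₁ h₁ ψ₂ h₂
  have b2 := hN ψ₃ h₃ ψ₄ h₄
  have b3 := hG ψ₁ h₁ ψ₂ h₂ ψ₃ h₃ ψ₄ h₄
  rw [if_neg e12] at b1
  rw [if_neg e34] at b2
  rw [if_neg e13, if_neg e14, if_neg e23, if_neg e24] at b3
  have c1 : 0 < m i ψ₁ - m i ψ₂ := by omega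
  have c2 : 0 < m i ψ₃ - m i ψ₄ := by omega
  have c3 : (m i ψ₁ - m i ψ₂) * (m i ψ₃ - m i ψ₄) ≤ ∑ j, (m j ψ₁ - m j ψ₂) * (m j ψ₃ - m j ψ₄) := by
    refine single_le_sum (f := fun j => (m j ψ₁ - m j ψ₂) * (m j ψ₃ - m j ψ₄)) (fun j _ => ?_)
      (mem_univ i)
    by_cases hj : j = i
    · rw [hj]
      exact (mul_pos c1 c2).le
    · exact mul_nonneg_of_nonpos_of_nonpos
        (shape_neg (fun j => m j ψ₁ - m j ψ₂) d hd (hdeg _ h₁ _ h₂) b1 c1 hj)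
        (shape_neg (fun j => m j ψ₃ - m j ψ₄) d hd (hdeg _ h₃ _ h₄) b2 c2 hj)
  have c4 := mul_pos c1 c2
  omega

/-- The sum of `ω` over a fibre is zero. -/
theorem shape_fib {Ψ T : Type} [Fintype Ψ] (σ : Equiv.Perm Ψ) (bl : Ψ → T) (ω : Ψ → ℂ) {ξ : ℂ}
    (hξ : ξ ≠ 1) (hσ : ∀ ψ, ω (σ ψ) = ξ * ω ψ) (hσb : ∀ ψ, bl (σ ψ) = bl ψ) (t : T) :
    ∑ ψ ∈ univ.filter (fun ψ => bl ψ = t), ω ψ = 0 := by
  have h : ∑ ψ ∈ univ.filter (fun ψ => bl ψ = t), ξ * ω ψ =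
      ∑ ψ ∈ univ.filter (fun ψ => bl ψ = t), ω ψ :=
    sum_equiv σ (fun ψ => by simp [hσb]) fun ψ _ => (hσ ψ).symm
  rw [← mul_sum] at h
  have h2 : (ξ - 1) * ∑ ψ ∈ univ.filter (fun ψ => bl ψ = t), ω ψ = 0 := by
    rw [sub_mul, h, one_mul, sub_self]
  exact (mul_eq_zero.1 h2).resolve_left (sub_ne_zero.2 hξ)

/-- The orbit relation. -/
def shape_orb {Ψ Γ : Type} [Group Γ] (act : Γ →* Equiv.Perm Ψ) : Setoid Ψ where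
  r ψ ψ' := ∃ n, act n ψ = ψ'
  iseqv :=
    ⟨fun ψ => ⟨1, by simp⟩, fun ⟨n, h⟩ => ⟨n⁻¹, by rw [← h]; simp⟩,
      fun ⟨n, h⟩ ⟨n', h'⟩ => ⟨n' * n, by rw [← h', ← h]; simp⟩⟩

/-- Apply `shape_val` to the members with `ω ≠ 1` of the fibre of `ψ₀`; the result extends to all
such members of the saturation. The sum of `ω` over a fibre is zero. Let `A` be the sum of `m - μ`
over the members with `ω = 1` of a fibre (the same for all fibres in the saturation, say `κ` of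
them). In the constant case `κ A = 0`. Otherwise `κ A + δ ∑ (orbit) ω = 0`, the values of `ω` on the
orbit are distinct, `root_sum` gives `κ A = δ`, so there is one fibre. -/
theorem shape {Ψ T ι Γ : Type} [Fintype Ψ] [Fintype ι] [Group Γ] (act : Γ →* Equiv.Perm Ψ)
    (σ : Equiv.Perm Ψ) (bl : Ψ → T) (ω : Ψ → ℂ) {r : ℕ} (hr : r.Prime) {ξ : ℂ} (hξ : ξ ≠ 1)
    (hω : ∀ ψ, ω ψ ^ r = 1) (hσ : ∀ ψ, ω (σ ψ) = ξ * ω ψ) (hσb : ∀ ψ, bl (σ ψ) = bl ψ)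
    (hab : ∀ n ψ ψ', bl ψ = bl ψ' → bl (act n ψ) = bl (act n ψ'))
    (hbad : ∀ n ψ, ω ψ = 1 → ω (act n ψ) = 1)
    (hgood : ∀ n ψ, ω ψ ≠ 1 → ω (act n ψ) = ω ψ → act n ψ = ψ)
    (m : ι → Ψ → ℤ) (hm : ∀ i n ψ, m i (act n ψ) = m i ψ) (d : ι → ℤ) (hd : ∀ i, 0 < d i)
    (hdeg : ∀ ψ ψ', bl ψ = bl ψ' → ∑ i, (m i ψ - m i ψ') * d i = 0)
    (hG : ∀ ψ₁ ψ₂ ψ₃ ψ₄, ω ψ₁ ≠ 1 → ω ψ₂ ≠ 1 → ω ψ₃ ≠ 1 → ω ψ₄ ≠ 1 → bl ψ₁ = bl ψ₂ →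
      bl ψ₃ = bl ψ₄ → ∑ i, (m i ψ₁ - m i ψ₂) * (m i ψ₃ - m i ψ₄) =
      (if ∃ n, act n ψ₁ = ψ₃ then 1 else 0) - (if ∃ n, act n ψ₁ = ψ₄ then 1 else 0) -
        (if ∃ n, act n ψ₂ = ψ₃ then 1 else 0) + if ∃ n, act n ψ₂ = ψ₄ then 1 else 0)
    (i : ι) (ψ₀ : Ψ)
    (h : ∑ ψ ∈ univ.filter (fun ψ => ∃ n, bl ψ = bl (act n ψ₀)), (m i ψ : ℂ) * ω ψ = 0)
    (ψ₁ : Ψ) (h₁ : ∃ n, bl ψ₁ = bl (act n ψ₀)) :
    ∑ ψ ∈ univ.filter (fun ψ => bl ψ = bl ψ₁), (m i ψ : ℂ) * ω ψ = 0 := by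
  have hinv : ∀ n ψ, act n⁻¹ (act n ψ) = ψ := fun n ψ => by simp
  have hinv' : ∀ n ψ, act n (act n⁻¹ ψ) = ψ := fun n ψ => by simp
  have hb : ∀ n ψ ψ', bl (act n ψ) = bl (act n ψ') ↔ bl ψ = bl ψ' := fun n ψ ψ' =>
    ⟨fun e => by simpa only [hinv] using hab n⁻¹ _ _ e, hab n ψ ψ'⟩
  have h1 : ∀ n ψ, ω (act n ψ) = 1 ↔ ω ψ = 1 := fun n ψ =>
    ⟨fun e => by simpa only [hinv] using hbad n⁻¹ _ e, hbad n ψ⟩
  have hX : ∀ n ψ, bl ψ = bl (act n ψ₀) → ω ψ ≠ 1 →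
      act n⁻¹ ψ ∈ {ψ | bl ψ = bl ψ₀ ∧ ω ψ ≠ 1} := fun n ψ e e' =>
    ⟨by simpa only [hinv] using hab n⁻¹ _ _ e, fun e2 => e' ((h1 _ _).1 e2)⟩
  have hv := shape_val (shape_orb act) {ψ | bl ψ = bl ψ₀ ∧ ω ψ ≠ 1} m d hd
    (fun ψ hψ ψ' hψ' => hdeg ψ ψ' (hψ.1.trans hψ'.1.symm))
    (fun ψ₁ a₁ ψ₂ a₂ ψ₃ a₃ ψ₄ a₄ => by
      convert hG ψ₁ ψ₂ ψ₃ ψ₄ a₁.2 a₂.2 a₃.2 a₄.2 (a₁.1.trans a₂.1.symm) (a₃.1.trans a₄.1.symm)
        using 4 <;> rfl) i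
  obtain ⟨S, hS⟩ : ∃ S, S = univ.filter (fun ψ => ∃ n, bl ψ = bl (act n ψ₀)) := ⟨_, rfl⟩
  have hmS : ∀ ψ, ψ ∈ S ↔ ∃ n, bl ψ = bl (act n ψ₀) := fun ψ => by simp [hS]
  rw [← hS] at h
  have key : ∀ μ : ℤ, ∃ (A : ℤ) (D : Ψ → ℂ),
      (∀ ψ, D ψ = if ω ψ = 1 then 0 else ((m i ψ - μ : ℤ) : ℂ) * ω ψ) ∧
      (∀ ψ ∈ S, ∑ ψ' ∈ univ.filter (fun ψ' => bl ψ' = bl ψ), (m i ψ' : ℂ) * ω ψ' =
        A + ∑ ψ' ∈ univ.filter (fun ψ' => bl ψ' = bl ψ), D ψ') ∧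
      ((S.image bl).card * A : ℤ) + ∑ ψ ∈ S, D ψ = 0 := by
    intro μ
    obtain ⟨a, ha⟩ : ∃ a : Ψ → ℤ, ∀ ψ, a ψ = if ω ψ = 1 then m i ψ - μ else 0 := ⟨_, fun _ => rfl⟩
    obtain ⟨D, hD⟩ : ∃ D : Ψ → ℂ,
        ∀ ψ, D ψ = if ω ψ = 1 then 0 else ((m i ψ - μ : ℤ) : ℂ) * ω ψ := ⟨_, fun _ => rfl⟩
    have e1 : ∀ ψ, (m i ψ : ℂ) * ω ψ = μ * ω ψ + (a ψ + D ψ) := by
      intro ψ
      rw [ha, hD]
      split_ifs with e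
      · rw [e]; push_cast; ring
      · push_cast; ring
    have e2 : ∀ ψ ∈ S, ∑ ψ' ∈ univ.filter (fun ψ' => bl ψ' = bl ψ), (m i ψ' : ℂ) * ω ψ' =
        (∑ ψ' ∈ univ.filter (fun ψ' => bl ψ' = bl ψ₀), a ψ' : ℤ) +
          ∑ ψ' ∈ univ.filter (fun ψ' => bl ψ' = bl ψ), D ψ' := by
      intro ψ hψ
      obtain ⟨n, hn⟩ := (hmS ψ).1 hψ
      have e3 : ∑ ψ' ∈ univ.filter (fun ψ' => bl ψ' = bl ψ₀), a ψ' =
          ∑ ψ' ∈ univ.filter (fun ψ' => bl ψ' = bl ψ), a ψ' :=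
        sum_equiv (act n) (fun ψ' => by simp [hn, hb]) fun ψ' _ => by rw [ha, ha, hm]; simp [h1]
      simp only [e1, sum_add_distrib]
      rw [← mul_sum, shape_fib σ bl ω hξ hσ hσb, e3]
      push_cast
      ring
    refine ⟨_, D, hD, e2, ?_⟩
    have e4 : ∀ f : Ψ → ℂ, ∑ ψ ∈ S, f ψ =
        ∑ t ∈ S.image bl, ∑ ψ ∈ univ.filter (fun ψ => bl ψ = t), f ψ := by
      intro f
      rw [← sum_fiberwise_of_maps_to (g := bl) (t := S.image bl)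
        fun ψ hψ => mem_image_of_mem bl hψ]
      refine sum_congr rfl fun t ht => sum_congr ?_ fun _ _ => rfl
      obtain ⟨ψ, hψ, rfl⟩ := mem_image.1 ht
      obtain ⟨n, hn⟩ := (hmS ψ).1 hψ
      ext ψ'
      simp only [mem_filter, mem_univ, true_and]
      exact ⟨fun e => e.2, fun e => ⟨(hmS ψ').2 ⟨n, e.trans hn⟩, e⟩⟩
    rw [← h, e4, e4, sum_congr rfl fun t ht => (by
      obtain ⟨ψ, hψ, rfl⟩ := mem_image.1 ht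
      exact e2 ψ hψ : ∑ ψ ∈ univ.filter (fun ψ => bl ψ = t), (m i ψ : ℂ) * ω ψ =
        (∑ ψ' ∈ univ.filter (fun ψ' => bl ψ' = bl ψ₀), a ψ' : ℤ) +
          ∑ ψ' ∈ univ.filter (fun ψ' => bl ψ' = t), D ψ'), sum_add_distrib, sum_const,
      nsmul_eq_mul]
    push_cast
    rfl
  have hS1 : ψ₁ ∈ S := (hmS ψ₁).2 h₁
  have hκ : 0 < (S.image bl).card := card_pos.2 ⟨_, mem_image_of_mem bl hS1⟩
  rcases hv with ⟨μ, hμ⟩ | ⟨μ, δ, hδ, χ, hχ, hμ⟩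
  · obtain ⟨A, D, hD, e2, e3⟩ := key μ
    have hD0 : ∀ ψ ∈ S, D ψ = 0 := by
      intro ψ hψ
      obtain ⟨n, hn⟩ := (hmS ψ).1 hψ
      rw [hD]
      split_ifs with e
      · rfl
      · rw [← hm i n⁻¹ ψ, hμ _ (hX n ψ hn e), sub_self, Int.cast_zero, zero_mul]
    rw [sum_eq_zero hD0, add_zero, Int.cast_eq_zero] at e3
    have hA : A = 0 := (mul_eq_zero.1 e3).resolve_left (by exact_mod_cast hκ.ne')
    obtain ⟨n, hn⟩ := h₁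
    rw [e2 ψ₁ hS1, hA, sum_eq_zero fun ψ hψ => hD0 ψ
      ((hmS ψ).2 ⟨n, (mem_filter.1 hψ).2.trans hn⟩), Int.cast_zero, add_zero]
  · obtain ⟨A, D, hD, e2, e3⟩ := key μ
    obtain ⟨O, hO⟩ : ∃ O, O = univ.filter (fun ψ => ∃ n, act n χ = ψ) := ⟨_, rfl⟩
    have hmO : ∀ ψ, ψ ∈ O ↔ ∃ n, act n χ = ψ := fun ψ => by simp [hO]
    have hO1 : ∀ ψ ∈ O, ω ψ ≠ 1 := by
      intro ψ hψ
      obtain ⟨n, rfl⟩ := (hmO ψ).1 hψ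
      exact fun e => hχ.2 ((h1 _ _).1 e)
    have hOS : O ⊆ S := by
      intro ψ hψ
      obtain ⟨n, rfl⟩ := (hmO ψ).1 hψ
      exact (hmS _).2 ⟨n, hab n _ _ hχ.1⟩
    have hD0 : ∀ ψ ∈ S, D ψ = if ψ ∈ O then δ * ω ψ else 0 := by
      intro ψ hψ
      obtain ⟨n, hn⟩ := (hmS ψ).1 hψ
      rw [hD]
      by_cases e : ω ψ = 1
      · rw [if_pos e, if_neg fun e' => hO1 ψ e' e]
      · have e5 : shape_orb act χ (act n⁻¹ ψ) ↔ ψ ∈ O := by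
          rw [hmO]
          exact ⟨fun e' => (shape_orb act).trans' e' ⟨n, hinv' n ψ⟩,
            fun e' => (shape_orb act).trans' e' ⟨n⁻¹, rfl⟩⟩
        rw [if_neg e, ← hm i n⁻¹ ψ, hμ _ (hX n ψ hn e), add_sub_cancel_left]
        by_cases e' : ψ ∈ O
        · rw [if_pos (e5.2 e'), if_pos e']
        · rw [if_neg fun e6 => e' (e5.1 e6), if_neg e', Int.cast_zero, zero_mul]
    have hinj : Set.InjOn ω O := by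
      intro ψ hψ ψ' hψ' e
      obtain ⟨n, hn⟩ := (shape_orb act).trans' ((shape_orb act).symm' ((hmO ψ).1 hψ))
        ((hmO ψ').1 hψ')
      rw [← hn, hgood n ψ (hO1 ψ hψ) (by rw [hn, e])]
    have e6 : ∑ ψ ∈ S, D ψ = δ * ∑ z ∈ O.image ω, z := by
      rw [sum_congr rfl hD0, sum_ite_mem, inter_eq_right.2 hOS, ← mul_sum, sum_image hinj]
    have hδ2 : δ * δ = 1 := by rcases hδ with rfl | rfl <;> rfl
    have e7 : ∑ z ∈ O.image ω, z = ((-(δ * ((S.image bl).card * A)) : ℤ) : ℂ) := by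
      have e8 : (δ : ℂ) * δ = 1 := by exact_mod_cast hδ2
      rw [e6] at e3
      rw [Int.cast_neg, Int.cast_mul]
      linear_combination δ * e3 - (∑ z ∈ O.image ω, z) * e8
    have e8 := root_sum hr (O.image ω) ⟨_, mem_image_of_mem ω ((hmO χ).2 ⟨1, by simp⟩)⟩
      (fun z hz => by
        obtain ⟨ψ, hψ, rfl⟩ := mem_image.1 hz
        exact ⟨hω ψ, hO1 ψ hψ⟩) e7
    have e9 : ((S.image bl).card : ℤ) = 1 :=
      Int.eq_one_of_mul_eq_one_right (b := δ * A) (Int.natCast_nonneg _) (by linarith)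
    have e10 : (S.image bl).card ≤ 1 := by omega
    rw [← h]
    refine sum_congr ?_ fun _ _ => rfl
    obtain ⟨n, hn⟩ := h₁
    ext ψ
    simp only [mem_filter, mem_univ, true_and]
    exact ⟨fun e => (hmS ψ).2 ⟨n, e.trans hn⟩, fun e =>
      card_le_one.1 e10 _ (mem_image_of_mem bl e) _ (mem_image_of_mem bl hS1)⟩

end Pool.Agent.Lib.MP_7d41f7_al
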