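import Pool.Agent.Lib.MP_7d41f7_al.NagA
import Pool.Agent.Lib.MP_7d41f7_al.NagB
import Pool.Agent.Lib.MP_7d41f7_al.Gram
import Pool.Agent.Lib.MP_7d41f7_al.Shape
import Pool.Agent.Lib.MP_7d41f7_al.Cyc

set_option autoImplicit false

namespace Pool.Agent.Lib.MP_7d41f7_al

open Finset Subgroup Pool.Agent.Lib.MP_b6945b_al OnePoint
open scoped Classical

variable {G : Type} [Group G] [Fintype G] {r : ℕ} {x : G}

theorem lemv_conv {H : Type} [Group H] [Fintype H] {n : ℕ} (ρ : H →* Matrix (Fin n) (Fin n) ℂ)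
    (f g : H → ℂ) : ∑ c, conv f g c • ρ c = (∑ c, f c • ρ c) * ∑ c, g c • ρ c := by
  simp only [conv, Finset.sum_smul, Finset.sum_mul, Finset.mul_sum]
  rw [Finset.sum_comm]
  conv_rhs => rw [Finset.sum_comm]
  refine Finset.sum_congr rfl fun y _ => ?_
  rw [← Equiv.sum_comp (Equiv.mulLeft y)]
  refine Finset.sum_congr rfl fun c _ => ?_
  simp [smul_smul, mul_comm]

theorem lemv_zf {H : Type} [Group H] [Fintype H] (J : IrrData H) {f : H → ℂ} (hf : IsCF f)
    (a : Fin J.n → ℂ) (g : H) :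
    ∑ c, J.zf a c * f (g * c) = ∑ j, a j * (mlt J f j * J.χ j g) := by
  have h : ∀ j, ∑ c, J.zf a c * J.χ j (g * c) = a j * J.χ j g := fun j => by
    simpa [Finset.mul_sum, Matrix.trace_sum, IrrData.χ] using
      congrArg (fun M => (J.ρ j g * M).trace) (J.fourier_zf a j)
  simp only [fun c => expand J hf (g * c), Finset.mul_sum]
  rw [Finset.sum_comm]
  refine Finset.sum_congr rfl fun j _ => ?_
  rw [mul_left_comm, ← h, Finset.mul_sum]
  exact Finset.sum_congr rfl fun c _ => mul_left_comm _ _ _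

/-- `exists_val`, `exists_ext`, `dich` with `o = I.om i Et` (`fourier_cf`, `om_mem`). `E` is an
idempotent by `zf_mul`, and `trace (ρ g * E) = ∑ c, E c * χ (g c)` is the part of `expand` over `P`
(`conv_χ`, `om_zf`). -/
theorem nagao [Fact r.Prime] (hx : orderOf x = r) (hf : Fus x) (I : IrrData G) (i : Fin I.n)
    {J : IrrData (Cx x)} (L : Loc r x J) (P : Fin J.n → Prop) (hσ : ∀ j, P (L.σ j) ↔ P j)
    (ha : ∀ n j, P (L.act n j) ↔ P j) :
    (∀ y : Cx x, ¬ r ∣ orderOf y → ∑ j ∈ univ.filter P,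
      mlt J (res (Cx x) (I.χ i)) j * J.χ j (xc x * y) = 0) ∨
    ∀ y : Cx x, ¬ r ∣ orderOf y → ∑ j ∈ univ.filter (fun j => ¬ P j),
      mlt J (res (Cx x) (I.χ i)) j * J.χ j (xc x * y) = 0 := by
  obtain ⟨V, hp⟩ := exists_val r
  obtain ⟨Et, h1, h2, h3⟩ := exists_ext hp hf L P hσ ha
  have hcf : IsCF (res (Cx x) (I.χ i)) := IsCF.res (I.χ_conj i) _
  obtain ⟨a, ha⟩ : ∃ a : Fin J.n → ℂ, a = fun j => if P j then 1 else 0 := ⟨_, rfl⟩
  have haa : a * a = a := by
    ext j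
    by_cases h : P j <;> simp [ha, h]
  rw [← ha] at h3
  obtain ⟨E, hE⟩ : ∃ E, E = ∑ c : Cx x, Et c • I.ρ i c := ⟨_, rfl⟩
  have hEE : E * E = E := by
    have h := lemv_conv ((I.ρ i).comp (Cx x).subtype) (J.zf a) (J.zf a)
    rw [← J.zf_mul, haa] at h
    simp only [hE, h3]
    exact h.symm
  have h4 : ∀ g : Cx x, (I.ρ i g * E).trace =
      ∑ j ∈ univ.filter P, mlt J (res (Cx x) (I.χ i)) j * J.χ j g := fun g => by
    have h := lemv_zf J hcf a g
    simp only [ha, ite_mul, one_mul, zero_mul, ← Finset.sum_filter] at h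
    rw [← h, ← ha]
    simp [hE, h3, Finset.mul_sum, Matrix.trace_sum, IrrData.χ, res]
  refine (dich hp hx (I.ρ i) h1 h2 (I.om_mem i h1 h2) (I.fourier_cf h1 i) hE hEE).imp
    (fun h y hy => (h4 _).symm.trans (h y y.2 (by simpa using hy))) fun h y hy => ?_
  have h5 := h y y.2 (by simpa using hy)
  have h6 := expand J hcf (xc x * y)
  rw [← Finset.sum_filter_add_sum_filter_not univ P, ← h4] at h6
  rw [mul_sub, mul_one, Matrix.trace_sub, sub_eq_zero] at h5
  exact left_eq_add.1 (h5.symm.trans h6)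

/-- The sets `P j₀ = {j | ∃ n, blk j = blk (act n j₀)}` partition the characters of the centraliser.
If the first alternative of `nagao` holds for all of them, sum up (`expand`). Otherwise
`χ (x y)` is the sum over one `P j₀` for all `y`; all degrees in `P j₀` are equal, `y = 1` gives the
hypothesis of `shape`, and `χ j y` is constant on the fibres of `blk`. -/
theorem lemV [Fact r.Prime] (hc : ∀ P : Sylow r G, IsCyclic P) (hx : orderOf x = r)
    (I : IrrData G) (i : Fin I.n) (h0 : I.χ i x = 0) {y : G} (hy : y * x = x * y)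
    (hry : ¬ r ∣ orderOf y) : I.χ i (x * y) = 0 := by
  have hr : r.Prime := Fact.out
  obtain ⟨lam, hlam⟩ := cyc_lin hc hx
  obtain ⟨J⟩ := exists_irrData (Cx x)
  obtain ⟨L⟩ := exists_loc J lam hlam
  have hcf : IsCF (res (Cx x) (I.χ i)) := IsCF.res (I.χ_conj i) _
  obtain ⟨Y, rfl⟩ : ∃ Y : Cx x, (Y : G) = y := ⟨⟨y, mem_centralizer_singleton_iff.2 hy⟩, rfl⟩
  replace hry : ¬ r ∣ orderOf Y := by simpa using hry
  have hr1 : ¬ r ∣ orderOf (1 : Cx x) := by simpa using hr.ne_one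
  obtain ⟨P, hP⟩ : ∃ P : Fin J.n → Fin J.n → Prop,
      ∀ j j₀, P j j₀ ↔ ∃ n, blk r J j = blk r J (L.act n j₀) := ⟨_, fun _ _ => Iff.rfl⟩
  have hact : ∀ (n : Nx x) j j₀, P j j₀ → P (L.act n j) j₀ := fun n j j₀ h => by
    obtain ⟨n', h⟩ := (hP _ _).1 h
    exact (hP _ _).2 ⟨n * n', by rw [map_mul]; exact L.blk_act n _ _ h⟩
  have hinv : ∀ (n : Nx x) j, L.act n⁻¹ (L.act n j) = j := fun n j => by simp
  have hblk : ∀ j j' j₀, blk r J j = blk r J j' → P j' j₀ → P j j₀ := fun j j' j₀ h h' => by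
    rwa [hP, h, ← hP]
  have hN := fun j₀ => nagao hx (cyc_fus hc hx) I i L (P · j₀) (fun j => by rw [hP, L.blk_σ, hP])
    fun n j => ⟨fun h => hinv n j ▸ hact n⁻¹ _ _ h, hact n j j₀⟩
  refine (expand J hcf (xc x * Y)).trans ?_
  by_cases hA : ∀ j₀, ∀ y : Cx x, ¬ r ∣ orderOf y → ∑ j ∈ univ.filter (P · j₀),
      mlt J (res (Cx x) (I.χ i)) j * J.χ j (xc x * y) = 0
  · let R : Setoid (Fin J.n) := ⟨P, fun j => (hP _ _).2 ⟨1, by simp⟩,
      fun h => ((hP _ _).1 h).elim fun n h => (hP _ _).2 ⟨n⁻¹, by rw [L.blk_act n⁻¹ _ _ h, hinv]⟩,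
      fun h h' => ((hP _ _).1 h).elim fun n h => hblk _ _ _ h (hact n _ _ h')⟩
    exact Finset.sum_cancels_of_partition_cancels R fun j₀ _ => hA j₀ Y hry
  obtain ⟨j₀, hB⟩ := not_forall.1 hA
  replace hB := (hN j₀).resolve_left hB
  choose m hm using fun i j => mlt_nat J ((I.ρ i).comp (Cx x).subtype) j
  replace hm : ∀ i j, mlt J (res (Cx x) (I.χ i)) j = ((m i j : ℤ) : ℂ) := fun i j => (hm i j).1
  have h1 : ∑ j ∈ univ.filter (P · j₀), ((m i j : ℤ) : ℂ) * L.ω j = 0 := by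
    have h2 := expand J hcf (xc x * 1)
    rw [← Finset.sum_filter_add_sum_filter_not univ (P · j₀), hB 1 hr1, add_zero] at h2
    refine (mul_eq_zero.1 ?_).resolve_right (J.d_ne j₀)
    rw [Finset.sum_mul, ← h0]
    refine Eq.trans (Finset.sum_congr rfl fun j hj => ?_) (h2.symm.trans (by simp [res, xc]))
    obtain ⟨n, hn⟩ := (hP _ _).1 (Finset.mem_filter.1 hj).2
    have h3 := congrFun hn 1
    simp only [blk, if_neg hr1, IrrData.χ_one, L.d_act] at h3
    rw [hm, L.ω_χ, J.χ_one, h3, mul_assoc]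
  have h2 := shape L.act L.σ (blk r J) L.ω hr (L.lam_ne hx) (L.ω_pow hx) L.ω_σ L.blk_σ L.blk_act
    L.bad (fun n j h h' => by rw [L.act_C n (L.good hr hx n j h h')]; rfl)
    (fun i j => (m i j : ℤ))
    (fun i n j => Int.cast_injective (α := ℂ) (by rw [← hm, ← hm, L.mlt_act (I.χ_conj i)]))
    (fun i => I.d i) (fun i => Nat.cast_pos.2 (I.pos i))
    (fun j j' h => Int.cast_injective (α := ℂ) (by
      simpa only [hm, Int.cast_sum, Int.cast_mul, Int.cast_sub, Int.cast_natCast, Int.cast_zero]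
        using gram_deg hr I j j' h))
    (fun j₁ j₂ j₃ j₄ h₁ h₂ _ _ h₁₂ h₃₄ => Int.cast_injective (α := ℂ) (by
      simpa only [hm, Int.cast_sum, Int.cast_mul, Int.cast_sub, Int.cast_add, Int.cast_ite,
        Int.cast_one, Int.cast_zero]
        using gram hr hx (cyc_ti hc hx) I L j₁ j₂ j₃ j₄ h₁ h₂ h₁₂ h₃₄)) i j₀
    (by convert h1 using 3; exact (hP _ _).symm)
  rw [← Finset.sum_filter_add_sum_filter_not univ (P · j₀), hB Y hry, add_zero]
  refine Finset.sum_cancels_of_partition_cancels (Setoid.ker (blk r J)) fun j₁ hj => ?_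
  have hj₁ := (Finset.mem_filter.1 hj).2
  rw [← zero_mul (J.χ j₁ Y), ← h2 j₁ ((hP _ _).1 hj₁), Finset.sum_mul]
  refine Finset.sum_congr (Finset.ext fun j => ?_) fun j hj => ?_
  · simp only [Finset.mem_filter, Finset.mem_univ, true_and]
    exact ⟨fun h => h.2, fun h => ⟨hblk _ _ _ h hj₁, h⟩⟩
  simp only [Finset.mem_filter, Finset.mem_univ, true_and] at hj
  have h3 := congrFun hj Y
  simp only [blk, if_neg hry] at h3
  rw [hm, L.ω_χ, h3, mul_assoc]

end Pool.Agent.Lib.MP_7d41f7_al
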