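import Mathlib

/-! Cutting a bounded quantifier in two. -/

set_option autoImplicit false

namespace Pool.Agent.Lib.MP_7d41f7_al

theorem ball_app {P : ℕ → Prop} {a b : ℕ} (h1 : ∀ q < a, P q) (h2 : ∀ q < b, a ≤ q → P q) :
    ∀ q < b, P q := fun q hq => (Nat.lt_or_ge q a).elim (h1 q) (h2 q hq)

theorem lall_app {P : ℕ → Prop} {T : List ℕ} (k : ℕ) (h1 : ∀ n ∈ T.take k, P n)
    (h2 : ∀ n ∈ T.drop k, P n) : ∀ n ∈ T, P n := fun n hn =>
  (List.mem_append.1 ((List.take_append_drop k T).symm ▸ hn)).elim (h1 n) (h2 n)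

end Pool.Agent.Lib.MP_7d41f7_al
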