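import Pool.Agent.Lib.MP_7d41f7_al.D.DFin

set_option autoImplicit false

namespace Pool.Agent.Lib.MP_7d41f7_al.AllClassicalResult

open Pool.Agent.Lib.MP_7d41f7_al

theorem result (S : Type) [Group S] (N q : ℕ)
    (hS : 3 ≤ N ∧ (IsSL S N q ∨ IsSU S N q) ∨ (∃ n, 2 ≤ n ∧ N = 2 * n ∧ IsSp S n q) ∨
      7 ≤ N ∧ IsOm S N q)
    (hN : 64 ≤ N ∨ 10 ^ 603 ≤ Nat.card S ∨ 4 ≤ N ∧ 256 < q ^ N ∧ IsSL S N q)
    (G : Type) [Group G] [Finite G] (hc : Nat.card G = Nat.card S) (hV : Vo G = Vo S) :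
    Nonempty (G ≃* S) ∨ ∃ (K : Subgroup G) (_ : K.Normal) (H : Subgroup (G ⧸ K)), H.Normal ∧
      IsSimpleGroup H ∧ ¬ IsMulCommutative H ∧ Subgroup.centralizer (H : Set (G ⧸ K)) = ⊥ ∧
      ¬ OnList3 H :=
  allclassical S N q hS hN G hc hV

end Pool.Agent.Lib.MP_7d41f7_al.AllClassicalResult
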