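import Pool.Agent.Lib.MP_7d41f7_al.Tr

set_option autoImplicit false

namespace Pool.Agent.Lib.MP_7d41f7_al

open Finset Subgroup Pool.Agent.Lib.MP_b6945b_al OnePoint
open scoped Classical

variable {G : Type} [Group G] [Fintype G]

theorem dz_split {A : Type} [AddCommMonoid A] (g : G) (F : G → A) :
    ∑ k, F k = ∑ j ∈ range (orderOf g), ∑ t : G ⧸ zpowers g, F (g ^ j * t.out⁻¹) := by
  rw [← Equiv.sum_comp (Equiv.inv G), ← Equiv.sum_comp (cosetEquiv (zpowers g)),
    Fintype.sum_prod_type, Finset.sum_comm, ← Equiv.sum_comp (Equiv.inv (zpowers g)),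
    ← Equiv.sum_comp (finEquivZPowers (isOfFinOrder_of_finite g)), Finset.sum_range]
  refine Finset.sum_congr rfl (fun j _ => Finset.sum_congr rfl (fun t _ => ?_))
  rw [cosetEquiv_apply]
  simp [finEquivZPowers_apply]

theorem dz_class (I : IrrData G) (i : Fin I.n) {c : ℕ} (hc : Nat.card G = I.d i * c) (h : G) :
    ∑ k, I.ρ i (k * h * k⁻¹) = ((c : ℂ) * I.χ i h) • 1 := by
  rw [I.scalar_of_comm i (∑ k, I.ρ i (k * h * k⁻¹)) (by
    intro x
    rw [Finset.sum_mul, Finset.mul_sum, ← Equiv.sum_comp (Equiv.mulLeft x)]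
    refine Finset.sum_congr rfl (fun k _ => ?_)
    rw [← map_mul, ← map_mul]
    congr 1
    simp only [Equiv.coe_mulLeft]
    group)]
  congr 1
  rw [Matrix.trace_sum]
  change (∑ k, I.χ i (k * h * k⁻¹)) / _ = _
  rw [Finset.sum_congr rfl (fun k _ => I.χ_conj i k h), Finset.sum_const,
    Finset.card_univ, ← Nat.card_eq_fintype_card, hc, nsmul_eq_mul, div_eq_iff (I.d_ne i)]
  push_cast
  ring

/-- Characters of defect zero vanish on singular elements. `c = ∑ over classes of om * χ` is a unit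
of `V` (`exists_val`, `om_mem`), so some `χ i h` is a unit; `∑ k, ρ (k h k⁻¹) = (c * χ i h) • 1`
(`scalar_of_comm`); split the sum over `G` along the cosets of `zpowers g` (`cosetEquiv`) and apply
`tr_zero` with `E = 1`. -/
theorem dz (I : IrrData G) (i : Fin I.n) {r c : ℕ} (hr : r.Prime) (hc : Nat.card G = I.d i * c)
    (hn : ¬ r ∣ c) {g : G} (hg : r ∣ orderOf g) : I.χ i g = 0 := by
  have : Fact r.Prime := ⟨hr⟩
  obtain ⟨V, hp⟩ := exists_val r
  have hcV : (c : ℂ) ∉ V.nonunits := fun e =>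
    hn (by exact_mod_cast int_dvd_of_mem (n := c) hp (by simpa using e))
  have h1 : I.om i (fun h => I.χ i h⁻¹) = c := by
    rw [IrrData.om, I.orth, if_pos rfl, ← Nat.card_eq_fintype_card, hc, div_eq_iff (I.d_ne i)]
    push_cast
    ring
  obtain ⟨h, hh⟩ : ∃ h, I.χ i h ∉ V.nonunits := by
    by_contra e
    push Not at e
    refine hcV (h1 ▸ I.om_mem_nonunits i (fun x y => ?_) (fun x => e _))
    rw [← I.χ_conj i x y⁻¹]
    congr 1
    group
  have hu := mul_not_mem_nonunits hcV hh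
  have hu0 : (c : ℂ) * I.χ i h ≠ 0 := fun e => hu (e ▸ zero_mem _)
  have h2 := tr_zero (ρ := I.ρ i) (E := 1)
    (w := ((c : ℂ) * I.χ i h)⁻¹ • ∑ t : G ⧸ zpowers g, I.ρ i (t.out⁻¹ * h * t.out⁻¹⁻¹)) hp hg
    (InV.smul (inv_mem_of_not_nonunit hu) (InV.sum _ _ (fun t _ => InV.elt V _ _)))
    (one_mul _) (by rw [one_mul, mul_one]) (by
      simp only [mul_smul_comm, smul_mul_assoc]
      rw [← Finset.smul_sum, eq_inv_smul_iff₀ hu0, ← dz_class I i hc h,
        dz_split g (fun k => I.ρ i (k * h * k⁻¹))]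
      refine Finset.sum_congr rfl (fun j _ => ?_)
      rw [Finset.mul_sum, Finset.sum_mul]
      refine Finset.sum_congr rfl (fun t _ => ?_)
      rw [← map_mul, ← map_mul]
      congr 1
      group)
  rwa [mul_one] at h2

end Pool.Agent.Lib.MP_7d41f7_al
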