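import Mathlib

set_option autoImplicit false

namespace Pool.Agent.Lib.MP_7d41f7_al

/-- The set of orders of the vanishing elements of `G`: the elements at which the character of some
irreducible complex representation is zero. -/
def Vo (G : Type) [Group G] : Set ℕ :=
  {n | ∃ g : G, orderOf g = n ∧ ∃ (d : ℕ) (ρ : Representation ℂ G (Fin d → ℂ)),
    ρ.IsIrreducible ∧ ρ.character g = 0}

end Pool.Agent.Lib.MP_7d41f7_al
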