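import Pool.Agent.Lib.MP_7d41f7_al.Defs

set_option autoImplicit false

namespace Pool.Agent.Lib.MP_7d41f7_al

open Finset Subgroup Pool.Agent.Lib.MP_b6945b_al OnePoint
open scoped Classical

variable {G : Type} [Group G] [Fintype G]

theorem ch1_expand (J : IrrData G) {f : G → ℂ} (hf : IsCF f) (c : G) :
    f c = ∑ j, mlt J f j * J.χ j c := by
  have h := congrFun (J.zf_om (z := fun g => f g⁻¹) fun h g => by
    simp only
    rw [show (h * g * h⁻¹)⁻¹ = h * g⁻¹ * h⁻¹ by group, hf]) c⁻¹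
  rw [inv_inv] at h
  rw [← h, IrrData.zf]
  refine Finset.sum_congr rfl fun j _ => ?_
  have h1 := J.d_ne j
  have h2 := IrrData.card_ne (H := G)
  rw [IrrData.om, mlt, inv_inv, ← Equiv.sum_comp (Equiv.inv G)]
  simp only [Equiv.inv_apply, inv_inv, mul_comm (f _)]
  field_simp

theorem ch1_cnt (g h : G) : (cnt g h : ℂ) = ∑ k : G, if k * g * k⁻¹ = h then 1 else 0 := by
  rw [cnt, Finset.natCast_card_filter]

/-- Column orthogonality (`IrrData.inversion` and `class_sum` for the class function `cnt g`). -/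
theorem col_orth (I : IrrData G) (g h : G) : ∑ i, I.χ i g * I.χ i h⁻¹ = (cnt g h : ℂ) := by
  have h1 := ch1_expand I (f := fun x => (cnt g x⁻¹ : ℂ)) (fun k x => by
    simp only [ch1_cnt]
    rw [← Equiv.sum_comp (Equiv.mulLeft k)]
    refine Finset.sum_congr rfl fun l _ => if_congr ?_ rfl rfl
    rw [Equiv.coe_mulLeft, show k * l * g * (k * l)⁻¹ = k * (l * g * l⁻¹) * k⁻¹ by group,
      show (k * x * k⁻¹)⁻¹ = k * x⁻¹ * k⁻¹ by group, mul_left_inj, mul_right_inj]) h⁻¹
  rw [inv_inv] at h1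
  rw [h1]
  refine Finset.sum_congr rfl fun j _ => congrArg (· * _) ?_
  rw [mlt, eq_div_iff IrrData.card_ne, ← Equiv.sum_comp (Equiv.inv G)]
  simp only [Equiv.inv_apply, inv_inv, ch1_cnt, Finset.mul_sum]
  rw [Finset.sum_comm]
  simp [IrrData.χ_conj, mul_comm]

theorem cnt_self (g : G) : cnt g g = Nat.card (Cx g) := by
  rw [cnt, Nat.card_eq_fintype_card, Fintype.card_subtype]
  congr 1
  ext k
  simp only [Finset.mem_filter, mem_centralizer_singleton_iff, mul_inv_eq_iff_eq_mul]

/-- Expansion of a class function (`zf_om` applied to `f ∘ inv`). -/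
theorem expand (J : IrrData G) {f : G → ℂ} (hf : IsCF f) (c : G) :
    f c = ∑ j, mlt J f j * J.χ j c := by
  exact ch1_expand J hf c

theorem mlt_χ (J : IrrData G) (i j : Fin J.n) : mlt J (J.χ i) j = if i = j then 1 else 0 := by
  rw [mlt, J.orth j i]
  split_ifs
  · exact div_self IrrData.card_ne
  · exact zero_div _

theorem ch1_cf {n : ℕ} (ρ : G →* Matrix (Fin n) (Fin n) ℂ) : IsCF fun g => (ρ g).trace :=
  fun h g => by
    simp only
    rw [map_mul, Matrix.trace_mul_comm, ← map_mul, inv_mul_cancel_left]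

/-- `Representation.card_inv_mul_sum_char_mul_char_eq_finrank` with `toRep`; the second part from
`expand` and `IrrData.orth`. -/
theorem mlt_nat (J : IrrData G) {n : ℕ} (ρ : G →* Matrix (Fin n) (Fin n) ℂ) (j : Fin J.n) :
    ∃ m : ℕ, mlt J (fun g => (ρ g).trace) j = m ∧
      (∑ c, J.χ j c * (ρ c⁻¹).trace) / Fintype.card G = m := by
  have : Invertible (Nat.card G : ℂ) :=
    invertibleOfNonzero (by exact_mod_cast (Nat.card_pos (α := G)).ne')
  have h := Representation.card_inv_mul_sum_char_mul_char_eq_finrank (toRep (J.ρ j)) (toRep ρ)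
  simp only [toRep_character] at h
  have h1 : (∑ c, J.χ j c * (ρ c⁻¹).trace) / Fintype.card G = mlt J (fun g => (ρ g).trace) j := by
    rw [Finset.sum_congr rfl fun c _ =>
      (congrArg (J.χ j c * ·) (expand J (ch1_cf ρ) c⁻¹)).trans (Finset.mul_sum _ _ _)]
    rw [Finset.sum_comm, div_eq_iff IrrData.card_ne]
    have e2 : ∀ i, ∑ c, J.χ j c * (mlt J (fun g => (ρ g).trace) i * J.χ i c⁻¹) =
        mlt J (fun g => (ρ g).trace) i * if j = i then (Fintype.card G : ℂ) else 0 := fun i => by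
      rw [← J.orth, Finset.mul_sum]
      exact Finset.sum_congr rfl fun c _ => by ring
    simp [e2]
  have h2 : mlt J (fun g => (ρ g).trace) j = _ := Eq.trans (by
    rw [mlt, div_eq_inv_mul, Nat.card_eq_fintype_card]
    simp only [IrrData.χ, mul_comm (ρ _).trace]) h
  exact ⟨_, h2, h1.trans h2⟩

/-- A character of norm one is irreducible. -/
theorem exists_idx (J : IrrData G) {n : ℕ} (ρ : G →* Matrix (Fin n) (Fin n) ℂ)
    (h : ∑ g, (ρ g⁻¹).trace * (ρ g).trace = Fintype.card G) :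
    ∃ j, ∀ g, J.χ j g = (ρ g).trace := by
  choose m h1 h2 using mlt_nat J ρ
  have e : ∀ c, (ρ c).trace = ∑ j, (m j : ℂ) * J.χ j c := fun c => by
    simp only [← h1]
    exact expand J (ch1_cf ρ) c
  have h3 : ∑ j, m j * m j = 1 := by
    have h4 : ∑ g, (ρ g⁻¹).trace * ∑ j, (m j : ℂ) * J.χ j g = Fintype.card G := by
      simpa only [← e] using h
    simp only [Finset.mul_sum] at h4
    rw [Finset.sum_comm] at h4
    have h5 : ∑ j, (m j : ℂ) * m j * Fintype.card G = 1 * Fintype.card G := by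
      rw [one_mul, ← h4]
      refine Finset.sum_congr rfl fun j _ => ?_
      rw [h4, mul_assoc, ← (div_eq_iff IrrData.card_ne).1 (h2 j), Finset.mul_sum]
      exact Finset.sum_congr rfl fun c _ => by ring
    rw [← Finset.sum_mul] at h5
    exact_mod_cast mul_right_cancel₀ IrrData.card_ne h5
  obtain ⟨j, -, hj⟩ := Finset.exists_ne_zero_of_sum_ne_zero (h3.trans_ne one_ne_zero)
  rw [← Finset.add_sum_erase _ _ (Finset.mem_univ j)] at h3
  have h6 : m j = 1 := Nat.eq_one_of_mul_eq_one_right (n := m j) (by omega)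
  have h7 := Finset.sum_eq_zero_iff.1 (show ∑ i ∈ univ.erase j, m i * m i = 0 by omega)
  refine ⟨j, fun g => ?_⟩
  rw [e, Finset.sum_eq_single j, h6, Nat.cast_one, one_mul]
  · intro i _ hi
    rw [mul_self_eq_zero.1 (h7 i (Finset.mem_erase.2 ⟨hi, Finset.mem_univ i⟩)), Nat.cast_zero,
      zero_mul]
  · simp

theorem exists_triv (J : IrrData G) : ∃ j, ∀ g, J.χ j g = 1 := by
  simpa using exists_idx J (1 : G →* Matrix (Fin 1) (Fin 1) ℂ) (by simp)

/-- The dual representation `g ↦ (ρ g⁻¹)ᵀ`. -/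
theorem exists_dual (J : IrrData G) (i : Fin J.n) : ∃ j, ∀ g, J.χ j g = J.χ i g⁻¹ := by
  let ρ : G →* Matrix (Fin (J.d i)) (Fin (J.d i)) ℂ :=
    { toFun := fun g => (J.ρ i g⁻¹).transpose
      map_one' := by simp
      map_mul' := fun g h => by rw [mul_inv_rev, map_mul, Matrix.transpose_mul] }
  have e : ∀ g, (ρ g).trace = J.χ i g⁻¹ := fun g => Matrix.trace_transpose _
  simpa only [e] using exists_idx J ρ (by
    have := J.orth i i
    rw [if_pos rfl] at this
    simpa only [e, inv_inv, mul_comm] using this)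

end Pool.Agent.Lib.MP_7d41f7_al
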