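import Pool.Agent.Lib.MP_7d41f7_al.C.CFin

set_option autoImplicit false

namespace Pool.Agent.Lib.MP_7d41f7_al.ClassicalResult

open Pool.Agent.Lib.MP_7d41f7_al

theorem result (S : Type) [Group S] (N q : ℕ) (hN : 64 ≤ N)
    (hS : IsSU S N q ∨ (∃ n, N = 2 * n ∧ IsSp S n q) ∨ IsOm S N q)
    (G : Type) [Group G] [Finite G] (hc : Nat.card G = Nat.card S) (hV : Vo G = Vo S) :
    Nonempty (G ≃* S) ∨ ∃ (K : Subgroup G) (_ : K.Normal) (H : Subgroup (G ⧸ K)), H.Normal ∧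
      IsSimpleGroup H ∧ ¬ IsMulCommutative H ∧ Subgroup.centralizer (H : Set (G ⧸ K)) = ⊥ ∧
      ¬ OnList H :=
  classical S N q hN hS G hc hV

end Pool.Agent.Lib.MP_7d41f7_al.ClassicalResult
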