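import Pool.Agent.Lib.MP_7d41f7_al.Defs

set_option autoImplicit false

namespace Pool.Agent.Lib.MP_7d41f7_al

open Finset Subgroup Pool.Agent.Lib.MP_b6945b_al OnePoint
open scoped Classical

variable {G : Type} [Group G] [Finite G]

/-- Count the pairs `(k, x)` in `G × (K \ 1)` by the value `k * x * k⁻¹`: every fibre is a coset of
the normaliser. -/
theorem card_conj (K : Subgroup G)
    (h : ∀ x ∈ K, x ≠ 1 → ∀ k : G, k * x * k⁻¹ ∈ K → k ∈ normalizer (K : Set G)) :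
    Nat.card {g : G // ∃ k : G, ∃ x ∈ K, x ≠ 1 ∧ g = k * x * k⁻¹} *
      Nat.card (normalizer (K : Set G)) = Nat.card G * (Nat.card K - 1) := by
  let S := {g : G // ∃ k : G, ∃ x ∈ K, x ≠ 1 ∧ g = k * x * k⁻¹}
  have hc : ∀ s : S, ∃ k x : G, x ∈ K ∧ x ≠ 1 ∧ s.1 = k * x * k⁻¹ := fun s => by
    obtain ⟨k, x, h1, h2, h3⟩ := s.2
    exact ⟨k, x, h1, h2, h3⟩
  choose c x hx h1 he using hc
  let f : S × normalizer (K : Set G) → G × {y : K // y ≠ 1} := fun z =>
    (c z.1 * z.2, ⟨⟨(z.2 : G)⁻¹ * x z.1 * z.2, (mem_normalizer_iff''.1 z.2.2 _).1 (hx _)⟩,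
      fun e => h1 z.1 (by simpa [mul_assoc, inv_mul_eq_one] using congrArg Subtype.val e)⟩)
  have hf : Function.Bijective f := by
    constructor
    · rintro ⟨s, n⟩ ⟨s', n'⟩ e
      have e1 : c s * n = c s' * n' := congrArg Prod.fst e
      have e2 : (n : G)⁻¹ * x s * n = (n' : G)⁻¹ * x s' * n' :=
        congrArg (fun z : G × {y : K // y ≠ 1} => (z.2.1 : G)) e
      obtain rfl : s = s' := by
        apply Subtype.ext
        calc s.1 = (c s * n) * ((n : G)⁻¹ * x s * n) * (c s * n)⁻¹ := by rw [he s]; group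
          _ = s'.1 := by rw [e1, e2, he s']; group
      exact Prod.ext rfl (Subtype.ext (mul_left_cancel e1))
    · rintro ⟨k, ⟨y, hy⟩, y1⟩
      have y2 : y ≠ 1 := fun e => y1 (Subtype.ext e)
      let s : S := ⟨k * y * k⁻¹, k, y, hy, y2, rfl⟩
      have e : (c s)⁻¹ * k * y * ((c s)⁻¹ * k)⁻¹ = x s := by
        have e1 : k * y * k⁻¹ = c s * x s * (c s)⁻¹ := he s
        calc _ = (c s)⁻¹ * (k * y * k⁻¹) * c s := by group
          _ = x s := by rw [e1]; group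
      refine ⟨(s, ⟨(c s)⁻¹ * k, h y hy y2 _ (e ▸ hx s)⟩), Prod.ext ?_ ?_⟩
      · show c s * ((c s)⁻¹ * k) = k
        group
      · apply Subtype.ext
        apply Subtype.ext
        show ((c s)⁻¹ * k)⁻¹ * x s * ((c s)⁻¹ * k) = y
        rw [← e]
        group
  have e := Nat.card_congr (Equiv.ofBijective f hf)
  have e' := Nat.card_congr (Equiv.optionSubtypeNe (1 : K))
  rw [Finite.card_option] at e'
  rw [Nat.card_prod, Nat.card_prod] at e
  rw [e, ← e', Nat.add_sub_cancel]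

theorem cnt_cyc {γ x y : G} (hx : x ∈ zpowers γ) (hy : y ∈ zpowers γ) (h : y ^ orderOf x = 1) :
    y ∈ zpowers x := by
  obtain ⟨i, rfl⟩ := mem_powers_iff_mem_zpowers.2 hx
  obtain ⟨j, rfl⟩ := mem_powers_iff_mem_zpowers.2 hy
  simp only at h ⊢
  have h0 := orderOf_pos (γ ^ i)
  have h1 : (orderOf γ).gcd i * orderOf (γ ^ i) = orderOf γ := by
    rw [orderOf_pow, Nat.mul_div_cancel' (Nat.gcd_dvd_left _ _)]
  rw [← pow_mul, ← orderOf_dvd_iff_pow_eq_one, ← h1] at h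
  obtain ⟨m, rfl⟩ := Nat.dvd_of_mul_dvd_mul_right h0 h
  rw [pow_mul]
  refine Subgroup.pow_mem _ (mem_zpowers_iff.2 ⟨(orderOf γ).gcdB i, ?_⟩) m
  rw [← zpow_natCast γ (Nat.gcd _ _), Nat.gcd_eq_gcd_ab, zpow_add, zpow_mul, zpow_mul,
    zpow_natCast, zpow_natCast, pow_orderOf_eq_one, one_zpow, one_mul]

theorem cnt_conj {γ x k : G} (hx : x ∈ zpowers γ) (hk : k * x * k⁻¹ ∈ zpowers γ) : k ∈ Nx x := by
  have h := cnt_cyc hx hk (by rw [conj_pow, pow_orderOf_eq_one, mul_one, mul_inv_cancel])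
  refine mem_normalizer_fintype ?_
  rintro _ ⟨m, rfl⟩
  simp only
  rw [← conj_zpow]
  exact zpow_mem h m

/-- Two elements of the same order of a finite cyclic group generate the same subgroup. -/
theorem ti_of_nrm {γ : G} (h : ∀ g ∈ zpowers γ, g ≠ 1 → Nx g = Nx γ) :
    ∀ x ∈ zpowers γ, x ≠ 1 → ∀ k : G, k * x * k⁻¹ ∈ zpowers γ → k ∈ Nx γ := by
  intro x hx h1 k hk
  rw [← h x hx h1]
  exact cnt_conj hx hk

/-- The normaliser of a cyclic group normalises its subgroups. -/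
theorem nx_le {γ g : G} (hg : g ∈ zpowers γ) : Nx γ ≤ Nx g := by
  intro k hk
  exact cnt_conj hg ((mem_normalizer_iff.1 hk g).1 hg)

theorem Dih.card {γ : G} (h : Dih γ) : Nat.card (Nx γ) = 2 * orderOf γ := by
  obtain ⟨w, h1, h2⟩ := h.ex
  have hi : ((zpowers γ).subgroupOf (Nx γ)).index = 2 := by
    refine index_eq_two_iff.2 ⟨⟨w, h2⟩, fun b => ?_⟩
    simp only [mem_subgroupOf, Subgroup.coe_mul]
    by_cases hb : (b : G) ∈ zpowers γ
    · exact Or.inr ⟨hb, fun e => h1 ((mul_mem_cancel_left hb).1 e)⟩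
    · exact Or.inl ⟨h.two b b.2 hb w h2 h1, hb⟩
  rw [← ((zpowers γ).subgroupOf (Nx γ)).card_mul_index, hi,
    Nat.card_congr (subgroupOfEquivOfLe le_normalizer).toEquiv, Nat.card_zpowers, mul_comm]

omit [Finite G] in
theorem cnt_zp (φ : G ≃* G) (g x : G) : φ x ∈ zpowers (φ g) ↔ x ∈ zpowers g := by
  simp only [mem_zpowers_iff, ← map_zpow, φ.apply_eq_iff_eq]

omit [Finite G] in
theorem cnt_nx (φ : G ≃* G) (g w : G) : φ w ∈ Nx (φ g) ↔ w ∈ Nx g := by
  rw [mem_normalizer_iff, mem_normalizer_iff, φ.surjective.forall]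
  simp only [← map_inv, ← map_mul, cnt_zp]

omit [Finite G] in
theorem cnt_tor (φ : G ≃* G) {γ : G} (h : Tor γ) : Tor (φ γ) := by
  refine ⟨⟨?_, ?_, ?_, ?_⟩, ?_⟩
  · obtain ⟨w, h1, h2⟩ := h.ex
    exact ⟨φ w, by rwa [cnt_zp], by rwa [cnt_nx]⟩
  · intro w h1 h2
    obtain ⟨w, rfl⟩ := φ.surjective w
    rw [← map_mul, h.sq w ((cnt_nx φ _ _).1 h1) (by rwa [cnt_zp] at h2), map_one]
  · intro w h1 h2 x hx
    obtain ⟨w, rfl⟩ := φ.surjective w
    obtain ⟨x, rfl⟩ := φ.surjective x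
    rw [← map_inv, ← map_mul, ← map_mul, h.inv w ((cnt_nx φ _ _).1 h1) (by rwa [cnt_zp] at h2) x
      ((cnt_zp φ _ _).1 hx), map_inv]
  · intro w h1 h2 x h3 h4
    obtain ⟨w, rfl⟩ := φ.surjective w
    obtain ⟨x, rfl⟩ := φ.surjective x
    rw [cnt_nx] at h1 h3
    rw [cnt_zp] at h2 h4
    rw [← map_mul, cnt_zp]
    exact h.two w h1 h2 x h3 h4
  · intro g hg h1
    obtain ⟨g, rfl⟩ := φ.surjective g
    ext w
    obtain ⟨w, rfl⟩ := φ.surjective w
    rw [cnt_nx, cnt_nx, h.nrm g ((cnt_zp φ _ _).1 hg) fun e => h1 (by rw [e, map_one])]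

omit [Finite G] in
/-- Transport along `MulAut.conj k`. -/
theorem Tor.conj {γ : G} (h : Tor γ) (k : G) : Tor (k * γ * k⁻¹) := by
  exact cnt_tor (MulAut.conj k) h

/-- An involution that acts without fixed points on a subgroup inverts it
(`MonoidHom.FixedPointFree.coe_eq_inv_of_involutive`). -/
theorem inv_of_fpf (D : Subgroup G) {s : G} (hs : s * s = 1) (hn : s ∈ normalizer (D : Set G))
    (hf : ∀ u ∈ D, s * u = u * s → u = 1) : ∀ u ∈ D, s * u * s⁻¹ = u⁻¹ := by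
  have hi : s⁻¹ = s := inv_eq_of_mul_eq_one_right hs
  let φ : MulAut D := D.normalizerMonoidHom ⟨s, hn⟩
  have hφ : ∀ u : D, (φ u : G) = s * u * s⁻¹ := fun _ => rfl
  have h1 : MonoidHom.FixedPointFree φ := fun u e => by
    have e1 : s * u * s⁻¹ = u := (hφ u).symm.trans (congrArg Subtype.val e)
    exact Subtype.ext (hf u u.2 (mul_inv_eq_iff_eq_mul.1 e1))
  have h2 : Function.Involutive φ := fun u => by
    apply Subtype.ext
    rw [hφ, hφ, hi]
    calc s * (s * u * s) * s = (s * s) * u * (s * s) := by simp only [mul_assoc]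
      _ = u := by rw [hs, one_mul, mul_one]
  intro u hu
  exact congrArg Subtype.val (congrFun (h1.coe_eq_inv_of_involutive h2) ⟨u, hu⟩)

end Pool.Agent.Lib.MP_7d41f7_al
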