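import Pool.Agent.Lib.MP_7d41f7_al.S1

set_option autoImplicit false

namespace Pool.Agent.Lib.MP_7d41f7_al

open Finset Subgroup Pool.Agent.Lib.MP_b6945b_al OnePoint
open scoped Classical

variable {F : Type} [Field F] [Finite F]

theorem s2_ch {R : Type} [CommRing R] (B : Matrix (Fin 2) (Fin 2) R) (h : B.det = 1) :
    B * B = B.trace • B - 1 := by
  rw [Matrix.det_fin_two] at h
  ext i j
  fin_cases i <;> fin_cases j <;>
    simp [Matrix.mul_apply, Fin.sum_univ_two, Matrix.trace_fin_two]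
  · linear_combination -h
  · ring
  · ring
  · linear_combination -h

theorem s2_pow {K : Type} [CommRing K] {B : Matrix (Fin 2) (Fin 2) K} {ξ ξ' : K} (h1 : ξ * ξ' = 1)
    (h2 : B * B = (ξ + ξ') • B - 1) (k : ℕ) :
    (ξ - ξ') • B ^ k = (ξ ^ k - ξ' ^ k) • B -
      (ξ ^ k * ξ' - ξ' ^ k * ξ) • (1 : Matrix (Fin 2) (Fin 2) K) := by
  induction k with
  | zero => simp [← neg_smul]
  | succ k ih =>
    have e : ξ ^ (k + 1) * ξ' - ξ' ^ (k + 1) * ξ = ξ ^ k - ξ' ^ k := by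
      linear_combination (ξ ^ k - ξ' ^ k) * h1
    rw [pow_succ B, ← smul_mul_assoc, ih, sub_mul, smul_mul_assoc, smul_mul_assoc, h2, one_mul, e]
    module

theorem s2_uni {R : Type} [CommRing R] {N : Matrix (Fin 2) (Fin 2) R} (h : N * N = 0) (k : ℕ) :
    (1 + N) ^ k = 1 + (k : R) • N := by
  induction k with
  | zero => simp
  | succ k ih =>
    rw [pow_succ, ih, add_mul, mul_add, mul_add, smul_mul_assoc, smul_mul_assoc, h, one_mul,
      one_mul, mul_one]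
    push_cast
    module

theorem s2_one (A : Matrix.SpecialLinearGroup (Fin 2) F) (k : ℕ) :
    (QuotientGroup.mk A : PS F) ^ k = 1 ↔ A.1 ^ k = 1 ∨ A.1 ^ k = -1 := by
  rw [← QuotientGroup.mk_pow, ← QuotientGroup.mk_one, mk_eq_iff]
  exact or_congr Subtype.ext_iff Subtype.ext_iff

theorem s2_two (A : Matrix.SpecialLinearGroup (Fin 2) F) (h : A.1.trace = 2) :
    orderOf (QuotientGroup.mk A : PS F) ∣ ringChar F := by
  refine orderOf_dvd_of_pow_eq_one ((s2_one A _).2 (Or.inl ?_))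
  have h1 : (A.1 - 1) * (A.1 - 1) = 0 := by
    rw [sub_mul, mul_sub, mul_sub, s2_ch A.1 A.2, h, one_mul, mul_one, one_mul]
    module
  have h3 := s2_uni h1 (ringChar F)
  rwa [add_sub_cancel, ringChar.Nat.cast_ringChar, zero_smul, add_zero] at h3

omit [Finite F] in
theorem s2_map {K : Type} [Field K] (φ : F →+* K) (A : Matrix.SpecialLinearGroup (Fin 2) F)
    {ξ ξ' : K} (h1 : ξ * ξ' = 1) (h2 : ξ + ξ' = φ A.1.trace) (k : ℕ) :
    (ξ - ξ') • φ.mapMatrix (A.1 ^ k) = (ξ ^ k - ξ' ^ k) • φ.mapMatrix A.1 -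
      (ξ ^ k * ξ' - ξ' ^ k * ξ) • (1 : Matrix (Fin 2) (Fin 2) K) := by
  rw [map_pow]
  refine s2_pow h1 ?_ k
  rw [← map_mul, s2_ch A.1 A.2, map_sub, map_one, h2]
  congr 1
  ext i j
  simp

theorem s2_of {K : Type} [Field K] (φ : F →+* K) (A : Matrix.SpecialLinearGroup (Fin 2) F)
    {ξ ξ' : K} (h1 : ξ * ξ' = 1) (h2 : ξ + ξ' = φ A.1.trace) (h3 : ξ ≠ ξ') {k : ℕ}
    (hk : ξ ^ (2 * k) = 1) : orderOf (QuotientGroup.mk A : PS F) ∣ k := by
  refine orderOf_dvd_of_pow_eq_one ((s2_one A _).2 ?_)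
  have h4 := s2_map φ A h1 h2 k
  have h5 : ξ ^ k * ξ' ^ k = 1 := by rw [← mul_pow, h1, one_pow]
  have h6 : ξ ^ k * ξ ^ k = 1 := by rw [← pow_add, ← two_mul, hk]
  have h7 : ξ' ^ k = ξ ^ k := by linear_combination ξ ^ k * h5 - ξ' ^ k * h6
  have h8 : φ.mapMatrix (A.1 ^ k) = ξ ^ k • (1 : Matrix (Fin 2) (Fin 2) K) := by
    refine smul_right_injective _ (sub_ne_zero.2 h3) ?_
    beta_reduce
    rw [h4, h7]
    module
  have inj : Function.Injective (φ.mapMatrix (m := Fin 2)) := fun M M' e =>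
    Matrix.map_injective φ.injective e
  rcases mul_self_eq_one_iff.1 h6 with e | e
  · exact Or.inl (inj (by rw [h8, e, one_smul, map_one]))
  · exact Or.inr (inj (by rw [h8, e, neg_smul, one_smul, map_neg, map_one]))

theorem s2_to {K : Type} [Field K] (φ : F →+* K) (A : Matrix.SpecialLinearGroup (Fin 2) F)
    {ξ ξ' : K} (h1 : ξ * ξ' = 1) (h2 : ξ + ξ' = φ A.1.trace) (h3 : A.1 0 1 ≠ 0) {k : ℕ}
    (hk : (QuotientGroup.mk A : PS F) ^ k = 1) : ξ ^ (2 * k) = 1 := by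
  have h4 := congrFun (congrFun (s2_map φ A h1 h2 k) 0) 1
  have h5 : (A.1 ^ k) 0 1 = 0 := by
    rcases (s2_one A k).1 hk with e | e <;> simp [e]
  have h6 : (ξ ^ k - ξ' ^ k) * φ (A.1 0 1) = 0 := by
    simpa [h5] using h4.symm
  have h7 := sub_eq_zero.1 ((mul_eq_zero.1 h6).resolve_right ((map_ne_zero φ).2 h3))
  rw [two_mul, pow_add]
  nth_rewrite 2 [h7]
  rw [← mul_pow, h1, one_pow]

theorem s2_frob (K : Type) [Field K] [Algebra F K] :
    ∃ σ : K →ₐ[F] K, ∀ x, σ x = x ^ Nat.card F := by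
  have := Fintype.ofFinite F
  exact ⟨FiniteField.frobeniusAlgHom F K, fun x => by rw [Nat.card_eq_fintype_card]; rfl⟩

theorem s2_fix {K : Type} [Field K] [Algebra F K] {x : K} (h : x ^ Nat.card F = x) :
    ∃ t : F, algebraMap F K t = x := by
  refine (Polynomial.splits_X_pow_nat_card_sub_X (K := F)).mem_range_of_isRoot
    (FiniteField.X_pow_card_sub_X_ne_zero F Finite.one_lt_card) ?_
  simp [h]

theorem s2_odd (h2 : ringChar F ≠ 2) : ∃ m, Nat.card F = 2 * m + 1 := by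
  have := Fintype.ofFinite F
  have h := FiniteField.odd_card_of_char_ne_two h2
  rw [← Nat.card_eq_fintype_card] at h
  exact ⟨Nat.card F / 2, by omega⟩

/-- Let `A` represent `g`, `t` its trace, `A ^ 2 = t • A - 1`. If `t = ± 2`, then `(± A - 1) ^ 2 = 0` and
`(± A) ^ p = 1`. Otherwise let `ξ ≠ ξ⁻¹` be the roots of `X ^ 2 - t X + 1` in the algebraic closure.
`ξ ^ q` is a root, so `ξ ^ (2 m) = 1` for `2 m = q - 1` or `q + 1`, `η = ξ ^ m = ξ⁻¹ ^ m = ± 1`, the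
polynomial divides `X ^ m - η` and `A ^ m = ± 1`. -/
theorem ord_PS (h2 : ringChar F ≠ 2) (g : PS F) : orderOf g ∣ ringChar F ∨
    2 * orderOf g ∣ Nat.card F - 1 ∨ 2 * orderOf g ∣ Nat.card F + 1 := by
  obtain ⟨A, rfl⟩ := QuotientGroup.mk_surjective g
  by_cases h4 : A.1.trace ^ 2 = 4
  · left
    have h5 : (A.1.trace - 2) * (A.1.trace + 2) = 0 := by linear_combination h4
    rcases mul_eq_zero.1 h5 with e | e
    · exact s2_two A (sub_eq_zero.1 e)
    · rw [(mk_eq_iff A (-A)).2 (Or.inr (neg_neg A).symm)]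
      refine s2_two (-A) ?_
      rw [Matrix.SpecialLinearGroup.coe_neg, Matrix.trace_neg]
      linear_combination -e
  right
  let K := AlgebraicClosure F
  let φ := algebraMap F K
  have h5 : (2 : K) ≠ 0 := by
    rw [← map_ofNat φ 2]
    exact (map_ne_zero φ).2 (Ring.two_ne_zero h2)
  obtain ⟨d, hd⟩ := IsAlgClosed.exists_pow_nat_eq (φ A.1.trace ^ 2 - 4) two_pos
  obtain ⟨ξ, ξ', k1, k2, k3⟩ : ∃ ξ ξ' : K, ξ * ξ' = 1 ∧ ξ + ξ' = φ A.1.trace ∧ ξ ≠ ξ' := by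
    obtain ⟨u, hu⟩ : ∃ u : K, 2 * u = 1 := ⟨2⁻¹, mul_inv_cancel₀ h5⟩
    refine ⟨(φ A.1.trace + d) * u, (φ A.1.trace - d) * u, ?_, ?_, fun e => h4 (φ.injective ?_)⟩
    · linear_combination -u ^ 2 * hd + (2 * u + 1) * hu
    · linear_combination φ A.1.trace * hu
    · have e' : d = 0 := by linear_combination e - d * hu
      rw [e'] at hd
      rw [map_pow, map_ofNat]
      linear_combination -hd
  obtain ⟨σ, hσ⟩ := s2_frob (F := F) K
  obtain ⟨m, hm⟩ := s2_odd h2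
  have h0 : ξ ≠ 0 := left_ne_zero_of_mul_eq_one k1
  have h6 : σ ξ * σ ξ' = 1 := by rw [← map_mul, k1, map_one]
  have h7 : σ ξ + σ ξ' = ξ + ξ' := by rw [← map_add, k2]; exact σ.commutes _
  have h8 : (σ ξ - ξ) * (σ ξ - ξ') = 0 := by linear_combination σ ξ * h7 - h6 + k1
  rw [hσ, hm] at h8
  rw [hm]
  rcases mul_eq_zero.1 h8 with e | e
  · refine Or.inl (Nat.mul_dvd_mul_left 2 (s2_of φ A k1 k2 k3 (mul_right_cancel₀ h0 ?_)))
    linear_combination e
  · refine Or.inr (Nat.mul_dvd_mul_left 2 (s2_of φ A k1 k2 k3 (k := m + 1) ?_))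
    linear_combination ξ * e + k1

/-- Let `ξ` be an element of order `2 m` of the field with `q ^ 2` elements (or a primitive root of
unity in the algebraic closure). `t = ξ + ξ⁻¹` is fixed by `x ↦ x ^ q`, so it comes from `F`. The
matrix `A = !![0, -1; 1, t]` has the eigenvectors `(1, -ξ)` and `(1, -ξ⁻¹)`, so `A ^ k = ± 1` if and only
if `ξ ^ (2 k) = 1`. -/
theorem exists_ord2 (h2 : ringChar F ≠ 2) {m : ℕ} (hm : 2 < m)
    (hd : 2 * m ∣ Nat.card F - 1 ∨ 2 * m ∣ Nat.card F + 1) :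
    ∃ A : Matrix.SpecialLinearGroup (Fin 2) F, A.1.trace ≠ 0 ∧ A.1.trace ^ 2 ≠ 4 ∧
      orderOf (QuotientGroup.mk A : PS F) = m := by
  let K := AlgebraicClosure F
  let φ := algebraMap F K
  have hq : 0 < Nat.card F := Nat.card_pos
  have h0 : ((Nat.card F : ℕ) : F) = 0 := by
    have := Fintype.ofFinite F
    rw [Nat.card_eq_fintype_card]
    exact FiniteField.cast_card_eq_zero F
  have hd' : (∃ c, Nat.card F = 2 * m * c + 1) ∨ ∃ c, Nat.card F + 1 = 2 * m * c :=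
    hd.imp (fun ⟨c, hc⟩ => ⟨c, by omega⟩) id
  have : NeZero ((2 * m : ℕ) : F) := ⟨fun e => by
    rcases hd' with ⟨c, hc⟩ | ⟨c, hc⟩
    · have h1 := congrArg (Nat.cast : ℕ → F) hc
      rw [h0, Nat.cast_add, Nat.cast_mul, e, zero_mul, zero_add, Nat.cast_one] at h1
      exact zero_ne_one h1
    · have h1 := congrArg (Nat.cast : ℕ → F) hc
      rw [Nat.cast_add, h0, Nat.cast_mul, e, zero_mul, zero_add, Nat.cast_one] at h1
      exact one_ne_zero h1⟩
  obtain ⟨ξ, hξ⟩ := HasEnoughRootsOfUnity.exists_primitiveRoot K (2 * m)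
  have hz : ξ ≠ 0 := hξ.ne_zero (by omega)
  have k1 : ξ * ξ⁻¹ = 1 := mul_inv_cancel₀ hz
  obtain ⟨σ, hσ⟩ := s2_frob (F := F) K
  obtain ⟨t, ht⟩ : ∃ t : F, φ t = ξ + ξ⁻¹ := by
    refine s2_fix ?_
    rw [← hσ, map_add, map_inv₀, hσ]
    rcases hd' with ⟨c, hc⟩ | ⟨c, hc⟩
    · rw [hc, pow_succ, pow_mul, hξ.pow_eq_one, one_pow, one_mul]
    · have h1 : ξ ^ Nat.card F = ξ⁻¹ := by
        refine eq_inv_of_mul_eq_one_left ?_
        rw [← pow_succ, hc, pow_mul, hξ.pow_eq_one, one_pow]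
      rw [h1, inv_inv, add_comm]
  have h4 : ξ ^ 4 ≠ 1 := fun e => by
    have := Nat.le_of_dvd (by omega) (hξ.dvd_of_pow_eq_one 4 e)
    omega
  have k3 : ξ ≠ ξ⁻¹ := fun e => h4 (by linear_combination (ξ ^ 2 + 1) * (ξ * e + k1))
  let A : Matrix.SpecialLinearGroup (Fin 2) F := ⟨!![0, -1; 1, t], by simp [Matrix.det_fin_two]⟩
  have hA : A.1.trace = t := by simp [A, Matrix.trace_fin_two]
  have k2 : ξ + ξ⁻¹ = φ A.1.trace := by rw [hA, ht]
  refine ⟨A, fun e => h4 ?_, fun e => k3 ?_, Nat.dvd_antisymm (s2_of φ A k1 k2 k3 hξ.pow_eq_one) ?_⟩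
  · rw [e, map_zero] at k2
    linear_combination (ξ ^ 2 - 1) * (ξ * k2 - k1)
  · have h5 := congrArg φ e
    rw [map_pow, map_ofNat, ← k2] at h5
    refine sub_eq_zero.1 (pow_eq_zero_iff two_ne_zero |>.1 ?_)
    linear_combination h5 - 4 * k1
  · have h5 := s2_to φ A k1 k2 (by simp [A]) (pow_orderOf_eq_one _)
    exact Nat.dvd_of_mul_dvd_mul_left two_pos (hξ.dvd_of_pow_eq_one _ h5)

end Pool.Agent.Lib.MP_7d41f7_al
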