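import Pool.Agent.Lib.MP_7d41f7_al.S1

set_option autoImplicit false

namespace Pool.Agent.Lib.MP_7d41f7_al

open Finset Subgroup Pool.Agent.Lib.MP_b6945b_al OnePoint
open scoped Classical

variable {F : Type} [Field F] [Finite F]

/-- For `y ≠ 0` write `x = 1 + l y`; then `y (l ^ 2 + t l + 1) = -(2 l + t)`, so `l` determines `y` and
`2 l + t ≠ 0`. For `y = 0` there are two points. -/
theorem card_conic (h2 : ringChar F ≠ 2) {t : F} (ht : t ^ 2 ≠ 4) :
    Nat.card {z : F × F // z.1 ^ 2 + t * z.1 * z.2 + z.2 ^ 2 = 1} ≤ Nat.card F + 1 := by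
  have h20 : (2 : F) ≠ 0 := Ring.two_ne_zero h2
  let g : Option F → F × F := fun o => o.elim (-1, 0) fun l =>
    (1 + l * (-(2 * l + t) / (l ^ 2 + t * l + 1)), -(2 * l + t) / (l ^ 2 + t * l + 1))
  have hg : ∀ z : {z : F × F // z.1 ^ 2 + t * z.1 * z.2 + z.2 ^ 2 = 1}, ∃ o, g o = z.1 := by
    rintro ⟨⟨x, y⟩, h⟩
    dsimp only at h ⊢
    by_cases hy : y = 0
    · subst hy
      have h1 : (x - 1) * (x + 1) = 0 := by linear_combination h
      rcases mul_eq_zero.1 h1 with h1 | h1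
      · have e : 2 * (-t / 2) + t = 0 := by
          rw [mul_div_cancel₀ _ h20, neg_add_cancel]
        refine ⟨Option.some (-t / 2), ?_⟩
        simp only [g, Option.elim, e, neg_zero, zero_div, mul_zero, add_zero, sub_eq_zero.1 h1]
      · exact ⟨none, by rw [eq_neg_of_add_eq_zero_left h1]; rfl⟩
    · obtain ⟨l, rfl⟩ : ∃ l, x = 1 + l * y := ⟨(x - 1) / y, by rw [div_mul_cancel₀ _ hy]; ring⟩
      have h1 : y * (l ^ 2 + t * l + 1) = -(2 * l + t) :=
        mul_left_cancel₀ hy (by linear_combination h)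
      have h3 : l ^ 2 + t * l + 1 ≠ 0 := fun h3 => by
        rw [h3, mul_zero] at h1
        exact ht (by linear_combination (2 * l + t) * h1 - 4 * h3)
      refine ⟨Option.some l, ?_⟩
      simp only [g, Option.elim, ← eq_div_of_mul_eq h3 h1]
  choose f hf using hg
  rw [← Finite.card_option]
  exact Nat.card_le_card_of_injective f fun z z' h => Subtype.ext (by rw [← hf, h, hf])

omit [Finite F] in
theorem s3_comm (A K : Matrix.SpecialLinearGroup (Fin 2) F) (h4 : A.1.trace ^ 2 ≠ 4)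
    (h : K * A = A * K) : ∃ z : {z : F × F // z.1 ^ 2 + A.1.trace * z.1 * z.2 + z.2 ^ 2 = 1},
      K.1 = z.1.1 • (1 : Matrix (Fin 2) (Fin 2) F) + z.1.2 • A.1 := by
  have hm : K.1 * A.1 = A.1 * K.1 := congrArg Subtype.val h
  have e00 := congrFun (congrFun hm 0) 0
  have e01 := congrFun (congrFun hm 0) 1
  have e10 := congrFun (congrFun hm 1) 0
  have dA := A.2
  have dK := K.2
  simp only [Matrix.mul_apply, Fin.sum_univ_two] at e00 e01 e10
  rw [Matrix.det_fin_two] at dA dK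
  rw [Matrix.trace_fin_two] at h4 ⊢
  have hD : (A.1 0 0 + A.1 1 1) ^ 2 - 4 ≠ 0 := sub_ne_zero.2 h4
  obtain ⟨y, hy⟩ : ∃ y : F, y * ((A.1 0 0 + A.1 1 1) ^ 2 - 4) =
      (A.1 0 0 - A.1 1 1) * (K.1 0 0 - K.1 1 1) + 2 * (A.1 0 1 * K.1 1 0 + A.1 1 0 * K.1 0 1) :=
    ⟨_, div_mul_cancel₀ _ hD⟩
  have f01 : K.1 0 1 = y * A.1 0 1 := mul_right_cancel₀ hD (by
    linear_combination (-A.1 0 1) * hy + 4 * K.1 0 1 * dA - (A.1 0 0 - A.1 1 1) * e01 +
      2 * A.1 0 1 * e00)
  have f10 : K.1 1 0 = y * A.1 1 0 := mul_right_cancel₀ hD (by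
    linear_combination (-A.1 1 0) * hy + 4 * K.1 1 0 * dA + (A.1 0 0 - A.1 1 1) * e10 -
      2 * A.1 1 0 * e00)
  have f11 : K.1 0 0 - K.1 1 1 = y * (A.1 0 0 - A.1 1 1) := mul_right_cancel₀ hD (by
    linear_combination (-(A.1 0 0 - A.1 1 1)) * hy + 4 * (K.1 0 0 - K.1 1 1) * dA +
      2 * A.1 1 0 * e01 - 2 * A.1 0 1 * e10)
  have g11 : K.1 1 1 = K.1 0 0 - y * (A.1 0 0 - A.1 1 1) := by linear_combination -f11
  refine ⟨⟨(K.1 0 0 - y * A.1 0 0, y), ?_⟩, ?_⟩
  · rw [f01, f10, g11] at dK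
    linear_combination dK - y ^ 2 * dA
  · ext i j
    fin_cases i <;> fin_cases j <;> simp [f01, f10, g11]
    ring

omit [Finite F] in
theorem s3_sign (h2 : (2 : F) ≠ 0) (A K : Matrix.SpecialLinearGroup (Fin 2) F)
    (h0 : A.1.trace ≠ 0) : K * A ≠ -(A * K) := by
  intro h
  have h1 : A = -(K⁻¹ * (A * K)) := by rw [← mul_neg, ← h, inv_mul_cancel_left]
  have h3 : A.1 = -((K⁻¹).1 * (A * K).1) := congrArg Subtype.val h1
  have h4 : (A * K).1 * (K⁻¹).1 = A.1 := congrArg Subtype.val (mul_inv_cancel_right A K)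
  have h5 := congrArg Matrix.trace h3
  rw [Matrix.trace_neg, Matrix.trace_mul_comm, h4] at h5
  exact h0 (mul_left_cancel₀ h2 (by linear_combination h5))

omit [Finite F] in
theorem s3_ne_neg (h2 : (2 : F) ≠ 0) (K : Matrix.SpecialLinearGroup (Fin 2) F) : K ≠ -K := by
  intro h
  have h1 : (1 : Matrix.SpecialLinearGroup (Fin 2) F) = -1 := by
    rw [← inv_mul_cancel K, ← mul_neg, ← h]
  have h3 : (1 : Matrix (Fin 2) (Fin 2) F) = -1 := congrArg Subtype.val h1
  have h4 := congrFun (congrFun h3 0) 0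
  simp only [Matrix.neg_apply, Matrix.one_apply_eq] at h4
  exact h2 (by linear_combination h4)

/-- If `K A K⁻¹ = ± A` the sign is `+` by the trace. A matrix that commutes with the nonscalar matrix
`A` is `x • 1 + y • A`, of determinant `x ^ 2 + t x y + y ^ 2`. The preimage of the centraliser in `SL`
has twice its order. -/
theorem card_cen (h2 : ringChar F ≠ 2) (A : Matrix.SpecialLinearGroup (Fin 2) F)
    (h0 : A.1.trace ≠ 0) (h4 : A.1.trace ^ 2 ≠ 4) :
    2 * Nat.card (Cx (QuotientGroup.mk A : PS F)) ≤ Nat.card F + 1 := by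
  have h20 : (2 : F) ≠ 0 := Ring.two_ne_zero h2
  let k : Bool × Cx (QuotientGroup.mk A : PS F) → Matrix.SpecialLinearGroup (Fin 2) F :=
    fun c => if c.1 then Quotient.out c.2.1 else -Quotient.out c.2.1
  have hk : ∀ c, (QuotientGroup.mk (k c) : PS F) = c.2.1 := by
    rintro ⟨b, c⟩
    cases b
    · exact ((mk_eq_iff _ _).2 (Or.inr rfl)).trans (QuotientGroup.out_eq' c.1)
    · exact QuotientGroup.out_eq' c.1
  have hi : Function.Injective k := by
    rintro ⟨b, c⟩ ⟨b', c'⟩ h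
    obtain rfl : c = c' := Subtype.ext ((hk (b, c)).symm.trans (h ▸ hk (b', c')))
    cases b <;> cases b'
    · rfl
    · exact absurd h.symm (s3_ne_neg h20 _)
    · exact absurd h (s3_ne_neg h20 _)
    · rfl
  have hc : ∀ c, k c * A = A * k c := fun c => by
    have h1 := mem_centralizer_singleton_iff.1 c.2.2
    rw [← hk c, ← QuotientGroup.mk_mul, ← QuotientGroup.mk_mul, mk_eq_iff] at h1
    exact h1.resolve_right (s3_sign h20 A _ h0)
  choose f hf using fun c => s3_comm A (k c) h4 (hc c)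
  refine le_trans ?_ (card_conic h2 h4)
  have h1 := Nat.card_le_card_of_injective f fun c c' h =>
    hi (Subtype.ext (by rw [hf, hf, h]))
  rwa [Nat.card_prod, Nat.card_eq_fintype_card (α := Bool), Fintype.card_bool] at h1

end Pool.Agent.Lib.MP_7d41f7_al
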