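import Pool.Agent.Lib.MP_7d41f7_al.StG1

set_option autoImplicit false

namespace Pool.Agent.Lib.MP_7d41f7_al

open Finset Subgroup Pool.Agent.Lib.MP_b6945b_al OnePoint
open scoped Classical

variable {G : Type} [Group G] [Finite G] {p a b q : ℕ} {α β : G}

theorem stg2_idx {Z K : Subgroup G} (hle : Z ≤ K) (hc : Nat.card K = 2 * Nat.card Z) :
    (Z.subgroupOf K).index = 2 := by
  have h1 := (Z.subgroupOf K).index_mul_card
  rw [Nat.card_congr (subgroupOfEquivOfLe hle).toEquiv, hc] at h1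
  exact Nat.eq_of_mul_eq_mul_right Nat.card_pos h1

theorem stg2_nrm {Z K : Subgroup G} (hle : Z ≤ K) (hc : Nat.card K = 2 * Nat.card Z) :
    K ≤ normalizer (Z : Set G) :=
  (normal_subgroupOf_iff_le_normalizer hle).1 (normal_of_index_eq_two (stg2_idx hle hc))

theorem stg2_mul {Z K : Subgroup G} (hle : Z ≤ K) (hc : Nat.card K = 2 * Nat.card Z) {w w' : G}
    (hw : w ∈ K) (hz : w ∉ Z) (hw' : w' ∈ K) (hz' : w' ∉ Z) : w * w' ∈ Z := by
  have := (mul_mem_iff_of_index_two (stg2_idx hle hc) (a := ⟨w, hw⟩) (b := ⟨w', hw'⟩)).2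
    (by simp [mem_subgroupOf, hz, hz'])
  simpa [mem_subgroupOf] using this

omit [Finite G] in
theorem stg2_ord (k x : G) : orderOf (k * x * k⁻¹) = orderOf x :=
  orderOf_injective (MulAut.conj k).toMonoidHom (MulAut.conj k).injective x

omit [Finite G] in
theorem stg2_cx {x g : G} : g ∈ Cx x ↔ g * x = x * g := mem_centralizer_singleton_iff

omit [Finite G] in
theorem stg2_cxc {x g k : G} : k * g * k⁻¹ ∈ Cx (k * x * k⁻¹) ↔ g ∈ Cx x := by
  rw [stg2_cx, stg2_cx]
  constructor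
  · intro e
    have : k * (g * x) * k⁻¹ = k * (x * g) * k⁻¹ := by
      calc k * (g * x) * k⁻¹ = k * g * k⁻¹ * (k * x * k⁻¹) := by group
        _ = k * x * k⁻¹ * (k * g * k⁻¹) := e
        _ = k * (x * g) * k⁻¹ := by group
    exact mul_left_cancel (mul_right_cancel this)
  · intro e
    calc k * g * k⁻¹ * (k * x * k⁻¹) = k * (g * x) * k⁻¹ := by group
      _ = k * (x * g) * k⁻¹ := by rw [e]
      _ = k * x * k⁻¹ * (k * g * k⁻¹) := by group

omit [Finite G] in
theorem stg2_zc {x g z : G} (hg : g * x = x * g) (hz : z ∈ zpowers x) : g * z = z * g := by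
  obtain ⟨m, rfl⟩ := mem_zpowers_iff.1 hz
  exact (Commute.zpow_right hg m).eq

theorem stg2_nc (g : G) : Nx g ≤ normalizer (Cx g : Set G) := by
  intro n hn
  refine mem_normalizer_fintype fun c hc => ?_
  have h1 : n⁻¹ * g * n ∈ zpowers g := (mem_normalizer_iff''.1 hn g).1 (mem_zpowers g)
  have h2 : c ∈ Cx (n⁻¹ * g * n) := stg2_cx.2 (stg2_zc (stg2_cx.1 hc) h1)
  have h3 := (stg2_cxc (k := n)).2 h2
  rwa [show n * (n⁻¹ * g * n) * n⁻¹ = g by group] at h3

theorem Grp.stg2_card (h : Grp p a b q α β) : Nat.card (Nx α) = 2 * a := by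
  rw [h.nx_eq, h.card_H]

theorem Grp.stg2_card' (h : Grp p a b q α β) : Nat.card (Nx α) = 2 * Nat.card (zpowers α) := by
  rw [h.stg2_card, Nat.card_zpowers, h.oα]

omit [Finite G] in
theorem Grp.stg2_t (h : Grp p a b q α β) : α ^ (a / 2) ≠ 1 := by
  intro e
  have := h.toBase.ord_t
  rw [e, orderOf_one] at this
  omega

theorem Grp.stg2_dvd (h : Grp p a b q α β) {x : G} (hx : x ∈ Nx α) : orderOf x ∣ a := by
  rw [h.nx_eq] at hx
  exact h.cenA h.stg2_t (by rw [h.toBase.ord_t]; exact h.toPar.a_even) (stg2_cx.1 hx)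

/-- An element of prime order dividing `a` is conjugate into `Nx α`. -/
theorem Grp.stg2_syl (h : Grp p a b q α β) {y : G} {s : ℕ} (hs : s.Prime) (hy : orderOf y = s)
    (hsa : s ∣ a) : ∃ k : G, ∃ x ∈ Nx α, y = k * x * k⁻¹ := by
  have : Fact s.Prime := ⟨hs⟩
  have hd : s ^ (Nat.card G).factorization s ∣ Nat.card (Nx α) := by
    have h1 : s ^ (Nat.card G).factorization s ∣ 2 * a * (b * q) := by
      rw [← mul_assoc, ← h.card]
      exact Nat.ordProj_dvd _ _
    rw [h.stg2_card]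
    exact Nat.Coprime.dvd_of_dvd_mul_right
      (Nat.Coprime.pow_left _ (h.toPar.cop_a.coprime_dvd_left (hsa.mul_left 2))) h1
  obtain ⟨K, hK⟩ := Sylow.exists_subgroup_card_pow_prime s hd
  let P : Sylow s G := Sylow.ofCard (K.map (Nx α).subtype) (by rw [Subgroup.card_subtype, hK])
  have hp : IsPGroup s (zpowers y) := IsPGroup.of_card (n := 1) (by
    rw [Nat.card_zpowers, hy, pow_one])
  obtain ⟨Q, hQ⟩ := hp.exists_le_sylow
  obtain ⟨k, hk⟩ := MulAction.exists_smul_eq G P Q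
  have hyQ : y ∈ (Q : Subgroup G) := hQ (mem_zpowers y)
  rw [← hk, Sylow.coe_subgroup_smul, mem_smul_pointwise_iff_exists] at hyQ
  obtain ⟨x, hx, e⟩ := hyQ
  refine ⟨k, x, ?_, e.symm⟩
  have hx' : x ∈ K.map (Nx α).subtype := hx
  exact map_subtype_le K hx'

/-- Let `H = Nx α`, of order `2 * a`, be abelian. Then `Cx x = H` for all `x ≠ 1` in `H` (`cenA`,
`card_cenA`), so `card_conj` applies to `H`. Every `g ≠ 1` of order dividing `a` is conjugate into
`H`: a power `y` of prime order `s` lies in a conjugate of a Sylow `s`-subgroup of `H`, which is one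
of `G` (the index `b * q` is prime to `s`), and `g` centralises `y`. With `nA` and
`|N(H)| = 2 * a * e` we get `(a - 1) * e = 2 * a - 1`, so `a - 1 ∣ 1`. -/
theorem Grp.nab (h : Grp p a b q α β) : ¬ ∀ x ∈ Nx α, ∀ y ∈ Nx α, x * y = y * x := by
  intro hab
  have ha8 := h.toPar.a8
  have hb9 := h.b9
  have hq := h.toPar.q17
  have hC : ∀ x ∈ Nx α, x ≠ 1 → Nx α = Cx x := fun x hx h1 =>
    eq_of_le_of_card_ge (fun g hg => stg2_cx.2 (hab g hg x hx)) (by
      rw [h.stg2_card]
      exact Nat.le_of_dvd (by omega) (h.card_cenA h1 (h.stg2_dvd hx)))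
  have hTI : ∀ x ∈ Nx α, x ≠ 1 → ∀ k : G, k * x * k⁻¹ ∈ Nx α →
      k ∈ normalizer (Nx α : Set G) := by
    intro x hx h1 k hk
    have h2 : k * x * k⁻¹ ≠ 1 := by
      intro e
      apply h1
      rw [← orderOf_eq_one_iff, ← stg2_ord k x, e, orderOf_one]
    refine mem_normalizer_iff.2 fun g => ?_
    have e1 := hC x hx h1
    have e2 := hC _ hk h2
    constructor
    · intro hg
      rw [e2]
      exact stg2_cxc.2 (e1 ▸ hg)
    · intro hg
      rw [e1]
      exact stg2_cxc.1 (e2 ▸ hg)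
  have hset : ∀ g : G, (∃ k : G, ∃ x ∈ Nx α, x ≠ 1 ∧ g = k * x * k⁻¹) ↔
      (g ≠ 1 ∧ orderOf g ∣ a) := by
    intro g
    constructor
    · rintro ⟨k, x, hx, h1, rfl⟩
      refine ⟨fun e => h1 ?_, by rw [stg2_ord]; exact h.stg2_dvd hx⟩
      rw [← orderOf_eq_one_iff, ← stg2_ord k x, e, orderOf_one]
    · rintro ⟨h1, hg⟩
      obtain ⟨s, hs, hsg⟩ := Nat.exists_prime_and_dvd (mt orderOf_eq_one_iff.1 h1)
      have hy := orderOf_pow_orderOf_div (orderOf_pos g).ne' hsg
      obtain ⟨k, x, hx, e⟩ := h.stg2_syl hs hy (hsg.trans hg)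
      have hx1 : x ≠ 1 := by
        intro e1
        rw [e, stg2_ord, e1, orderOf_one] at hy
        exact hs.one_lt.ne hy
      refine ⟨k, k⁻¹ * g * k, ?_, fun e1 => h1 ?_, by group⟩
      · rw [hC x hx hx1, ← stg2_cxc (k := k), ← e, show k * (k⁻¹ * g * k) * k⁻¹ = g by group]
        exact stg2_cx.2 (Commute.pow_right (Commute.refl g) _).eq
      · calc g = k * (k⁻¹ * g * k) * k⁻¹ := by group
          _ = 1 := by rw [e1]; group
  have hcount := card_conj (Nx α) hTI
  rw [Nat.card_congr (Equiv.subtypeEquivRight hset), h.nA, h.card] at hcount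
  obtain ⟨e, he⟩ := card_dvd_of_le (le_normalizer (H := Nx α))
  rw [he, h.stg2_card] at hcount
  obtain ⟨c, rfl⟩ : ∃ c, a = c + 1 := ⟨a - 1, by omega⟩
  rw [Nat.add_sub_cancel, show 2 * (c + 1) - 1 = 2 * c + 1 by omega] at hcount
  have h3 : c * e = 2 * c + 1 := by
    have hpos : 0 < 2 * (c + 1) * b * q := by positivity
    apply Nat.eq_of_mul_eq_mul_left hpos
    rw [← hcount]
    ring
  have h4 : c ∣ 1 := (Nat.dvd_add_right (Dvd.intro_left 2 rfl)).1 ⟨e, h3.symm⟩
  have := Nat.le_of_dvd one_pos h4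
  omega

/-- Let `t = α ^ (a / 2)`, `n` in the normaliser of `H = Cx t` and `t' = n t n⁻¹`, a central involution
of `H`. If `t' ∈ zpowers α`, then `t' = t` and `n ∈ H`. Otherwise `H` is generated by `α` and the
central element `t'`, so it is abelian. -/
theorem Grp.nrmH (h : Grp p a b q α β) : normalizer (Nx α : Set G) ≤ Nx α := by
  intro n hn
  have hZ : zpowers α ≤ Nx α := le_normalizer
  have htZ : α ^ (a / 2) ∈ zpowers α := pow_mem (mem_zpowers α) _
  have ht' : n * α ^ (a / 2) * n⁻¹ ∈ Nx α := (mem_normalizer_iff.1 hn _).1 (hZ htZ)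
  have hcen : ∀ g ∈ Nx α, g * (n * α ^ (a / 2) * n⁻¹) = n * α ^ (a / 2) * n⁻¹ * g := by
    intro g hg
    have h1 : n⁻¹ * g * n ∈ Nx α := (mem_normalizer_iff''.1 hn g).1 hg
    rw [h.nx_eq] at h1
    have h2 := (stg2_cxc (k := n)).2 h1
    rw [show n * (n⁻¹ * g * n) * n⁻¹ = g by group] at h2
    exact stg2_cx.1 h2
  have ho : orderOf (n * α ^ (a / 2) * n⁻¹) = 2 := by rw [stg2_ord, h.toBase.ord_t]
  by_cases hz : n * α ^ (a / 2) * n⁻¹ ∈ zpowers α
  · have h1 : n * α ^ (a / 2) * n⁻¹ ≠ 1 := by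
      intro e
      rw [e, orderOf_one] at ho
      omega
    have h2 := h.toBase.uniq_t hz h1 (by
      have := pow_orderOf_eq_one (n * α ^ (a / 2) * n⁻¹)
      rwa [ho, sq] at this)
    rw [h.nx_eq, stg2_cx]
    calc n * α ^ (a / 2) = n * α ^ (a / 2) * n⁻¹ * n := by group
      _ = α ^ (a / 2) * n := by rw [h2]
  · exfalso
    generalize n * α ^ (a / 2) * n⁻¹ = t at ht' hcen hz
    have key : ∀ y ∈ Nx α, y * α = α * y → ∀ x ∈ Nx α, y * x = x * y := by
      intro y hy hya x hx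
      by_cases hxz : x ∈ zpowers α
      · exact stg2_zc hya hxz
      · have h1 := stg2_zc hya (stg2_mul hZ h.stg2_card' ht' hz hx hxz)
        rw [← mul_assoc, hcen y hy, mul_assoc, mul_assoc] at h1
        exact mul_left_cancel h1
    exact h.nab fun x hx y hy =>
      key x hx (key α (hZ (mem_zpowers α)) rfl x hx).symm y hy

/-- `Cx g` contains `zpowers α` and has order `a` or `2 * a`, so it is `zpowers α`, or it normalises
`zpowers α` and is `Nx α`. `Nx g` normalises `Cx g`. -/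
theorem Grp.nx_all (h : Grp p a b q α β) : ∀ g ∈ zpowers α, g ≠ 1 → Nx g = Nx α := by
  intro g hg h1
  have ha8 := h.toPar.a8
  refine le_antisymm ?_ (nx_le hg)
  have hZ : zpowers α ≤ Cx g := fun z hz =>
    stg2_cx.2 (stg2_zc (stg2_zc rfl hg).symm hz).symm
  have hcz : Nat.card (zpowers α) = a := by rw [Nat.card_zpowers, h.oα]
  have hd := h.card_cenA h1 (h.stg2_dvd (le_normalizer (H := zpowers α) hg))
  obtain ⟨m, hm⟩ := card_dvd_of_le hZ
  rw [hcz] at hm
  rw [hm, mul_comm 2 a] at hd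
  have hm2 : m ∣ 2 := Nat.dvd_of_mul_dvd_mul_left (by omega) hd
  rcases (Nat.dvd_prime Nat.prime_two).1 hm2 with rfl | rfl
  · have e : zpowers α = Cx g := eq_of_le_of_card_ge hZ (by rw [hm, hcz, mul_one])
    have := stg2_nc g
    rwa [← e] at this
  · have e : Cx g = Nx α := eq_of_le_of_card_ge (stg2_nrm hZ (by rw [hm, hcz, mul_comm]))
      (by rw [hm, h.stg2_card, mul_comm])
    have := stg2_nc g
    rw [e] at this
    exact this.trans h.nrmH

/-- By `card_conj`, `ti_of_nrm` and `nA` the set `CjIn α` has as many elements as the set of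
nontrivial elements of order dividing `a`. An element `w` of `Nx α \ zpowers α` has order dividing
`a` (`cenA`), so `w = k x k⁻¹` with `x ∈ zpowers α`; `w * w ∈ zpowers α`, and if it is not `1`, then
`k ∈ Nx α` and `w ∈ zpowers α`. So all such `w` are involutions, also `w * x`. -/
theorem Grp.grp2 (h : Grp p a b q α β) : Grp2 p a b q α β := by
  have ha8 := h.toPar.a8
  have hZ : zpowers α ≤ Nx α := le_normalizer
  have hTI := ti_of_nrm h.nx_all
  have hcj : ∀ g : G, g ≠ 1 → orderOf g ∣ a → CjIn α g := by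
    have hcount := card_conj (zpowers α) hTI
    rw [h.stg2_card, h.card, Nat.card_zpowers, h.oα] at hcount
    have h1 : Nat.card {g : G // CjIn α g} = (a - 1) * b * q := by
      apply Nat.eq_of_mul_eq_mul_right (show 0 < 2 * a by omega)
      refine hcount.trans ?_
      ring
    have hsub : {g : G | CjIn α g} ⊆ {g : G | g ≠ 1 ∧ orderOf g ∣ a} := by
      rintro g ⟨k, x, hx, hx1, rfl⟩
      refine ⟨fun e => hx1 ?_, by rw [stg2_ord]; exact h.stg2_dvd (hZ hx)⟩
      rw [← orderOf_eq_one_iff, ← stg2_ord k x, e, orderOf_one]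
    have heq := Set.eq_of_subset_of_ncard_le hsub (le_of_eq (h.nA.trans h1.symm)) (Set.toFinite _)
    intro g hg1 hg
    exact (Set.ext_iff.1 heq g).2 ⟨hg1, hg⟩
  have htwo : ∀ w ∈ Nx α, w ∉ zpowers α → ∀ w' ∈ Nx α, w' ∉ zpowers α → w * w' ∈ zpowers α :=
    fun w hw hz w' hw' hz' => stg2_mul hZ h.stg2_card' hw hz hw' hz'
  have hsq : ∀ w ∈ Nx α, w ∉ zpowers α → w * w = 1 := by
    intro w hw hz
    by_contra hne
    obtain ⟨k, x, hx, -, e⟩ := hcj w (fun e => hz (e ▸ one_mem _)) (h.stg2_dvd hw)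
    have e2 : w * w = k * (x * x) * k⁻¹ := by rw [e]; group
    have hk := hTI (x * x) (mul_mem hx hx) (fun e3 => hne (by rw [e2, e3]; group)) k
      (e2 ▸ htwo w hw hz w hw hz)
    exact hz (e ▸ (mem_normalizer_iff.1 hk x).1 hx)
  refine ⟨h, ⟨⟨?_, hsq, fun w hw hz x hx => ?_, htwo⟩, h.nx_all⟩, hcj⟩
  · by_contra hne
    have hle : Nx α ≤ zpowers α := fun w hw => by
      by_contra hz
      exact hne ⟨w, hz, hw⟩
    have := card_le_of_le hle
    rw [h.stg2_card, Nat.card_zpowers, h.oα] at this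
    omega
  · have h1 := hsq w hw hz
    have h2 := hsq (w * x) (mul_mem hw (hZ hx)) fun e => hz ((mul_mem_cancel_right hx).1 e)
    rw [← eq_inv_of_mul_eq_one_left h1]
    apply eq_inv_of_mul_eq_one_left
    rw [← h2, mul_assoc]

end Pool.Agent.Lib.MP_7d41f7_al
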