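import Pool.Agent.Lib.MP_7d41f7_al.StH1

set_option autoImplicit false

namespace Pool.Agent.Lib.MP_7d41f7_al

open Finset Subgroup Pool.Agent.Lib.MP_b6945b_al OnePoint
open scoped Classical

variable {G : Type} [Group G] [Finite G] {p a b q : ℕ} {α β : G}

/-- `typ`, `cjA`, `cjB`, `Tor.conj`. -/
theorem Grp2.exists_tor (h : Grp2 p a b q α β) {g : G} (hg : ¬ orderOf g ∣ p) :
    ∃ γ : G, Tor γ ∧ g ∈ zpowers γ ∧ (orderOf γ = a ∨ orderOf γ = b) := by
  have h1 : g ≠ 1 := by rintro rfl; simp at hg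
  have key : ∀ δ : G, Tor δ → CjIn δ g → ∃ γ, Tor γ ∧ g ∈ zpowers γ ∧ orderOf γ = orderOf δ := by
    rintro δ hδ ⟨k, x, hx, -, rfl⟩
    refine ⟨k * δ * k⁻¹, hδ.conj k, ?_, ?_⟩
    · obtain ⟨n, rfl⟩ := mem_zpowers_iff.1 hx
      exact mem_zpowers_iff.2 ⟨n, conj_zpow⟩
    · exact (MulAut.conj k).orderOf_eq δ
  rcases h.typ g with e | e | e
  · exact absurd e hg
  · obtain ⟨γ, h2, h3, h4⟩ := key α h.torA (h.cjA g h1 e)
    exact ⟨γ, h2, h3, Or.inl (h4.trans h.oα)⟩
  · obtain ⟨γ, h2, h3, h4⟩ := key β h.torB (h.cjB g h1 e)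
    exact ⟨γ, h2, h3, Or.inr (h4.trans h.oβ)⟩

theorem sth2_nc (h : Grp2 p a b q α β) (M : Subgroup G) (hM : ∀ s ∈ M, s * s = 1 → s = 1)
    {r : ℕ} [hr : Fact r.Prime] (hrp : r ≠ p) (R : Sylow r M) :
    normalizer (R : Set M) ≤ centralizer (R : Set M) := by
  intro n hn
  rw [mem_centralizer_iff]
  intro x hx
  by_cases hx1 : x = 1
  · rw [hx1]; simp
  have : Nontrivial R := ⟨⟨⟨x, hx⟩, 1, fun e => hx1 (congrArg Subtype.val e)⟩⟩
  have := R.isPGroup'.center_nontrivial
  obtain ⟨z, hz⟩ := exists_ne (1 : center R)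
  have hz1 : (((z : R) : M) : G) ≠ 1 := fun e => hz (Subtype.ext (Subtype.ext (Subtype.ext e)))
  have hzo : ¬ orderOf (((z : R) : M) : G) ∣ p := by
    intro hd
    obtain ⟨k, hk⟩ := R.isPGroup' (z : R)
    have hk' : (((z : R) : M) : G) ^ r ^ k = 1 := by
      have := congrArg (fun t : R => ((t : M) : G)) hk
      simpa using this
    have hc : Nat.Coprime p (r ^ k) :=
      ((Nat.coprime_primes h.pp hr.out).2 (Ne.symm hrp)).pow_right k
    exact hz1 (orderOf_eq_one_iff.1 (Nat.eq_one_of_dvd_coprimes hc hd (orderOf_dvd_of_pow_eq_one hk')))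
  obtain ⟨γ, hγ, hzγ, -⟩ := h.exists_tor hzo
  have hin : ∀ w : M, (w : G) ∈ Nx γ → (w : G) ∈ zpowers γ := by
    intro w hw
    by_contra hc
    have := hM w w.2 (hγ.sq w hw hc)
    exact hc (this ▸ one_mem _)
  have hR : ∀ y : M, y ∈ R → (y : G) ∈ zpowers γ := by
    intro y hy
    apply hin
    apply ti_of_nrm hγ.nrm _ hzγ hz1
    have e : (⟨y, hy⟩ : R) * (z : R) = z * ⟨y, hy⟩ := mem_center_iff.1 z.2 _
    have e' : (y : G) * (((z : R) : M) : G) = (((z : R) : M) : G) * y := by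
      have := congrArg (fun t : R => ((t : M) : G)) e
      simpa using this
    rw [e', mul_inv_cancel_right]
    exact hzγ
  have hn' : (n : G) ∈ zpowers γ := by
    apply hin
    apply ti_of_nrm hγ.nrm _ hzγ hz1
    have : n * ((z : R) : M) * n⁻¹ ∈ R := (mem_set_normalizer_iff.1 hn _).1 (z : R).2
    simpa using hR _ this
  obtain ⟨i, hi⟩ := mem_zpowers_iff.1 hn'
  obtain ⟨j, hj⟩ := mem_zpowers_iff.1 (hR x hx)
  apply Subtype.ext
  simp only [Subgroup.coe_mul, ← hi, ← hj]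
  exact (Commute.zpow_zpow_self γ j i).eq

/-- Let `r ≠ p` and `R ≠ ⊥` be a Sylow `r`-subgroup of `M`, `g ≠ 1` central in `R`, `g ∈ zpowers γ` with
`Tor γ`. As `M` has no involution, `M ⊓ Nx γ ≤ zpowers γ`. So `R ≤ zpowers γ`, and the normaliser of `R`
in `M` lies in `Nx γ` (`ti_of_nrm`), hence in `zpowers γ`, and centralises `R`. By Burnside
(`MonoidHom.ker_transferSylow_isComplement'`) `M` has a normal subgroup `K r` of order prime to `r`
and `r`-power index, which contains all elements of order dividing `p`. Intersect the `K r`. -/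
theorem Grp2.pclosed (h : Grp2 p a b q α β) (M : Subgroup G)
    (hM : ∀ s ∈ M, s * s = 1 → s = 1) :
    ∃ K : Subgroup G, IsPGroup p K ∧ ∀ u ∈ M, orderOf u ∣ p → u ∈ K := by
  have hp := h.pp
  let K : Subgroup G := closure {u : G | u ∈ M ∧ orderOf u ∣ p}
  refine ⟨K, ?_, fun u hu hd => subset_closure ⟨hu, hd⟩⟩
  have hd : ∀ {r : ℕ}, r.Prime → r ∣ Nat.card K → r = p := by
    intro r hr hrK
    by_contra hrp
    have := Fact.mk hr
    obtain ⟨R⟩ : Nonempty (Sylow r M) := inferInstance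
    have hP := sth2_nc h M hM hrp R
    let f := MonoidHom.transferSylow R hP
    have hle : K ≤ f.ker.map M.subtype := by
      rw [closure_le]
      rintro u ⟨hu, hd⟩
      refine ⟨⟨u, hu⟩, ?_, rfl⟩
      obtain ⟨k, hk⟩ := R.isPGroup' (f ⟨u, hu⟩)
      have hc : Nat.Coprime p (r ^ k) := ((Nat.coprime_primes hp hr).2 (Ne.symm hrp)).pow_right k
      have h1 : orderOf (f ⟨u, hu⟩) ∣ p := by
        refine (orderOf_map_dvd f _).trans ?_
        rw [← Subgroup.orderOf_coe]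
        exact hd
      exact orderOf_eq_one_iff.1 (Nat.eq_one_of_dvd_coprimes hc h1 (orderOf_dvd_of_pow_eq_one hk))
    have h2 := card_dvd_of_le hle
    rw [card_map_of_injective M.subtype_injective] at h2
    exact MonoidHom.not_dvd_card_ker_transferSylow R hP (hrK.trans h2)
  exact IsPGroup.of_card (Nat.eq_prime_pow_of_unique_prime_dvd Nat.card_pos.ne' hd)

theorem sth2_grow {T D : Subgroup G} [Fact p.Prime] (hT : IsPGroup p T) (hD : D ≤ T)
    (hne : D ≠ T) : ∃ x ∈ T, x ∈ normalizer (D : Set G) ∧ x ∉ D := by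
  have := hT.isNilpotent
  have h1 : D.subgroupOf T < ⊤ := by
    rw [lt_top_iff_ne_top]
    intro e
    exact hne (le_antisymm hD (subgroupOf_eq_top.1 e))
  have h2 := Group.normalizerCondition_of_isNilpotent (G := T) _ h1
  obtain ⟨x, hx, hx'⟩ := SetLike.exists_of_lt h2
  rw [← subgroupOf_normalizer_eq hD] at hx
  exact ⟨x, x.2, hx, hx'⟩

/-- Let `P ≠ Q` be Sylow subgroups with `D = P ⊓ Q ≠ ⊥` of maximal order, `M` the normaliser of `D`.
If `M` has an involution use `ti_of_invol`. Otherwise let `R` be a Sylow subgroup that contains the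
group `K` of `pclosed`. By the normaliser condition (`IsPGroup.isNilpotent`,
`normalizerCondition_of_isNilpotent`) `P ⊓ M` and `Q ⊓ M` are larger than `D`; they lie in `R`, so
`P = R = Q`. -/
theorem Grp2.ti (h : Grp2 p a b q α β) (P Q : Sylow p G) (u : G) (hP : u ∈ P) (hQ : u ∈ Q)
    (hu : u ≠ 1) : P = Q := by
  have := Fact.mk h.pp
  by_contra hne
  have : Nonempty {PQ : Sylow p G × Sylow p G // PQ.1 ≠ PQ.2} := ⟨⟨(P, Q), hne⟩⟩
  obtain ⟨⟨⟨P₀, Q₀⟩, h0⟩, hmax⟩ := Finite.exists_max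
    (fun PQ : {PQ : Sylow p G × Sylow p G // PQ.1 ≠ PQ.2} =>
      Nat.card ((PQ.1.1 : Subgroup G) ⊓ (PQ.1.2 : Subgroup G) : Subgroup G))
  have hmax' : ∀ S T : Sylow p G, S ≠ T → Nat.card ((S : Subgroup G) ⊓ (T : Subgroup G) : Subgroup G) ≤
      Nat.card ((P₀ : Subgroup G) ⊓ (Q₀ : Subgroup G) : Subgroup G) :=
    fun S T hST => hmax ⟨(S, T), hST⟩
  replace h0 : P₀ ≠ Q₀ := h0
  set D : Subgroup G := (P₀ : Subgroup G) ⊓ (Q₀ : Subgroup G) with hDdef
  have hD : IsPGroup p D := P₀.isPGroup'.to_le inf_le_left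
  have hD0 : D ≠ ⊥ := by
    intro e
    have h1 := hmax' P Q hne
    rw [e, card_bot] at h1
    have h2 := (card_le_one_iff_eq_bot _).1 h1
    have h3 : u ∈ ((P : Subgroup G) ⊓ (Q : Subgroup G) : Subgroup G) := ⟨hP, hQ⟩
    rw [h2] at h3
    exact hu (mem_bot.1 h3)
  by_cases hs : ∃ s ∈ normalizer (D : Set G), s * s = 1 ∧ s ≠ 1
  · obtain ⟨s, hs1, hs2, hs3⟩ := hs
    exact hne (h.toGrp.ti_of_invol hD hD0 hs2 hs3 hs1 P Q u hP hQ hu)
  obtain ⟨K, hK, hK'⟩ := h.pclosed (normalizer (D : Set G)) (by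
    intro s hs1 hs2
    by_contra hs3
    exact hs ⟨s, hs1, hs2, hs3⟩)
  obtain ⟨R, hR⟩ := hK.exists_le_sylow
  have key : ∀ T : Sylow p G, D ≤ T → D ≠ T → T = R := by
    intro T hT hT'
    by_contra hTR
    have hin : ∀ y ∈ (T : Subgroup G), y ∈ normalizer (D : Set G) → y ∈ (R : Subgroup G) := by
      intro y hy hy'
      apply hR
      apply hK' y hy'
      by_cases h1 : y = 1
      · rw [h1]; simp
      · rw [h.toGrp.ord_p T.isPGroup' hy h1]
    obtain ⟨x, hx1, hx2, hx3⟩ := sth2_grow T.isPGroup' hT hT'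
    have hle : D ≤ (T : Subgroup G) ⊓ (R : Subgroup G) :=
      fun y hy => ⟨hT hy, hin y (hT hy) (le_normalizer hy)⟩
    have e := eq_of_le_of_card_ge hle (hmax' T R hTR)
    exact hx3 (e ▸ ⟨hx1, hin x hx1 hx2⟩)
  have e1 : P₀ = R := key P₀ inf_le_left fun e =>
    h0 (Sylow.ext (P₀.is_maximal' Q₀.isPGroup' (inf_eq_left.1 e)).symm)
  have e2 : Q₀ = R := key Q₀ inf_le_right fun e =>
    h0 (Sylow.ext (Q₀.is_maximal' P₀.isPGroup' (inf_eq_right.1 e)))
  exact h0 (e1.trans e2.symm)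

/-- `Cx u` lies in a Sylow subgroup that contains `u`, and has order `q`. The elements of order `p`
are partitioned into sets of size `q - 1`. -/
theorem Grp2.grp3 (h : Grp2 p a b q α β) : Grp3 p a b q α β := by
  have := Fact.mk h.pp
  have hc : ∀ P : Sylow p G, Nat.card P = q := fun P => h.toBase.card_sylow P
  refine { h with ti := h.ti, cP := ?_, cardP := hc, cardS := ?_ }
  · intro P u hu h1 g
    have ho := h.toGrp.ord_p P.isPGroup' hu h1
    obtain ⟨Q, hQ⟩ := (h.toGrp.cenP_pgroup ho).exists_le_sylow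
    have e : P = Q := h.ti P Q u hu (hQ (mem_centralizer_singleton_iff.2 rfl)) h1
    subst e
    have e2 : Cx u = (P : Subgroup G) :=
      eq_of_le_of_card_ge hQ (by rw [h.toGrp.card_cenP ho]; exact (hc P).le)
    rw [← mem_centralizer_singleton_iff]
    exact SetLike.ext_iff.1 e2 g
  · let f : (Σ P : Sylow p G, {u : (P : Subgroup G) // u ≠ 1}) → {g : G // orderOf g = p} :=
      fun x => ⟨x.2.1, h.toGrp.ord_p x.1.isPGroup' x.2.1.2 fun e => x.2.2 (Subtype.ext e)⟩
    have hf : Function.Bijective f := by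
      constructor
      · rintro ⟨P, ⟨u, hu⟩, h1⟩ ⟨Q, ⟨v, hv⟩, h2⟩ e
        obtain rfl : u = v := congrArg Subtype.val e
        obtain rfl : P = Q := h.ti P Q u hu hv fun e => h1 (Subtype.ext e)
        rfl
      · rintro ⟨g, hg⟩
        have hz : IsPGroup p (zpowers g) := IsPGroup.of_card (n := 1) (by rw [Nat.card_zpowers, hg, pow_one])
        obtain ⟨P, hP⟩ := hz.exists_le_sylow
        refine ⟨⟨P, ⟨g, hP (mem_zpowers g)⟩, fun e => ?_⟩, rfl⟩
        have e' : g = 1 := congrArg Subtype.val e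
        rw [e', orderOf_one] at hg
        exact h.pp.one_lt.ne hg
    have h1 := Nat.card_eq_of_bijective f hf
    have := Fintype.ofFinite (Sylow p G)
    have h2 : ∀ P : Sylow p G, Nat.card {u : (P : Subgroup G) // u ≠ 1} = q - 1 := by
      intro P
      have := Fintype.ofFinite (P : Subgroup G)
      have := hc P
      rw [Nat.card_eq_fintype_card, Fintype.card_subtype_compl, Fintype.card_subtype_eq,
        ← Nat.card_eq_fintype_card]
      exact congrArg (· - 1) this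
    rw [Nat.card_sigma, Finset.sum_congr rfl fun P _ => h2 P, Finset.sum_const, Finset.card_univ,
      smul_eq_mul, ← Nat.card_eq_fintype_card] at h1
    have h3 := h.nP
    rw [← h1] at h3
    have h17 := h.q17
    obtain ⟨m, rfl⟩ : ∃ m, q = m + 1 := ⟨q - 1, by omega⟩
    rw [Nat.add_sub_cancel] at h3
    have hm : 0 < m := by omega
    apply Nat.eq_of_mul_eq_mul_right hm
    nlinarith

end Pool.Agent.Lib.MP_7d41f7_al
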