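import Pool.Agent.Lib.MP_7d41f7_al.StJ0
import Pool.Agent.Lib.MP_7d41f7_al.StH2

set_option autoImplicit false

namespace Pool.Agent.Lib.MP_7d41f7_al

open Finset Subgroup Pool.Agent.Lib.MP_b6945b_al OnePoint
open scoped Classical

variable {G : Type} [Group G] [Finite G] {p a b q : ℕ} {α β : G}

/-- Let `E` be the stabiliser of `P` and `Q`, of order `c ∈ {a, b}` with `2 c + 1 = q`, and `1 ≠ g ∈ E`.
By `exists_tor` `g ∈ zpowers γ`, and `γ` has order `c` (`Par.cop_ab`). The group `Nx γ = Nx g` of order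
`2 c` permutes the fixed points `P`, `Q` of `zpowers g` (`third`), so `E ⊓ Nx γ` has index at most two
in it and `E ≤ Nx γ`. If `s ∈ E \ zpowers γ`, then `s` and `s * g` are involutions that invert `P`
(`inverts`), so `g` centralises `P` and lies in `P`, against `free`. So `E = zpowers γ`, and an element
of `Nx γ \ zpowers γ` swaps `P` and `Q`. -/
theorem Grp3.two_point (h : Grp3 p a b q α β) {P Q : Sylow p G} (hne : Q ≠ P) :
    ∃ γ w : G, 2 * orderOf γ + 1 = q ∧ (∀ g : G, (g • P = P ∧ g • Q = Q) ↔ g ∈ zpowers γ) ∧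
      w • P = Q ∧ w * w = 1 ∧ w * γ * w⁻¹ = γ⁻¹ := by
  have : Fact p.Prime := ⟨h.pp⟩
  have hc := h.card_two hne
  have h17 := h.toPar.q17
  obtain ⟨E, hE⟩ : ∃ E : Subgroup G, E = MulAction.stabilizer G P ⊓ MulAction.stabilizer G Q :=
    ⟨_, rfl⟩
  have hm : ∀ g : G, g ∈ E ↔ g • P = P ∧ g • Q = Q := fun g => by rw [hE]; rfl
  rw [← hE] at hc
  obtain ⟨g, hg, hg1⟩ : ∃ g ∈ E, g ≠ 1 := by
    by_contra h0
    push Not at h0
    rw [(Subgroup.eq_bot_iff_forall E).2 h0, Subgroup.card_bot] at hc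
    omega
  have hgc : orderOf g ∣ Nat.card E := E.orderOf_dvd_natCard hg
  obtain ⟨γ, hT, hgγ, hγ⟩ := h.toGrp2.exists_tor (g := g) fun h0 => by
    rcases (Nat.dvd_prime h.pp).1 h0 with e | e
    · exact hg1 (orderOf_eq_one_iff.1 e)
    · rw [e] at hgc
      have h1 := h.toPar.p_dvd
      rw [← hc] at h1
      exact h.pp.not_dvd_one ((Nat.dvd_add_right (hgc.mul_left 2)).1 h1)
  have ho : orderOf γ = Nat.card E := by
    by_contra h0
    have h1 : orderOf γ = Nat.card E + 1 := by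
      have := h.ab
      rcases h.adj with e | e <;> rcases hγ with e' | e' <;> omega
    have h2 : orderOf g ∣ Nat.card E + 1 := h1 ▸ orderOf_dvd_of_mem_zpowers hgγ
    exact hg1 (orderOf_eq_one_iff.1 (Nat.dvd_one.1 ((Nat.dvd_add_right hgc).1 h2)))
  have hfix : ∀ n ∈ Nx γ, ∀ R : Sylow p G, (∀ x ∈ E, x • R = R) → n • R = P ∨ n • R = Q := by
    intro n hn R hR
    rw [← hT.nrm g hgγ hg1] at hn
    have h1 : n⁻¹ * g * n⁻¹⁻¹ ∈ zpowers g :=
      (mem_normalizer_iff.1 (inv_mem hn) g).1 (mem_zpowers g)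
    have h2 := hR _ (zpowers_le.2 hg h1)
    rw [inv_inv, mul_smul, mul_smul, inv_smul_eq_iff] at h2
    by_contra h0
    push Not at h0
    exact hg1 (h.third hne h0.1 h0.2 ((hm g).1 hg).1 ((hm g).1 hg).2 h2)
  obtain ⟨u, hu, hu1⟩ : ∃ u ∈ (P : Subgroup G), u ≠ 1 := by
    by_contra h0
    push Not at h0
    have h1 := h.cardP P
    rw [show Nat.card P = Nat.card (P : Subgroup G) from rfl,
      (Subgroup.eq_bot_iff_forall _).2 h0, Subgroup.card_bot] at h1
    omega
  have hsw : ∀ s ∈ Nx γ, s ∉ zpowers γ → s • P = Q ∧ s • Q = P := by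
    intro s hs hs'
    have h1 : s • P ≠ P := fun e => by
      have h2 : s * g ∈ Nx γ := mul_mem hs (le_normalizer hgγ)
      have h3 : s * g ∉ zpowers γ := fun e' => hs' ((mul_mem_cancel_right hgγ).1 e')
      have h4 := h.toGrp.inverts P.2 (hT.sq s hs hs') (fun e' => hs' (e' ▸ one_mem _))
        (Sylow.smul_eq_iff_mem_normalizer.1 e) u hu
      have h5 := h.toGrp.inverts P.2 (hT.sq _ h2 h3) (fun e' => h3 (e' ▸ one_mem _))
        (Sylow.smul_eq_iff_mem_normalizer.1 (by rw [mul_smul, ((hm g).1 hg).1, e])) u hu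
      have h6 : g * u = u * g := by
        have e1 : g * u = s⁻¹ * (s * g * u * (s * g)⁻¹) * s * g := by group
        rw [e1, h5, ← h4]
        group
      exact hg1 (h.free hne ((h.cP P u hu hu1 g).1 h6) ((hm g).1 hg).2)
    have h2 := (hfix s hs P fun x hx => ((hm x).1 hx).1).resolve_left h1
    refine ⟨h2, (hfix s hs Q fun x hx => ((hm x).1 hx).2).resolve_right fun e => hne ?_⟩
    exact smul_left_cancel s (e.trans h2.symm)
  obtain ⟨w, hw1, hw⟩ := hT.ex
  have hle : zpowers γ ≤ E := fun x hx => by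
    have h1 := hsw (w * x) (mul_mem hw (le_normalizer hx))
      fun e' => hw1 ((mul_mem_cancel_right hx).1 e')
    have h2 := hsw w hw hw1
    rw [mul_smul, mul_smul] at h1
    exact (hm x).2 ⟨smul_left_cancel w (h1.1.trans h2.1.symm),
      smul_left_cancel w (h1.2.trans h2.2.symm)⟩
  have heq : zpowers γ = E := Subgroup.eq_of_le_of_card_ge hle (by rw [Nat.card_zpowers, ho])
  exact ⟨γ, w, by rw [ho, hc], fun x => by rw [heq, hm], (hsw w hw hw1).1, hT.sq w hw hw1,
    hT.inv w hw hw1 γ (mem_zpowers γ)⟩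

/-- If `q % 4 = 3` the stabilisers have odd order (`card_stab`). If `q % 4 = 1` a stabiliser contains
an involution, and all involutions are conjugate (`cjA`, `Base.uniq_t`). -/
theorem Grp3.invol_fix (h : Grp3 p a b q α β) {w : G} (h1 : w ≠ 1) (h2 : w * w = 1) :
    (∃ R : Sylow p G, w • R = R) ↔ q % 4 = 1 := by
  have : Fact p.Prime := ⟨h.pp⟩
  obtain ⟨k0, hk0⟩ := h.toPar.q_odd
  have key : ∀ R : Sylow p G, 2 ∣ Nat.card (MulAction.stabilizer G R) ↔ q % 4 = 1 := fun R => by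
    have h3 := h.card_stab R
    have h4 : Nat.card (MulAction.stabilizer G R) = k0 * (2 * k0 + 1) := by
      rw [hk0] at h3
      nlinarith
    rw [h4, hk0, (Nat.Coprime.dvd_mul_right (by simp))]
    omega
  have cj : ∀ t : G, orderOf t = 2 → ∃ k : G, t = k * α ^ (a / 2) * k⁻¹ := fun t ht => by
    obtain ⟨k, x, hx, hx1, e⟩ := h.cjA t (fun e => by simp [e] at ht) (ht ▸ h.toPar.a_even)
    refine ⟨k, h.toBase.uniq_t hx hx1 ?_ ▸ e⟩
    have e1 : x * x = k⁻¹ * t ^ 2 * k := by rw [e, sq]; group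
    rw [e1, ← ht, pow_orderOf_eq_one]
    group
  have hw : orderOf w = 2 := orderOf_eq_prime (by rw [sq, h2]) h1
  constructor
  · rintro ⟨R, hR⟩
    exact (key R).1 (hw ▸ (MulAction.stabilizer G R).orderOf_dvd_natCard hR)
  · intro h4
    obtain ⟨R⟩ : Nonempty (Sylow p G) := inferInstance
    obtain ⟨t, ht⟩ := exists_prime_orderOf_dvd_card' 2 ((key R).2 h4)
    obtain ⟨k, hk⟩ := cj w hw
    obtain ⟨k', hk'⟩ := cj t (by rw [Subgroup.orderOf_coe, ht])
    refine ⟨(k * k'⁻¹) • R, ?_⟩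
    have e : w * (k * k'⁻¹) = k * k'⁻¹ * t := by rw [hk, hk']; group
    rw [← mul_smul, e, mul_smul, show (t : G) • R = R from t.2]

theorem Grp3.zas (h : Grp3 p a b q α β) :
    ∃ (P Q : Sylow p G) (γ w : G), Zas q (P : Subgroup G) P Q γ w := by
  have h17 := h.toPar.q17
  have : Nontrivial (Sylow p G) := Finite.one_lt_card_iff_nontrivial.1 (by rw [h.cardS]; omega)
  obtain ⟨Q, P, hne⟩ := exists_pair_ne (Sylow p G)
  obtain ⟨γ, w, h1, h2, h3, h4, h5⟩ := h.two_point hne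
  have : Fact p.Prime := ⟨h.pp⟩
  refine ⟨P, Q, γ, w, h.cardP P, fun u hu v hv => ?_, hne,
    fun u hu => Sylow.smul_eq_iff_mem_normalizer.2 (le_normalizer hu), fun z hz => h.reg hne hz,
    fun u hu => h.free hne hu, h1, fun u hu => ?_, fun e he u hu hc => ?_, h2, h3, h4, h5,
    h.invol_fix (fun e => hne (by rw [← h3, e, one_smul])) h4⟩
  · by_cases hv1 : v = 1
    · rw [hv1, mul_one, one_mul]
    · exact (h.cP P v hv hv1 u).2 hu
  · exact (mem_normalizer_iff.1
      (Sylow.smul_eq_iff_mem_normalizer.1 ((h2 γ).2 (mem_zpowers γ)).1) u).1 hu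
  · by_cases hu1 : u = 1
    · exact Or.inr hu1
    · exact Or.inl (h.free hne ((h.cP P u hu hu1 e).1 hc) ((h2 e).2 he).2)

end Pool.Agent.Lib.MP_7d41f7_al
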