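import Pool.Agent.Lib.MP_7d41f7_al.Fld

set_option autoImplicit false

namespace Pool.Agent.Lib.MP_7d41f7_al

open Finset Subgroup Pool.Agent.Lib.MP_b6945b_al OnePoint
open scoped Classical

theorem stj2_coord {G Ω F : Type} [Group G] [MulAction G Ω] [Field F] [Finite F] {P : Subgroup G}
    {o₁ o₀ : Ω} {h w : G} (z : Zas (Nat.card F) P o₁ o₀ h w) :
    ∃ (t : F → G) (s : F), orderOf s = orderOf h ∧ (∀ x, t x ∈ P) ∧
      (∀ x y, t (x + y) = t x * t y) ∧ Function.Injective t ∧ (∀ u ∈ P, ∃ x, t x = u) ∧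
      ∀ x, h * t x * h⁻¹ = t (s * x) := by
  let _ : CommGroup P :=
    { (inferInstance : Group P) with mul_comm := fun a b => Subtype.ext (z.comm _ a.2 _ b.2) }
  have : Finite P := Nat.finite_of_card_ne_zero (z.cardP ▸ Nat.card_pos.ne')
  let e0 : P →* P := MonoidHom.mk' (fun u => ⟨h * u * h⁻¹, z.nh _ u.2⟩) fun a b =>
    Subtype.ext (by simp [mul_assoc])
  have hi : Function.Injective e0 := fun a b e =>
    Subtype.ext (mul_left_cancel (mul_right_cancel (congrArg Subtype.val e)))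
  let f : Additive P ≃+ Additive P :=
    MulEquiv.toAdditive (MulEquiv.ofBijective e0 (Finite.injective_iff_bijective.1 hi))
  have hf : ∀ x, ((f x).toMul : G) = h * (x.toMul : G) * h⁻¹ := fun _ => rfl
  have hit : ∀ (k : ℕ) x, ((f^[k] x).toMul : G) = h ^ k * (x.toMul : G) * (h ^ k)⁻¹ := by
    intro k x
    induction k with
    | zero => simp
    | succ k ih =>
      rw [Function.iterate_succ_apply', hf, ih, pow_succ', mul_inv_rev]
      simp only [mul_assoc]
  obtain ⟨τ, s, hs, hτ⟩ := field_coord (F := F) f z.oh z.cardP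
    (fun x => Additive.toMul.injective (Subtype.ext (by rw [hit, pow_orderOf_eq_one]; simp)))
    fun k k0 kc x e => by
      have e1 := hit k x
      rw [e, eq_mul_inv_iff_mul_eq] at e1
      rcases z.fpf _ (npow_mem_zpowers h k) _ x.toMul.2 e1.symm with e2 | e2
      · exact absurd e2 (pow_ne_one_of_lt_orderOf k0.ne' kc)
      · exact Additive.toMul.injective (Subtype.ext e2)
  refine ⟨fun x => ((τ x).toMul : G), s, hs, fun x => (τ x).toMul.2, fun x y => ?_,
    fun x y e => τ.injective (Additive.toMul.injective (Subtype.ext e)),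
    fun u hu => ⟨τ.symm (Additive.ofMul ⟨u, hu⟩), ?_⟩, fun x => ?_⟩
  · simp only [map_add]
    rfl
  · simp only [AddEquiv.apply_symm_apply]
    rfl
  · beta_reduce
    rw [← hf, hτ]

/-- `field_coord` for `M = Additive P` and conjugation by `h`. The bijection `OnePoint F ≃ Ω` sends
`∞` to `o₁` and `x` to `τ x • o₀`. The powers of `s` are exactly the nonzero squares
(`FiniteField.isSquare_iff`; the `c`-th roots of unity are the powers of the primitive root `s`).
`FiniteField.isSquare_neg_one_iff`. -/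
theorem Zas.coord {G Ω F : Type} [Group G] [MulAction G Ω] [Field F] [Finite F] {P : Subgroup G}
    {o₁ o₀ : Ω} {h w : G} (z : Zas (Nat.card F) P o₁ o₀ h w) :
    ∃ φ : G →* Equiv.Perm (OnePoint F), Coord φ w := by
  obtain ⟨t, s, hs, hP, hadd, hinj, hsurj, hconj⟩ := stj2_coord z
  have := Fintype.ofFinite F
  have hq : 2 * orderOf h + 1 = Fintype.card F := z.oh.trans Nat.card_eq_fintype_card
  have hc : 0 < orderOf h := by
    have := Fintype.one_lt_card (α := F)
    omega
  have h2 : ringChar F ≠ 2 := fun e => by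
    have := FiniteField.even_card_iff_char_two.1 e
    omega
  have hs1 : s ^ orderOf h = 1 := hs ▸ pow_orderOf_eq_one s
  have hs0 : s ≠ 0 := fun e => by
    rw [e, zero_pow hc.ne'] at hs1
    exact zero_ne_one hs1
  have t0 : t 0 = 1 := by
    have e := hadd 0 0
    rw [add_zero] at e
    exact left_eq_mul.1 e
  have hne : ∀ x, t x • o₀ ≠ o₁ := fun x e =>
    z.ne (MulAction.injective (t x) (e.trans (z.fix _ (hP x)).symm))
  have hbij : Function.Bijective
      (fun p : OnePoint F => (OnePoint.rec o₁ (fun x => t x • o₀) p : Ω)) := by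
    constructor
    · intro p p' e
      induction p using OnePoint.rec <;> induction p' using OnePoint.rec
      · rfl
      · exact absurd e.symm (hne _)
      · exact absurd e (hne _)
      · rename_i x y
        have e1 : t x • o₀ = t y • o₀ := e
        have e2 := z.free _ (mul_mem (inv_mem (hP y)) (hP x)) (by rw [mul_smul, e1, inv_smul_smul])
        rw [hinj (inv_mul_eq_one.1 e2)]
    · intro o
      by_cases ho : o = o₁
      · exact ⟨∞, ho.symm⟩
      · obtain ⟨u, hu, e⟩ := z.reg o ho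
        obtain ⟨x, rfl⟩ := hsurj u hu
        exact ⟨x, e⟩
  obtain ⟨E, E1, E2⟩ : ∃ E : OnePoint F ≃ Ω, E ∞ = o₁ ∧ ∀ x : F, E x = t x • o₀ :=
    ⟨Equiv.ofBijective _ hbij, rfl, fun _ => rfl⟩
  have E0 : E (0 : F) = o₀ := by rw [E2, t0, one_smul]
  obtain ⟨φ, hφ⟩ : ∃ φ : G →* Equiv.Perm (OnePoint F), ∀ g p p', φ g p = p' ↔ g • E p = E p' :=
    ⟨E.symm.permCongrHom.toMonoidHom.comp (MulAction.toPermHom G Ω), fun g p p' =>
      E.symm_apply_eq⟩
  have hk : ∀ (k : ℕ) (x : F), h ^ k • E x = E (s ^ k * x : F) := by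
    intro k x
    induction k with
    | zero => rw [pow_zero, pow_zero, one_smul, one_mul]
    | succ k ih =>
      rw [pow_succ', mul_smul, ih, E2, E2, pow_succ', mul_assoc, ← hconj, mul_smul, mul_smul,
        inv_smul_eq_iff.2 ((z.st h).2 (mem_zpowers h)).2.symm]
  have hz : ∀ g : G, g • E ∞ = E ∞ → g • E (0 : F) = E (0 : F) → ∃ k : ℕ, h ^ k = g := by
    intro g g1 g0
    rw [E1] at g1
    rw [E0] at g0
    exact ((isOfFinOrder_iff_pow_eq_one.2 ⟨_, hc, pow_orderOf_eq_one h⟩).mem_powers_iff_mem_zpowers).2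
      ((z.st g).1 ⟨g1, g0⟩)
  refine ⟨φ, (injective_iff_map_eq_one φ).2 fun g hg => ?_, fun y => ⟨t y, ?_, fun x => ?_⟩,
    fun g g1 g0 => ?_, ?_, z.ww, fun r x y hr e => ?_, ?_⟩
  · have h3 : ∀ p, g • E p = E p := fun p => (hφ g p p).1 (by rw [hg]; rfl)
    obtain ⟨k, rfl⟩ := hz g (h3 _) (h3 _)
    have h4 := h3 (1 : F)
    rw [hk, mul_one] at h4
    have h5 : s ^ k = 1 := OnePoint.coe_injective (E.injective h4)
    rwa [← orderOf_dvd_iff_pow_eq_one, hs, orderOf_dvd_iff_pow_eq_one] at h5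
  · rw [hφ, E1]
    exact z.fix _ (hP y)
  · rw [hφ, E2, E2, add_comm, hadd, mul_smul]
  · obtain ⟨k, rfl⟩ := hz g ((hφ _ _ _).1 g1) ((hφ _ _ _).1 g0)
    obtain ⟨r, hr⟩ := (FiniteField.isSquare_iff h2 hs0).2
      (by rw [show Fintype.card F / 2 = orderOf h by omega, hs1])
    refine ⟨r ^ k, pow_ne_zero _ fun e => hs0 (by rw [hr, e, mul_zero]), fun x => ?_⟩
    rw [hφ, hk, hr, mul_pow, sq]
  · rw [hφ, E1, E0]
    exact z.w1
  · have : NeZero (orderOf s) := ⟨hs ▸ hc.ne'⟩
    obtain ⟨k, -, hk'⟩ := (IsPrimitiveRoot.orderOf s).eq_pow_of_pow_eq_one (ξ := r ^ 2) (by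
      rw [← pow_mul, hs, show 2 * orderOf h = Fintype.card F - 1 by omega]
      exact FiniteField.pow_card_sub_one_eq_one r hr)
    have h3 : w * h ^ k = (h ^ k)⁻¹ * w := by
      rw [← inv_pow, ← z.wh, conj_pow, inv_mul_cancel_right]
    rw [hφ] at e
    rw [hφ, ← hk', ← hk, ← mul_smul, h3, mul_smul, e, inv_smul_eq_iff, hk,
      mul_div_cancel₀ _ (pow_ne_zero _ hs0)]
  · rw [FiniteField.isSquare_neg_one_iff]
    have h3 : (∃ p, φ w p = p) ↔ ∃ o : Ω, w • o = o :=
      ⟨fun ⟨p, e⟩ => ⟨E p, (hφ _ _ _).1 e⟩, fun ⟨o, e⟩ => ⟨E.symm o, by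
        rw [hφ, E.apply_symm_apply, e]⟩⟩
    rw [h3, z.wf, Nat.card_eq_fintype_card]
    omega

end Pool.Agent.Lib.MP_7d41f7_al
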