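import Pool.Agent.Lib.MP_7d41f7_al.StK1

set_option autoImplicit false

namespace Pool.Agent.Lib.MP_7d41f7_al

open Finset Subgroup Pool.Agent.Lib.MP_b6945b_al OnePoint
open scoped Classical

/-- The action of the special linear group on the projective line. -/
noncomputable def stk2_rho (F : Type) [Field F] :
    Matrix.SpecialLinearGroup (Fin 2) F →* Equiv.Perm (OnePoint F) :=
  (MulAction.toPermHom (GL (Fin 2) F) (OnePoint F)).comp Matrix.SpecialLinearGroup.toGL

theorem stk2_infty {F : Type} [Field F] (A : Matrix.SpecialLinearGroup (Fin 2) F) :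
    stk2_rho F A ∞ = if A.1 1 0 = 0 then ∞ else ((A.1 0 0 / A.1 1 0 : F) : OnePoint F) :=
  smul_infty_eq_ite (Matrix.SpecialLinearGroup.toGL A)

theorem stk2_some {F : Type} [Field F] (A : Matrix.SpecialLinearGroup (Fin 2) F) (k : F) :
    stk2_rho F A k = if A.1 1 0 * k + A.1 1 1 = 0 then ∞ else
      (((A.1 0 0 * k + A.1 0 1) / (A.1 1 0 * k + A.1 1 1) : F) : OnePoint F) :=
  smul_some_eq_ite (g := Matrix.SpecialLinearGroup.toGL A)

theorem stk2_center {F : Type} [Field F] (A : Matrix.SpecialLinearGroup (Fin 2) F)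
    (hA : A ∈ center (Matrix.SpecialLinearGroup (Fin 2) F)) : stk2_rho F A = 1 := by
  obtain ⟨r, hr, e⟩ := Matrix.SpecialLinearGroup.mem_center_iff.1 hA
  have h0 : r ≠ 0 := by
    rintro rfl
    simp at hr
  have e' : A.1 = Matrix.scalar (Fin 2) r := e.symm
  ext z
  cases z with
  | infty => simp [stk2_infty, e']
  | coe k => simp [stk2_some, e', h0]

theorem stk2_aff {F : Type} [Field F] {π : Equiv.Perm (OnePoint F)} {s y : F} (hs : s ≠ 0)
    (h1 : π ∞ = ∞) (h : ∀ x : F, π x = ((s ^ 2 * x + y : F) : OnePoint F)) :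
    π ∈ (stk2_rho F).range := by
  obtain ⟨A, e⟩ : ∃ A : Matrix.SpecialLinearGroup (Fin 2) F, A.1 = !![s, y / s; 0, 1 / s] :=
    ⟨⟨_, by simp [Matrix.det_fin_two, hs]⟩, rfl⟩
  refine ⟨A, ?_⟩
  ext z
  cases z with
  | infty => simp [stk2_infty, h1, e]
  | coe k =>
    simp [stk2_some, h, hs, e]
    field_simp

theorem stk2_inv {F : Type} [Field F] {π : Equiv.Perm (OnePoint F)} {s : F} (hs : s ≠ 0)
    (h1 : π ∞ = (0 : F)) (h0 : π (0 : F) = ∞)
    (h : ∀ x : F, x ≠ 0 → π x = ((-s ^ 2 / x : F) : OnePoint F)) :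
    π ∈ (stk2_rho F).range := by
  obtain ⟨A, e⟩ : ∃ A : Matrix.SpecialLinearGroup (Fin 2) F, A.1 = !![0, -s; 1 / s, 0] :=
    ⟨⟨_, by simp [Matrix.det_fin_two, hs]⟩, rfl⟩
  refine ⟨A, ?_⟩
  ext z
  cases z with
  | infty => simp [stk2_infty, h1, hs, e]
  | coe k =>
    by_cases hk : k = 0
    · simp [stk2_some, hk, h0, e]
    · simp [stk2_some, h k hk, hs, hk, e]
      field_simp

theorem stk2_le {G F : Type} [Group G] [Field F] [Finite F] (h2 : ringChar F ≠ 2)
    {φ : G →* Equiv.Perm (OnePoint F)} {w : G} (h : Coord φ w) (g : G) :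
    φ g ∈ (stk2_rho F).range := by
  have hw0 : φ w (0 : F) = ∞ := by
    rw [← h.w1, ← Equiv.Perm.mul_apply, ← map_mul, h.ww, map_one, Equiv.Perm.one_apply]
  obtain ⟨s, hs, hw⟩ := h.w_eq h2
  have hW := stk2_inv hs h.w1 hw0 hw
  have hT : ∀ y : F, ∃ t, φ t ∈ (stk2_rho F).range ∧ φ t ∞ = ∞ ∧ φ t y = (0 : F) := fun y => by
    obtain ⟨t, h3, h4⟩ := h.tr (-y)
    exact ⟨t, stk2_aff (y := -y) one_ne_zero h3 fun x => by simp [h4], h3, by simp [h4]⟩
  have h1 : ∀ g, φ g ∞ = ∞ → φ g ∈ (stk2_rho F).range := fun g hg => by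
    obtain ⟨y, hy⟩ : ∃ y : F, φ g (0 : F) = y := by
      cases e : φ g (0 : F) with
      | infty => exact absurd ((φ g).injective (e.trans hg.symm)) (coe_ne_infty _)
      | coe y => exact ⟨y, rfl⟩
    obtain ⟨t, h3, h4, h5⟩ := hT y
    have h6 : φ (t * g) ∞ = ∞ := by rw [map_mul, Equiv.Perm.mul_apply, hg, h4]
    obtain ⟨r, hr, h7⟩ := h.st (t * g) h6 (by rw [map_mul, Equiv.Perm.mul_apply, hy, h5])
    have h8 := stk2_aff (y := 0) hr h6 fun x => by rw [h7, add_zero]
    rw [map_mul] at h8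
    exact (mul_mem_cancel_left h3).1 h8
  cases e : φ g ∞ with
  | infty => exact h1 g e
  | coe y =>
    obtain ⟨t, h3, -, h5⟩ := hT y
    have h6 := h1 (w * t * g) (by
      rw [map_mul, map_mul, Equiv.Perm.mul_apply, Equiv.Perm.mul_apply, e, h5, hw0])
    rw [map_mul, map_mul] at h6
    exact (mul_mem_cancel_left (mul_mem hW h3)).1 h6

/-- The action of `SL(2, F)` on the projective line through `GL (Fin 2) F`
(`OnePoint.smul_infty_eq_ite`, `OnePoint.smul_some_eq_ite`) has the centre as its kernel, so it gives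
an injective map `Ψ` from `PS F` to the permutations. The range of `φ` lies in the range of `Ψ`:
translations, multiplications by squares and `φ w` come from matrices, and every `g` fixes `∞` and `0`
after multiplication by translations and `w`. The ranges have the same order. -/
theorem Coord.iso {G F : Type} [Group G] [Field F] [Finite F] (h2 : ringChar F ≠ 2)
    {φ : G →* Equiv.Perm (OnePoint F)} {w : G} (h : Coord φ w)
    (hc : Nat.card G = Nat.card (PS F)) : Nonempty (G ≃* PS F) := by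
  have : Finite (PS F) := Quotient.finite _
  let Ψ : PS F →* Equiv.Perm (OnePoint F) := QuotientGroup.lift _ (stk2_rho F) stk2_center
  have h1 : φ.range ≤ Ψ.range := by
    rintro _ ⟨g, rfl⟩
    obtain ⟨A, hA⟩ := stk2_le h2 h g
    exact ⟨QuotientGroup.mk A, hA⟩
  have h3 : Nat.card φ.range = Nat.card (PS F) := by
    rw [← hc, Nat.card_congr (MonoidHom.ofInjective h.inj).toEquiv]
  have h4 : Nat.card Ψ.range ≤ Nat.card (PS F) :=
    Nat.card_le_card_of_surjective _ Ψ.rangeRestrict_surjective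
  have : Finite Ψ.range := Finite.of_surjective _ Ψ.rangeRestrict_surjective
  have h5 : φ.range = Ψ.range := eq_of_le_of_card_ge h1 (h3 ▸ h4)
  have h6 : Function.Bijective Ψ.rangeRestrict :=
    (Nat.bijective_iff_surjective_and_card _).2 ⟨Ψ.rangeRestrict_surjective, by rw [← h5, h3]⟩
  exact ⟨((MonoidHom.ofInjective h.inj).trans (MulEquiv.subgroupCongr h5)).trans
    (MulEquiv.ofBijective _ h6).symm⟩

end Pool.Agent.Lib.MP_7d41f7_al
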