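import Pool.Agent.Lib.MP_7d41f7_al.StE
import Pool.Agent.Lib.MP_7d41f7_al.StG2
import Pool.Agent.Lib.MP_7d41f7_al.StJ1
import Pool.Agent.Lib.MP_7d41f7_al.StJ2
import Pool.Agent.Lib.MP_7d41f7_al.StK2
import Pool.Agent.Lib.MP_7d41f7_al.S2
import Pool.Agent.Lib.MP_7d41f7_al.S3

set_option autoImplicit false

namespace Pool.Agent.Lib.MP_7d41f7_al

open Finset Subgroup Pool.Agent.Lib.MP_b6945b_al OnePoint
open scoped Classical

theorem van_PS {F : Type} [Field F] [Finite F] [Fintype (PS F)] (h2 : ringChar F ≠ 2)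
    {m : ℕ} (hm : 2 < m) (hd : 2 * m ∣ Nat.card F - 1 ∨ 2 * m ∣ Nat.card F + 1) :
    m ∈ Vo (PS F) := by
  obtain ⟨J⟩ := exists_irrData (PS F)
  obtain ⟨A, h0, h4, hA⟩ := exists_ord2 h2 hm hd
  refine (mem_Vo J m).2 ⟨_, hA, ?_⟩
  by_contra hv
  have h1 := gallagher J _ hv
  rw [cnt_self] at h1
  have h3 := (Nat.mul_le_mul_left 2 h1).trans (card_cen h2 A h0 h4)
  obtain ⟨s, hs, hc⟩ := exists_classes h2
  have h5 := n_ge J s hs
  omega

theorem exists_par {F : Type} [Field F] [Finite F] (hodd : Odd (Nat.card F))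
    (h17 : 17 ≤ Nat.card F) : ∃ a b, Par (ringChar F) a b (Nat.card F) := by
  let _ := Fintype.ofFinite F
  obtain ⟨n, hp, hn⟩ := FiniteField.card F (ringChar F)
  rw [← Nat.card_eq_fintype_card] at hn
  have h2 : ringChar F ≠ 2 := by
    intro e
    rw [hn, e] at hodd
    exact absurd hodd (Nat.not_odd_iff_even.2 (Nat.even_pow.2 ⟨even_two, n.ne_zero⟩))
  obtain ⟨k, hk⟩ := hodd
  rcases Nat.even_or_odd' k with ⟨l, e | e⟩
  · exact ⟨k, k + 1, hp, h2, ⟨n, hn⟩, by omega, Or.inr rfl, ⟨l, by omega⟩, by omega⟩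
  · exact ⟨k + 1, k, hp, h2, ⟨n, hn⟩, by omega, Or.inl rfl, ⟨l, by omega⟩, by omega⟩

theorem Par.dvd_or {p a b q m : ℕ} (h : Par p a b q) :
    (2 * m ∣ q - 1 ∨ 2 * m ∣ q + 1) ↔ (m ∣ a ∨ m ∣ b) := by
  have := h.ab
  rcases h.adj with e | e
  · rw [show q - 1 = 2 * b by omega, show q + 1 = 2 * a by omega,
      Nat.mul_dvd_mul_iff_left two_pos, Nat.mul_dvd_mul_iff_left two_pos, or_comm]
  · rw [show q - 1 = 2 * a by omega, show q + 1 = 2 * b by omega,
      Nat.mul_dvd_mul_iff_left two_pos, Nat.mul_dvd_mul_iff_left two_pos]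

theorem main {F : Type} [Field F] [Finite F] (hodd : Odd (Nat.card F)) (h17 : 17 ≤ Nat.card F)
    {G : Type} [Group G] [Finite G] (hc : Nat.card G = Nat.card (PS F))
    (hV : Vo G = Vo (PS F)) : Nonempty (G ≃* PS F) := by
  obtain ⟨a, b, hP⟩ := exists_par hodd h17
  have h2 := hP.p2
  have : Finite (PS F) := Quotient.finite _
  let _ := Fintype.ofFinite G
  let _ := Fintype.ofFinite (PS F)
  obtain ⟨I⟩ := exists_irrData G
  obtain ⟨J⟩ := exists_irrData (PS F)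
  have hin : ∀ m, 2 < m → (m ∣ a ∨ m ∣ b) → ∃ g : G, orderOf g = m ∧ Van I g := fun m hm hd => by
    have := van_PS h2 hm (hP.dvd_or.2 hd)
    rw [← hV] at this
    exact (mem_Vo I m).1 this
  have h8 := hP.a8
  have h9 := hP.b9
  obtain ⟨α, hα, -⟩ := hin a (by omega) (Or.inl dvd_rfl)
  obtain ⟨β, hβ, -⟩ := hin b (by omega) (Or.inr dvd_rfl)
  have hcard : Nat.card G = 2 * a * b * Nat.card F := by
    have e1 := card_PS h2
    have e2 := hP.sq
    rw [← hc, pow_succ, ← e2] at e1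
    nlinarith
  have hH : Hyp I (ringChar F) a b (Nat.card F) α β := by
    refine ⟨⟨hP, hcard, hα, hβ⟩, fun g hg => ?_, fun r hr hrb => hin r ?_ (Or.inr hrb)⟩
    · have : orderOf g ∈ Vo (PS F) := hV ▸ (mem_Vo I _).2 ⟨g, rfl, hg⟩
      obtain ⟨g', e, -⟩ := this
      rw [← e, ← hP.dvd_or]
      exact ord_PS h2 g'
    · have := hr.two_le
      have h3 : r ≠ 2 := by
        rintro rfl
        exact absurd hP.bodd (Nat.not_odd_iff_even.2 (even_iff_two_dvd.2 hrb))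
      omega
  obtain ⟨P, Q, γ, w, z⟩ := hH.grp.grp2.grp3.zas
  obtain ⟨φ, hφ⟩ := z.coord
  exact hφ.iso h2 hc

end Pool.Agent.Lib.MP_7d41f7_al
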