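import Pool.Agent.Lib.MP_b6945b_al.Block
import Pool.Agent.Lib.MP_7d41f7_al.VoDef

/-! Recognition of `PSL(2,q)` by its order and the orders of its vanishing elements: objects. -/

set_option autoImplicit false

namespace Pool.Agent.Lib.MP_7d41f7_al

open Finset Subgroup Pool.Agent.Lib.MP_b6945b_al OnePoint
open scoped Classical

noncomputable section

section chars

variable {G : Type} [Group G] [Fintype G]

/-- Some irreducible character vanishes at `g`. -/
def Van (I : IrrData G) (g : G) : Prop := ∃ i, I.χ i g = 0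

/-- The number of elements that conjugate `g` to `h`. -/
def cnt (g h : G) : ℕ := (univ.filter fun k : G => k * g * k⁻¹ = h).card

/-- The multiplicity of an irreducible character in a class function. -/
def mlt (J : IrrData G) (f : G → ℂ) (j : Fin J.n) : ℂ :=
  (∑ c, J.χ j c⁻¹ * f c) / Fintype.card G

/-- The matrix is a combination of group elements with coefficients in `V`. -/
def InV (V : ValuationSubring ℂ) {n : ℕ} (ρ : G →* Matrix (Fin n) (Fin n) ℂ)
    (M : Matrix (Fin n) (Fin n) ℂ) : Prop :=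
  ∃ c : G → ℂ, (∀ g, c g ∈ V) ∧ M = ∑ g, c g • ρ g

end chars

section loc

variable {G : Type} [Group G]

/-- The centraliser of an element. -/
abbrev Cx (x : G) : Subgroup G := centralizer {x}

/-- The normaliser of a cyclic subgroup. -/
abbrev Nx (x : G) : Subgroup G := normalizer (zpowers x : Set G)

/-- The element inside its centraliser. -/
def xc (x : G) : Cx x := ⟨x, mem_centralizer_singleton_iff.2 rfl⟩

/-- Twist by a linear character, conjugation and central characters for the centraliser of an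
element of order `r`. -/
structure Loc (r : ℕ) (x : G) [Fintype (Cx x)] (J : IrrData (Cx x)) where
  /-- a linear character whose kernel is the set of `r`-regular elements -/
  lam : Cx x →* ℂ
  lam_one : ∀ c, lam c = 1 ↔ ¬ r ∣ orderOf c
  /-- the twist by `lam` -/
  σ : Equiv.Perm (Fin J.n)
  σ_χ : ∀ j c, J.χ (σ j) c = lam c * J.χ j c
  /-- conjugation -/
  act : Nx x →* Equiv.Perm (Fin J.n)
  act_χ : ∀ (n : Nx x) (j : Fin J.n) (c c' : Cx x), (c' : G) = n * c * (n : G)⁻¹ →
    J.χ (act n j) c' = J.χ j c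
  /-- the scalar by which `x` acts -/
  ω : Fin J.n → ℂ
  ω_χ : ∀ j c, J.χ j (xc x * c) = ω j * J.χ j c

/-- The restriction of a character of the centraliser to the `r`-regular elements. -/
def blk (r : ℕ) {x : G} [Fintype (Cx x)] (J : IrrData (Cx x)) (j : Fin J.n) (c : Cx x) : ℂ :=
  if r ∣ orderOf c then 0 else J.χ j c

/-- Elements of the centraliser of order divisible by `r` form a trivial intersection set. -/
def TI (r : ℕ) (x : G) : Prop :=
  ∀ c ∈ Cx x, ∀ k : G, r ∣ orderOf c → k * c * k⁻¹ ∈ Cx x → k ∈ Nx x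

/-- The normaliser controls fusion in the centraliser. -/
def Fus (x : G) : Prop :=
  ∀ y ∈ Cx x, ∀ k : G, k * y * k⁻¹ ∈ Cx x → ∃ n ∈ Nx x, n * y * n⁻¹ = k * y * k⁻¹

/-- `g` is conjugate to a nontrivial power of `β`. -/
def CjIn (β g : G) : Prop := ∃ k : G, ∃ x ∈ zpowers β, x ≠ 1 ∧ g = k * x * k⁻¹

/-- Every nontrivial power of `β` has centraliser `⟨β⟩`. -/
def SelfC (β : G) : Prop := ∀ x ∈ zpowers β, x ≠ 1 → ∀ g, g * x = x * g → g ∈ zpowers β

/-- The normaliser of `⟨β⟩` is dihedral. -/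
structure Dih (β : G) : Prop where
  ex : ∃ w, w ∉ zpowers β ∧ w ∈ Nx β
  sq : ∀ w ∈ Nx β, w ∉ zpowers β → w * w = 1
  inv : ∀ w ∈ Nx β, w ∉ zpowers β → ∀ x ∈ zpowers β, w * x * w⁻¹ = x⁻¹
  two : ∀ w ∈ Nx β, w ∉ zpowers β → ∀ w' ∈ Nx β, w' ∉ zpowers β → w * w' ∈ zpowers β

/-- A torus: dihedral normaliser, shared by all nontrivial subgroups. -/
structure Tor (γ : G) : Prop extends Dih γ where
  nrm : ∀ g ∈ zpowers γ, g ≠ 1 → Nx g = Nx γ

end loc

/-- The numerical data: `q` is a power of the odd prime `p`, `a` is the even and `b` the odd one of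
the numbers `(q - 1) / 2` and `(q + 1) / 2`. -/
structure Par (p a b q : ℕ) : Prop where
  pp : p.Prime
  p2 : p ≠ 2
  qp : ∃ n, q = p ^ n
  ab : a + b = q
  adj : a = b + 1 ∨ b = a + 1
  bodd : Odd b
  b9 : 9 ≤ b

/-- The order of the group and two elements. -/
structure Base {G : Type} [Group G] (p a b q : ℕ) (α β : G) : Prop extends Par p a b q where
  card : Nat.card G = 2 * a * b * q
  oα : orderOf α = a
  oβ : orderOf β = b

/-- What the hypothesis on vanishing elements gives. -/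
structure Hyp {G : Type} [Group G] [Fintype G] (I : IrrData G) (p a b q : ℕ) (α β : G) : Prop
    extends Base p a b q α β where
  van : ∀ g, Van I g → orderOf g ∣ p ∨ orderOf g ∣ a ∨ orderOf g ∣ b
  vr : ∀ r : ℕ, r.Prime → r ∣ b → ∃ x, orderOf x = r ∧ Van I x

/-- What character theory gives. -/
structure Grp {G : Type} [Group G] (p a b q : ℕ) (α β : G) : Prop extends Base p a b q α β where
  cB : SelfC β
  torB : Tor β
  cjB : ∀ g : G, g ≠ 1 → orderOf g ∣ b → CjIn β g
  typ : ∀ g : G, orderOf g ∣ p ∨ orderOf g ∣ a ∨ orderOf g ∣ b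
  nP : Nat.card {g : G // orderOf g = p} + 1 = q ^ 2
  nA : Nat.card {g : G // g ≠ 1 ∧ orderOf g ∣ a} = (a - 1) * b * q

/-- The structure around the torus of even order. -/
structure Grp2 {G : Type} [Group G] (p a b q : ℕ) (α β : G) : Prop extends Grp p a b q α β where
  torA : Tor α
  cjA : ∀ g : G, g ≠ 1 → orderOf g ∣ a → CjIn α g

/-- The Sylow `p`-subgroups. -/
structure Grp3 {G : Type} [Group G] (p a b q : ℕ) (α β : G) : Prop extends Grp2 p a b q α β where
  ti : ∀ P Q : Sylow p G, ∀ u, u ∈ P → u ∈ Q → u ≠ 1 → P = Q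
  cP : ∀ P : Sylow p G, ∀ u ∈ P, u ≠ 1 → ∀ g, g * u = u * g ↔ g ∈ P
  cardP : ∀ P : Sylow p G, Nat.card P = q
  cardS : Nat.card (Sylow p G) = q + 1

/-- A Zassenhaus group of degree `q + 1` with cyclic two point stabiliser of order `(q - 1) / 2`. -/
structure Zas {G Ω : Type} [Group G] [MulAction G Ω] (q : ℕ) (P : Subgroup G) (o₁ o₀ : Ω)
    (h w : G) : Prop where
  cardP : Nat.card P = q
  comm : ∀ u ∈ P, ∀ v ∈ P, u * v = v * u
  ne : o₀ ≠ o₁
  fix : ∀ u ∈ P, u • o₁ = o₁
  reg : ∀ z, z ≠ o₁ → ∃ u ∈ P, u • o₀ = z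
  free : ∀ u ∈ P, u • o₀ = o₀ → u = 1
  oh : 2 * orderOf h + 1 = q
  nh : ∀ u ∈ P, h * u * h⁻¹ ∈ P
  fpf : ∀ e ∈ zpowers h, ∀ u ∈ P, e * u = u * e → e = 1 ∨ u = 1
  st : ∀ g : G, (g • o₁ = o₁ ∧ g • o₀ = o₀) ↔ g ∈ zpowers h
  w1 : w • o₁ = o₀
  ww : w * w = 1
  wh : w * h * w⁻¹ = h⁻¹
  wf : (∃ z : Ω, w • z = z) ↔ q % 4 = 1

/-- The same group in coordinates on the projective line. -/
structure Coord {G F : Type} [Group G] [Field F] (φ : G →* Equiv.Perm (OnePoint F)) (w : G) :
    Prop where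
  inj : Function.Injective φ
  tr : ∀ y : F, ∃ g, φ g ∞ = ∞ ∧ ∀ x : F, φ g x = ((x + y : F) : OnePoint F)
  st : ∀ g, φ g ∞ = ∞ → φ g (0 : F) = (0 : F) →
    ∃ s : F, s ≠ 0 ∧ ∀ x : F, φ g x = ((s ^ 2 * x : F) : OnePoint F)
  w1 : φ w ∞ = (0 : F)
  ww : w * w = 1
  ws : ∀ s x y : F, s ≠ 0 → φ w x = y → φ w (s ^ 2 * x : F) = ((y / s ^ 2 : F) : OnePoint F)
  wf : (∃ z, φ w z = z) ↔ IsSquare (-1 : F)

/-- The projective special linear group of degree two. -/
abbrev PS (F : Type) [Field F] : Type := Matrix.ProjectiveSpecialLinearGroup (Fin 2) F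

namespace Par

variable {p a b q : ℕ} (h : Par p a b q)
include h

theorem a_even : 2 ∣ a := by
  obtain ⟨k, hk⟩ := h.bodd
  rcases h.adj with e | e <;> omega

theorem a8 : 8 ≤ a := by
  have := h.b9
  rcases h.adj with e | e <;> omega

theorem q17 : 17 ≤ q := by
  have := h.b9
  have := h.a8
  have := h.ab
  omega

theorem q_odd : Odd q := by
  rw [← h.ab]
  exact (even_iff_two_dvd.2 h.a_even).add_odd h.bodd

theorem p_dvd : p ∣ q := by
  obtain ⟨n, hn⟩ := h.qp
  have := h.q17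
  rw [hn] at this ⊢
  exact dvd_pow_self p (by rintro rfl; simp at this)

theorem sq : 4 * a * b + 1 = q ^ 2 := by
  rw [← h.ab]
  rcases h.adj with e | e <;> rw [e] <;> ring

theorem cop_ab : Nat.Coprime a b := by
  rcases h.adj with e | e <;> rw [e] <;> simp

theorem cop_aq : Nat.Coprime a q := by
  rw [← h.ab]
  simpa using h.cop_ab

theorem cop_bq : Nat.Coprime b q := by
  rw [← h.ab]
  simpa using h.cop_ab.symm

theorem cop_b : Nat.Coprime b (2 * a * q) :=
  (((Nat.coprime_two_right.2 h.bodd).mul_right h.cop_ab.symm).mul_right h.cop_bq)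

theorem cop_q : Nat.Coprime q (2 * a * b) :=
  (((Nat.coprime_two_right.2 h.q_odd).mul_right h.cop_aq.symm).mul_right h.cop_bq.symm)

theorem cop_a : Nat.Coprime (2 * a) (b * q) :=
  Nat.Coprime.mul_left (Nat.coprime_two_left.2 (h.bodd.mul h.q_odd)) (h.cop_ab.mul_right h.cop_aq)

theorem mod_b : 2 * a * q % b = 2 := by
  have h9 := h.b9
  rw [← h.ab]
  rcases h.adj with e | e
  · rw [e, show 2 * (b + 1) * (b + 1 + b) = 2 + b * (4 * b + 6) by ring, Nat.add_mul_mod_self_left]
    exact Nat.mod_eq_of_lt (by omega)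
  · obtain ⟨c, rfl⟩ : ∃ c, a = c + 1 := ⟨a - 1, by omega⟩
    rw [e, show 2 * (c + 1) * (c + 1 + (c + 1 + 1)) = 2 + (c + 1 + 1) * (4 * c + 2) by ring,
      Nat.add_mul_mod_self_left]
    exact Nat.mod_eq_of_lt (by omega)

end Par

end

end Pool.Agent.Lib.MP_7d41f7_al
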