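import Pool.Agent.Lib.MP_7d41f7_al.Defs

set_option autoImplicit false

namespace Pool.Agent.Lib.MP_7d41f7_al

open Finset Subgroup Pool.Agent.Lib.MP_b6945b_al OnePoint
open scoped Classical

theorem exca_shape {ι : Type} [Fintype ι] (w d : ι → ℤ) (hd : ∀ i, 0 < d i)
    (hdeg : ∑ i, w i * d i = -1) (hn : ∑ i, w i * w i = 2) :
    ∃ s t, s ≠ t ∧ ∀ i, w i = (if i = s then 1 else 0) - if i = t then 1 else 0 := by
  have hsub : ∀ S : Finset ι, ∑ i ∈ S, w i * w i ≤ 2 := fun S =>
    hn ▸ Finset.sum_le_univ_sum_of_nonneg fun i => mul_self_nonneg (w i)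
  obtain ⟨t, ht⟩ : ∃ t, w t < 0 := by
    by_contra hc
    push Not at hc
    have := Finset.sum_nonneg (s := univ) fun i _ => mul_nonneg (hc i) (hd i).le
    omega
  obtain ⟨s, hs⟩ : ∃ s, 0 < w s := by
    by_contra hc
    push Not at hc
    have h1 : ∑ i, w i * d i ≤ ∑ i, -(w i * w i) := Finset.sum_le_sum fun i _ => by
      have h2 := hsub {i}
      rw [Finset.sum_singleton] at h2
      have h3 := hc i
      have h4 := hd i
      have h5 : w i = 0 ∨ w i = -1 := by
        by_contra h6
        have h7 : w i ≤ -2 := by omega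
        nlinarith
      rcases h5 with h5 | h5 <;> rw [h5] <;> omega
    rw [Finset.sum_neg_distrib] at h1
    omega
  have hst : s ≠ t := by
    rintro rfl
    omega
  have h2 := hsub {s, t}
  rw [Finset.sum_pair hst] at h2
  have hs1 : w s = 1 := by nlinarith
  have ht1 : w t = -1 := by nlinarith
  refine ⟨s, t, hst, fun i => ?_⟩
  by_cases his : i = s
  · subst his
    simp [hst, hs1]
  · by_cases hit : i = t
    · subst hit
      simp [his, ht1]
    · have h3 := hsub (insert i {s, t})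
      rw [Finset.sum_insert (by simp [his, hit]), Finset.sum_pair hst, hs1, ht1] at h3
      have h4 : w i = 0 := by nlinarith
      simp [his, hit, h4]

theorem exca_inner {ι : Type} [Fintype ι] {v w : ι → ℤ} {s t x y : ι}
    (hv : ∀ i, v i = (if i = s then 1 else 0) - if i = t then 1 else 0)
    (hw : ∀ i, w i = (if i = x then 1 else 0) - if i = y then 1 else 0) :
    ∑ i, v i * w i = ((if s = x then 1 else 0) - if s = y then 1 else 0) -
      ((if t = x then 1 else 0) - if t = y then 1 else 0) := by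
  rw [← hw s, ← hw t]
  simp only [hv, sub_mul, ite_mul, one_mul, zero_mul, Finset.sum_sub_distrib, Finset.sum_ite_eq',
    Finset.mem_univ, if_true]

/-- A vector of norm two and degree `-1` is `e s - e t` with `s ≠ t`. Two of them with inner product
two are equal, with inner product one they share exactly one place, with the same sign. If
`v j₀ = e s - e t` and `v k₀ = e s - e u`, a third vector `e x - e y` with positive inner products has
`x = s` (otherwise `y = t` and `y = u`); the other case is symmetric. -/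
theorem gram2 {Ψ ι : Type} [Fintype ι] (e : Ψ → Ψ → Prop) (v : Ψ → ι → ℤ) (d : ι → ℤ)
    (hd : ∀ i, 0 < d i) (hdeg : ∀ j, ∑ i, v j i * d i = -1) (hrefl : ∀ j, e j j)
    (hG : ∀ j k, ∑ i, v j i * v k i = if e j k then 2 else 1) {j₀ k₀ : Ψ} (h : ¬ e j₀ k₀) :
    ∃ (i₁ : ι) (δ : ℤ), (δ = 1 ∨ δ = -1) ∧ ∀ j, ∃ i₂, i₂ ≠ i₁ ∧
      ∀ i, v j i = (if i = i₁ then δ else 0) - if i = i₂ then δ else 0 := by
  choose s t hst hv using fun j => exca_shape (v j) d hd (hdeg j) (by rw [hG, if_pos (hrefl j)])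
  have hpos : ∀ j k, s j = s k ∨ t j = t k := fun j k => by
    by_contra hc
    push Not at hc
    have h1 := hG j k
    rw [exca_inner (hv j) (hv k), if_neg hc.1, if_neg hc.2] at h1
    split_ifs at h1 <;> omega
  have hne : s j₀ ≠ s k₀ ∨ t j₀ ≠ t k₀ := by
    by_contra hc
    push Not at hc
    have h1 := hG j₀ k₀
    rw [exca_inner (hv j₀) (hv k₀), if_neg h, ← hc.1, ← hc.2, if_pos rfl, if_pos rfl,
      if_neg (hst j₀), if_neg (hst j₀).symm] at h1
    omega
  rcases hne with hne | hne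
  · have h0 : t j₀ = t k₀ := (hpos j₀ k₀).resolve_left hne
    refine ⟨t j₀, -1, Or.inr rfl, fun j => ?_⟩
    have h1 : t j = t j₀ := by
      rcases hpos j j₀ with h1 | h1
      · rcases hpos j k₀ with h2 | h2
        · exact absurd (h1.symm.trans h2) hne
        · exact h2.trans h0.symm
      · exact h1
    refine ⟨s j, h1 ▸ hst j, fun i => ?_⟩
    rw [hv j i, h1]
    split_ifs <;> omega
  · have h0 : s j₀ = s k₀ := (hpos j₀ k₀).resolve_right hne
    refine ⟨s j₀, 1, Or.inl rfl, fun j => ?_⟩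
    have h1 : s j = s j₀ := by
      rcases hpos j j₀ with h1 | h1
      · exact h1
      · rcases hpos j k₀ with h2 | h2
        · exact h2.trans h0.symm
        · exact absurd (h1.symm.trans h2) hne
    exact ⟨t j, h1 ▸ (hst j).symm, fun i => by rw [hv j i, h1]⟩

theorem exca_consec {x y : ℤ} (hx : 0 ≤ x) (hy : 0 ≤ y) (h : x * (x + 1) = y * (y + 1)) :
    x = y := by
  have h1 : (x - y) * (x + y + 1) = 0 := by linarith
  rcases mul_eq_zero.1 h1 with h2 | h2 <;> omega

/-- `d = m b + δ` and `e = m b + 2 δ` are coprime and prime to `b`, so `k * d * e = 2 * a * q` and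
`k ≡ 1 mod b` (`Par.mod_b`). If `m ≥ 1`, then `k ≥ b + 1` is too large since `b ≥ 9`, so `k = 1`; the
numbers `q`, `2 * a` are consecutive, so `{d, e} = {q, 2 * a}`, and `d = 2 * a` gives `b ∣ 3`. -/
theorem Par.num {p a b q : ℕ} (h : Par p a b q) {d e : ℕ} {δ : ℤ} (hδ : δ = 1 ∨ δ = -1)
    (hd : 0 < d) (he : 0 < e) (hde : (e : ℤ) = d + δ) (hb : (b : ℤ) ∣ d - δ)
    (hdd : d ∣ 2 * a * b * q) (hed : e ∣ 2 * a * b * q) :
    (d = q ∧ e = 2 * a) ∨ (d = 1 ∧ δ = 1) := by
  have h9 := h.b9
  have hab := h.ab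
  have hadj := h.adj
  obtain ⟨m, hm⟩ := hb
  have hδ2 : δ * δ = 1 := by rcases hδ with rfl | rfl <;> norm_num
  obtain ⟨c, hc⟩ := h.bodd
  have hcZ : (b : ℤ) = 2 * c + 1 := by exact_mod_cast hc
  have hdb : Nat.Coprime d b := Nat.isCoprime_iff_coprime.1
    ⟨δ, -(δ * m), by linear_combination δ * hm + hδ2⟩
  have heb : Nat.Coprime e b := Nat.isCoprime_iff_coprime.1
    ⟨-(δ * c), 1 + δ * c * m, by
      linear_combination (-(δ * c)) * hde - δ * c * hm + hcZ - 2 * c * hδ2⟩
  have hco : Nat.Coprime d e := Nat.isCoprime_iff_coprime.1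
    ⟨-δ, δ, by linear_combination δ * hde + hδ2⟩
  have e1 : 2 * a * b * q = 2 * a * q * b := by ring
  rw [e1] at hdd hed
  obtain ⟨k, hk⟩ := hco.mul_dvd_of_dvd_of_dvd (hdb.dvd_of_dvd_mul_right hdd)
    (heb.dvd_of_dvd_mul_right hed)
  have hkZ : (2 * a * q : ℤ) = d * e * k := by exact_mod_cast hk
  have hmod : (2 * a * q : ℤ) = b * (2 * a * q / b : ℕ) + 2 := by
    have := Nat.div_add_mod (2 * a * q) b
    rw [h.mod_b] at this
    exact_mod_cast this.symm
  generalize ((2 * a * q / b : ℕ) : ℤ) = n at hmod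
  have hdZ : (d : ℤ) = b * m + δ := by linarith
  have heZ : (e : ℤ) = b * m + 2 * δ := by linarith
  have hk1 : (b : ℤ) ∣ (k - 1) * 2 := ⟨n - (b * m * m + 3 * m * δ) * k, by
    rw [hdZ, heZ] at hkZ
    linear_combination hmod - hkZ - 2 * k * hδ2⟩
  have hk2 : (b : ℤ) ∣ k - 1 :=
    (show IsCoprime (b : ℤ) 2 from ⟨1, -c, by linear_combination hcZ⟩).dvd_of_dvd_mul_right hk1
  have hb0 : (9 : ℤ) ≤ b := by exact_mod_cast h9
  have hm0 : 0 ≤ m := by
    by_contra hc
    have h1 : m ≤ -1 := by omega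
    have h2 : (b : ℤ) * m ≤ b * (-1) := mul_le_mul_of_nonneg_left h1 (by omega)
    omega
  rcases hm0.eq_or_lt with rfl | hm1
  · right
    omega
  · left
    have h2 : (b : ℤ) * 1 ≤ b * m := mul_le_mul_of_nonneg_left hm1 (by omega)
    have hd1 : (b : ℤ) - 1 ≤ d := by omega
    have he1 : (b : ℤ) - 2 ≤ e := by omega
    have hde1 : ((b : ℤ) - 1) * (b - 2) ≤ d * e :=
      mul_le_mul hd1 he1 (by omega) (by omega)
    have ha1 : (a : ℤ) ≤ b + 1 := by omega
    have hq1 : (q : ℤ) ≤ 2 * b + 1 := by omega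
    have haq : (a : ℤ) * q ≤ (b + 1) * (2 * b + 1) :=
      mul_le_mul ha1 hq1 (by omega) (by omega)
    have hk3 : k = 1 := by
      by_contra hc
      have hk0 : k ≠ 0 := by
        rintro rfl
        have := h.a8
        have h3 : 0 < 2 * a * q := by
          have := h.q17
          positivity
        omega
      have h3 : (b : ℤ) ≤ k - 1 := Int.le_of_dvd (by omega) hk2
      have h4 : ((b : ℤ) - 1) * (b - 2) * (b + 1) ≤ d * e * k :=
        mul_le_mul hde1 (by omega) (by omega) (by positivity)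
      have h5 : (2 * (2 * b + 1) + 1 : ℤ) ≤ (b - 1) * (b - 2) := by nlinarith
      have h6 : (2 * (2 * b + 1) + 1 : ℤ) * (b + 1) ≤ (b - 1) * (b - 2) * (b + 1) :=
        mul_le_mul_of_nonneg_right h5 (by omega)
      nlinarith
    rw [hk3, Nat.cast_one, mul_one] at hkZ
    have hbad : ¬ (d = 2 * a ∧ e = q) := by
      rintro ⟨h3, h4⟩
      have h5 : (b : ℤ) ∣ 3 * a := ⟨m + 1, by
        have h6 : (d : ℤ) = 2 * a := by exact_mod_cast h3
        have h7 : (e : ℤ) = a + b := by omega
        linear_combination hm + h7 - hde - 2 * h6⟩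
      have h6 : b ∣ 3 * a := by exact_mod_cast h5
      have h7 := Nat.le_of_dvd (by norm_num) (h.cop_ab.symm.dvd_of_dvd_mul_right h6)
      omega
    have hqa : (q : ℤ) = 2 * a + 1 ∨ (2 * a : ℤ) = q + 1 := by omega
    rcases hδ with rfl | rfl <;> rcases hqa with hq | hq
    · have := exca_consec (x := d) (y := 2 * a) (by omega) (by omega)
        (by rw [← hde, ← hq]; exact hkZ.symm)
      omega
    · have := exca_consec (x := d) (y := q) (by omega) (by omega)
        (by rw [← hde, ← hq, ← hkZ]; ring)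
      omega
    · have := exca_consec (x := e) (y := 2 * a) (by omega) (by omega)
        (by rw [← hq, hkZ, show (e : ℤ) + 1 = d by omega]; ring)
      omega
    · have := exca_consec (x := e) (y := q) (by omega) (by omega)
        (by rw [← hq, show (e : ℤ) + 1 = d by omega]; linarith)
      omega

end Pool.Agent.Lib.MP_7d41f7_al
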