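import Pool.Agent.Lib.MP_7d41f7_al.Ch2
import Pool.Agent.Lib.MP_7d41f7_al.Cnt

set_option autoImplicit false

namespace Pool.Agent.Lib.MP_7d41f7_al

open Finset Subgroup Pool.Agent.Lib.MP_b6945b_al OnePoint
open scoped Classical

variable {G : Type} [Group G] [Fintype G] {I : IrrData G} {β : G} {ζ : ℂ}
  {μ : Fin I.n → ℕ → ℕ}

theorem excb_geom {b : ℕ} (hζ : IsPrimitiveRoot ζ b) (t : ℤ) :
    ∑ k ∈ range b, ζ ^ (t * k) = if (b : ℤ) ∣ t then (b : ℂ) else 0 := by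
  simp only [zpow_mul, zpow_natCast]
  split_ifs with h
  · simp [(hζ.zpow_eq_one_iff_dvd t).2 h]
  · rw [geom_sum_eq (mt (hζ.zpow_eq_one_iff_dvd t).1 h), ← zpow_natCast, ← zpow_mul, mul_comm,
      zpow_mul, zpow_natCast, hζ.pow_eq_one, one_zpow, sub_self, zero_div]

/-- Fourier inversion on a cyclic group (`IsPrimitiveRoot.geom_sum_eq_zero`, `geom_sum_eq`). -/
theorem mu_eq {b : ℕ} (hζ : IsPrimitiveRoot ζ b) {f : ℤ → ℂ} {m : ℕ → ℂ}
    (hf : ∀ k : ℤ, f k = ∑ j ∈ range b, m j * ζ ^ ((j : ℤ) * k)) {j : ℕ} (hj : j < b) :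
    ∑ k ∈ range b, ζ ^ (-((j : ℤ) * k)) * f k = b * m j ∧
      ∑ k ∈ range b, ζ ^ ((j : ℤ) * k) * f (-k) = b * m j := by
  have h0 : ζ ≠ 0 := hζ.ne_zero (by omega)
  have key : ∀ s : ℤ, s = 1 ∨ s = -1 →
      ∑ k ∈ range b, ζ ^ (-s * j * k) * f (s * k) = b * m j := fun s hs => by
    have e : ∀ k : ℕ, ζ ^ (-s * j * k) * f (s * k) =
        ∑ l ∈ range b, m l * ζ ^ (s * (l - j) * k) := fun k => by
      rw [hf, mul_sum]
      refine sum_congr rfl fun l _ => ?_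
      rw [mul_left_comm, ← zpow_add₀ h0]
      congr 2
      ring
    simp only [e]
    rw [sum_comm, sum_eq_single j _ (fun h => absurd (mem_range.2 hj) h)]
    · rw [← mul_sum, excb_geom hζ, if_pos (by simp), mul_comm]
    · intro l hl hlj
      rw [← mul_sum, excb_geom hζ, if_neg, mul_zero]
      intro h
      have h1 := mem_range.1 hl
      have h2 := Int.eq_zero_of_abs_lt_dvd h (by rcases hs with rfl | rfl <;> rw [abs_lt] <;> omega)
      rcases hs with rfl | rfl <;> omega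
  exact ⟨by simpa using key 1 (Or.inl rfl), by simpa using key (-1) (Or.inr rfl)⟩

theorem excb_diff (hζ : IsPrimitiveRoot ζ (orderOf β))
    (hμ : ∀ i (k : ℤ), I.χ i (β ^ k) = ∑ j ∈ range (orderOf β), (μ i j : ℂ) * ζ ^ ((j : ℤ) * k))
    {j : ℕ} (hj : j < orderOf β) (i : Fin I.n) :
    (orderOf β : ℂ) * ((μ i 0 : ℂ) - μ i j) =
        ∑ k ∈ range (orderOf β), (1 - ζ ^ (-(j : ℤ) * k)) * I.χ i (β ^ (k : ℤ)) ∧
      (orderOf β : ℂ) * ((μ i 0 : ℂ) - μ i j) =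
        ∑ k ∈ range (orderOf β), (1 - ζ ^ ((j : ℤ) * k)) * I.χ i (β ^ (k : ℤ))⁻¹ := by
  obtain ⟨h1, h2⟩ := mu_eq hζ (f := fun k => I.χ i (β ^ k)) (hμ i) hj
  obtain ⟨h3, h4⟩ := mu_eq hζ (f := fun k => I.χ i (β ^ k)) (hμ i) (orderOf_pos β)
  simp only [Nat.cast_zero, zero_mul, neg_zero, zpow_zero, one_mul, zpow_neg β] at h2 h3 h4
  simp only [mul_sub, sub_mul, sum_sub_distrib, one_mul, neg_mul]
  exact ⟨by rw [h1, h3], by rw [h2, h4]⟩

omit [Fintype G] in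
theorem excb_one (hζ : IsPrimitiveRoot ζ (orderOf β)) {k : ℤ} (h : β ^ k = 1) (j : ℤ) :
    ζ ^ (j * k) = 1 :=
  (hζ.zpow_eq_one_iff_dvd _).2 ((orderOf_dvd_iff_zpow_eq_one.2 h).mul_left j)

/-- `b * (μ i 0 - μ i j) = ∑ k < b, (1 - ζ ^ (j k)) * χ i (β ^ k)⁻¹`; use `col_orth`: `cnt g c = 0`
for `c ≠ 1` in `zpowers β`. -/
theorem exc_van (hζ : IsPrimitiveRoot ζ (orderOf β))
    (hμ : ∀ i (k : ℤ), I.χ i (β ^ k) = ∑ j ∈ range (orderOf β), (μ i j : ℂ) * ζ ^ ((j : ℤ) * k))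
    {j : ℕ} (hj : j < orderOf β) {g : G} (hg : ¬ CjIn β g) :
    ∑ i, ((μ i 0 : ℂ) - μ i j) * I.χ i g = 0 := by
  have hb : (orderOf β : ℂ) ≠ 0 := Nat.cast_ne_zero.2 (by omega)
  refine mul_left_cancel₀ hb ?_
  rw [mul_zero, mul_sum]
  simp only [← mul_assoc, (excb_diff hζ hμ hj _).2, sum_mul]
  rw [sum_comm]
  refine sum_eq_zero fun k _ => ?_
  simp only [mul_assoc, mul_comm (I.χ _ _⁻¹)]
  rw [← mul_sum, col_orth]
  by_cases h : β ^ (k : ℤ) = 1
  · rw [excb_one hζ h, sub_self, zero_mul]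
  · rw [cnt, filter_eq_empty_iff.2, card_empty, Nat.cast_zero, mul_zero]
    exact fun c _ e => hg ⟨c⁻¹, _, zpow_mem_zpowers β k, h, by rw [← e]; group⟩

theorem excb_cnt (hT : Tor β) {x y : G} (hx : x ∈ zpowers β) (h1 : x ≠ 1) (hy : y ∈ zpowers β) :
    (cnt x y : ℂ) = orderOf β * ((if x = y then 1 else 0) + if x⁻¹ = y then 1 else 0) := by
  have c1 : (univ.filter (· ∈ zpowers β)).card = orderOf β := by
    rw [← Nat.card_zpowers, Nat.card_eq_fintype_card, Fintype.card_subtype]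
  have c2 : (univ.filter (· ∈ Nx β)).card = 2 * orderOf β := by
    rw [← hT.toDih.card, Nat.card_eq_fintype_card, Fintype.card_subtype]
  have c3 : (univ.filter fun g => g ∈ Nx β ∧ g ∉ zpowers β).card = orderOf β := by
    have h := card_filter_add_card_filter_not (s := univ.filter (· ∈ Nx β)) (· ∈ zpowers β)
    rw [filter_filter, filter_filter, c2,
      filter_congr (q := (· ∈ zpowers β)) fun g _ => and_iff_right_of_imp fun h => le_normalizer h,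
      c1] at h
    omega
  have e : ∀ g : G, (if g * x * g⁻¹ = y then (1 : ℂ) else 0) =
      (if g ∈ zpowers β then if x = y then 1 else 0 else 0) +
        if g ∈ Nx β ∧ g ∉ zpowers β then if x⁻¹ = y then 1 else 0 else 0 := fun g => by
    by_cases h2 : g ∈ zpowers β
    · have h3 : g * x * g⁻¹ = x := by
        obtain ⟨s, rfl⟩ := mem_zpowers_iff.1 h2
        obtain ⟨t, rfl⟩ := mem_zpowers_iff.1 hx
        group
      simp [h2, h3]
    · by_cases h3 : g ∈ Nx β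
      · simp [h2, h3, hT.inv g h3 h2 x hx]
      · have h4 : g * x * g⁻¹ ≠ y := fun h => h3 (ti_of_nrm hT.nrm x hx h1 g (h ▸ hy))
        simp [h2, h3, h4]
  rw [cnt, card_filter]
  push_cast
  simp only [e]
  rw [sum_add_distrib, ← sum_filter (· ∈ zpowers β),
    ← sum_filter fun g => g ∈ Nx β ∧ g ∉ zpowers β, sum_const, sum_const, c1, c3, nsmul_eq_mul,
    nsmul_eq_mul, mul_add]

theorem excb_pick (hζ : IsPrimitiveRoot ζ (orderOf β)) (j t : ℤ) :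
    ∑ l ∈ range (orderOf β), (1 - ζ ^ (j * l)) * (if β ^ t = β ^ (l : ℤ) then 1 else 0) =
      1 - ζ ^ (j * t) := by
  obtain ⟨l, hl, e⟩ := mem_image.1 (mem_zpowers_iff_mem_range_orderOf.1 (zpow_mem_zpowers β t))
  rw [sum_eq_single_of_mem l hl, if_pos (by rw [zpow_natCast, e]), mul_one]
  · have h := excb_one hζ (k := l - t) (by rw [zpow_sub, zpow_natCast, e, mul_inv_cancel]) j
    have hz : ζ ≠ 0 := hζ.ne_zero (orderOf_pos β).ne'
    rw [mul_sub, zpow_sub₀ hz, div_eq_one_iff_eq (zpow_ne_zero _ hz)] at h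
    rw [h]
  · intro m hm hml
    rw [if_neg, mul_zero]
    rw [zpow_natCast, ← e]
    exact fun h => hml (pow_injOn_Iio_orderOf (mem_range.1 hm) (mem_range.1 hl) h.symm)

/-- `iso` for `η (β ^ k) = 1 - ζ ^ (-j k)` and `η' (β ^ k) = 1 - ζ ^ (j' k)`, extended by zero, with
`N = Nx β` (`ti_of_nrm`). The `b` elements of `zpowers β` act trivially and the `b` other elements of
`N` invert (`Dih.card`). Alternatively use `col_orth` directly:
`cnt (β ^ k) (β ^ l)` is `b` times the number of signs with `β ^ l = β ^ (± k)`. -/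
theorem exc_gram (hT : Tor β) (hζ : IsPrimitiveRoot ζ (orderOf β))
    (hμ : ∀ i (k : ℤ), I.χ i (β ^ k) = ∑ j ∈ range (orderOf β), (μ i j : ℂ) * ζ ^ ((j : ℤ) * k))
    {j j' : ℕ} (h0 : 0 < j) (hj : j < orderOf β) (h0' : 0 < j') (hj' : j' < orderOf β) :
    ∑ i, ((μ i 0 : ℤ) - μ i j) * ((μ i 0 : ℤ) - μ i j') =
      2 + (if j = j' then 1 else 0) + if j + j' = orderOf β then 1 else 0 := by
  have hb : (orderOf β : ℂ) ≠ 0 := Nat.cast_ne_zero.2 (by omega)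
  have hz : ζ ≠ 0 := hζ.ne_zero (by omega)
  apply Int.cast_injective (α := ℂ)
  push_cast
  refine mul_left_cancel₀ (mul_ne_zero hb hb) ?_
  have e1 : ∀ i, (orderOf β : ℂ) * orderOf β * (((μ i 0 : ℂ) - μ i j) * ((μ i 0 : ℂ) - μ i j')) =
      ∑ k ∈ range (orderOf β), ∑ l ∈ range (orderOf β), (1 - ζ ^ (-(j : ℤ) * k)) *
        ((1 - ζ ^ ((j' : ℤ) * l)) * (I.χ i (β ^ (k : ℤ)) * I.χ i (β ^ (l : ℤ))⁻¹)) := fun i => by
    rw [mul_mul_mul_comm, (excb_diff hζ hμ hj i).1, (excb_diff hζ hμ hj' i).2, sum_mul_sum]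
    exact sum_congr rfl fun k _ => sum_congr rfl fun l _ => by ring
  have e2 : ∀ k : ℕ, ∑ i, ∑ l ∈ range (orderOf β), (1 - ζ ^ (-(j : ℤ) * k)) *
      ((1 - ζ ^ ((j' : ℤ) * l)) * (I.χ i (β ^ (k : ℤ)) * I.χ i (β ^ (l : ℤ))⁻¹)) =
      orderOf β * (2 - ζ ^ ((j' : ℤ) * k) - ζ ^ (-(j' : ℤ) * k) - 2 * ζ ^ (-(j : ℤ) * k) +
        ζ ^ (((j' : ℤ) - j) * k) + ζ ^ (-((j : ℤ) + j') * k)) := fun k => by
    have e3 : ζ ^ (((j' : ℤ) - j) * k) = ζ ^ (-(j : ℤ) * k) * ζ ^ ((j' : ℤ) * k) := by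
      rw [← zpow_add₀ hz]; congr 1; ring
    have e4 : ζ ^ (-((j : ℤ) + j') * k) = ζ ^ (-(j : ℤ) * k) * ζ ^ (-(j' : ℤ) * k) := by
      rw [← zpow_add₀ hz]; congr 1; ring
    rw [sum_comm, e3, e4]
    simp only [← mul_sum, col_orth]
    by_cases h : β ^ (k : ℤ) = 1
    · rw [excb_one hζ h (-(j : ℤ))]
      ring
    · simp only [excb_cnt hT (zpow_mem_zpowers β k) h (zpow_mem_zpowers β _), ← zpow_neg,
        mul_left_comm _ (orderOf β : ℂ), mul_add, sum_add_distrib, ← mul_sum, excb_pick hζ]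
      rw [mul_neg, ← neg_mul]
      ring
  have nd : ∀ t : ℤ, t ≠ 0 → |t| < orderOf β → ¬ (orderOf β : ℤ) ∣ t := fun t h1 h2 h =>
    h1 (Int.eq_zero_of_abs_lt_dvd h h2)
  have i1 : ((orderOf β : ℤ) ∣ (j' : ℤ) - j) ↔ j = j' :=
    ⟨fun h => by_contra fun k => nd _ (by omega) (by rw [abs_lt]; omega) h, by rintro rfl; simp⟩
  have i2 : ((orderOf β : ℤ) ∣ -((j : ℤ) + j')) ↔ j + j' = orderOf β := by
    rw [dvd_neg, ← dvd_sub_self_left]
    exact ⟨fun h => by_contra fun k => nd _ (by omega) (by rw [abs_lt]; omega) h,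
      fun h => by rw [show (orderOf β : ℤ) - (j + j') = 0 by omega]; simp⟩
  rw [mul_sum]
  simp only [e1]
  rw [sum_comm]
  simp only [e2]
  simp only [← mul_sum, sum_add_distrib, sum_sub_distrib, excb_geom hζ, i1, i2]
  rw [if_neg (nd _ (by omega) (by rw [abs_lt]; omega)),
    if_neg (nd _ (by omega) (by rw [abs_lt]; omega)),
    if_neg (nd _ (by omega) (by rw [abs_lt]; omega)), sum_const, card_range, nsmul_eq_mul]
  split_ifs <;> ring

end Pool.Agent.Lib.MP_7d41f7_al
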