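import Pool.Agent.Lib.MP_7d41f7_al.ExcA
import Pool.Agent.Lib.MP_7d41f7_al.ExcB
import Pool.Agent.Lib.MP_7d41f7_al.Ch3

set_option autoImplicit false

namespace Pool.Agent.Lib.MP_7d41f7_al

open Finset Subgroup Pool.Agent.Lib.MP_b6945b_al OnePoint
open scoped Classical

variable {G : Type} [Group G] [Fintype G]

theorem excc_uniq {b : ℕ} {ζ : ℂ} (hζ : IsPrimitiveRoot ζ b) {m m' : ℕ → ℂ}
    (h : ∀ k : ℤ, ∑ j ∈ range b, m j * ζ ^ ((j : ℤ) * k) = ∑ j ∈ range b, m' j * ζ ^ ((j : ℤ) * k))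
    {j : ℕ} (hj : j < b) : m j = m' j := by
  have h1 := (mu_eq hζ (f := fun k => ∑ j ∈ range b, m j * ζ ^ ((j : ℤ) * k)) (fun _ => rfl) hj).1
  have h2 := (mu_eq hζ (f := fun k => ∑ j ∈ range b, m j * ζ ^ ((j : ℤ) * k)) h hj).1
  have hb : (b : ℂ) ≠ 0 := Nat.cast_ne_zero.2 (by omega)
  exact mul_left_cancel₀ hb (h1.symm.trans h2)

theorem excc_geom {z : ℂ} {b : ℕ} (h1 : z ≠ 1) (hb : z ^ b = 1) : ∑ j ∈ range b, z ^ j = 0 := by
  rw [geom_sum_eq h1, hb, sub_self, zero_div]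

/-- Exceptional characters. Take `μ` from `spec`, the trivial character `i₀` (`exists_triv`,
`μ i₀ 0 - μ i₀ j = 1` by `mu_eq`) and `v j i = μ i 0 - μ i j - (if i = i₀ then 1 else 0)` for
`0 < j < b`, with `e j k := j = k ∨ j + k = b`. Apply `gram2` (`exc_gram`; `exc_van` at `g = 1`; the
pair `1`, `2`), and let `i₂` be the place for `j = 1`. Neither `i₁` nor `i₂` is `i₀` since `v j i₀ = 0`.
So `μ i₁ j = μ i₁ 0 - δ` for all `0 < j < b`, and `μ i₂ j = μ i₂ 0 + δ` for `j = 1, b - 1` and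
`μ i₂ j = μ i₂ 0` otherwise; hence `χ i₂ (β ^ k) = δ (ζ ^ k + ζ ^ (-k))` off the identity. The dual of
`i₁` (`exists_dual`) has the same restriction to `zpowers β` (`Dih.inv`), so the same `μ` (`mu_eq`),
so it is `i₁`. -/
theorem exc (I : IrrData G) {β : G} (hT : Tor β) (hodd : Odd (orderOf β)) (h5 : 5 ≤ orderOf β) :
    ∃ (i₁ i₂ : Fin I.n) (δ : ℤ), (δ = 1 ∨ δ = -1) ∧
      (∀ x ∈ zpowers β, x ≠ 1 → I.χ i₁ x = δ) ∧
      (∀ g, ¬ CjIn β g → 1 + δ * I.χ i₁ g - δ * I.χ i₂ g = 0) ∧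
      ((orderOf β : ℤ) ∣ I.d i₁ - δ) ∧
      (∀ x ∈ zpowers β, x ≠ 1 → δ = 1 → I.χ i₂ x ≠ 2) ∧
      ∀ g, I.χ i₁ g⁻¹ = I.χ i₁ g := by
  obtain ⟨b, hb⟩ : ∃ b, b = orderOf β := ⟨_, rfl⟩
  have hb5 : 5 ≤ b := hb ▸ h5
  have hbo : Odd b := hb ▸ hodd
  obtain ⟨ζ, hζ⟩ : ∃ ζ : ℂ, IsPrimitiveRoot ζ (orderOf β) :=
    ⟨_, Complex.isPrimitiveRoot_exp _ (by omega)⟩
  choose μ hμ using fun i => spec (I.ρ i) β hζ
  replace hμ : ∀ i (k : ℤ), I.χ i (β ^ k) =
      ∑ j ∈ range (orderOf β), (μ i j : ℂ) * ζ ^ ((j : ℤ) * k) := hμ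
  have hvan := fun {j : ℕ} (hj : j < orderOf β) {g : G} (hg : ¬ CjIn β g) => exc_van hζ hμ hj hg
  have hgram := fun {j j' : ℕ} (h0 : 0 < j) (hj : j < orderOf β) (h0' : 0 < j')
    (hj' : j' < orderOf β) => exc_gram hT hζ hμ h0 hj h0' hj'
  have hone : ∀ k : ℤ, β ^ k ≠ 1 → ζ ^ k ≠ 1 := fun k hk h =>
    hk (orderOf_dvd_iff_zpow_eq_one.1 ((hζ.zpow_eq_one_iff_dvd k).1 h))
  rw [← hb] at hζ hμ hvan hgram ⊢
  have hpow : ∀ k : ℤ, (ζ ^ k) ^ b = 1 := fun k => by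
    rw [← zpow_natCast, ← zpow_mul, mul_comm, zpow_mul, zpow_natCast, hζ.pow_eq_one, one_zpow]
  have hz : ∀ (j : ℕ) (k : ℤ), ζ ^ ((j : ℤ) * k) = (ζ ^ k) ^ j := fun j k => by
    rw [mul_comm, zpow_mul, zpow_natCast]
  obtain ⟨i₀, hi₀⟩ := exists_triv I
  have hm0 : ∀ j < b, (μ i₀ j : ℂ) = if j = 0 then 1 else 0 := fun j hj =>
    excc_uniq hζ (m := fun j => (μ i₀ j : ℂ)) (m' := fun j => if j = 0 then 1 else 0) (fun k => by
      rw [← hμ, hi₀, sum_eq_single 0 (fun j _ hj => by simp [hj]) (fun h => by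
        exact absurd (mem_range.2 (by omega)) h)]
      simp) hj
  have hw0 : ∀ j, 0 < j → j < b → (μ i₀ 0 : ℤ) - μ i₀ j = 1 := fun j h0 hj => by
    have h1 := hm0 0 (by omega)
    have h2 := hm0 j hj
    rw [if_pos rfl] at h1
    rw [if_neg h0.ne'] at h2
    have h3 : μ i₀ 0 = 1 := by exact_mod_cast h1
    have h4 : μ i₀ j = 0 := by exact_mod_cast h2
    simp [h3, h4]
  have hd0 : I.d i₀ = 1 := by
    have := hi₀ 1
    rw [I.χ_one] at this
    exact_mod_cast this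
  have hn1 : ¬ CjIn β (1 : G) := by
    rintro ⟨k, x, _, hx, h⟩
    apply hx
    have : x = k⁻¹ * (k * x * k⁻¹) * k := by group
    rw [this, ← h]
    simp
  let v : {j : ℕ // 0 < j ∧ j < b} → Fin I.n → ℤ :=
    fun j i => (μ i 0 : ℤ) - μ i j - if i = i₀ then 1 else 0
  have hG : ∀ j k, ∑ i, v j i * v k i = if (j.1 = k.1 ∨ j.1 + k.1 = b) then 2 else 1 := by
    intro j k
    have h1 := hgram j.2.1 j.2.2 k.2.1 k.2.2
    have h2 : ∀ i, v j i * v k i = ((μ i 0 : ℤ) - μ i j) * ((μ i 0 : ℤ) - μ i k) -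
        if i = i₀ then 1 else 0 := by
      intro i
      by_cases hi : i = i₀
      · simp only [v, hi, if_true, hw0 _ j.2.1 j.2.2, hw0 _ k.2.1 k.2.2]
        norm_num
      · simp only [v, hi, if_false, sub_zero]
    rw [sum_congr rfl fun i _ => h2 i, sum_sub_distrib, h1, sum_ite_eq', if_pos (mem_univ _)]
    obtain ⟨c, hc⟩ := hbo
    split_ifs <;> omega
  have hdeg : ∀ j, ∑ i, v j i * (I.d i : ℤ) = -1 := by
    intro j
    have h1 := hvan j.2.2 hn1
    simp only [I.χ_one] at h1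
    have h2 : ∑ i, ((μ i 0 : ℤ) - μ i j) * (I.d i : ℤ) = 0 := by exact_mod_cast h1
    simp only [v, sub_mul ((μ _ 0 : ℤ) - μ _ j), sum_sub_distrib, h2, ite_mul, one_mul, zero_mul,
      sum_ite_eq', mem_univ, if_true, hd0]
    norm_num
  obtain ⟨i₁, δ, hδ, ht⟩ := gram2 (fun j k : {j : ℕ // 0 < j ∧ j < b} => j.1 = k.1 ∨ j.1 + k.1 = b)
    v (fun i => (I.d i : ℤ)) (fun i => by exact_mod_cast I.pos i) hdeg (fun j => Or.inl rfl)
    (fun j k => by rw [hG]; congr) (j₀ := ⟨1, by omega⟩) (k₀ := ⟨2, by omega⟩) (by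
      change ¬ (1 = 2 ∨ 1 + 2 = b)
      omega)
  choose t ht1 ht2 using ht
  let o : {j : ℕ // 0 < j ∧ j < b} := ⟨1, by omega⟩
  have hv0 : ∀ j, v j i₀ = 0 := fun j => by simp only [v, hw0 _ j.2.1 j.2.2, if_true, sub_self]
  have h10 : i₁ ≠ i₀ := by
    intro h
    have h1 := ht2 o i₀
    rw [hv0, if_pos h.symm, if_neg (by rw [← h]; exact (ht1 o).symm)] at h1
    omega
  have ht0 : ∀ j, t j ≠ i₀ := by
    intro j h
    have h1 := ht2 j i₀
    rw [hv0, if_neg h10.symm, if_pos h.symm] at h1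
    omega
  have hμ1 : ∀ j < b, (μ i₁ j : ℤ) = (μ i₁ 0 - δ) + if j = 0 then δ else 0 := by
    intro j hj
    by_cases h0 : j = 0
    · simp [h0]
    · have h1 := ht2 ⟨j, Nat.pos_of_ne_zero h0, hj⟩ i₁
      rw [if_pos rfl, if_neg (ht1 _).symm] at h1
      simp only [v, if_neg h10] at h1
      rw [if_neg h0]
      omega
  have hχ1 : ∀ k : ℤ, I.χ i₁ (β ^ k) =
      ((μ i₁ 0 : ℂ) - δ) * (∑ j ∈ range b, (ζ ^ k) ^ j) + δ := by
    intro k
    have h1 : ∀ j ∈ range b, (μ i₁ j : ℂ) * ζ ^ ((j : ℤ) * k) =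
        ((μ i₁ 0 : ℂ) - δ) * (ζ ^ k) ^ j + if j = 0 then (δ : ℂ) else 0 := by
      intro j hj
      have h2 : (μ i₁ j : ℂ) = (((μ i₁ 0 - δ) + if j = 0 then δ else 0 : ℤ) : ℂ) := by
        rw [← hμ1 j (mem_range.1 hj)]
        simp
      rw [h2, hz]
      split_ifs with h0
      · subst h0
        simp
      · simp
    rw [hμ, sum_congr rfl h1, sum_add_distrib, mul_sum, sum_ite_eq',
      if_pos (mem_range.2 (by omega))]
  have hA : ∀ x ∈ zpowers β, x ≠ 1 → I.χ i₁ x = δ := by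
    rintro _ ⟨k, rfl⟩ hx
    have hx' : β ^ k ≠ 1 := hx
    change I.χ i₁ (β ^ k) = δ
    rw [hχ1, excc_geom (hone k hx') (hpow k), mul_zero, zero_add]
  refine ⟨i₁, t o, δ, hδ, hA, ?_, ?_, ?_, ?_⟩
  · intro g hg
    have h1 := hvan o.2.2 hg
    have h2 : ∀ i, ((μ i 0 : ℂ) - μ i o) * I.χ i g = (if i = i₀ then I.χ i g else 0) +
        (if i = i₁ then δ * I.χ i g else 0) - if i = t o then δ * I.χ i g else 0 := by
      intro i
      have h3 : ((μ i 0 : ℤ) - μ i o) = (if i = i₀ then 1 else 0) + (if i = i₁ then δ else 0) -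
          if i = t o then δ else 0 := by
        have := ht2 o i
        simp only [v] at this
        omega
      have h4 : ((μ i 0 : ℂ) - μ i o) = (((μ i 0 : ℤ) - μ i o : ℤ) : ℂ) := by simp
      rw [h4, h3]
      split_ifs <;> push_cast <;> ring
    rw [sum_congr rfl fun i _ => h2 i, sum_sub_distrib, sum_add_distrib] at h1
    simpa only [sum_ite_eq', mem_univ, if_true, hi₀] using h1
  · have h1 := hχ1 0
    simp only [zpow_zero, I.χ_one, one_pow, sum_const, card_range, nsmul_eq_mul, mul_one] at h1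
    have h2 : (I.d i₁ : ℤ) = (μ i₁ 0 - δ) * b + δ := by exact_mod_cast h1
    exact ⟨μ i₁ 0 - δ, by rw [h2]; ring⟩
  · rintro _ ⟨k, rfl⟩ hx h1
    have hx' : β ^ k ≠ 1 := hx
    change I.χ (t o) (β ^ k) ≠ 2
    subst h1
    have hμ2 : ∀ j < b, (μ (t o) j : ℤ) =
        μ (t o) 0 + ((if j = 1 then 1 else 0) + if j = b - 1 then 1 else 0) := by
      intro j hj
      by_cases h0 : j = 0
      · subst h0
        rw [if_neg (by omega), if_neg (by omega)]
        simp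
      · have h3 := hG o ⟨j, Nat.pos_of_ne_zero h0, hj⟩
        have h4 : ∀ i, v o i * v ⟨j, Nat.pos_of_ne_zero h0, hj⟩ i =
            (if i = i₁ then v ⟨j, Nat.pos_of_ne_zero h0, hj⟩ i else 0) -
              if i = t o then v ⟨j, Nat.pos_of_ne_zero h0, hj⟩ i else 0 := by
          intro i
          rw [ht2 o i]
          split_ifs <;> ring
        rw [sum_congr rfl fun i _ => h4 i, sum_sub_distrib, sum_ite_eq', sum_ite_eq',
          if_pos (mem_univ _), if_pos (mem_univ _), ht2 _ i₁, if_pos rfl,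
          if_neg (ht1 _).symm] at h3
        have ho : o.1 = 1 := rfl
        simp only [v, if_neg (ht0 o), ho] at h3
        split_ifs at h3 ⊢ <;> omega
    have h2 : ∀ j ∈ range b, (μ (t o) j : ℂ) * ζ ^ ((j : ℤ) * k) =
        (μ (t o) 0 : ℂ) * (ζ ^ k) ^ j + ((if j = 1 then (ζ ^ k) ^ j else 0) +
          if j = b - 1 then (ζ ^ k) ^ j else 0) := by
      intro j hj
      have h3 : (μ (t o) j : ℂ) = ((μ (t o) 0 + ((if j = 1 then 1 else 0) +
          if j = b - 1 then 1 else 0) : ℤ) : ℂ) := by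
        rw [← hμ2 j (mem_range.1 hj)]
        simp
      rw [h3, hz]
      split_ifs <;> push_cast <;> ring
    rw [hμ, sum_congr rfl h2, sum_add_distrib, sum_add_distrib, ← mul_sum, sum_ite_eq',
      sum_ite_eq', if_pos (mem_range.2 (by omega)), if_pos (mem_range.2 (by omega)),
      excc_geom (hone k hx') (hpow k), mul_zero, zero_add, pow_one]
    intro h3
    have h4 : (ζ ^ k) ^ (b - 1) * ζ ^ k = 1 := by
      rw [← pow_succ, Nat.sub_add_cancel (by omega), hpow]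
    have h6 : (ζ ^ k - 1) ^ 2 = 0 := by linear_combination (ζ ^ k) * h3 - h4
    exact hone k hx' (sub_eq_zero.1 (pow_eq_zero_iff two_ne_zero |>.1 h6))
  · obtain ⟨j, hj⟩ := exists_dual I i₁
    by_cases hj1 : j = i₁
    · intro g
      rw [← hj, hj1]
    by_cases hj0 : j = i₀
    · intro g
      have h1 := hj g⁻¹
      rw [inv_inv] at h1
      rw [← hj, ← h1, hj0, hi₀, hi₀]
    exfalso
    have h1 : ∀ k : ℤ, I.χ j (β ^ k) = I.χ i₁ (β ^ k) := by
      intro k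
      rw [hj]
      by_cases hk : β ^ k = 1
      · rw [hk, inv_one]
      · rw [hA _ (zpow_mem_zpowers β k) hk,
          hA _ (inv_mem (zpow_mem_zpowers β k)) (inv_ne_one.2 hk)]
    have h2 : ∀ l < b, μ j l = μ i₁ l := fun l hl => by
      have := excc_uniq hζ (m := fun l => (μ j l : ℂ)) (m' := fun l => (μ i₁ l : ℂ))
        (fun k => by rw [← hμ, ← hμ, h1]) hl
      exact_mod_cast this
    have h3 := ht2 o j
    have h4 := hμ1 1 (by omega)
    simp only [v, o, if_neg hj0, if_neg hj1, h2 0 (by omega), h2 1 (by omega)] at h3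
    rw [if_neg one_ne_zero] at h4
    split_ifs at h3 <;> omega

end Pool.Agent.Lib.MP_7d41f7_al
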