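import Pool.Agent.Lib.MP_7d41f7_al.Defs

set_option autoImplicit false

namespace Pool.Agent.Lib.MP_7d41f7_al

open Finset Subgroup Pool.Agent.Lib.MP_b6945b_al OnePoint
open scoped Classical

/-- An invariant subgroup is trivial or everything. -/
theorem fld_irr {M : Type} [AddCommGroup M] (f : M ≃+ M) {c : ℕ} (hM : Nat.card M = 2 * c + 1)
    (hf : ∀ k, 0 < k → k < c → ∀ x, f^[k] x = x → x = 0) (H : AddSubgroup M)
    (hH : ∀ x ∈ H, f x ∈ H) : H = ⊥ ∨ H = ⊤ := by
  have : Finite M := Nat.finite_of_card_ne_zero (by omega)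
  refine or_iff_not_imp_left.2 fun h0 => ?_
  obtain ⟨⟨m, hm⟩, hm0⟩ := AddSubgroup.ne_bot_iff_exists_ne_zero.1 h0
  have hm1 : m ≠ 0 := fun e => hm0 (Subtype.ext e)
  have h2 : ∀ k, f^[k] m ∈ H := fun k => by
    induction k with
    | zero => exact hm
    | succ k ih => rw [Function.iterate_succ_apply']; exact hH _ ih
  have h3 : ∀ k, f^[k] m ≠ 0 := fun k => by
    induction k with
    | zero => exact hm1
    | succ k ih => rw [Function.iterate_succ_apply']; exact (map_ne_zero_iff f f.injective).2 ih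
  have h4 : ∀ i j, i < j → j < c → f^[i] m ≠ f^[j] m := fun i j hij hj e => by
    obtain ⟨d, rfl⟩ := Nat.exists_eq_add_of_lt hij
    rw [show i + d + 1 = d + 1 + i by ring, Function.iterate_add_apply] at e
    exact h3 i (hf (d + 1) (by omega) (by omega) _ e.symm)
  have h5 : Nat.card (Option (Fin c)) ≤ Nat.card H := by
    refine Nat.card_le_card_of_injective
      (fun o => o.elim 0 fun k => ⟨f^[k] m, h2 k⟩) ?_
    rintro (_ | i) (_ | j) e
    · rfl
    · exact absurd (congrArg Subtype.val e).symm (h3 j)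
    · exact absurd (congrArg Subtype.val e) (h3 i)
    · have e' : f^[i] m = f^[j] m := congrArg Subtype.val e
      rcases lt_trichotomy i j with l | l | l
      · exact absurd e' (h4 _ _ l j.2)
      · rw [l]
      · exact absurd e'.symm (h4 _ _ l i.2)
  obtain ⟨d, hd⟩ := H.card_addSubgroup_dvd_card
  simp only [Nat.card_eq_fintype_card (α := Option (Fin c)), Fintype.card_option,
    Fintype.card_fin] at h5
  refine AddSubgroup.eq_top_of_card_eq H ?_
  rcases d with _ | _ | d
  · omega
  · omega
  · nlinarith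

/-- The powers of `f` have orbits of size `c` on `M \ 0`, so an `f`-invariant subgroup has order `1`,
`c + 1` or `2 c + 1`, and `c + 1` does not divide `2 c + 1`. The commutative ring `R` generated by `f`
in `AddMonoid.End M` (`Subring.closure {f}`) has nonzero elements with trivial kernel, so it is a
finite domain, a field; `r ↦ r m` for `m ≠ 0` is an additive isomorphism `R ≃+ M`; and
`FiniteField.ringEquivOfCardEq` gives `R ≃+* F`. -/
theorem field_coord {F M : Type} [Field F] [Finite F] [AddCommGroup M] (f : M ≃+ M) {c : ℕ}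
    (hc : 2 * c + 1 = Nat.card F) (hM : Nat.card M = Nat.card F) (h1 : ∀ x, f^[c] x = x)
    (hf : ∀ k, 0 < k → k < c → ∀ x, f^[k] x = x → x = 0) :
    ∃ (τ : F ≃+ M) (s : F), orderOf s = c ∧ ∀ x, f (τ x) = τ (s * x) := by
  have hF : 1 < Nat.card F := Finite.one_lt_card
  have : Finite M := Nat.finite_of_card_ne_zero (by omega)
  have : Nontrivial M := Finite.one_lt_card_iff_nontrivial.1 (by omega)
  let φ : M →ₗ[ℤ] M := f.toAddMonoidHom.toIntLinearMap
  let o := Module.AEval'.of φ
  have ho : ∀ m, (Polynomial.X : Polynomial ℤ) • o m = o (f m) := Module.AEval'.X_smul_of φ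
  have : Nontrivial (Module.AEval' φ) := o.symm.toEquiv.nontrivial
  have : IsSimpleModule (Polynomial ℤ) (Module.AEval' φ) := by
    refine (isSimpleModule_iff _ _).2 ⟨fun N => ?_⟩
    refine (fld_irr f (hM.trans hc.symm) hf (N.toAddSubgroup.comap o.toAddEquiv.toAddMonoidHom)
      fun x hx => ?_).imp (fun h => ?_) fun h => ?_
    · change o (f x) ∈ N
      rw [← ho]
      exact N.smul_mem _ hx
    · refine eq_bot_iff.2 fun x hx => ?_
      obtain ⟨y, rfl⟩ := o.surjective x
      have h2 : y = 0 := AddSubgroup.mem_bot.1 (h ▸ hx)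
      rw [h2, map_zero]
      exact zero_mem _
    · refine eq_top_iff.2 fun x _ => ?_
      obtain ⟨y, rfl⟩ := o.surjective x
      exact (h ▸ AddSubgroup.mem_top y :
        y ∈ N.toAddSubgroup.comap o.toAddEquiv.toAddMonoidHom)
  obtain ⟨I, hI, ⟨u⟩⟩ := isSimpleModule_iff_quot_maximal.1 this
  let _ := Ideal.Quotient.field I
  have : Finite (Polynomial ℤ ⧸ I) := Finite.of_equiv M (o.toEquiv.trans u.toEquiv)
  have := Fintype.ofFinite F
  have := Fintype.ofFinite (Polynomial ℤ ⧸ I)
  let ρ : (Polynomial ℤ ⧸ I) ≃+* F := FiniteField.ringEquivOfCardEq (by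
    rw [← Nat.card_eq_fintype_card, ← Nat.card_eq_fintype_card, ← hM]
    exact (Nat.card_congr (o.toEquiv.trans u.toEquiv)).symm)
  let τ : F ≃+ M := (ρ.symm.toAddEquiv.trans u.symm.toAddEquiv).trans o.symm.toAddEquiv
  let s : F := ρ (Ideal.Quotient.mk I Polynomial.X)
  have key : ∀ x, f (τ x) = τ (s * x) := fun x => by
    apply o.injective
    rw [← ho]
    change _ • o (o.symm (u.symm (ρ.symm x))) = o (o.symm (u.symm (ρ.symm (ρ _ * x))))
    rw [o.apply_symm_apply, o.apply_symm_apply, map_mul, ρ.symm_apply_apply, ← u.symm.map_smul]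
    rfl
  have key' : ∀ k x, f^[k] (τ x) = τ (s ^ k * x) := fun k x => by
    induction k with
    | zero => simp
    | succ k ih => rw [Function.iterate_succ_apply', ih, key, pow_succ', mul_assoc]
  refine ⟨τ, s, (orderOf_eq_iff (by omega)).2 ⟨?_, fun k hk h0 e => ?_⟩, key⟩
  · simpa using τ.injective ((key' c 1).symm.trans (h1 _))
  · have h2 := hf k h0 hk (τ 1) (by rw [key', e, one_mul])
    simp at h2

end Pool.Agent.Lib.MP_7d41f7_al
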