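import Pool.Agent.Lib.MP_7d41f7_al.Ch1

set_option autoImplicit false

namespace Pool.Agent.Lib.MP_7d41f7_al

open Finset Subgroup Pool.Agent.Lib.MP_b6945b_al OnePoint
open scoped Classical

variable {G : Type} [Group G] [Fintype G] {r : ℕ} {x : G} {J : IrrData (Cx x)}

omit [Fintype G] in
theorem conj_mem_Cx {n c : G} (hn : n ∈ Nx x) (hc : c ∈ Cx x) : n * c * n⁻¹ ∈ Cx x := by
  rw [mem_centralizer_singleton_iff] at hc ⊢
  obtain ⟨k, hk⟩ := (mem_normalizer_iff''.1 hn x).1 (mem_zpowers x)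
  have h1 : c * (n⁻¹ * x * n) = (n⁻¹ * x * n) * c := by
    rw [← hk]
    exact ((show Commute c x from hc).zpow_right k).eq
  calc n * c * n⁻¹ * x = n * (c * (n⁻¹ * x * n)) * n⁻¹ := by group
    _ = x * (n * c * n⁻¹) := by rw [h1]; group

/-- Conjugation of the centraliser by an element of the normaliser. -/
def loce_cj (n : Nx x) : Cx x ≃* Cx x where
  toFun c := ⟨n * c * (n : G)⁻¹, conj_mem_Cx n.2 c.2⟩
  invFun c := ⟨(n⁻¹ : Nx x) * c * ((n⁻¹ : Nx x) : G)⁻¹, conj_mem_Cx (n⁻¹).2 c.2⟩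
  left_inv c := Subtype.ext (by simp [mul_assoc])
  right_inv c := Subtype.ext (by simp [mul_assoc])
  map_mul' c d := Subtype.ext (by simp [mul_assoc])

omit [Fintype G] in
theorem loce_cj_coe (n : Nx x) (c : Cx x) : (loce_cj n c : G) = n * c * (n : G)⁻¹ := rfl

/-- The twist of a matrix representation by a linear character. -/
noncomputable def loce_tw {H : Type} [Group H] {m : ℕ} (lam : H →* ℂ)
    (ρ : H →* Matrix (Fin m) (Fin m) ℂ) : H →* Matrix (Fin m) (Fin m) ℂ where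
  toFun c := lam c • ρ c
  map_one' := by simp
  map_mul' c d := by rw [map_mul, map_mul, smul_mul_smul_comm]

theorem loce_twist {H : Type} [Group H] [Fintype H] (I : IrrData H) (lam : H →* ℂ) (j : Fin I.n) :
    ∃ i, ∀ c, I.χ i c = lam c * I.χ j c := by
  have h1 : ∀ c, (loce_tw lam (I.ρ j) c).trace = lam c * I.χ j c := fun c =>
    Matrix.trace_smul (lam c) (I.ρ j c)
  obtain ⟨i, hi⟩ := exists_idx I (loce_tw lam (I.ρ j)) (by
    have h2 := I.orth j j
    rw [if_pos rfl] at h2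
    rw [← h2]
    refine Finset.sum_congr rfl fun c _ => ?_
    rw [h1, h1, mul_mul_mul_comm, ← map_mul, inv_mul_cancel, map_one, one_mul])
  exact ⟨i, fun c => (hi c).trans (h1 c)⟩

theorem loce_aut {H : Type} [Group H] [Fintype H] (I : IrrData H) (e : H ≃* H) (j : Fin I.n) :
    ∃ i, ∀ c, I.χ i c = I.χ j (e c) := by
  refine exists_idx I ((I.ρ j).comp e.toMonoidHom) ?_
  have h2 := I.orth j j
  rw [if_pos rfl] at h2
  rw [← h2, ← Equiv.sum_comp e.toEquiv fun c => I.χ j c⁻¹ * I.χ j c]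
  refine Finset.sum_congr rfl fun c _ => ?_
  change I.χ j (e c⁻¹) * I.χ j (e c) = I.χ j (e c)⁻¹ * I.χ j (e c)
  rw [map_inv]

/-- `exists_idx` for the twisted and the conjugated representations, `χ_injective`,
`scalar_of_comm`. -/
theorem exists_loc (J : IrrData (Cx x)) (lam : Cx x →* ℂ)
    (h : ∀ c, lam c = 1 ↔ ¬ r ∣ orderOf c) : Nonempty (Loc r x J) := by
  choose s hs using loce_twist J lam
  have hinj : Function.Injective s := fun i j e => J.χ_injective (funext fun c => by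
    have h1 : lam c ≠ 0 := fun e0 => by
      have := map_mul lam c c⁻¹
      rw [mul_inv_cancel, map_one, e0, zero_mul] at this
      exact one_ne_zero this
    apply mul_left_cancel₀ h1
    rw [← hs, ← hs, e])
  choose a ha using fun n : Nx x => loce_aut J (loce_cj n⁻¹)
  let A : Nx x →* Function.End (Fin J.n) :=
    { toFun := a
      map_one' := funext fun j => J.χ_injective (funext fun c => by
        rw [ha]
        exact congrArg (J.χ j) (Subtype.ext (by simp [loce_cj_coe])))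
      map_mul' := fun n m => funext fun j => J.χ_injective (funext fun c => by
        change J.χ (a (n * m) j) c = J.χ (a n (a m j)) c
        rw [ha, ha, ha]
        exact congrArg (J.χ j) (Subtype.ext (by simp [loce_cj_coe, mul_assoc]))) }
  refine ⟨⟨lam, h, Equiv.ofBijective s (Finite.injective_iff_bijective.1 hinj), hs, A.toHomPerm,
    fun n j c c' e => ?_, fun j => J.χ j (xc x) / J.d j, fun j c => ?_⟩⟩
  · change J.χ (a n j) c' = _
    rw [ha]
    exact congrArg (J.χ j) (Subtype.ext (by simp [loce_cj_coe, e, mul_assoc]))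
  · have h1 := J.scalar_of_comm j (J.ρ j (xc x)) fun g => by
      rw [← map_mul, ← map_mul]
      exact congrArg (J.ρ j) (Subtype.ext (mem_centralizer_singleton_iff.1 g.2).symm)
    change (J.ρ j (xc x * c)).trace = (J.ρ j (xc x)).trace / J.d j * (J.ρ j c).trace
    conv_lhs => rw [map_mul, h1, smul_mul_assoc, one_mul, Matrix.trace_smul, smul_eq_mul]

namespace Loc

variable (L : Loc r x J)

theorem loce_pow (j : Fin J.n) (k : ℕ) (c : Cx x) : J.χ j (xc x ^ k * c) = L.ω j ^ k * J.χ j c := by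
  induction k with
  | zero => simp
  | succ k ih => rw [pow_succ', mul_assoc, L.ω_χ, ih, pow_succ', mul_assoc]

theorem loce_one (n : Nx x) (j : Fin J.n) : J.χ (L.act n j) 1 = J.χ j 1 :=
  L.act_χ n j 1 1 (by simp)

theorem loce_act (n : Nx x) (j : Fin J.n) :
    ∃ k : ℕ, x ^ k = (n : G)⁻¹ * x * n ∧ L.ω (L.act n j) = L.ω j ^ k := by
  obtain ⟨k, hk⟩ : (n : G)⁻¹ * x * n ∈ Submonoid.powers x :=
    mem_powers_iff_mem_zpowers.2 ((mem_normalizer_iff''.1 n.2 x).1 (mem_zpowers x))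
  have hk' : x ^ k = (n : G)⁻¹ * x * n := hk
  refine ⟨k, hk', ?_⟩
  have h1 := L.act_χ n j (xc x ^ k * 1) (xc x * 1) (by
    change x * 1 = n * (x ^ k * 1) * (n : G)⁻¹
    rw [hk']; group)
  rw [L.ω_χ, L.loce_pow, L.loce_one, J.χ_one] at h1
  exact mul_right_cancel₀ (J.d_ne j) h1

theorem ω_pow (hx : orderOf x = r) (j : Fin J.n) : L.ω j ^ r = 1 := by
  have h1 := L.loce_pow j r 1
  have h2 : xc x ^ r = 1 := Subtype.ext (by
    change x ^ r = 1
    rw [← hx, pow_orderOf_eq_one])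
  rw [h2, mul_one, J.χ_one] at h1
  exact mul_right_cancel₀ (J.d_ne j) (by rw [← h1, one_mul])

theorem ω_σ (j : Fin J.n) : L.ω (L.σ j) = L.lam (xc x) * L.ω j := by
  have h1 := L.ω_χ (L.σ j) 1
  rw [L.σ_χ, L.σ_χ, L.ω_χ, mul_one, map_one, one_mul, J.χ_one, ← mul_assoc] at h1
  exact (mul_right_cancel₀ (J.d_ne j) h1).symm

theorem lam_ne (hx : orderOf x = r) : L.lam (xc x) ≠ 1 := by
  intro e
  apply (L.lam_one _).1 e
  rw [← hx, xc, orderOf_mk]

theorem act_C (n : Nx x) (hn : (n : G) ∈ Cx x) : L.act n = 1 := by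
  ext1 j
  refine J.χ_injective (funext fun c => ?_)
  let m : Cx x := ⟨n, hn⟩
  rw [L.act_χ n j (m⁻¹ * c * m⁻¹⁻¹) c (by simp [m, mul_assoc]), J.χ_conj]
  rfl

theorem bad (n : Nx x) (j : Fin J.n) (h : L.ω j = 1) : L.ω (L.act n j) = 1 := by
  obtain ⟨k, _, hk⟩ := L.loce_act n j
  rw [hk, h, one_pow]

/-- `n⁻¹ x n = x ^ k` and `ω (act n j) = ω j ^ k`. -/
theorem good (hr : r.Prime) (hx : orderOf x = r) (n : Nx x) (j : Fin J.n) (h : L.ω j ≠ 1)
    (h' : L.ω (L.act n j) = L.ω j) : (n : G) ∈ Cx x := by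
  obtain ⟨k, hk, hk'⟩ := L.loce_act n j
  have := Fact.mk hr
  have h1 : orderOf (L.ω j) = r := orderOf_eq_prime (L.ω_pow hx j) h
  have h2 : IsOfFinOrder (L.ω j) := orderOf_pos_iff.1 (by rw [h1]; exact hr.pos)
  have h3 : k ≡ 1 [MOD r] := h1 ▸ h2.pow_eq_pow_iff_modEq.1 (by rw [← hk', h', pow_one])
  have h4 : x ^ k = x ^ 1 := pow_eq_pow_iff_modEq.2 (by rw [hx]; exact h3)
  rw [hk, pow_one] at h4
  rw [mem_centralizer_singleton_iff]
  calc (n : G) * x = n * ((n : G)⁻¹ * x * n) := by rw [h4]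
    _ = x * n := by group

theorem blk_σ (j : Fin J.n) : blk r J (L.σ j) = blk r J j := by
  funext c
  unfold blk
  split_ifs with e
  · rfl
  · rw [L.σ_χ, (L.lam_one c).2 e, one_mul]

theorem blk_act (n : Nx x) (j j' : Fin J.n) (h : blk r J j = blk r J j') :
    blk r J (L.act n j) = blk r J (L.act n j') := by
  funext c
  obtain ⟨c, rfl⟩ := (loce_cj n).surjective c
  have h1 := congrFun h c
  unfold blk at h1 ⊢
  rw [MulEquiv.orderOf_eq, L.act_χ n j c _ (loce_cj_coe n c), L.act_χ n j' c _ (loce_cj_coe n c)]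
  exact h1

theorem d_act (n : Nx x) (j : Fin J.n) : J.d (L.act n j) = J.d j := by
  have h1 := L.loce_one n j
  rw [J.χ_one, J.χ_one] at h1
  exact_mod_cast h1

theorem mlt_act {f : G → ℂ} (hf : IsCF f) (n : Nx x) (j : Fin J.n) :
    mlt J (res (Cx x) f) (L.act n j) = mlt J (res (Cx x) f) j := by
  unfold mlt
  congr 1
  rw [← Equiv.sum_comp (loce_cj n).toEquiv]
  refine Finset.sum_congr rfl fun c _ => ?_
  change J.χ (L.act n j) (loce_cj n c)⁻¹ * f (n * c * (n : G)⁻¹) = J.χ j c⁻¹ * f c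
  rw [hf, ← map_inv, L.act_χ n j c⁻¹ _ (loce_cj_coe n c⁻¹)]

end Loc

end Pool.Agent.Lib.MP_7d41f7_al
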