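import Pool.Agent.Lib.MP_7d41f7_al.LocE

set_option autoImplicit false

namespace Pool.Agent.Lib.MP_7d41f7_al

open Finset Subgroup Pool.Agent.Lib.MP_b6945b_al OnePoint
open scoped Classical

variable {G : Type} [Group G] [Fintype G] {r : ℕ} {x : G} {J : IrrData (Cx x)}

/-- An idempotent class function on a group of order prime to `r` has values in `V` (`zf_om`,
`om_conv`: every `om` is `0` or `1`; `inv_nat_mem`, `χ_isIntegral`). -/
theorem idem_mem {Y : Type} [Group Y] [Fintype Y] [Fact r.Prime] {V : ValuationSubring ℂ}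
    (hp : (r : ℂ) ∈ V.nonunits) (hY : ¬ r ∣ Nat.card Y) {ε : Y → ℂ} (hε : IsCF ε)
    (hid : conv ε ε = ε) (y : Y) : ε y ∈ V := by
  obtain ⟨I⟩ := exists_irrData Y
  rw [← I.zf_om hε]
  unfold IrrData.zf
  refine sum_mem fun i _ => V.mul_mem _ _ ?_ ?_
  · have h1 := I.om_conv i hε hε
    rw [hid] at h1
    change I.om i ε ∈ V
    rcases eq_or_ne (I.om i ε) 0 with e | e
    · rw [e]
      exact V.zero_mem
    · have h2 : I.om i ε = 1 := mul_left_cancel₀ e (by rw [← h1, mul_one])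
      rw [h2]
      exact V.one_mem
  · rw [div_eq_mul_inv]
    refine V.mul_mem _ _ (V.mul_mem _ _ (natCast_mem V _)
      (mem_of_isIntegral V (I.χ_isIntegral i _))) (inv_nat_mem hp ?_)
    rwa [← Nat.card_eq_fintype_card]

theorem naga_supp (L : Loc r x J) (a : Fin J.n → ℂ) (hσ : ∀ j, a (L.σ j) = a j) (c : Cx x)
    (hc : L.lam c ≠ 1) : J.zf a c = 0 := by
  have hd : ∀ j, (J.d (L.σ j) : ℂ) = J.d j := by
    intro j
    rw [← J.χ_one, ← J.χ_one, L.σ_χ, map_one, one_mul]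
  have h1 : J.zf a c = L.lam c⁻¹ * J.zf a c := by
    unfold IrrData.zf
    rw [Finset.mul_sum, ← Equiv.sum_comp L.σ]
    refine Finset.sum_congr rfl fun j _ => ?_
    rw [hσ, hd, L.σ_χ]
    ring
  by_contra h0
  have h2 : L.lam c⁻¹ = 1 := mul_right_cancel₀ h0 (by rw [← h1, one_mul])
  refine hc ?_
  rw [L.lam_one] at h2 ⊢
  rwa [orderOf_inv] at h2

theorem naga_mem [Fact r.Prime] {V : ValuationSubring ℂ} (hp : (r : ℂ) ∈ V.nonunits)
    (L : Loc r x J) (a : Fin J.n → ℂ) (hσ : ∀ j, a (L.σ j) = a j) (haa : a * a = a) (c : Cx x) :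
    J.zf a c ∈ V := by
  by_cases hc : L.lam c = 1
  swap
  · rw [naga_supp L a hσ c hc]
    exact V.zero_mem
  have hY : ¬ r ∣ Nat.card L.lam.ker := by
    intro h
    obtain ⟨y, hy⟩ := exists_prime_orderOf_dvd_card' r h
    refine (L.lam_one y).1 y.2 ?_
    rw [Subgroup.orderOf_coe, hy]
  refine idem_mem (Y := L.lam.ker) (ε := res L.lam.ker (J.zf a)) hp hY
    ((J.zf_cf a).res _) ?_ ⟨c, hc⟩
  funext y
  have h1 : conv (J.zf a) (J.zf a) y = J.zf a y := by rw [← J.zf_mul, haa]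
  have h2 : conv (res L.lam.ker (J.zf a)) (res L.lam.ker (J.zf a)) y =
      ∑ z : Cx x, if z ∈ L.lam.ker then J.zf a z * J.zf a (z⁻¹ * y) else 0 := by
    rw [← Finset.sum_filter]
    exact (Finset.sum_subtype _ (by simp) (fun z => J.zf a z * J.zf a (z⁻¹ * y))).symm
  rw [h2, res, ← h1, conv]
  refine Finset.sum_congr rfl fun z _ => ?_
  split_ifs with hz
  · rfl
  · rw [naga_supp L a hσ z hz, zero_mul]

theorem naga_inv (hf : Fus x) (L : Loc r x J) (a : Fin J.n → ℂ)
    (ha : ∀ n j, a (L.act n j) = a j) (c c' : Cx x) (h : IsConj (c : G) c') :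
    J.zf a c' = J.zf a c := by
  obtain ⟨k, hk⟩ := isConj_iff.1 h
  obtain ⟨n, hn, e⟩ := hf c c.2 k (hk ▸ c'.2)
  unfold IrrData.zf
  rw [← Equiv.sum_comp (L.act ⟨n, hn⟩)]
  refine Finset.sum_congr rfl fun j _ => ?_
  rw [ha, L.d_act, L.act_χ ⟨n, hn⟩ j c⁻¹ c'⁻¹]
  rw [Subgroup.coe_inv, Subgroup.coe_inv, ← hk, ← e]
  group

/-- `E = J.zf (indicator of P)` satisfies `E c = lam c⁻¹ * E c`, so it lives on `Y = ker lam`, a
group of order prime to `r` (Cauchy); `idem_mem` for the restriction to `Y` (`zf_mul`). `E` is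
invariant under `Nx x`, so by `Fus` it extends to a class function of `G` (zero on the classes that
miss the centraliser). -/
theorem exists_ext [Fact r.Prime] {V : ValuationSubring ℂ} (hp : (r : ℂ) ∈ V.nonunits)
    (hf : Fus x) (L : Loc r x J) (P : Fin J.n → Prop) (hσ : ∀ j, P (L.σ j) ↔ P j)
    (ha : ∀ n j, P (L.act n j) ↔ P j) :
    ∃ Et : G → ℂ, IsCF Et ∧ (∀ g, Et g ∈ V) ∧
      ∀ c : Cx x, Et c = J.zf (fun j => if P j then 1 else 0) c := by
  set a : Fin J.n → ℂ := fun j => if P j then 1 else 0 with hdef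
  have h1 : ∀ j, a (L.σ j) = a j := fun j => by simp only [hdef, hσ]
  have h2 : ∀ n j, a (L.act n j) = a j := fun n j => by simp only [hdef, ha]
  have h3 : a * a = a := by
    funext j
    simp only [hdef, Pi.mul_apply]
    split_ifs <;> simp
  have key : ∀ (g : G) (h : ∃ c : Cx x, IsConj (c : G) g) (c : Cx x), IsConj (c : G) g →
      J.zf a h.choose = J.zf a c := fun g h c hc =>
    naga_inv hf L a h2 c h.choose (hc.trans h.choose_spec.symm)
  refine ⟨fun g => if h : ∃ c : Cx x, IsConj (c : G) g then J.zf a h.choose else 0, ?_, ?_, ?_⟩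
  · intro k g
    by_cases h : ∃ c : Cx x, IsConj (c : G) g
    · obtain ⟨c, hc⟩ := h
      have hc' : IsConj (c : G) (k * g * k⁻¹) := (isConj_conj_iff _ _ _).2 hc
      simp only
      rw [dif_pos ⟨c, hc'⟩, dif_pos ⟨c, hc⟩, key _ _ c hc, key _ _ c hc']
    · simp only
      rw [dif_neg h, dif_neg]
      rintro ⟨c, hc⟩
      exact h ⟨c, (isConj_conj_iff _ _ _).1 hc⟩
  · intro g
    simp only
    split_ifs
    · exact naga_mem hp L a h1 h3 _
    · exact V.zero_mem
  · intro c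
    simp only
    rw [dif_pos ⟨c, IsConj.refl _⟩, key _ _ c (IsConj.refl _)]

end Pool.Agent.Lib.MP_7d41f7_al
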