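import Pool.Agent.Lib.MP_7d41f7_al.Defs

set_option autoImplicit false

namespace Pool.Agent.Lib.MP_7d41f7_al

open Finset Subgroup Pool.Agent.Lib.MP_b6945b_al OnePoint
open scoped Classical

variable {F : Type} [Field F] [Finite F]

omit [Finite F] in
theorem s1_center (C : Matrix.SpecialLinearGroup (Fin 2) F) :
    C ∈ center (Matrix.SpecialLinearGroup (Fin 2) F) ↔ C = 1 ∨ C = -1 := by
  rw [Matrix.SpecialLinearGroup.mem_center_iff, Fintype.card_fin]
  constructor
  · rintro ⟨r, h1, h2⟩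
    rcases sq_eq_one_iff.1 h1 with rfl | rfl
    · exact Or.inl (Subtype.ext (by rw [← h2, map_one]; rfl))
    · exact Or.inr (Subtype.ext (by rw [← h2, map_neg, map_one]; rfl))
  · rintro (rfl | rfl)
    · exact ⟨1, one_pow 2, by rw [map_one]; rfl⟩
    · exact ⟨-1, neg_one_sq, by rw [map_neg, map_one]; rfl⟩

theorem s1_card_SL :
    Nat.card (Matrix.SpecialLinearGroup (Fin 2) F) + Nat.card F = Nat.card F ^ 3 := by
  have := Fintype.ofFinite F
  have h1 := Matrix.card_GL_field (𝔽 := F) 2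
  have h2 := card_eq_card_quotient_mul_card_subgroup
    (Matrix.GeneralLinearGroup.det : GL (Fin 2) F →* Fˣ).ker
  have h3 := Nat.card_congr (QuotientGroup.quotientKerEquivOfSurjective
    (Matrix.GeneralLinearGroup.det : GL (Fin 2) F →* Fˣ)
    Matrix.GeneralLinearGroup.det_surjective).toEquiv
  have h4 : Nat.card (Matrix.GeneralLinearGroup.det : GL (Fin 2) F →* Fˣ).ker =
      Nat.card (Matrix.SpecialLinearGroup (Fin 2) F) := by
    rw [← Nat.card_range_of_injective
      (Matrix.SpecialLinearGroup.toGL_injective (n := Fin 2) (R := F)),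
      Matrix.SpecialLinearGroup.range_toGL]
    rfl
  rw [h1, h3, h4, Nat.card_units, Fin.prod_univ_two, ← Nat.card_eq_fintype_card] at h2
  obtain ⟨k, hk⟩ : ∃ k, Nat.card F = k + 2 :=
    ⟨Nat.card F - 2, (Nat.sub_add_cancel Finite.one_lt_card).symm⟩
  rw [hk] at h2 ⊢
  have e1 : (k + 2) ^ 2 - (k + 2) ^ ((0 : Fin 2) : ℕ) = (k + 1) * (k + 3) :=
    Nat.sub_eq_of_eq_add (by simp only [Fin.val_zero]; ring)
  have e2 : (k + 2) ^ 2 - (k + 2) ^ ((1 : Fin 2) : ℕ) = (k + 1) * (k + 2) :=
    Nat.sub_eq_of_eq_add (by simp only [Fin.val_one]; ring)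
  rw [e1, e2, show k + 2 - 1 = k + 1 from rfl, mul_assoc] at h2
  rw [← Nat.eq_of_mul_eq_mul_left (Nat.succ_pos k) h2]
  ring

/-- `Matrix.card_GL_field`, the determinant is onto with kernel `SL`, and the centre of `SL` is
`{1, -1}` (`Matrix.SpecialLinearGroup.mem_center_iff`). -/
theorem card_PS (h2 : ringChar F ≠ 2) : 2 * Nat.card (PS F) + Nat.card F = Nat.card F ^ 3 := by
  have h1 := card_eq_card_quotient_mul_card_subgroup
    (center (Matrix.SpecialLinearGroup (Fin 2) F))
  have h3 : (1 : Matrix.SpecialLinearGroup (Fin 2) F) ≠ -1 := fun h => by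
    have h4 : (1 : F) = -1 := by
      simpa using congrArg (fun A : Matrix.SpecialLinearGroup (Fin 2) F => A.1 0 0) h
    exact Ring.neg_one_ne_one_of_char_ne_two h2 h4.symm
  have h4 : Nat.card (center (Matrix.SpecialLinearGroup (Fin 2) F)) = 2 := by
    refine Eq.trans ?_ (Set.ncard_pair h3)
    rw [← Nat.card_coe_set_eq]
    exact Nat.card_congr (Equiv.subtypeEquivRight s1_center)
  rw [← s1_card_SL, h1, h4, mul_comm]

theorem mk_eq_iff (A B : Matrix.SpecialLinearGroup (Fin 2) F) :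
    (QuotientGroup.mk A : PS F) = QuotientGroup.mk B ↔ A = B ∨ A = -B := by
  rw [QuotientGroup.eq, s1_center, inv_mul_eq_one, inv_mul_eq_iff_eq_mul, mul_neg, mul_one,
    ← neg_eq_iff_eq_neg, ← neg_eq_iff_eq_neg (a := A), eq_comm (a := -A)]
  exact or_congr_right (by rw [neg_eq_iff_eq_neg])

theorem s1_trace {A B : Matrix.SpecialLinearGroup (Fin 2) F}
    (h : IsConj (QuotientGroup.mk A : PS F) (QuotientGroup.mk B)) :
    A.1.trace ^ 2 = B.1.trace ^ 2 := by
  obtain ⟨c, hc⟩ := isConj_iff.1 h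
  obtain ⟨C, rfl⟩ := QuotientGroup.mk_surjective c
  rw [← QuotientGroup.mk_inv, ← QuotientGroup.mk_mul, ← QuotientGroup.mk_mul, mk_eq_iff] at hc
  have h1 : (C * A * C⁻¹).1.trace = A.1.trace := by
    rw [Matrix.SpecialLinearGroup.coe_mul, Matrix.trace_mul_comm,
      ← Matrix.SpecialLinearGroup.coe_mul, ← mul_assoc, inv_mul_cancel, one_mul]
  rw [← h1]
  rcases hc with hc | hc
  · rw [hc]
  · rw [hc, Matrix.SpecialLinearGroup.coe_neg, Matrix.trace_neg, neg_sq]

theorem s1_sq : ∃ Q : Finset F, (∀ v ∈ Q, ∃ t, t ^ 2 = v) ∧ Nat.card F + 1 ≤ 2 * Q.card := by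
  have := Fintype.ofFinite F
  have h1 := card_le_mul_card_image (f := fun t : F => t ^ 2) (univ.erase 0) 2 fun v hv => by
    obtain ⟨t, -, rfl⟩ := mem_image.1 hv
    refine le_trans (card_le_card (t := {t, -t}) fun u hu => ?_) card_le_two
    rw [mem_insert, mem_singleton]
    exact sq_eq_sq_iff_eq_or_eq_neg.1 (mem_filter.1 hu).2
  have h2 : (0 : F) ∉ (univ.erase (0 : F)).image fun t : F => t ^ 2 := fun h => by
    obtain ⟨t, ht, h3⟩ := mem_image.1 h
    exact pow_ne_zero 2 (mem_erase.1 ht).1 h3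
  refine ⟨insert 0 ((univ.erase (0 : F)).image fun t : F => t ^ 2), fun v hv => ?_, ?_⟩
  · rcases mem_insert.1 hv with rfl | hv
    · exact ⟨0, zero_pow two_ne_zero⟩
    · obtain ⟨t, -, h3⟩ := mem_image.1 hv
      exact ⟨t, h3⟩
  · rw [card_erase_of_mem (mem_univ _), card_univ] at h1
    rw [card_insert_of_notMem h2, Nat.card_eq_fintype_card]
    omega

/-- The identity and the classes of the matrices `!![0, -1; 1, t]`, one `t` for every value of
`t ^ 2`; the square of the trace is constant on conjugacy classes of `PS F`. -/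
theorem exists_classes (h2 : ringChar F ≠ 2) : ∃ s : Finset (PS F),
    (∀ x ∈ s, ∀ y ∈ s, IsConj x y → x = y) ∧ Nat.card F + 3 ≤ 2 * s.card := by
  obtain ⟨Q, h1, h3⟩ := s1_sq (F := F)
  choose! t ht using h1
  let M : F → Matrix.SpecialLinearGroup (Fin 2) F := fun v =>
    ⟨!![0, -1; 1, t v], by simp [Matrix.det_fin_two_of]⟩
  have hM : ∀ v ∈ Q, ∀ w ∈ Q,
      IsConj (QuotientGroup.mk (M v) : PS F) (QuotientGroup.mk (M w)) → v = w :=
    fun v hv w hw h => by
      have h4 := s1_trace h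
      simp only [M, Matrix.trace_fin_two_of, zero_add] at h4
      rwa [ht v hv, ht w hw] at h4
  have h1 : ∀ v, (QuotientGroup.mk (M v) : PS F) ≠ 1 := fun v h => by
    rw [← QuotientGroup.mk_one, mk_eq_iff] at h
    rcases h with h | h <;>
      simpa [M] using congrArg (fun A : Matrix.SpecialLinearGroup (Fin 2) F => A.1 1 0) h
  refine ⟨insert 1 (Q.image fun v => QuotientGroup.mk (M v)), fun x hx y hy h => ?_, ?_⟩
  · rcases mem_insert.1 hx with rfl | hx
    · exact (isConj_one_right.1 h).symm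
    rcases mem_insert.1 hy with rfl | hy
    · exact isConj_one_left.1 h
    obtain ⟨v, hv, rfl⟩ := mem_image.1 hx
    obtain ⟨w, hw, rfl⟩ := mem_image.1 hy
    rw [hM v hv w hw h]
  · rw [card_insert_of_notMem fun h => ?_,
      card_image_of_injOn fun v hv w hw h => hM v hv w hw (by rw [h])]
    · omega
    · obtain ⟨v, -, h4⟩ := mem_image.1 h
      exact h1 v h4

end Pool.Agent.Lib.MP_7d41f7_al
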