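import Pool.Agent.Lib.MP_7d41f7_al.LemV

set_option autoImplicit false

namespace Pool.Agent.Lib.MP_7d41f7_al

open Finset Subgroup Pool.Agent.Lib.MP_b6945b_al OnePoint
open scoped Classical

variable {G : Type} [Group G] [Fintype G] {p a b q : ℕ} {α β : G}

theorem sta_prime {x : G} (hx : x ≠ 1) :
    ∃ r : ℕ, r.Prime ∧ r ∣ orderOf x ∧ ∃ x0 ∈ zpowers x, orderOf x0 = r := by
  obtain ⟨r, hr, hd⟩ := Nat.exists_prime_and_dvd (n := orderOf x) (by simpa using hx)
  exact ⟨r, hr, hd, _, npow_mem_zpowers x _, orderOf_pow_orderOf_div (orderOf_pos x).ne' hd⟩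

/-- A subgroup of `zpowers β` is a Sylow subgroup of `G` (`Par.cop_b`, `Sylow.ofCard`), and Sylow
subgroups are conjugate. -/
theorem Base.sylow_cyclic (h : Base p a b q α β) {r : ℕ} [Fact r.Prime] (hr : r ∣ b)
    (P : Sylow r G) : IsCyclic P := by
  obtain ⟨Q⟩ : Nonempty (Sylow r (zpowers β)) := inferInstance
  have hb0 : b ≠ 0 := by
    have := h.b9
    omega
  have hc : Nat.Coprime b (2 * a * q) := h.toPar.cop_b
  have hr' : ¬ r ∣ 2 * a * q := fun e =>
    (Fact.out : r.Prime).one_lt.ne' (Nat.eq_one_of_dvd_coprimes hc hr e)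
  have hn : 2 * a * q ≠ 0 := fun e => hr' (e ▸ dvd_zero r)
  have hcard : Nat.card ((Q : Subgroup (zpowers β)).map (zpowers β).subtype) =
      r ^ (Nat.card G).factorization r := by
    rw [Subgroup.card_map_of_injective (zpowers β).subtype_injective, Q.card_eq_multiplicity,
      Nat.card_zpowers, h.oβ, h.card, show 2 * a * b * q = b * (2 * a * q) by ring,
      Nat.factorization_mul hb0 hn, Finsupp.add_apply, Nat.factorization_eq_zero_of_not_dvd hr',
      add_zero]
  have hcyc : IsCyclic (Sylow.ofCard _ hcard) :=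
    Subgroup.isCyclic_of_le (H' := zpowers β) (Subgroup.map_subtype_le _)
  exact isCyclic_of_surjective _ (Sylow.equiv (Sylow.ofCard _ hcard) P).surjective

/-- Replace `x` by a power of prime order `r`. If the centraliser `C` of `x` is larger than
`zpowers β`, it has an element `y` of prime order `s` not dividing `b`. Let `x'` be a vanishing
element of order `r`. By `cyc_conj` (with `L = ⊤`) a conjugate `y'` of `y` commutes with a generator of
`zpowers x'`, so with `x'`. By `lemV` the element `x' * y'` of order `r * s` is vanishing, but `r * s`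
divides none of `p`, `a`, `b`. -/
theorem Hyp.selfC {I : IrrData G} (h : Hyp I p a b q α β) : SelfC β := by
  intro x hx hx1 g hg
  by_contra hgβ
  obtain ⟨r, hr, hrx, x0, hx0, ho⟩ := sta_prime hx1
  have : Fact r.Prime := ⟨hr⟩
  have hrb : r ∣ b := hrx.trans (h.oβ ▸ orderOf_dvd_of_mem_zpowers hx)
  have hx0β : x0 ∈ zpowers β := zpowers_le.2 hx hx0
  have hle : zpowers β ≤ Cx x0 := by
    intro z hz
    rw [mem_centralizer_singleton_iff]
    obtain ⟨m, rfl⟩ := hz
    obtain ⟨n, rfl⟩ := hx0β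
    exact ((Commute.refl β).zpow_zpow m n).eq
  have hgC : g ∈ Cx x0 := by
    rw [mem_centralizer_singleton_iff]
    obtain ⟨n, rfl⟩ := hx0
    exact (Commute.zpow_right hg n).eq
  obtain ⟨m, hm⟩ := Subgroup.card_dvd_of_le hle
  rw [Nat.card_zpowers, h.oβ] at hm
  have hb0 : 0 < b := by
    have := h.b9
    omega
  have hm1 : m ≠ 1 := by
    rintro rfl
    refine hgβ (Subgroup.eq_of_le_of_card_ge hle ?_ ▸ hgC)
    rw [hm, Nat.card_zpowers, h.oβ, mul_one]
  have hmd : m ∣ 2 * a * q := by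
    have := Subgroup.card_subgroup_dvd_card (Cx x0)
    rw [hm, h.card, show 2 * a * b * q = b * (2 * a * q) by ring] at this
    exact Nat.dvd_of_mul_dvd_mul_left hb0 this
  obtain ⟨s, hs, hsm⟩ := Nat.exists_prime_and_dvd hm1
  have : Fact s.Prime := ⟨hs⟩
  have hsb : ¬ s ∣ b := fun e =>
    hs.one_lt.ne' (Nat.eq_one_of_dvd_coprimes h.toPar.cop_b e (hsm.trans hmd))
  obtain ⟨y, hy⟩ := exists_prime_orderOf_dvd_card' (G := Cx x0) s (hm ▸ hsm.mul_left b)
  rw [← Subgroup.orderOf_coe] at hy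
  have hyc : Commute (y : G) x0 := mem_centralizer_singleton_iff.1 y.2
  obtain ⟨x', hx', i, hi⟩ := h.vr r hr hrb
  have hc := h.toBase.sylow_cyclic hrb
  obtain ⟨l, -, n, hn⟩ := cyc_conj hc ⊤ ho hx' (mem_top _) (mem_top _)
  have hn' : x0 ^ n = l * x' * l⁻¹ := hn
  have hcm : (l⁻¹ * y * l) * x' = x' * (l⁻¹ * y * l) := by
    have h1 := (hyc.zpow_right n).eq
    rw [hn'] at h1
    calc (l⁻¹ * y * l) * x' = l⁻¹ * (y * (l * x' * l⁻¹)) * l := by group
      _ = x' * (l⁻¹ * y * l) := by rw [h1]; group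
  have hoy : orderOf (l⁻¹ * y * l) = s := by
    rw [← hy]
    simpa using (MulAut.conj l⁻¹).orderOf_eq (y : G)
  have hrs : r ≠ s := fun e => hsb (e ▸ hrb)
  have hv := lemV hc hx' I i hi hcm (by
    rw [hoy]
    exact fun e => hrs ((Nat.prime_dvd_prime_iff_eq hr hs).1 e))
  have hord : orderOf (x' * (l⁻¹ * y * l)) = r * s := by
    rw [Commute.orderOf_mul_eq_mul_orderOf_of_coprime hcm.symm
      (by rw [hx', hoy]; exact (Nat.coprime_primes hr hs).2 hrs), hx', hoy]
  rcases h.van _ ⟨i, hv⟩ with e | e | e <;> rw [hord] at e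
  · exact hr.one_lt.ne' (Nat.eq_one_of_dvd_coprimes h.toPar.cop_bq hrb
      (((dvd_mul_right r s).trans e).trans h.toPar.p_dvd))
  · exact hr.one_lt.ne' (Nat.eq_one_of_dvd_coprimes h.toPar.cop_ab
      ((dvd_mul_right r s).trans e) hrb)
  · exact hsb ((dvd_mul_left s r).trans e)

/-- A power of `g` of prime order is conjugate into `zpowers β` by `cyc_conj`. -/
theorem Base.cjB (h : Base p a b q α β) (hc : SelfC β) {g : G} (hg : g ≠ 1)
    (hb : orderOf g ∣ b) : CjIn β g := by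
  obtain ⟨r, hr, hrg, g0, hg0, ho⟩ := sta_prime hg
  have : Fact r.Prime := ⟨hr⟩
  have hrb : r ∣ b := hrg.trans hb
  have hox : orderOf (β ^ (orderOf β / r)) = r :=
    orderOf_pow_orderOf_div (orderOf_pos β).ne' (h.oβ ▸ hrb)
  obtain ⟨l, -, hl⟩ := cyc_conj (h.sylow_cyclic hrb) ⊤ hox ho (mem_top _) (mem_top _)
  have hl' : l * g0 * l⁻¹ ∈ zpowers β := zpowers_le.2 (npow_mem_zpowers β _) hl
  have hne : ∀ z : G, z ≠ 1 → l * z * l⁻¹ ≠ 1 := fun z hz e => hz (by
    calc z = l⁻¹ * (l * z * l⁻¹) * l := by group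
      _ = 1 := by rw [e]; group)
  have h01 : g0 ≠ 1 := by
    rintro rfl
    rw [orderOf_one] at ho
    exact hr.one_lt.ne ho
  refine ⟨l⁻¹, l * g * l⁻¹, hc _ hl' (hne _ h01) _ ?_, hne _ hg, by group⟩
  obtain ⟨n, rfl⟩ := hg0
  have h1 : g * g ^ n = g ^ n * g := ((Commute.refl g).zpow_right n).eq
  calc l * g * l⁻¹ * (l * g ^ n * l⁻¹) = l * (g * g ^ n) * l⁻¹ := by group
    _ = l * g ^ n * l⁻¹ * (l * g * l⁻¹) := by rw [h1]; group

end Pool.Agent.Lib.MP_7d41f7_al
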