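import Pool.Agent.Lib.MP_7d41f7_al.Cnt

set_option autoImplicit false

namespace Pool.Agent.Lib.MP_7d41f7_al

open Finset Subgroup Pool.Agent.Lib.MP_b6945b_al OnePoint
open scoped Classical

variable {G : Type} [Group G] [Finite G] {p a b q : ℕ} {α β : G}

omit [Finite G] in
/-- Conjugation by `k` maps the centraliser of `x` to the centraliser of `k * x * k⁻¹`. -/
theorem SelfC.ti (hc : SelfC β) :
    ∀ x ∈ zpowers β, x ≠ 1 → ∀ k : G, k * x * k⁻¹ ∈ zpowers β → k ∈ Nx β := by
  intro x hx h1 k hk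
  have comm : ∀ u ∈ zpowers β, ∀ v ∈ zpowers β, u * v = v * u := by
    rintro _ ⟨m, rfl⟩ _ ⟨n, rfl⟩
    exact zpow_mul_comm β m n
  have h2 : k * x * k⁻¹ ≠ 1 := fun e => h1 (by
    have : x = k⁻¹ * (k * x * k⁻¹) * k := by group
    rw [this, e]
    group)
  refine mem_normalizer_iff.2 fun g => ⟨fun hg => hc _ hk h2 _ ?_, fun hg => hc x hx h1 g ?_⟩
  · have e := comm g hg x hx
    calc k * g * k⁻¹ * (k * x * k⁻¹) = k * (g * x) * k⁻¹ := by group
      _ = k * (x * g) * k⁻¹ := by rw [e]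
      _ = k * x * k⁻¹ * (k * g * k⁻¹) := by group
  · have e := comm _ hg _ hk
    calc g * x = k⁻¹ * (k * g * k⁻¹ * (k * x * k⁻¹)) * k := by group
      _ = k⁻¹ * (k * x * k⁻¹ * (k * g * k⁻¹)) * k := by rw [e]
      _ = x * g := by group

/-- `B × B` acts freely on the complement of the normaliser. -/
theorem stb_dvd (hc : SelfC β) :
    Nat.card (zpowers β) * Nat.card (zpowers β) ∣ Nat.card {k : G // k ∉ Nx β} := by
  have hle : zpowers β ≤ Nx β := le_normalizer
  let _ : MulAction (zpowers β × zpowers β) {k : G // k ∉ Nx β} :=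
    { smul := fun u k => ⟨u.1 * k * (u.2 : G)⁻¹, fun e => k.2 (by
        rwa [(Nx β).mul_mem_cancel_right (inv_mem (hle u.2.2)),
          (Nx β).mul_mem_cancel_left (hle u.1.2)] at e)⟩
      one_smul := fun k => Subtype.ext (by
        show ((1 : G) * k * (1 : G)⁻¹ : G) = k
        group)
      mul_smul := fun u v k => Subtype.ext (by
        show ((u.1 : G) * v.1 * k * ((u.2 : G) * v.2)⁻¹ : G) =
          u.1 * ((v.1 : G) * k * (v.2 : G)⁻¹) * (u.2 : G)⁻¹
        group) }
  have hfree : ∀ k : {k : G // k ∉ Nx β}, MulAction.stabilizer (zpowers β × zpowers β) k = ⊥ := by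
    intro k
    rw [eq_bot_iff]
    intro u hu
    have e : (u.1 : G) * k * (u.2 : G)⁻¹ = k := congrArg Subtype.val hu
    have e1 : (k : G) * u.2 * (k : G)⁻¹ = u.1 := by
      calc (k : G) * u.2 * (k : G)⁻¹ = (u.1 * k * (u.2 : G)⁻¹) * u.2 * (k : G)⁻¹ := by rw [e]
        _ = u.1 := by group
    have e2 : (u.2 : G) = 1 := by
      by_contra h1
      exact k.2 (hc.ti _ u.2.2 h1 k (e1 ▸ u.1.2))
    have e3 : (u.1 : G) = 1 := by
      rw [← e1, e2]
      group
    exact mem_bot.2 (Prod.ext (Subtype.ext e3) (Subtype.ext e2))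
  rw [Nat.card_congr (MulAction.selfEquivOrbitsQuotientProd hfree), Nat.card_prod, Nat.card_prod]
  exact dvd_mul_left _ _

/-- The fibres of `n ↦ n β n⁻¹` are cosets of `B`. -/
theorem stb_le (hc : SelfC β) (hβ : β ≠ 1) :
    Nat.card (Nx β) ≤ Nat.card (zpowers β) * (Nat.card (zpowers β) - 1) := by
  let _ : Fintype G := Fintype.ofFinite G
  have c1 : ∀ K : Subgroup G, Nat.card K = (univ.filter fun g : G => g ∈ K).card := fun K => by
    rw [Nat.card_eq_fintype_card, Fintype.card_subtype]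
  have h1 : (1 : G) ∈ univ.filter fun g : G => g ∈ zpowers β := by simp
  rw [c1, c1, ← card_erase_of_mem h1]
  refine card_le_mul_card_image_of_maps_to (f := fun n : G => n * β * n⁻¹) (fun n hn => ?_) _
    fun y _ => ?_
  · refine mem_erase.2 ⟨fun e => hβ ?_, mem_filter.2 ⟨mem_univ _,
      (mem_normalizer_iff.1 (mem_filter.1 hn).2 β).1 (mem_zpowers β)⟩⟩
    have : β = n⁻¹ * (n * β * n⁻¹) * n := by group
    rw [this, e]
    group
  · rcases (filter (fun n : G => n * β * n⁻¹ = y)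
      (univ.filter fun g : G => g ∈ Nx β)).eq_empty_or_nonempty with e | ⟨n0, hn0⟩
    · rw [e]
      exact Nat.zero_le _
    refine card_le_card_of_injOn (fun n => n0⁻¹ * n) (fun n hn => ?_) fun n _ m _ e =>
      mul_left_cancel e
    have e0 := (mem_filter.1 hn0).2
    have e1 := (mem_filter.1 (mem_coe.1 hn)).2
    refine mem_coe.2 (mem_filter.2 ⟨mem_univ _, hc β (mem_zpowers β) hβ _ ?_⟩)
    calc n0⁻¹ * n * β = n0⁻¹ * (n * β * n⁻¹) * n := by group
      _ = n0⁻¹ * (n0 * β * n0⁻¹) * n := by rw [e1, e0]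
      _ = β * (n0⁻¹ * n) := by group

/-- Let `B = zpowers β` and `e` its index in `N = Nx β`. `B` acts freely on the cosets `k B` with
`k ∉ N` (`SelfC.ti`), so `2 * a * q ≡ e mod b`. The map `n B ↦ n β n⁻¹` is injective from `N / B` to
`B \ 1`, so `e < b`, and `e = 2` by `Par.mod_b`. -/
theorem Base.card_nx (h : Base p a b q α β) (hc : SelfC β) : Nat.card (Nx β) = 2 * b := by
  have h9 := h.b9
  have hB : Nat.card (zpowers β) = b := by rw [Nat.card_zpowers, h.oβ]
  have hβ : β ≠ 1 := by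
    rintro rfl
    have := h.oβ
    rw [orderOf_one] at this
    omega
  obtain ⟨e, he⟩ : b ∣ Nat.card (Nx β) := hB ▸ card_dvd_of_le le_normalizer
  have h1 := stb_dvd hc
  have h2 := stb_le hc hβ
  have h3 : Nat.card G = Nat.card (Nx β) + Nat.card {k : G // k ∉ Nx β} := by
    rw [← Nat.card_sum]
    exact Nat.card_congr (Equiv.sumCompl fun k : G => k ∈ Nx β).symm
  rw [hB] at h1 h2
  obtain ⟨t, ht⟩ := h1
  rw [h.card, he, ht] at h3
  rw [he] at h2
  have h4 : 2 * a * q = e + b * t := Nat.eq_of_mul_eq_mul_left (by omega : 0 < b) (by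
    rw [mul_add, ← mul_assoc b b t, ← h3]
    ring)
  have h5 : e ≤ b - 1 := Nat.le_of_mul_le_mul_left h2 (by omega)
  have h6 := h.mod_b
  rw [h4, Nat.add_mul_mod_self_left, Nat.mod_eq_of_lt (by omega)] at h6
  rw [he, h6, mul_comm]

/-- For `w ∈ N \ B` the element `w * w` lies in `B` and commutes with `w`, so it is `1`; use
`inv_of_fpf`. -/
theorem Base.torB (h : Base p a b q α β) (hc : SelfC β) : Tor β := by
  have h9 := h.b9
  have hB : Nat.card (zpowers β) = b := by rw [Nat.card_zpowers, h.oβ]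
  have hN := h.card_nx hc
  have hle : zpowers β ≤ Nx β := le_normalizer
  have hi : ((zpowers β).subgroupOf (Nx β)).index = 2 := by
    have e1 := ((zpowers β).subgroupOf (Nx β)).index_mul_card
    rw [Nat.card_congr (subgroupOfEquivOfLe hle).toEquiv, hB, hN] at e1
    exact Nat.eq_of_mul_eq_mul_right (by omega) e1
  have two : ∀ w ∈ Nx β, w ∉ zpowers β → ∀ w' ∈ Nx β, w' ∉ zpowers β → w * w' ∈ zpowers β := by
    intro w hw h1 w' hw' h2
    have e := (mul_mem_iff_of_index_two hi (a := ⟨w, hw⟩) (b := ⟨w', hw'⟩)).2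
      (iff_of_false (fun e => h1 (mem_subgroupOf.1 e)) fun e => h2 (mem_subgroupOf.1 e))
    exact mem_subgroupOf.1 e
  have sq : ∀ w ∈ Nx β, w ∉ zpowers β → w * w = 1 := by
    intro w hw h1
    by_contra e
    exact h1 (hc _ (two w hw h1 w hw h1) e w (mul_assoc w w w).symm)
  refine ⟨⟨?_, sq, fun w hw h1 => inv_of_fpf (zpowers β) (sq w hw h1) hw fun u hu e => ?_, two⟩,
    fun g hg h1 => le_antisymm (fun k hk => hc.ti g hg h1 k ?_) (nx_le hg)⟩
  · by_contra hn
    push Not at hn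
    have e : Nx β ≤ zpowers β := fun w hw => by
      by_contra h1
      exact hn w h1 hw
    have := card_le_of_le e
    omega
  · by_contra h2
    exact h1 (hc u hu h2 w e)
  · exact zpowers_le.2 hg ((mem_normalizer_iff.1 hk g).1 (mem_zpowers g))

/-- `card_conj`. -/
theorem Base.card_cjB (h : Base p a b q α β) (hc : SelfC β) :
    Nat.card {g : G // CjIn β g} = (b - 1) * a * q := by
  have h9 := h.b9
  have e := card_conj (zpowers β) hc.ti
  rw [h.card_nx hc, h.card, Nat.card_zpowers, h.oβ] at e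
  refine Nat.eq_of_mul_eq_mul_right (by omega : 0 < 2 * b) ?_
  refine Eq.trans e ?_
  ring

end Pool.Agent.Lib.MP_7d41f7_al
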