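import Pool.Agent.Lib.MP_7d41f7_al.Defs

set_option autoImplicit false

namespace Pool.Agent.Lib.MP_7d41f7_al

open Finset Subgroup Pool.Agent.Lib.MP_b6945b_al OnePoint
open scoped Classical

variable {G : Type} [Group G] [Finite G] {p a b q : ℕ} {α β : G}

omit [Finite G] in
private theorem std_free (hc : SelfC β) (hj : ∀ g : G, g ≠ 1 → orderOf g ∣ b → CjIn β g)
    (L : Subgroup G) [hn : L.Normal] (hL : ∀ x ∈ zpowers β, x ∈ L → x = 1) {g y : G} (hg : g ≠ 1)
    (hb : orderOf g ∣ b) (hy : y ∈ L) (e : g * y = y * g) : y = 1 := by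
  obtain ⟨k, x, hx, h1, rfl⟩ := hj g hg hb
  have h3 := hL _ (hc x hx h1 (k⁻¹ * y * k) (by
    calc k⁻¹ * y * k * x = k⁻¹ * (y * (k * x * k⁻¹)) * k := by group
      _ = k⁻¹ * (k * x * k⁻¹ * y) * k := by rw [e]
      _ = x * (k⁻¹ * y * k) := by group)) (hn.conj_mem' y hy k)
  calc y = k * (k⁻¹ * y * k) * k⁻¹ := by group
    _ = 1 := by rw [h3]; group

/-- For every prime power `r ^ k ∣ b` the normaliser of `S` has a subgroup `R` of order `r ^ k`
(`Sylow.exists_subgroup_card_pow_prime`). Its nontrivial elements are conjugate into `zpowers β`, so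
they commute with no nontrivial element of `L`, and `R` acts freely on the set
(`MulAction.selfEquivOrbitsQuotientProd` or the class formula). -/
theorem dvd_card (hβ : orderOf β = b) (hc : SelfC β)
    (hj : ∀ g : G, g ≠ 1 → orderOf g ∣ b → CjIn β g) (L : Subgroup G) [L.Normal]
    (hL : ∀ x ∈ zpowers β, x ∈ L → x = 1) (S : Subgroup G) (hS : S ≤ L)
    (hN : b ∣ Nat.card (normalizer (S : Set G))) (P : ℕ → Prop) :
    b ∣ Nat.card {x : G // x ∈ S ∧ x ≠ 1 ∧ P (orderOf x)} := by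
  have _ := hβ
  refine (Nat.dvd_iff_prime_pow_dvd_dvd _ _).2 fun r k hr hk => ?_
  have : Fact r.Prime := ⟨hr⟩
  obtain ⟨K, hK⟩ := Sylow.exists_subgroup_card_pow_prime r (hk.trans hN)
  let : MulAction K {x : G // x ∈ S ∧ x ≠ 1 ∧ P (orderOf x)} :=
    { smul := fun g x => ⟨(g.1 : G) * x * (g.1 : G)⁻¹, (mem_normalizer_iff.1 g.1.2 x).1 x.2.1,
        fun e => x.2.2.1 (conj_eq_one_iff.1 e),
        (MulAut.conj (g.1 : G)).orderOf_eq x.1 ▸ x.2.2.2⟩
      one_smul := fun x => Subtype.ext (by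
        change (1 : G) * x * (1 : G)⁻¹ = x
        group)
      mul_smul := fun g h x => Subtype.ext (by
        change (g.1 : G) * h.1 * x * ((g.1 : G) * h.1)⁻¹ =
          (g.1 : G) * ((h.1 : G) * x * (h.1 : G)⁻¹) * (g.1 : G)⁻¹
        group) }
  have hf : ∀ x : {x : G // x ∈ S ∧ x ≠ 1 ∧ P (orderOf x)}, MulAction.stabilizer K x = ⊥ := by
    intro x
    refine eq_bot_iff.2 fun g hg => mem_bot.2 (by_contra fun h1 => x.2.2.1 ?_)
    have e : (g.1 : G) * x * (g.1 : G)⁻¹ = x := congrArg Subtype.val hg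
    refine std_free hc hj L hL (g := g.1) (fun h => h1 (Subtype.ext (Subtype.ext h))) ?_ (hS x.2.1)
      (mul_inv_eq_iff_eq_mul.1 e)
    rw [orderOf_coe, orderOf_coe]
    exact (hK ▸ orderOf_dvd_natCard g).trans hk
  rw [Nat.card_congr (MulAction.selfEquivOrbitsQuotientProd hf), Nat.card_prod, hK]
  exact dvd_mul_left _ _

private theorem std_num (h : Par p a b q) {n : ℕ} (h1 : 1 < n) (h2 : b ∣ n - 1) (h3 : n ∣ 2 * a) :
    n = a ∧ a = b + 1 := by
  have h9 := h.b9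
  have h8 := h.a8
  have hadj := h.adj
  obtain ⟨m, hm⟩ := h2
  obtain ⟨t, ht⟩ := h3
  have ht' : t = 1 ∨ 2 * n ≤ 2 * a := by
    rcases t with _ | _ | t
    · omega
    · exact Or.inl rfl
    · exact Or.inr (by rw [ht]; nlinarith)
  have hm' : m = 1 ∨ m = 2 ∨ 3 * b ≤ n - 1 := by
    rcases m with _ | _ | _ | m
    · omega
    · exact Or.inl rfl
    · exact Or.inr (Or.inl rfl)
    · exact Or.inr (Or.inr (by rw [hm]; nlinarith))
  rcases ht' with rfl | e <;> rcases hm' with rfl | rfl | e' <;> omega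

omit [Finite G] in
private theorem std_card (T : Subgroup G) :
    Nat.card {x : G // x ∈ T ∧ x ≠ 1 ∧ True} = Nat.card T - 1 := by
  have e : {x : G | x ∈ T ∧ x ≠ 1 ∧ True} = (T : Set G) \ {1} := by ext; simp
  change Nat.card {x : G | x ∈ T ∧ x ≠ 1 ∧ True} = _
  rw [e, Nat.card_coe_set_eq, Set.ncard_sdiff_singleton_of_mem T.one_mem]
  rfl

/-- `|L|` is prime to `b`. Let `s` be a prime divisor of `a / 2 = orderOf (α ^ 2)` and `S` a Sylow
`s`-subgroup of `L`. By the Frattini argument (`Sylow.normalizer_sup_eq_top`) `b` divides the order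
of the normaliser of `S`. So `|S| ≡ 1 mod b`, `|S| > 1` and `|S| ∣ 2 * a`, which forces
`|S| = a = b + 1`, a power of `2`. Choose `S` containing `α ^ 2`. The number of involutions of `S` is
positive and divisible by `b`, so all nontrivial elements of `S` are involutions, but `a / 2 ≥ 4`. -/
theorem Base.no_kernel (h : Base p a b q α β) (hc : SelfC β)
    (hj : ∀ g : G, g ≠ 1 → orderOf g ∣ b → CjIn β g) (L : Subgroup G) [L.Normal]
    (hL : ∀ x ∈ zpowers β, x ∈ L → x = 1) (hα : α ^ 2 ∈ L) : False := by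
  have hcop : Nat.Coprime b (Nat.card L) := Nat.coprime_of_dvd fun r hr h1 h2 => by
    have : Fact r.Prime := ⟨hr⟩
    obtain ⟨y, hy⟩ := exists_prime_orderOf_dvd_card' r h2
    have hy1 : (y : G) ≠ 1 := fun e => hr.ne_one (by rw [← hy, ← orderOf_coe, e, orderOf_one])
    exact hy1 (std_free hc hj L hL hy1 (by rwa [orderOf_coe, hy]) y.2 rfl)
  have hG : Nat.card L * L.index = b * (2 * a * q) := by rw [L.card_mul_index, h.card]; ring
  have hi : b ∣ L.index := hcop.dvd_of_dvd_mul_left (hG ▸ dvd_mul_right _ _)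
  have hl : Nat.card L ∣ 2 * a * q := hcop.symm.dvd_of_dvd_mul_left (hG ▸ dvd_mul_right _ _)
  have hd : ∀ (s : ℕ) [Fact s.Prime] (S : Sylow s L) (P : ℕ → Prop),
      b ∣ Nat.card {x : G // x ∈ S.1.map L.subtype ∧ x ≠ 1 ∧ P (orderOf x)} := fun s _ S P => by
    refine dvd_card h.oβ hc hj L hL _ (map_subtype_le _) (hi.trans ?_) P
    rw [← relIndex_top_right, ← S.normalizer_sup_eq_top, relIndex_sup_right]
    exact relIndex_dvd_card _ _
  have step : ∀ (s : ℕ) [Fact s.Prime] (S : Sylow s L), s ∣ a → s ∣ Nat.card L →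
      Nat.card S = a ∧ a = b + 1 := fun s hs S h1 h2 => by
    have h3 := hd s S fun _ => True
    rw [std_card, card_map_of_injective L.subtype_injective] at h3
    refine std_num h.toPar
      (hs.out.one_lt.trans_le (Nat.le_of_dvd Nat.card_pos (S.dvd_card_of_dvd_card h2))) h3 ?_
    obtain ⟨k, hk⟩ := IsPGroup.iff_card.1 S.isPGroup'
    refine Nat.Coprime.dvd_of_dvd_mul_right ?_ ((card_subgroup_dvd_card S.1).trans hl)
    rw [hk]
    exact (h.cop_aq.coprime_dvd_left h1).pow_left k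
  have h8 := h.a8
  obtain ⟨c, hc2⟩ := h.a_even
  have ho : orderOf (α ^ 2) = c := by
    rw [orderOf_pow_of_dvd two_ne_zero (h.oα ▸ h.a_even), h.oα]
    omega
  have ho' : orderOf (⟨α ^ 2, hα⟩ : L) = c := by rw [← orderOf_coe, ho]
  have hcL : c ∣ Nat.card L := ho' ▸ orderOf_dvd_natCard _
  have hca : c ∣ a := ⟨2, by omega⟩
  obtain ⟨s, hs, hsc⟩ := Nat.exists_prime_and_dvd (n := c) (by omega)
  have : Fact s.Prime := ⟨hs⟩
  obtain ⟨S⟩ : Nonempty (Sylow s L) := Sylow.nonempty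
  obtain ⟨k, hk⟩ := IsPGroup.iff_card.1 S.isPGroup'
  rw [(step s S (hsc.trans hca) (hsc.trans hcL)).1] at hk
  obtain rfl : 2 = s := (Nat.prime_dvd_prime_iff_eq Nat.prime_two hs).1
    (Nat.prime_two.dvd_of_dvd_pow (hk ▸ h.a_even))
  obtain ⟨j, -, hj2⟩ := (Nat.dvd_prime_pow hs).1 (hk ▸ hca)
  obtain ⟨T, hT⟩ := (IsPGroup.of_card (p := 2) (G := zpowers (⟨α ^ 2, hα⟩ : L))
    (by rw [Nat.card_zpowers, ho', hj2])).exists_le_sylow
  obtain ⟨e1, e2⟩ := step 2 T h.a_even (hsc.trans hcL)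
  obtain ⟨z, hz⟩ := exists_prime_orderOf_dvd_card' (G := T) 2 (e1 ▸ h.a_even)
  have hz' : orderOf (z.1.1 : G) = 2 := by rw [orderOf_coe, orderOf_coe, hz]
  have h1 : b ≤ {x : G | x ∈ T.1.map L.subtype ∧ x ≠ 1 ∧ orderOf x = 2}.ncard :=
    Nat.le_of_dvd ((Set.ncard_pos (Set.toFinite _)).2 ⟨z.1.1, mem_map_of_mem _ z.2, fun e => by
      rw [e, orderOf_one] at hz'
      omega, hz'⟩) (hd 2 T (· = 2))
  have h2 : {x : G | x ∈ T.1.map L.subtype ∧ x ≠ 1 ∧ orderOf x = 2}.ncard <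
      {x : G | x ∈ T.1.map L.subtype ∧ x ≠ 1 ∧ True}.ncard :=
    Set.ncard_lt_ncard ⟨fun x hx => ⟨hx.1, hx.2.1, trivial⟩, fun hs => by
      have := (hs (a := α ^ 2) ⟨mem_map_of_mem L.subtype (hT (mem_zpowers _)), fun e => by
        rw [e, orderOf_one] at ho
        omega, trivial⟩).2.2
      omega⟩
  have h3 : {x : G | x ∈ T.1.map L.subtype ∧ x ≠ 1 ∧ True}.ncard = Nat.card T - 1 := by
    rw [← card_map_of_injective (K := T.1) L.subtype_injective, ← std_card]
    rfl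
  omega

end Pool.Agent.Lib.MP_7d41f7_al
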