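import Pool.Agent.Lib.MP_7d41f7_al.StA
import Pool.Agent.Lib.MP_7d41f7_al.StB
import Pool.Agent.Lib.MP_7d41f7_al.StD
import Pool.Agent.Lib.MP_7d41f7_al.ExcC
import Pool.Agent.Lib.MP_7d41f7_al.Dz

set_option autoImplicit false

namespace Pool.Agent.Lib.MP_7d41f7_al

open Finset Subgroup Pool.Agent.Lib.MP_b6945b_al OnePoint
open scoped Classical

variable {G : Type} [Group G] [Fintype G] {p a b q : ℕ} {α β : G}

omit [Fintype G] in
theorem ste_cj {g : G} (h : CjIn β g) : g ≠ 1 ∧ orderOf g ∣ orderOf β := by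
  obtain ⟨k, x, hx, hx1, rfl⟩ := h
  refine ⟨fun e => hx1 (conj_eq_one_iff.1 e), ?_⟩
  rw [← MulAut.conj_apply, MulEquiv.orderOf_eq]
  exact orderOf_dvd_of_mem_zpowers hx

omit [Fintype G] in
theorem ste_inv {g : G} (h : CjIn β g) : CjIn β g⁻¹ := by
  obtain ⟨k, x, hx, hx1, rfl⟩ := h
  exact ⟨k, x⁻¹, inv_mem hx, inv_ne_one.2 hx1, by group⟩

omit [Fintype G] in
theorem ste_not (h : Base p a b q α β) {g : G} (ha : orderOf g ∣ a) : ¬ CjIn β g := fun e =>
  (ste_cj e).1 (orderOf_eq_one_iff.1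
    (Nat.eq_one_of_dvd_coprimes h.toPar.cop_ab ha (h.oβ ▸ (ste_cj e).2)))

theorem ste_tr {n : ℕ} (hn : n = 1) (A B : Matrix (Fin n) (Fin n) ℂ) :
    (A * B).trace = A.trace * B.trace := by
  subst hn
  simp [Matrix.trace, Matrix.mul_apply]

omit [Group G] in
theorem ste_card (P : G → Prop) [DecidablePred P] :
    Nat.card {g // P g} = ∑ g, if P g then 1 else 0 := by
  rw [Nat.card_eq_fintype_card, Fintype.card_subtype, card_filter]

/-- `exc`, `deg_dvd`, `Par.num` (the relation at `g = 1` gives `d i₂ = d i₁ + δ`). In the case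
`d i₁ = 1`, `δ = 1` the character `χ i₁` is multiplicative and `χ i₁ (α ^ 2) = χ i₁ α * χ i₁ α⁻¹ = 1`,
so `χ i₂ (α ^ 2) = 2 = d i₂` and `α ^ 2` lies in the kernel of `ρ i₂` (`ker_of_trace`), against
`Base.no_kernel`. -/
theorem Hyp.chars {I : IrrData G} (h : Hyp I p a b q α β) :
    ∃ (i₁ i₂ : Fin I.n) (δ : ℤ), (δ = 1 ∨ δ = -1) ∧ I.d i₁ = q ∧ I.d i₂ = 2 * a ∧
      (∀ g, CjIn β g → I.χ i₁ g = δ) ∧
      ∀ g, ¬ CjIn β g → 1 + δ * I.χ i₁ g - δ * I.χ i₂ g = 0 := by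
  have hc := h.selfC
  obtain ⟨i₁, i₂, δ, hδ, h1, h2, h3, h4, h5⟩ := exc I (h.toBase.torB hc) (h.oβ ▸ h.bodd)
    (h.oβ ▸ le_trans (by norm_num) h.b9)
  have hde : (I.d i₂ : ℤ) = I.d i₁ + δ := by
    have h6 := h2 1 fun e => (ste_cj e).1 rfl
    rw [I.χ_one, I.χ_one] at h6
    have h7 : 1 + δ * I.d i₁ - δ * I.d i₂ = 0 := by exact_mod_cast h6
    rcases hδ with rfl | rfl <;> omega
  rcases h.toPar.num hδ (I.pos i₁) (I.pos i₂) hde (h.oβ ▸ h3) (h.card ▸ deg_dvd I i₁)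
    (h.card ▸ deg_dvd I i₂) with ⟨e1, e2⟩ | ⟨e1, rfl⟩
  · refine ⟨i₁, i₂, δ, hδ, e1, e2, ?_, h2⟩
    rintro _ ⟨k, x, hx, hx1, rfl⟩
    rw [I.χ_conj, h1 x hx hx1]
  · have e2 : I.d i₂ = 2 := by omega
    have h6 : I.χ i₁ (α ^ 2) = 1 := by
      have h7 : ∀ g g', I.χ i₁ (g * g') = I.χ i₁ g * I.χ i₁ g' := fun g g' => by
        rw [IrrData.χ, map_mul, ste_tr e1]
        rfl
      rw [pow_two, h7]
      nth_rewrite 2 [← h5]
      rw [← h7, mul_inv_cancel, I.χ_one, e1, Nat.cast_one]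
    have h7 := h2 (α ^ 2) (ste_not h.toBase (h.oα ▸ orderOf_pow_dvd 2))
    rw [h6] at h7
    refine (h.toBase.no_kernel hc (fun g => h.toBase.cjB hc) (I.ρ i₂).ker (fun x hx hk => ?_)
      (ker_of_trace (I.ρ i₂) _ ?_)).elim
    · by_contra hx1
      refine h4 x hx hx1 rfl ?_
      rw [IrrData.χ, MonoidHom.mem_ker.1 hk, Matrix.trace_one, Fintype.card_fin, e2, Nat.cast_ofNat]
    · change I.χ i₂ _ = _
      rw [e2]
      push_cast at h7 ⊢
      linear_combination -h7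

/-- By `dz` the character `χ i₁` vanishes on elements of order divisible by `p`, and `χ i₂` on
elements of order not prime to `2 * a`; the order of any other element divides `b`. So `χ i₁` is `q`
at `1`, `0` on elements of order `p`, `δ` on `CjIn β`, and `-δ` on the nontrivial elements of order
dividing `a`. Compare `∑ g, χ i₁ g⁻¹ * χ i₁ g = |G|` (`IrrData.orth`) with the partition of `G` into
these four sets, and use `Base.card_cjB`. -/
theorem Hyp.grp {I : IrrData G} (h : Hyp I p a b q α β) : Grp p a b q α β := by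
  have hc := h.selfC
  obtain ⟨i₁, i₂, δ, hδ, e1, e2, h1, h2⟩ := h.chars
  have hδ2 : (δ : ℂ) * δ = 1 := by rcases hδ with rfl | rfl <;> norm_num
  have z1 : ∀ g : G, p ∣ orderOf g → I.χ i₁ g = 0 := fun g =>
    dz I i₁ (c := 2 * a * b) h.pp (by rw [h.card, e1, mul_comm])
      (h.pp.coprime_iff_not_dvd.1 (h.toPar.cop_q.coprime_dvd_left h.toPar.p_dvd))
  have z2 : ∀ (g : G) (r : ℕ), r.Prime → r ∣ 2 * a → r ∣ orderOf g → I.χ i₂ g = 0 :=
    fun g r hr hra => dz I i₂ (c := b * q) hr (by rw [h.card, e2, mul_assoc])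
      (hr.coprime_iff_not_dvd.1 (h.toPar.cop_a.coprime_dvd_left hra))
  have typ : ∀ g : G, orderOf g ∣ p ∨ orderOf g ∣ a ∨ orderOf g ∣ b := fun g => by
    by_cases hv : Van I g
    · exact h.van g hv
    obtain ⟨n, hn⟩ := h.qp
    have c1 : (orderOf g).Coprime q := hn ▸
      (h.pp.coprime_iff_not_dvd.2 fun e => hv ⟨_, z1 g e⟩).symm.pow_right n
    have c2 : (orderOf g).Coprime (2 * a) :=
      Nat.coprime_of_dvd fun r hr h3 h4 => hv ⟨_, z2 g r hr h4 h3⟩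
    exact Or.inr (Or.inr (c2.dvd_of_dvd_mul_left (c1.dvd_of_dvd_mul_right
      (h.card ▸ orderOf_dvd_natCard g))))
  have hA : ∀ g : G, g ≠ 1 → orderOf g ∣ a → I.χ i₁ g = -δ := fun g hg ha => by
    obtain ⟨r, hr, hrg⟩ := Nat.exists_prime_and_dvd (mt orderOf_eq_one_iff.1 hg)
    have h3 := h2 g (ste_not h.toBase ha)
    rw [z2 g r hr ((hrg.trans ha).mul_left 2) hrg] at h3
    linear_combination δ * h3 - I.χ i₁ g * hδ2
  have hp1 : orderOf (1 : G) ≠ p := orderOf_one (G := G) ▸ h.pp.ne_one.symm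
  have hpa : ¬ p ∣ a :=
    h.pp.coprime_iff_not_dvd.1 (h.toPar.cop_aq.symm.coprime_dvd_left h.toPar.p_dvd)
  have hpb : ¬ p ∣ b :=
    h.pp.coprime_iff_not_dvd.1 (h.toPar.cop_bq.symm.coprime_dvd_left h.toPar.p_dvd)
  have typ' : ∀ g : G, g ≠ 1 → orderOf g ≠ p → orderOf g ∣ a ∨ CjIn β g := fun g hg hp =>
    ((typ g).resolve_left fun e => ((Nat.dvd_prime h.pp).1 e).elim
      (mt orderOf_eq_one_iff.1 hg) hp).imp_right (h.toBase.cjB hc hg)
  have hf : ∀ g : G, I.χ i₁ g⁻¹ * I.χ i₁ g =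
      1 + (if g = 1 then (q : ℂ) ^ 2 - 1 else 0) - if orderOf g = p then 1 else 0 := fun g => by
    by_cases hg : g = 1
    · rw [if_pos hg, hg, if_neg hp1, inv_one, I.χ_one, e1]
      ring
    by_cases hp : orderOf g = p
    · rw [if_neg hg, if_pos hp, z1 g hp.symm.dvd]
      ring
    rw [if_neg hg, if_neg hp, add_zero, sub_zero]
    rcases typ' g hg hp with h3 | h3
    · rw [hA g hg h3, hA g⁻¹ (inv_ne_one.2 hg) (by rwa [orderOf_inv]), neg_mul_neg, hδ2]
    · rw [h1 g h3, h1 _ (ste_inv h3), hδ2]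
  have nP : Nat.card {g : G // orderOf g = p} + 1 = q ^ 2 := by
    have h3 := I.orth i₁ i₁
    simp only [hf, if_true, sum_sub_distrib, sum_add_distrib, sum_ite_eq', mem_univ, sum_const,
      card_univ, nsmul_eq_mul, mul_one] at h3
    have h4 : ((Nat.card {g : G // orderOf g = p} + 1 : ℕ) : ℂ) = (q ^ 2 : ℕ) := by
      rw [ste_card]
      push_cast
      linear_combination -h3
    exact_mod_cast h4
  refine ⟨h.toBase, hc, h.toBase.torB hc, fun g => h.toBase.cjB hc, typ, nP, ?_⟩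
  have hpart : ∀ g : G, 1 = (if g = 1 then 1 else 0) + (if orderOf g = p then 1 else 0) +
      (if g ≠ 1 ∧ orderOf g ∣ a then 1 else 0) + if CjIn β g then 1 else 0 := fun g => by
    by_cases hg : g = 1
    · rw [if_pos hg, hg, if_neg hp1, if_neg fun e => e.1 rfl, if_neg fun e => (ste_cj e).1 rfl]
    by_cases hp : orderOf g = p
    · rw [if_neg hg, if_pos hp, if_neg fun e => hpa (hp ▸ e.2),
        if_neg fun e => hpb (hp ▸ h.oβ ▸ (ste_cj e).2)]
    rcases typ' g hg hp with h3 | h3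
    · rw [if_neg hg, if_neg hp, if_pos ⟨hg, h3⟩, if_neg (ste_not h.toBase h3)]
    · rw [if_neg hg, if_neg hp, if_neg fun e => ste_not h.toBase e.2 h3, if_pos h3]
  have h3 : Nat.card G = 1 + Nat.card {g : G // orderOf g = p} +
      Nat.card {g : G // g ≠ 1 ∧ orderOf g ∣ a} + Nat.card {g : G // CjIn β g} := by
    rw [ste_card, ste_card, ste_card, Nat.card_eq_fintype_card, ← card_univ, card_eq_sum_ones,
      sum_congr rfl fun g _ => hpart g]
    simp only [sum_add_distrib, sum_ite_eq', mem_univ, if_true]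
  rw [h.card, h.toBase.card_cjB hc, add_comm 1, nP, ← h.ab] at h3
  obtain ⟨a', rfl⟩ : ∃ a', a = a' + 1 := ⟨a - 1, by have := h.toPar.a8; omega⟩
  obtain ⟨b', rfl⟩ : ∃ b', b = b' + 1 := ⟨b - 1, by have := h.b9; omega⟩
  rw [← h.ab]
  simp only [Nat.add_sub_cancel] at h3 ⊢
  linarith

end Pool.Agent.Lib.MP_7d41f7_al
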