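import Pool.Agent.Lib.MP_7d41f7_al.Cnt

set_option autoImplicit false

namespace Pool.Agent.Lib.MP_7d41f7_al

open Finset Subgroup Pool.Agent.Lib.MP_b6945b_al OnePoint
open scoped Classical

variable {G : Type} [Group G] [Finite G] {p a b q : ℕ} {α β : G}

theorem stg1_cop_ap (h : Par p a b q) : Nat.Coprime a p :=
  Nat.Coprime.coprime_dvd_right h.p_dvd h.cop_aq

theorem stg1_cop_bp (h : Par p a b q) : Nat.Coprime b p :=
  Nat.Coprime.coprime_dvd_right h.p_dvd h.cop_bq

omit [Finite G] in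
theorem stg1_ne (x : G) (hx : x ≠ 1) {m n : ℕ} (hmn : Nat.Coprime m n) (h1 : orderOf x ∣ m)
    (h2 : orderOf x ∣ n) : False :=
  hx (orderOf_eq_one_iff.1 (Nat.eq_one_of_dvd_coprimes hmn h1 h2))

theorem stg1_idx {H K : Subgroup G} (hle : H ≤ K) (hc : Nat.card K = 2 * Nat.card H) :
    K ≤ normalizer (H : Set G) := by
  have h1 : Nat.card (H.subgroupOf K) = Nat.card H :=
    Nat.card_congr (subgroupOfEquivOfLe hle).toEquiv
  have h2 := (H.subgroupOf K).index_mul_card
  have h3 : 0 < Nat.card H := Nat.card_pos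
  rw [h1, hc] at h2
  exact (normal_subgroupOf_iff_le_normalizer hle).1
    (normal_of_index_eq_two (Nat.eq_of_mul_eq_mul_right h3 h2))

/-- If the order of `g` divides `a` or `b`, then `g * u` has order `orderOf g * p`. -/
theorem Grp.cenP (h : Grp p a b q α β) {u g : G} (hu : orderOf u = p) (hc : g * u = u * g) :
    orderOf g ∣ p := by
  have hap := stg1_cop_ap h.toPar
  have hbp := stg1_cop_bp h.toPar
  have key : Nat.Coprime (orderOf g) p → orderOf g ∣ p := by
    intro hco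
    have hcm : Commute g u := hc
    have ho : orderOf (g * u) = orderOf g * p := by
      rw [hcm.orderOf_mul_eq_mul_orderOf_of_coprime (by rw [hu]; exact hco), hu]
    rcases h.typ (g * u) with e | e | e <;> rw [ho] at e
    · exact dvd_of_mul_right_dvd e
    · exact absurd (Nat.eq_one_of_dvd_coprimes hap (dvd_of_mul_left_dvd e) dvd_rfl) h.pp.ne_one
    · exact absurd (Nat.eq_one_of_dvd_coprimes hbp (dvd_of_mul_left_dvd e) dvd_rfl) h.pp.ne_one
  rcases h.typ g with e | e | e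
  · exact e
  · exact key (Nat.Coprime.coprime_dvd_left e hap)
  · exact key (Nat.Coprime.coprime_dvd_left e hbp)

theorem Grp.cenA (h : Grp p a b q α β) {x g : G} (hx : x ≠ 1) (hxa : orderOf x ∣ a)
    (hc : g * x = x * g) : orderOf g ∣ a := by
  have hap := stg1_cop_ap h.toPar
  rcases h.typ g with e | e | e
  · rcases (Nat.dvd_prime h.pp).1 e with e1 | e1
    · rw [e1]; exact one_dvd _
    · exact (stg1_ne x hx hap hxa (h.cenP e1 hc.symm)).elim
  · exact e
  · have hcm : Commute g x := hc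
    have ho : orderOf (g * x) = orderOf g * orderOf x :=
      hcm.orderOf_mul_eq_mul_orderOf_of_coprime
        (Nat.Coprime.coprime_dvd_left e (Nat.Coprime.coprime_dvd_right hxa h.cop_ab.symm))
    rcases h.typ (g * x) with e' | e' | e' <;> rw [ho] at e'
    · exact (stg1_ne x hx hap hxa (dvd_of_mul_left_dvd e')).elim
    · exact dvd_of_mul_right_dvd e'
    · exact (stg1_ne x hx h.cop_ab hxa (dvd_of_mul_left_dvd e')).elim

/-- Cauchy's theorem and `Par.cop_a`. -/
theorem Grp.card_cenA (h : Grp p a b q α β) {x : G} (hx : x ≠ 1) (hxa : orderOf x ∣ a) :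
    Nat.card (Cx x) ∣ 2 * a := by
  have h1 : Nat.card (Cx x) ∣ 2 * a * (b * q) := by
    have := (Cx x).card_subgroup_dvd_card
    rwa [h.card, mul_assoc (2 * a)] at this
  refine Nat.Coprime.dvd_of_dvd_mul_right ?_ h1
  refine Nat.coprime_of_dvd fun r hr hr1 hr2 => ?_
  haveI := Fact.mk hr
  obtain ⟨g, hg⟩ := exists_prime_orderOf_dvd_card' r hr1
  have hg' : orderOf (g : G) = r := by rw [Subgroup.orderOf_coe, hg]
  have h2 := h.cenA hx hxa (mem_centralizer_singleton_iff.1 g.2)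
  rw [hg'] at h2
  exact hr.ne_one (Nat.eq_one_of_dvd_coprimes h.cop_a (h2.mul_left 2) hr2)

omit [Finite G] in
theorem Base.ord_t (h : Base p a b q α β) : orderOf (α ^ (a / 2)) = 2 := by
  obtain ⟨c, hc⟩ := h.a_even
  have h8 := h.a8
  have h1 : a / 2 = c := by omega
  have hc0 : c ≠ 0 := by omega
  rw [h1, orderOf_pow_of_dvd hc0 (by rw [h.oα, hc]; exact dvd_mul_left c 2), h.oα, hc]
  exact Nat.mul_div_cancel 2 (Nat.pos_of_ne_zero hc0)

omit [Finite G] in
theorem Base.uniq_t (h : Base p a b q α β) {x : G} (hx : x ∈ zpowers α) (h1 : x ≠ 1)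
    (h2 : x * x = 1) : x = α ^ (a / 2) := by
  have ht := h.ord_t
  obtain ⟨c, hc⟩ := h.a_even
  have hac : a / 2 = c := by omega
  rw [hac] at ht ⊢
  obtain ⟨k, rfl⟩ := mem_zpowers_iff.1 hx
  rw [← zpow_add, ← orderOf_dvd_iff_zpow_eq_one, h.oα, hc, ← two_mul] at h2
  push_cast at h2
  obtain ⟨m, rfl⟩ := (mul_dvd_mul_iff_left (two_ne_zero : (2 : ℤ) ≠ 0)).1 h2
  rw [zpow_mul, zpow_natCast] at h1 ⊢
  have h3 : (α ^ c) ^ (2 : ℤ) = 1 := by
    rw [← orderOf_dvd_iff_zpow_eq_one, ht]; simp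
  rcases Int.even_or_odd' m with ⟨l, rfl | rfl⟩
  · exact absurd (by rw [zpow_mul, h3, one_zpow]) h1
  · rw [zpow_add, zpow_mul, h3, one_zpow, one_mul, zpow_one]

omit [Finite G] in
theorem stg1_fix (h : Base p a b q α β) {A : Subgroup G} (hA : A ≤ zpowers α)
    (ht : α ^ (a / 2) ∈ A) : normalizer (A : Set G) ≤ Cx (α ^ (a / 2)) := by
  intro g hg
  have h2 := h.ord_t
  have h3 : g * α ^ (a / 2) * g⁻¹ ∈ A := (mem_normalizer_iff.1 hg _).1 ht
  have h4 : α ^ (a / 2) * α ^ (a / 2) = 1 := by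
    have := pow_orderOf_eq_one (α ^ (a / 2))
    rwa [h2, pow_two] at this
  have h5 : g * α ^ (a / 2) * g⁻¹ ≠ 1 := by
    intro e
    have : α ^ (a / 2) = 1 := by
      calc α ^ (a / 2) = g⁻¹ * (g * α ^ (a / 2) * g⁻¹) * g := by group
        _ = 1 := by rw [e]; group
    rw [this, orderOf_one] at h2
    omega
  have h6 := h.uniq_t (hA h3) h5 (by
    calc g * α ^ (a / 2) * g⁻¹ * (g * α ^ (a / 2) * g⁻¹)
        = g * (α ^ (a / 2) * α ^ (a / 2)) * g⁻¹ := by group
      _ = 1 := by rw [h4]; group)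
  exact mem_centralizer_singleton_iff.2 (mul_inv_eq_iff_eq_mul.1 h6)

omit [Finite G] in
theorem stg1_le (α : G) (n : ℕ) : zpowers α ≤ Cx (α ^ n) :=
  zpowers_le.2 (mem_centralizer_singleton_iff.2 (Commute.self_pow α n))

/-- The order is `a` or `2 * a`. Let `A₂` be the Sylow `2`-subgroup of `zpowers α`, of order `2 ^ k`.
It has index two in a subgroup `T` of order `2 ^ (k + 1)`
(`Sylow.exists_subgroup_card_pow_succ`), and `T` centralises the only involution of `A₂`. -/
theorem Grp.card_H (h : Grp p a b q α β) : Nat.card (Cx (α ^ (a / 2))) = 2 * a := by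
  have ht := h.ord_t
  have h8 := h.a8
  have ha0 : a ≠ 0 := by omega
  have h1 : Nat.card (Cx (α ^ (a / 2))) ∣ 2 * a :=
    h.card_cenA (by intro e; rw [e, orderOf_one] at ht; omega) (by rw [ht]; exact h.a_even)
  have h2 : a ∣ Nat.card (Cx (α ^ (a / 2))) := by
    have := card_dvd_of_le (stg1_le α (a / 2))
    rwa [Nat.card_zpowers, h.oα] at this
  obtain ⟨k, m, hm, ham⟩ := Nat.exists_eq_two_pow_mul_odd ha0
  have hm0 : m ≠ 0 := by rintro rfl; simp at hm
  have hk : k ≠ 0 := by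
    rintro rfl
    have := h.a_even
    obtain ⟨l, hl⟩ := hm
    omega
  obtain ⟨j, rfl⟩ : ∃ j, k = j + 1 := Nat.exists_eq_succ_of_ne_zero hk
  have hA : Nat.card (zpowers (α ^ m)) = 2 ^ (j + 1) := by
    rw [Nat.card_zpowers, orderOf_pow_of_dvd hm0 (by rw [h.oα, ham]; exact dvd_mul_left _ _),
      h.oα, ham]
    exact Nat.mul_div_cancel _ (Nat.pos_of_ne_zero hm0)
  obtain ⟨T, hT, hAT⟩ := Sylow.exists_subgroup_card_pow_succ (p := 2) (n := j + 1)
    (by rw [h.card, ham]; exact ⟨m * b * q, by ring⟩) hA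
  have h3 : a / 2 = m * 2 ^ j := by
    have : a = 2 * (m * 2 ^ j) := by rw [ham]; ring
    omega
  have h4 : T ≤ Cx (α ^ (a / 2)) :=
    (stg1_idx hAT (by rw [hT, hA]; ring)).trans
      (stg1_fix h.toBase (zpowers_le.2 (npow_mem_zpowers α m))
        (by rw [h3, pow_mul]; exact npow_mem_zpowers _ _))
  have h5 := card_dvd_of_le h4
  rw [hT] at h5
  obtain ⟨c, hc⟩ := h2
  rw [hc] at h1 h5 ⊢
  rw [mul_comm 2 a] at h1 ⊢
  have h6 : c ∣ 2 := (Nat.mul_dvd_mul_iff_left (Nat.pos_of_ne_zero ha0)).1 h1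
  rcases (Nat.dvd_prime Nat.prime_two).1 h6 with rfl | rfl
  · exfalso
    rw [mul_one, ham, pow_succ 2 (j + 1)] at h5
    have h7 : 2 ∣ m := (Nat.mul_dvd_mul_iff_left (by positivity)).1 h5
    obtain ⟨l, hl⟩ := hm
    omega
  · rfl

/-- A subgroup of index two is normal; the normaliser fixes the only involution. -/
theorem Grp.nx_eq (h : Grp p a b q α β) : Nx α = Cx (α ^ (a / 2)) :=
  le_antisymm (stg1_fix h.toBase le_rfl (npow_mem_zpowers _ _))
    (stg1_idx (stg1_le α _) (by rw [h.card_H, Nat.card_zpowers, h.oα]))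

end Pool.Agent.Lib.MP_7d41f7_al
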