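import Pool.Agent.Lib.MP_7d41f7_al.StG1

set_option autoImplicit false

namespace Pool.Agent.Lib.MP_7d41f7_al

open Finset Subgroup Pool.Agent.Lib.MP_b6945b_al OnePoint
open scoped Classical

variable {G : Type} [Group G] [Finite G] {p a b q : ℕ} {α β : G}

/-- `Par.cop_q`, `Sylow.card_eq_multiplicity`. -/
theorem Base.card_sylow (h : Base p a b q α β) (P : Sylow p G) : Nat.card P = q := by
  have : Fact p.Prime := ⟨h.pp⟩
  obtain ⟨n, hn⟩ := h.qp
  have hq : q ≠ 0 := by
    have := h.toPar.q17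
    omega
  have h2 : 2 * a * b ≠ 0 := by
    have := h.toPar.a8
    have := h.b9
    positivity
  have hd : ¬ p ∣ 2 * a * b :=
    (Nat.Prime.coprime_iff_not_dvd h.pp).1 (Nat.Coprime.coprime_dvd_left h.toPar.p_dvd h.toPar.cop_q)
  rw [Sylow.card_eq_multiplicity, h.card, Nat.factorization_mul h2 hq, Finsupp.add_apply,
    Nat.factorization_eq_zero_of_not_dvd hd, zero_add, hn, Nat.Prime.factorization_pow h.pp,
    Finsupp.single_eq_same]

theorem Grp.ord_p (h : Grp p a b q α β) {D : Subgroup G} (hD : IsPGroup p D) {u : G} (hu : u ∈ D)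
    (h1 : u ≠ 1) : orderOf u = p := by
  obtain ⟨k, hk⟩ := hD ⟨u, hu⟩
  have hk' : u ^ p ^ k = 1 := congrArg Subtype.val hk
  have hd : orderOf u ∣ p ^ k := orderOf_dvd_of_pow_eq_one hk'
  have hne : orderOf u ≠ 1 := fun e => h1 (orderOf_eq_one_iff.1 e)
  have key : ∀ c : ℕ, Nat.Coprime c q → ¬ orderOf u ∣ c := by
    intro c hc hdc
    have h3 : Nat.Coprime c (p ^ k) :=
      (Nat.Coprime.coprime_dvd_right h.toPar.p_dvd hc).pow_right k
    exact hne (Nat.eq_one_of_dvd_coprimes h3 hdc hd)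
  rcases h.typ u with e | e | e
  · exact ((Nat.dvd_prime h.pp).1 e).resolve_left hne
  · exact absurd e (key a h.toPar.cop_aq)
  · exact absurd e (key b h.toPar.cop_bq)

theorem Grp.cenP_pgroup (h : Grp p a b q α β) {u : G} (hu : orderOf u = p) :
    IsPGroup p (Cx u) := by
  intro g
  refine ⟨1, Subtype.ext ?_⟩
  have hc : (g : G) * u = u * g := mem_centralizer_singleton_iff.1 g.2
  rw [pow_one]
  exact orderOf_dvd_iff_pow_eq_one.1 (h.cenP hu hc)

/-- The centraliser is a `p`-group, so its order divides `q`. The class of `u` has at most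
`q ^ 2 - 1 = 4 * a * b` elements (`nP`, `Par.sq`), so `q ≤ 2 * |Cx u|`, and `q` is odd. -/
theorem Grp.card_cenP (h : Grp p a b q α β) {u : G} (hu : orderOf u = p) :
    Nat.card (Cx u) = q := by
  have : Fact p.Prime := ⟨h.pp⟩
  obtain ⟨m, hm⟩ := (h.cenP_pgroup hu).exists_card_eq
  have hdG : Nat.card (Cx u) ∣ 2 * a * b * q := h.card ▸ Subgroup.card_subgroup_dvd_card (Cx u)
  have hco : Nat.Coprime (Nat.card (Cx u)) (2 * a * b) := by
    rw [hm]
    exact (Nat.Coprime.coprime_dvd_left h.toPar.p_dvd h.toPar.cop_q).pow_left m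
  obtain ⟨k, hk⟩ : Nat.card (Cx u) ∣ q := hco.dvd_of_dvd_mul_left hdG
  have hle : (Cx u).index ≤ Nat.card {g : G // orderOf g = p} := by
    refine Nat.card_le_card_of_injective
      (fun x : G ⧸ Cx u => (⟨x.out * u * x.out⁻¹, ?_⟩ : {g : G // orderOf g = p})) ?_
    · rw [← hu]
      exact (SemiconjBy.orderOf_eq x.out (by simp [SemiconjBy])).symm
    · intro x y hxy
      have e : x.out * u * x.out⁻¹ = y.out * u * y.out⁻¹ := congrArg Subtype.val hxy
      have hm : x.out⁻¹ * y.out ∈ Cx u := by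
        rw [mem_centralizer_singleton_iff]
        calc x.out⁻¹ * y.out * u = x.out⁻¹ * (y.out * u * y.out⁻¹) * y.out := by group
          _ = x.out⁻¹ * (x.out * u * x.out⁻¹) * y.out := by rw [e]
          _ = u * (x.out⁻¹ * y.out) := by group
      rw [← QuotientGroup.out_eq' x, ← QuotientGroup.out_eq' y]
      exact QuotientGroup.eq.2 hm
  have h4 : Nat.card {g : G // orderOf g = p} = 4 * a * b := by
    have h5 := h.nP
    have h6 := h.toPar.sq
    omega
  have h7 : Nat.card (Cx u) * (Cx u).index = 2 * a * b * q := by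
    rw [Subgroup.card_mul_index, h.card]
  have hpos : 0 < Nat.card (Cx u) * (2 * a * b) := by
    have := h.toPar.a8
    have := h.b9
    have : 0 < Nat.card (Cx u) := Nat.card_pos
    positivity
  have h8 : Nat.card (Cx u) * (2 * a * b) * k ≤ Nat.card (Cx u) * (2 * a * b) * 2 := by
    calc Nat.card (Cx u) * (2 * a * b) * k = 2 * a * b * (Nat.card (Cx u) * k) := by ring
      _ = Nat.card (Cx u) * (Cx u).index := by rw [← hk, h7]
      _ ≤ Nat.card (Cx u) * (4 * a * b) := Nat.mul_le_mul_left _ (h4 ▸ hle)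
      _ = Nat.card (Cx u) * (2 * a * b) * 2 := by ring
  have h9 : k ≤ 2 := Nat.le_of_mul_le_mul_left h8 hpos
  have hodd : Odd k := by
    have := h.toPar.q_odd
    rw [hk] at this
    exact (Nat.odd_mul.1 this).2
  obtain ⟨j, hj⟩ := hodd
  have h10 : k = 1 := by omega
  rw [h10, mul_one] at hk
  exact hk.symm

/-- `inv_of_fpf` and `cenP`. -/
theorem Grp.inverts (h : Grp p a b q α β) {D : Subgroup G} (hD : IsPGroup p D) {s : G}
    (hs : s * s = 1) (h1 : s ≠ 1) (hn : s ∈ normalizer (D : Set G)) :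
    ∀ u ∈ D, s * u * s⁻¹ = u⁻¹ := by
  refine inv_of_fpf D hs hn ?_
  intro u hu hc
  by_contra hu1
  have ho : orderOf s = 2 := orderOf_eq_prime (by rw [pow_two, hs]) h1
  have hd := h.cenP (h.ord_p hD hu hu1) hc
  rw [ho] at hd
  exact h.p2 ((Nat.prime_dvd_prime_iff_eq Nat.prime_two h.pp).1 hd).symm

/-- `s` inverts some `v ≠ 1` in `D`, so it normalises the Sylow subgroup `Cx v` and inverts it; so
this Sylow subgroup is abelian, and then all are. If `u ∈ P ⊓ Q`, both lie in `Cx u` of order `q`. -/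
theorem Grp.ti_of_invol (h : Grp p a b q α β) {D : Subgroup G} (hD : IsPGroup p D) (h0 : D ≠ ⊥)
    {s : G} (hs : s * s = 1) (h1 : s ≠ 1) (hn : s ∈ normalizer (D : Set G)) (P Q : Sylow p G)
    (u : G) (hP : u ∈ P) (hQ : u ∈ Q) (hu : u ≠ 1) : P = Q := by
  have : Fact p.Prime := ⟨h.pp⟩
  obtain ⟨⟨v, hv⟩, hv1⟩ := (Subgroup.ne_bot_iff_exists_ne_one).1 h0
  have hv1' : v ≠ 1 := fun e => hv1 (Subtype.ext e)
  have hov := h.ord_p hD hv hv1'
  have hinv := h.inverts hD hs h1 hn v hv
  have hss : s⁻¹ = s := inv_eq_of_mul_eq_one_right hs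
  have hcl : ∀ g ∈ Cx v, s * g * s⁻¹ ∈ Cx v := by
    intro g hg
    rw [mem_centralizer_singleton_iff] at hg ⊢
    have e : s * g * s⁻¹ * v⁻¹ = v⁻¹ * (s * g * s⁻¹) := by
      rw [← hinv]
      calc s * g * s⁻¹ * (s * v * s⁻¹) = s * (g * v) * s⁻¹ := by group
        _ = s * (v * g) * s⁻¹ := by rw [hg]
        _ = s * v * s⁻¹ * (s * g * s⁻¹) := by group
    have e' : Commute (s * g * s⁻¹) v⁻¹ := e
    exact (Commute.inv_right_iff.1 e').eq
  have hnC : s ∈ normalizer (Cx v : Set G) := by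
    rw [mem_normalizer_iff]
    intro g
    refine ⟨hcl g, fun hg => ?_⟩
    have h2 := hcl _ hg
    have e : s * (s * g * s⁻¹) * s⁻¹ = g := by
      rw [hss]
      calc s * (s * g * s) * s = s * s * g * (s * s) := by group
        _ = g := by rw [hs, one_mul, mul_one]
    rwa [e] at h2
  have hinvC := h.inverts (h.cenP_pgroup hov) hs h1 hnC
  have hab : ∀ x ∈ Cx v, ∀ y ∈ Cx v, x * y = y * x := by
    intro x hx y hy
    have e : (y * x)⁻¹ = (x * y)⁻¹ := by
      rw [← hinvC (x * y) (mul_mem hx hy), mul_inv_rev, ← hinvC x hx, ← hinvC y hy]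
      group
    exact (inv_injective e).symm
  obtain ⟨R, hR⟩ := (h.cenP_pgroup hov).exists_le_sylow
  have hRe : Cx v = (R : Subgroup G) :=
    Subgroup.eq_of_le_of_card_ge hR (by rw [h.card_cenP hov]; exact (h.toBase.card_sylow R).le)
  have hall : ∀ T : Sylow p G, ∀ x ∈ T, ∀ y ∈ T, x * y = y * x := by
    intro T x hx y hy
    obtain ⟨g, hg⟩ := MulAction.exists_smul_eq G T R
    have hm : ∀ z ∈ T, g * z * g⁻¹ ∈ Cx v := by
      intro z hz
      rw [hRe, ← hg]
      exact Subgroup.smul_mem_pointwise_smul z (MulAut.conj g) (T : Subgroup G) hz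
    have e := hab _ (hm x hx) _ (hm y hy)
    calc x * y = g⁻¹ * (g * x * g⁻¹ * (g * y * g⁻¹)) * g := by group
      _ = g⁻¹ * (g * y * g⁻¹ * (g * x * g⁻¹)) * g := by rw [e]
      _ = y * x := by group
  have hou : orderOf u = p := h.ord_p P.isPGroup' hP hu
  have hC : ∀ T : Sylow p G, u ∈ T → (T : Subgroup G) = Cx u := by
    intro T hT
    refine Subgroup.eq_of_le_of_card_ge (fun x hx => ?_) ?_
    · exact mem_centralizer_singleton_iff.2 (hall T x hx u hT)
    · rw [h.card_cenP hou]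
      exact (h.toBase.card_sylow T).ge
  exact Sylow.ext ((hC P hP).trans (hC Q hQ).symm)

end Pool.Agent.Lib.MP_7d41f7_al
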