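import Pool.Agent.Lib.MP_7d41f7_al.StH1

set_option autoImplicit false

namespace Pool.Agent.Lib.MP_7d41f7_al

open Finset Subgroup Pool.Agent.Lib.MP_b6945b_al OnePoint
open scoped Classical

variable {G : Type} [Group G] [Finite G] {p a b q : ℕ} {α β : G}

omit [Finite G] in
theorem stj0_fix {P : Sylow p G} {u : G} (hu : u ∈ P) : u • P = P :=
  Sylow.smul_eq_iff_mem_normalizer.2 (le_normalizer hu)

omit [Finite G] in
theorem stj0_ne {P Q : Sylow p G} (hne : Q ≠ P) {g : G} (hg : g • P = P) : g • Q ≠ P := by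
  intro e
  exact hne (MulAction.injective g (e.trans hg.symm))

theorem stj0_card (h : Grp3 p a b q α β) (P : Sylow p G) :
    ({R | R ≠ P} : Set (Sylow p G)).ncard = q := by
  have h1 := Set.ncard_add_ncard_compl ({P} : Set (Sylow p G))
  rw [Set.ncard_singleton, h.cardS] at h1
  have h2 : ({R | R ≠ P} : Set (Sylow p G)) = ({P} : Set (Sylow p G))ᶜ := rfl
  rw [h2]
  omega

/-- `u` normalises `Q` (`Sylow.smul_eq_iff_mem_normalizer`), so it lies in `Q`
(`IsPGroup.inf_normalizer_sylow`). -/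
theorem Grp3.free (h : Grp3 p a b q α β) {P Q : Sylow p G} (hne : Q ≠ P) {u : G} (hu : u ∈ P)
    (hQ : u • Q = Q) : u = 1 := by
  have : Fact p.Prime := ⟨h.pp⟩
  by_contra h1
  have h2 : u ∈ (P : Subgroup G) ⊓ normalizer (Q : Set G) :=
    ⟨hu, Sylow.smul_eq_iff_mem_normalizer.1 hQ⟩
  rw [IsPGroup.inf_normalizer_sylow P.isPGroup' Q] at h2
  exact hne (h.ti P Q u hu h2.2 h1).symm

/-- The map `u ↦ u • Q` from `P` to the `q` Sylow subgroups other than `P` is injective. -/
theorem Grp3.reg (h : Grp3 p a b q α β) {P Q R : Sylow p G} (hQ : Q ≠ P) (hR : R ≠ P) :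
    ∃ u ∈ P, u • Q = R := by
  let f : P → ({R | R ≠ P} : Set (Sylow p G)) := fun u => ⟨(u : G) • Q, stj0_ne hQ (stj0_fix u.2)⟩
  have hf : Function.Injective f := by
    intro u v e
    have e1 : (u : G) • Q = (v : G) • Q := congrArg Subtype.val e
    have e2 : ((v : G)⁻¹ * u) • Q = Q := by rw [mul_smul, e1, inv_smul_smul]
    have e3 := h.free hQ ((P : Subgroup G).mul_mem ((P : Subgroup G).inv_mem v.2) u.2) e2
    exact Subtype.ext (inv_mul_eq_one.1 e3).symm
  have hb : Function.Bijective f :=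
    hf.bijective_of_nat_card_le (by
      rw [Nat.card_coe_set_eq, stj0_card h P]
      exact (h.cardP P).ge)
  obtain ⟨u, hu⟩ := hb.2 ⟨R, hR⟩
  exact ⟨u, u.2, congrArg Subtype.val hu⟩

/-- Orbit and stabiliser, `Par.sq`. -/
theorem Grp3.card_stab (h : Grp3 p a b q α β) (P : Sylow p G) :
    2 * Nat.card (MulAction.stabilizer G P) + q = q ^ 2 := by
  have : Fact p.Prime := ⟨h.pp⟩
  have h1 := (MulAction.stabilizer G P).index_mul_card
  rw [MulAction.index_stabilizer_of_transitive, h.cardS, h.card] at h1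
  have h2 := h.toGrp2.toGrp.toBase.toPar.sq
  apply Nat.eq_of_mul_eq_mul_left (Nat.succ_pos q)
  calc (q + 1) * (2 * Nat.card (MulAction.stabilizer G P) + q)
      = 2 * ((q + 1) * Nat.card (MulAction.stabilizer G P)) + q + q ^ 2 := by ring
    _ = (4 * a * b + 1) * q + q ^ 2 := by rw [h1]; ring
    _ = (q + 1) * q ^ 2 := by rw [h2]; ring

/-- The orbit of `Q` under the stabiliser of `P` has `q` elements. -/
theorem Grp3.card_two (h : Grp3 p a b q α β) {P Q : Sylow p G} (hne : Q ≠ P) :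
    2 * Nat.card (MulAction.stabilizer G P ⊓ MulAction.stabilizer G Q : Subgroup G) + 1 = q := by
  have ho : MulAction.orbit (MulAction.stabilizer G P) Q = {R | R ≠ P} := by
    ext R
    constructor
    · rintro ⟨g, rfl⟩
      exact stj0_ne hne g.2
    · intro hR
      obtain ⟨u, hu, e⟩ := h.reg hne hR
      exact ⟨⟨u, stj0_fix hu⟩, e⟩
  have h1 := (MulAction.stabilizer (MulAction.stabilizer G P) Q).index_mul_card
  rw [MulAction.index_stabilizer, ho, stj0_card h P] at h1
  have h2 : MulAction.stabilizer (MulAction.stabilizer G P) Q =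
      (MulAction.stabilizer G P ⊓ MulAction.stabilizer G Q).subgroupOf
        (MulAction.stabilizer G P) := by
    ext g
    rw [mem_subgroupOf, Subgroup.mem_inf]
    exact ⟨fun hg => ⟨g.2, hg⟩, fun hg => hg.2⟩
  rw [h2, Nat.card_congr (subgroupOfEquivOfLe inf_le_left).toEquiv] at h1
  have h3 := h.card_stab P
  have h4 := h.toGrp2.toGrp.toBase.toPar.q17
  rw [← h1] at h3
  apply Nat.eq_of_mul_eq_mul_left (show 0 < q by omega)
  rw [← pow_two, ← h3]
  ring

/-- `R = u • Q` with `1 ≠ u ∈ P`; `g u g⁻¹ = u` by `free`, so `g ∈ P` by `cP`, and `g = 1` by `free`. -/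
theorem Grp3.third (h : Grp3 p a b q α β) {P Q R : Sylow p G} (hQ : Q ≠ P) (hR : R ≠ P)
    (hRQ : R ≠ Q) {g : G} (h1 : g • P = P) (h2 : g • Q = Q) (h3 : g • R = R) : g = 1 := by
  obtain ⟨u, hu, e⟩ := h.reg hQ hR
  have hu1 : u ≠ 1 := by
    rintro rfl
    exact hRQ (e.symm.trans (one_smul _ _))
  have hn : g * u * g⁻¹ ∈ P :=
    (mem_normalizer_iff.1 (Sylow.smul_eq_iff_mem_normalizer.1 h1) u).1 hu
  have h4 : g⁻¹ • Q = Q := inv_smul_eq_iff.2 h2.symm
  have h5 : (u⁻¹ * (g * u * g⁻¹)) • Q = Q := by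
    rw [mul_smul, mul_smul, mul_smul, h4, e, h3, ← e, inv_smul_smul]
  have h6 := h.free hQ ((P : Subgroup G).mul_mem ((P : Subgroup G).inv_mem hu) hn) h5
  have h7 : g * u = u * g := by
    rw [inv_mul_eq_one] at h6
    exact (eq_mul_inv_iff_mul_eq.1 h6).symm
  exact h.free hQ ((h.cP P u hu hu1 g).1 h7) h2

end Pool.Agent.Lib.MP_7d41f7_al
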