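import Pool.Agent.Lib.MP_7d41f7_al.Defs

set_option autoImplicit false

namespace Pool.Agent.Lib.MP_7d41f7_al

open Finset Subgroup Pool.Agent.Lib.MP_b6945b_al OnePoint
open scoped Classical

theorem stk1_mul {F : Type} [Field F] [Finite F] {a b : F} (ha : ¬ IsSquare a)
    (hb : ¬ IsSquare b) : IsSquare (a * b) := by
  have := Fintype.ofFinite F
  have a0 : a ≠ 0 := fun e => ha (e ▸ IsSquare.zero)
  have b0 : b ≠ 0 := fun e => hb (e ▸ IsSquare.zero)
  rw [← quadraticChar_one_iff_isSquare (mul_ne_zero a0 b0), map_mul,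
    quadraticChar_neg_one_iff_not_isSquare.2 ha, quadraticChar_neg_one_iff_not_isSquare.2 hb]
  norm_num

theorem stk1_sum {F : Type} [Field F] [Finite F] (h2 : ringChar F ≠ 2) (c : F) :
    ∃ a b : F, c = a ^ 2 + b ^ 2 := by
  have := Fintype.ofFinite F
  obtain ⟨a, b, h⟩ := FiniteField.exists_root_sum_quadratic (R := F) (f := Polynomial.X ^ 2)
    (g := Polynomial.X ^ 2 - Polynomial.C c) (Polynomial.degree_X_pow 2)
    (Polynomial.degree_X_pow_sub_C two_pos c) (FiniteField.odd_card_of_char_ne_two h2)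
  refine ⟨a, b, ?_⟩
  simp only [Polynomial.eval_pow, Polynomial.eval_X, Polynomial.eval_sub, Polynomial.eval_C] at h
  linear_combination -h

theorem stk1_main {F : Type} [Field F] [Finite F] (h2 : ringChar F ≠ 2) {f : F → F}
    (h0 : ∀ x, x ≠ 0 → f x ≠ 0) (hff : ∀ x, x ≠ 0 → f (f x) = x)
    (hs : ∀ s x, s ≠ 0 → x ≠ 0 → f (s ^ 2 * x) = f x / s ^ 2)
    (hfix : (∃ x, x ≠ 0 ∧ f x = x) ↔ IsSquare (-1 : F))
    (key : f (-f 1) = -1 → ∀ y, y ≠ 0 → y + f 1 ≠ 0 → f y + 1 ≠ 0 →
      f (f y + 1) = f 1 - f 1 * f (y + f 1)) :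
    ∃ s : F, s ≠ 0 ∧ ∀ x : F, x ≠ 0 → f x = -s ^ 2 / x := by
  have hA0 : f 1 ≠ 0 := h0 1 one_ne_zero
  have hA1 : f (f 1) = 1 := hff 1 one_ne_zero
  have hsq : ∀ x, x ≠ 0 → IsSquare x → x * f x = f 1 := by
    rintro _ hx ⟨s, rfl⟩
    have s0 : s ≠ 0 := left_ne_zero_of_mul hx
    have := hs s 1 s0 one_ne_zero
    rw [mul_one, sq] at this
    rw [this]
    field_simp
  have hns : ∀ x y, ¬ IsSquare x → ¬ IsSquare y → x * f x = y * f y := by
    intro x y hx hy
    have x0 : x ≠ 0 := fun e => hx (e ▸ IsSquare.zero)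
    have y0 : y ≠ 0 := fun e => hy (e ▸ IsSquare.zero)
    obtain ⟨s, e⟩ := stk1_mul hx hy
    have s0 : s ≠ 0 := left_ne_zero_of_mul (e ▸ mul_ne_zero x0 y0)
    have e1 : x = (s / y) ^ 2 * y := by
      field_simp
      linear_combination e
    have := hs (s / y) y (div_ne_zero s0 y0) y0
    rw [← e1] at this
    rw [this]
    nth_rewrite 1 [e1]
    field_simp
  have fin : IsSquare (-f 1) → (∀ x, x ≠ 0 → x * f x = f 1) →
      ∃ s : F, s ≠ 0 ∧ ∀ x : F, x ≠ 0 → f x = -s ^ 2 / x := by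
    rintro ⟨s, e⟩ h
    refine ⟨s, left_ne_zero_of_mul (e ▸ neg_ne_zero.2 hA0), fun x hx => ?_⟩
    rw [eq_div_iff hx]
    linear_combination h x hx - e
  by_cases hA : IsSquare (f 1)
  swap
  · have hall : ∀ x, x ≠ 0 → x * f x = f 1 := fun x hx => by
      by_cases h : IsSquare x
      · exact hsq x hx h
      · rw [hns x _ h hA, hA1, mul_one]
    have hn : ¬ IsSquare (-1 : F) := fun h => by
      obtain ⟨x, hx, e⟩ := hfix.2 h
      exact hA ⟨x, by rw [← hall x hx, e]⟩
    exact fin (by simpa using stk1_mul hn hA) hall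
  obtain ⟨r, hr⟩ := hA
  have r0 : r ≠ 0 := left_ne_zero_of_mul (hr ▸ hA0)
  have hi : IsSquare (-1 : F) := by
    by_contra hn
    refine hn (hfix.1 ?_)
    by_cases h : IsSquare r
    · exact ⟨r, r0, mul_left_cancel₀ r0 (by rw [hsq r r0 h, hr])⟩
    · have h' : IsSquare (-r) := by simpa using stk1_mul hn h
      have r1 := neg_ne_zero.2 r0
      exact ⟨-r, r1, mul_left_cancel₀ r1 (by rw [hsq _ r1 h', hr]; ring)⟩
  obtain ⟨i, hi⟩ := hi
  have i0 : i ≠ 0 := left_ne_zero_of_mul (hi ▸ neg_ne_zero.2 one_ne_zero)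
  have hneg : ∀ x, x ≠ 0 → f (-x) = -f x := fun x hx => by
    have := hs i x i0 hx
    rwa [sq, ← hi, neg_one_mul, div_neg, div_one] at this
  have k := key (by rw [hneg _ hA0, hA1])
  refine fin ⟨i * r, by rw [hr]; linear_combination (r * r) * hi⟩ fun x hx => ?_
  by_contra hne
  have hx' : ¬ IsSquare x := fun h => hne (hsq x hx h)
  have step : ∀ t : F, IsSquare (t ^ 2 + r ^ 2) := by
    intro t
    by_contra hn
    have t0 : t ≠ 0 := by
      rintro rfl
      exact hn ⟨r, by ring⟩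
    have e0 : t ^ 2 + r ^ 2 = t ^ 2 + f 1 := by rw [hr, sq r]
    rw [e0] at hn
    have y0 : t ^ 2 ≠ 0 := pow_ne_zero _ t0
    have y1 : t ^ 2 + f 1 ≠ 0 := fun e => hn (e ▸ IsSquare.zero)
    have y2 := hsq _ y0 ⟨t, sq t⟩
    have y3 : f (t ^ 2) + 1 = t⁻¹ ^ 2 * (t ^ 2 + f 1) := by
      field_simp
      linear_combination y2
    have y4 := k _ y0 y1 (y3 ▸ mul_ne_zero (pow_ne_zero _ (inv_ne_zero t0)) y1)
    rw [y3, hs _ _ (inv_ne_zero t0) y1, inv_pow, div_inv_eq_mul] at y4
    refine hne ?_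
    rw [hns x _ hx' hn]
    linear_combination y4
  obtain ⟨a, b, e⟩ := stk1_sum h2 x
  by_cases b0 : b = 0
  · exact hx' ⟨a, by rw [e, b0]; ring⟩
  · obtain ⟨u, hu⟩ := step (a * r / b)
    refine hx' ⟨b / r * u, ?_⟩
    have : b / r * u * (b / r * u) = (b / r) ^ 2 * (u * u) := by ring
    rw [this, ← hu, e]
    field_simp

/-- `w` swaps `∞` and `0` and induces an involution `f` of the nonzero elements with
`f (s ^ 2 x) = f x / s ^ 2`. So `x * f x` is a constant `A` on squares and a constant `A'` on nonsquares.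
If `A` is a nonsquare, `f (f 1) = 1` gives `A' = A`, there is no fixed point, `-1` is a nonsquare and
`-A` is a square. Let `A` be a square. One of the square roots of `A` would be a fixed square if `-1`
were a nonsquare, so `-1` is a square and `f (-x) = - f x`. The element
`t (-A) * w * t 1 * w * t (-A) * w` (`t y` from `tr`) fixes `∞` and `0`, which gives
`f (f x + 1) = A - A * f (x + A)` (find the factor at `x = 0`). For a square `x` with `x + A ≠ 0` this
reads `(x + A) * f (x + A) = A`. If `A' ≠ A`, every sum of two squares is a square, so every element is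
(`FiniteField.exists_root_sum_quadratic`), against `FiniteField.exists_nonsquare`. -/
theorem Coord.w_eq {G F : Type} [Group G] [Field F] [Finite F] (h2 : ringChar F ≠ 2)
    {φ : G →* Equiv.Perm (OnePoint F)} {w : G} (h : Coord φ w) :
    ∃ s : F, s ≠ 0 ∧ ∀ x : F, x ≠ 0 → φ w x = ((-s ^ 2 / x : F) : OnePoint F) := by
  have hww : ∀ z, φ w (φ w z) = z := fun z => by
    rw [← Equiv.Perm.mul_apply, ← map_mul, h.ww, map_one, Equiv.Perm.one_apply]
  have w0 : φ w (0 : F) = ∞ := by rw [← h.w1, hww]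
  have hex : ∀ x : F, x ≠ 0 → ∃ y : F, y ≠ 0 ∧ φ w x = y := by
    intro x hx
    have h1 : φ w x ≠ ∞ := fun e => hx (OnePoint.coe_injective ((φ w).injective (e.trans w0.symm)))
    obtain ⟨y, hy⟩ := OnePoint.ne_infty_iff_exists.1 h1
    refine ⟨y, ?_, hy.symm⟩
    rintro rfl
    exact OnePoint.coe_ne_infty x ((φ w).injective (hy.symm.trans h.w1.symm))
  choose! f f0 hf using hex
  have hff : ∀ x, x ≠ 0 → f (f x) = x := fun x hx =>
    OnePoint.coe_injective (by rw [← hf _ (f0 x hx), ← hf x hx, hww])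
  obtain ⟨s, s0, hs⟩ := stk1_main h2 f0 hff (fun s x hs hx => OnePoint.coe_injective (by
      rw [← hf _ (mul_ne_zero (pow_ne_zero _ hs) hx)]
      exact h.ws s x _ hs (hf x hx))) (by
      rw [← h.wf]
      constructor
      · rintro ⟨x, hx, e⟩
        exact ⟨x, by rw [hf x hx, e]⟩
      · rintro ⟨z, hz⟩
        induction z using OnePoint.rec with
        | infty => exact absurd (h.w1.symm.trans hz) (OnePoint.coe_ne_infty _)
        | coe x =>
          have hx : x ≠ 0 := by
            rintro rfl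
            exact OnePoint.coe_ne_infty _ (hz.symm.trans w0)
          exact ⟨x, hx, OnePoint.coe_injective ((hf x hx).symm.trans hz)⟩) (by
      intro hA y y0 y1 y2
      have A0 := f0 1 one_ne_zero
      obtain ⟨u, u1, u2⟩ := h.tr (-f 1)
      obtain ⟨v, v1, v2⟩ := h.tr 1
      obtain ⟨s, -, hs⟩ := h.st (u * w * v * w * u * w) (by
          simp only [map_mul, Equiv.Perm.mul_apply]
          rw [h.w1, u2, zero_add, hf _ (neg_ne_zero.2 A0), hA, v2, neg_add_cancel, w0, u1]) (by
          simp only [map_mul, Equiv.Perm.mul_apply]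
          rw [w0, u1, h.w1, v2, zero_add, hf _ one_ne_zero, u2, add_neg_cancel])
      simp only [map_mul, Equiv.Perm.mul_apply] at hs
      have e1 := hs (f (f 1))
      rw [← hf _ A0, hww, u2, add_neg_cancel, w0, v1, h.w1, u2, zero_add, hff 1 one_ne_zero,
        mul_one] at e1
      have e2 := hs (f (y + f 1))
      rw [← hf _ y1, hww, u2, add_neg_cancel_right, hf y y0, v2, hf _ y2, u2,
        ← OnePoint.coe_injective e1] at e2
      linear_combination OnePoint.coe_injective e2)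
  exact ⟨s, s0, fun x hx => by rw [hf x hx, hs x hx]⟩

end Pool.Agent.Lib.MP_7d41f7_al
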