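import Pool.Agent.Lib.MP_7d41f7_al.Ch2

set_option autoImplicit false

namespace Pool.Agent.Lib.MP_7d41f7_al

open Finset Subgroup Pool.Agent.Lib.MP_b6945b_al OnePoint
open scoped Classical

variable {G : Type} [Group G] [Fintype G] {V : ValuationSubring ℂ} {n : ℕ}
  {ρ : G →* Matrix (Fin n) (Fin n) ℂ} {M N : Matrix (Fin n) (Fin n) ℂ}

theorem InV.elt (V : ValuationSubring ℂ) (ρ : G →* Matrix (Fin n) (Fin n) ℂ) (g : G) :
    InV V ρ (ρ g) := by
  refine ⟨fun h => if h = g then 1 else 0, fun h => ?_, ?_⟩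
  · dsimp only
    split_ifs
    · exact V.one_mem
    · exact V.zero_mem
  · simp [ite_smul]

theorem InV.add (hM : InV V ρ M) (hN : InV V ρ N) : InV V ρ (M + N) := by
  obtain ⟨c, hc, rfl⟩ := hM
  obtain ⟨d, hd, rfl⟩ := hN
  exact ⟨fun g => c g + d g, fun g => V.add_mem _ _ (hc g) (hd g), by
    simp only [add_smul, Finset.sum_add_distrib]⟩

theorem InV.mul (hM : InV V ρ M) (hN : InV V ρ N) : InV V ρ (M * N) := by
  obtain ⟨c, hc, rfl⟩ := hM
  obtain ⟨d, hd, rfl⟩ := hN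
  refine ⟨fun x => ∑ g, c g * d (g⁻¹ * x), fun x =>
    sum_mem fun g _ => V.mul_mem _ _ (hc g) (hd _), ?_⟩
  simp only [Finset.sum_smul]
  rw [Finset.sum_comm, Finset.sum_mul]
  refine Finset.sum_congr rfl fun g _ => ?_
  rw [Finset.mul_sum, ← Equiv.sum_comp (Equiv.mulLeft g⁻¹)]
  refine Finset.sum_congr rfl fun x _ => ?_
  simp only [Equiv.coe_mulLeft]
  rw [smul_mul_assoc, mul_smul_comm, smul_smul, ← map_mul, mul_inv_cancel_left]

theorem InV.smul {c : ℂ} (hc : c ∈ V) (hM : InV V ρ M) : InV V ρ (c • M) := by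
  obtain ⟨d, hd, rfl⟩ := hM
  exact ⟨fun g => c * d g, fun g => V.mul_mem _ _ hc (hd g), by
    simp only [Finset.smul_sum, smul_smul]⟩

theorem InV.sub (hM : InV V ρ M) (hN : InV V ρ N) : InV V ρ (M - N) := by
  have := hM.add (hN.smul (V.neg_mem _ V.one_mem))
  rwa [neg_one_smul, ← sub_eq_add_neg] at this

theorem InV.sum {ι : Type} (s : Finset ι) (f : ι → Matrix (Fin n) (Fin n) ℂ)
    (h : ∀ i ∈ s, InV V ρ (f i)) : InV V ρ (∑ i ∈ s, f i) := by
  induction s using Finset.induction_on with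
  | empty => exact ⟨fun _ => 0, fun _ => V.zero_mem, by simp⟩
  | insert j s hj ih =>
    rw [Finset.sum_insert hj]
    exact (h j (Finset.mem_insert_self _ _)).add (ih fun k hk => h k (Finset.mem_insert_of_mem hk))

/-- `M` is integral over `V` (image of `MonoidAlgebra V G`, as in `om_int`), so its eigenvalues lie
in `V` (`mem_of_isIntegral_val`), and `-π⁻¹` is not one of them. -/
theorem InV.unit (hM : InV V ρ M) {π : ℂ} (hπ : π ∈ V.nonunits) : IsUnit (1 + π • M) := by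
  by_contra hu
  have hπ0 : π ≠ 0 := by
    rintro rfl
    exact hu (by simp)
  obtain ⟨c, hc, rfl⟩ := hM
  have h1 : IsIntegral V (∑ h, MonoidAlgebra.single h (⟨c h, hc h⟩ : V) : MonoidAlgebra V G) :=
    IsIntegral.of_finite V _
  have h2 := h1.map (MonoidAlgebra.lift V _ G ρ)
  rw [map_sum] at h2
  simp only [MonoidAlgebra.lift_single] at h2
  change IsIntegral V (∑ g, c g • ρ g) at h2
  generalize (∑ g, c g • ρ g) = M at h2 hu
  obtain ⟨P, hP, hP0⟩ := h2
  have h3 : -π⁻¹ ∈ spectrum ℂ M := by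
    rw [spectrum.mem_iff]
    intro h
    apply hu
    have e : 1 + π • M = (-π) • (algebraMap ℂ _ (-π⁻¹) - M) := by
      rw [Algebra.algebraMap_eq_smul_one, smul_sub, smul_smul, neg_mul_neg, mul_inv_cancel₀ hπ0,
        one_smul, neg_smul, sub_neg_eq_add]
    rw [e, Algebra.smul_def]
    exact ((IsUnit.mk0 _ (neg_ne_zero.2 hπ0)).map _).mul h
  have h4 := spectrum.subset_polynomial_aeval M (P.map (algebraMap V ℂ)) ⟨_, h3, rfl⟩
  rw [Polynomial.aeval_map_algebraMap, Polynomial.aeval_def, hP0, spectrum.mem_iff, sub_zero] at h4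
  have h5 : IsIntegral V (-π⁻¹) := by
    refine ⟨P, hP, ?_⟩
    rw [← Polynomial.eval_map]
    by_contra h
    exact h4 ((IsUnit.mk0 _ h).map _)
  have h6 := V.neg_mem _ (mem_of_isIntegral_val V h5)
  rw [neg_neg] at h6
  exact ((ValuationSubring.mem_nonunits_iff_or V).1 hπ).elim hπ0 fun h => h h6

/-- As `trace_eq_of_idem`: `U = M * N + (1 - M) * (1 - N) = 1 + π • (S - 2 • M * S)`. -/
theorem tr_idem (hM : InV V ρ M) (h1 : M * M = M) (h2 : N * N = N) {π : ℂ} (hπ : π ∈ V.nonunits)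
    {S : Matrix (Fin n) (Fin n) ℂ} (hS : InV V ρ S) (h : M - N = π • S) : M.trace = N.trace := by
  have hN : N = M - π • S := by rw [← h]; abel
  have hU : M * N + (1 - M) * (1 - N) = 1 + π • (S - (M * S + M * S)) := by
    rw [hN]
    simp only [mul_sub, sub_mul, mul_one, one_mul, h1, mul_smul_comm, smul_sub, smul_add]
    abel
  have h3 : IsUnit (M * N + (1 - M) * (1 - N)) := by
    rw [hU]
    exact (hS.sub ((hM.mul hS).add (hM.mul hS))).unit hπ
  obtain ⟨U, hU'⟩ := h3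
  have h4 : M * U = U * N := by
    rw [hU']
    simp only [mul_add, add_mul, mul_sub, sub_mul, mul_one, one_mul, ← mul_assoc, h1]
    simp only [mul_assoc, h2]
    abel
  have h5 : M = U * N * (↑U⁻¹ : Matrix (Fin n) (Fin n) ℂ) := by
    rw [← h4, mul_assoc, Units.mul_inv, mul_one]
  rw [h5, Matrix.trace_mul_comm, ← mul_assoc, Units.inv_mul, one_mul]

/-- The weighted sum of the powers of `g`. -/
noncomputable def tr_S (ρ : G →* Matrix (Fin n) (Fin n) ℂ) (g : G) (z : ℂ) :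
    Matrix (Fin n) (Fin n) ℂ := ∑ k ∈ range (orderOf g), z ^ k • ρ (g ^ k)

omit [Fintype G] in
theorem tr_S_mul {g : G} {z : ℂ} (hz : z ^ orderOf g = 1) :
    (∀ k : ℕ, z ^ k • (ρ (g ^ k) * tr_S ρ g z) = tr_S ρ g z) ∧
    (∀ k : ℕ, z ^ k • (tr_S ρ g z * ρ (g ^ k)) = tr_S ρ g z) ∧
    tr_S ρ g z * tr_S ρ g z = (orderOf g : ℂ) • tr_S ρ g z := by
  have h0 : ∑ k ∈ range (orderOf g), z ^ (k + 1) • ρ (g ^ (k + 1)) = tr_S ρ g z := by
    have h := Finset.sum_range_succ' (fun k => z ^ k • ρ (g ^ k)) (orderOf g)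
    rw [Finset.sum_range_succ, hz, pow_orderOf_eq_one, pow_zero, pow_zero] at h
    exact (add_right_cancel h).symm
  have h1 : z • (ρ g * tr_S ρ g z) = tr_S ρ g z := by
    conv_rhs => rw [← h0]
    rw [tr_S, Finset.mul_sum, Finset.smul_sum]
    refine Finset.sum_congr rfl fun k _ => ?_
    rw [mul_smul_comm, smul_smul, ← map_mul, ← pow_succ', ← pow_succ']
  have h2 : ∀ k : ℕ, z ^ k • (ρ (g ^ k) * tr_S ρ g z) = tr_S ρ g z := by
    intro k
    induction k with
    | zero => simp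
    | succ k ih =>
      rw [pow_succ, pow_succ, map_mul, mul_smul, mul_assoc, ← mul_smul_comm z, h1, ih]
  have h3 : ∀ k : ℕ, tr_S ρ g z * ρ (g ^ k) = ρ (g ^ k) * tr_S ρ g z := fun k => by
    simp only [tr_S, Finset.sum_mul, Finset.mul_sum, smul_mul_assoc, mul_smul_comm, ← map_mul,
      ← pow_add, add_comm]
  refine ⟨h2, fun k => by rw [h3, h2], ?_⟩
  nth_rewrite 1 [tr_S]
  rw [Finset.sum_mul]
  simp only [smul_mul_assoc, h2]
  rw [Finset.sum_const, Finset.card_range, Nat.cast_smul_eq_nsmul]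

/-- Let `m = orderOf g`, `ζ` a primitive `m`-th root of unity, `s j = ∑ k, ζ ^ (-j k) • ρ (g ^ k)`,
`F j = m⁻¹ • s j * E`, `T j = s j * (E * w * E)`. Then `T j * F j = F j`, `F j * T j = T j`, so `T j`
is an idempotent with the trace of `F j`. With `ξ = ζ ^ (m / r)`, `T (j + m / r) - T j` is
`ξ⁻¹ - 1` (a nonunit, `residue_eq_one`) times an element of `InV`. The trace of `ρ g * E` is
`∑ j, ζ ^ j * trace (F j)`, which is `ξ` times itself. -/
theorem tr_zero {r : ℕ} [Fact r.Prime] (hp : (r : ℂ) ∈ V.nonunits) {g : G} (hg : r ∣ orderOf g)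
    {E w : Matrix (Fin n) (Fin n) ℂ} (hw : InV V ρ w) (hE : E * E = E) (hc : ρ g * E = E * ρ g)
    (hT : E = ∑ k ∈ range (orderOf g), ρ (g ^ k) * w * ρ (g ^ k)⁻¹) : (ρ g * E).trace = 0 := by
  have hr : r.Prime := Fact.out
  have hm : 0 < orderOf g := orderOf_pos g
  have hm1 : 1 < orderOf g := hr.one_lt.trans_le (Nat.le_of_dvd hm hg)
  have hm0 : (orderOf g : ℂ) ≠ 0 := by exact_mod_cast hm.ne'
  have hV : ∀ z : ℂ, z ^ orderOf g = 1 → z ∈ V := fun z hz =>
    mem_of_isIntegral V (isIntegral_of_pow_eq_one hm hz)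
  have hEV : InV V ρ E := by
    rw [hT]
    exact InV.sum _ _ fun k _ => ((InV.elt V ρ _).mul hw).mul (InV.elt V ρ _)
  have hX : InV V ρ (E * w * E) := (hEV.mul hw).mul hEV
  have hck : ∀ k : ℕ, ρ (g ^ k) * E = E * ρ (g ^ k) := fun k => by
    rw [map_pow]; exact (Commute.pow_left hc k)
  have hsE : ∀ z : ℂ, tr_S ρ g z * E = E * tr_S ρ g z := fun z => by
    simp only [tr_S, Finset.sum_mul, Finset.mul_sum, smul_mul_assoc, mul_smul_comm, hck]
  have hsV : ∀ z : ℂ, z ^ orderOf g = 1 → InV V ρ (tr_S ρ g z) := fun z hz =>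
    InV.sum _ _ fun k _ => (InV.elt V ρ _).smul (pow_mem (hV z hz) k)
  have key : ∀ z : ℂ, z ^ orderOf g = 1 →
      tr_S ρ g z * (E * w * E) * (tr_S ρ g z * (E * w * E)) = tr_S ρ g z * (E * w * E) ∧
      (orderOf g : ℂ) * (tr_S ρ g z * (E * w * E)).trace = (tr_S ρ g z * E).trace := by
    intro z hz
    have hz0 : z ≠ 0 := by
      rintro rfl
      rw [zero_pow hm.ne'] at hz
      exact zero_ne_one hz
    obtain ⟨a1, a2, a3⟩ := tr_S_mul (ρ := ρ) hz
    have b1 : ∀ k : ℕ, tr_S ρ g z * (ρ (g ^ k) * w * ρ (g ^ k)⁻¹) * tr_S ρ g z =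
        tr_S ρ g z * w * tr_S ρ g z := by
      intro k
      have c1 : ρ (g ^ k)⁻¹ * tr_S ρ g z = z ^ k • tr_S ρ g z := by
        conv_lhs => rw [← a1 k]
        rw [mul_smul_comm, ← mul_assoc, ← map_mul, inv_mul_cancel, map_one, one_mul]
      rw [mul_assoc, mul_assoc, c1, mul_smul_comm, mul_smul_comm, ← mul_assoc, ← mul_assoc,
        ← smul_mul_assoc, ← smul_mul_assoc, a2]
    have b2 : tr_S ρ g z * w * tr_S ρ g z = tr_S ρ g z * E := by
      have c1 : tr_S ρ g z * E * tr_S ρ g z = (orderOf g : ℂ) • (tr_S ρ g z * w * tr_S ρ g z) := by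
        conv_lhs => rw [hT]
        rw [Finset.mul_sum, Finset.sum_mul, Finset.sum_congr rfl fun k _ => b1 k, Finset.sum_const,
          Finset.card_range, Nat.cast_smul_eq_nsmul]
      rw [mul_assoc, ← hsE, ← mul_assoc, a3, smul_mul_assoc] at c1
      exact (smul_right_injective _ hm0 c1).symm
    have hs := hsE z
    generalize tr_S ρ g z = s at a3 b2 hs ⊢
    have b3 : s * (E * w * E) * s = s * E := by
      calc s * (E * w * E) * s = s * E * w * (E * s) := by simp only [mul_assoc]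
        _ = E * s * w * (s * E) := by rw [hs]
        _ = E * (s * w * s) * E := by simp only [mul_assoc]
        _ = E * s * (E * E) := by rw [b2]; simp only [mul_assoc]
        _ = s * E := by rw [← hs, hE, mul_assoc, hE]
    constructor
    · rw [← mul_assoc, b3, mul_assoc s E, ← mul_assoc E, ← mul_assoc E, hE]
    · rw [← b3, Matrix.trace_mul_comm _ s, ← mul_assoc s s, a3, smul_mul_assoc, Matrix.trace_smul,
        smul_eq_mul]
  obtain ⟨ξ, hξ⟩ : ∃ ξ : ℂ, IsPrimitiveRoot ξ r := ⟨_, Complex.isPrimitiveRoot_exp r hr.ne_zero⟩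
  obtain ⟨ζ, hζ⟩ : ∃ ζ : ℂ, IsPrimitiveRoot ζ (orderOf g) :=
    ⟨_, Complex.isPrimitiveRoot_exp _ hm.ne'⟩
  have hξm : ξ ^ orderOf g = 1 := (hξ.pow_eq_one_iff_dvd _).2 hg
  have hξn : ξ - 1 ∈ V.nonunits := by
    have h1 := residue_eq_one V hp (z := ⟨ξ, hV ξ hξm⟩) (k := 1)
      (Subtype.ext (by simpa using hξ.pow_eq_one))
    have h2 : IsLocalRing.residue V (⟨ξ, hV ξ hξm⟩ - 1) = 0 := by rw [map_sub, h1, map_one, sub_self]
    rw [IsLocalRing.residue_eq_zero_iff, ← ValuationSubring.coe_mem_nonunits_iff] at h2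
    simpa using h2
  have step : ∀ z : ℂ, z ^ orderOf g = 1 → (tr_S ρ g (ξ * z) * E).trace = (tr_S ρ g z * E).trace := by
    intro z hz
    have hz' : (ξ * z) ^ orderOf g = 1 := by rw [mul_pow, hξm, hz, one_mul]
    rw [← (key _ hz).2, ← (key _ hz').2]
    congr 1
    refine tr_idem ((hsV _ hz').mul hX) (key _ hz').1 (key _ hz).1 hξn
      (S := (∑ k ∈ range (orderOf g), ((∑ i ∈ range k, ξ ^ i) * z ^ k) • ρ (g ^ k)) * (E * w * E))
      ((InV.sum _ _ fun k _ => (InV.elt V ρ _).smul (V.mul_mem _ _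
        (sum_mem fun i _ => pow_mem (hV ξ hξm) i) (pow_mem (hV z hz) k))).mul hX) ?_
    rw [← sub_mul, ← smul_mul_assoc, tr_S, tr_S, ← Finset.sum_sub_distrib, Finset.smul_sum]
    congr 1
    refine Finset.sum_congr rfl fun k _ => ?_
    rw [← sub_smul, smul_smul, ← mul_assoc, mul_geom_sum, mul_pow]
    congr 1
    ring
  have h0 := Matrix.eq_zero_of_forall_index_sum_pow_mul_eq_zero
    (f := fun j : Fin (orderOf g) => ζ ^ (j : ℕ))
    (v := fun k : Fin (orderOf g) => (ξ ^ (k : ℕ) - 1) * (ρ (g ^ (k : ℕ)) * E).trace)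
    (fun i j e => Fin.ext (hζ.pow_inj i.2 j.2 e)) (fun j => by
      have h := step (ζ ^ (j : ℕ)) (by rw [← pow_mul, mul_comm, pow_mul, hζ.pow_eq_one, one_pow])
      rw [← sub_eq_zero] at h
      rw [← h, Fin.sum_univ_eq_sum_range
        (fun k => (ζ ^ (j : ℕ)) ^ k * ((ξ ^ k - 1) * (ρ (g ^ k) * E).trace))]
      simp only [tr_S, Finset.sum_mul, Matrix.trace_sum, smul_mul_assoc, Matrix.trace_smul,
        smul_eq_mul, ← Finset.sum_sub_distrib]
      refine Finset.sum_congr rfl fun k _ => ?_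
      rw [mul_pow]
      ring)
  have h1 := congrFun h0 ⟨1, hm1⟩
  simp only [pow_one, Pi.zero_apply, mul_eq_zero, sub_eq_zero] at h1
  exact h1.resolve_left (hξ.ne_one hr.one_lt)

end Pool.Agent.Lib.MP_7d41f7_al
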