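import Pool.Agent.Lib.MP_7d41f7_al.C.Chr

set_option autoImplicit false

namespace Pool.Agent.Lib.MP_7d41f7_al.TransferResult

open Pool.Agent.Lib.MP_7d41f7_al

theorem result (S G : Type) [Group S] [Finite S] [Group G] [Finite G]
    (hc : Nat.card G = Nat.card S) (hV : Vo G = Vo S) (r : ℕ) (hr : r.Prime)
    (h1 : ∀ P : Sylow r S, IsCyclic P) (h2 : ∀ g : S, r ∣ orderOf g → orderOf g ∈ Vo S)
    (m : ℕ) (hm : m.Coprime r) :
    (∃ g : G, orderOf g = m * r) ↔ ∃ g : S, orderOf g = m * r :=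
  transfer_adj hr hm hc hV h1 h2

end Pool.Agent.Lib.MP_7d41f7_al.TransferResult
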